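import Pool.Agent.P.MP_5d7cf0_gt.T.RS

/-!
Assembly of the packages.
-/

open Set Filter Topology Manifold Metric
open scoped ContDiff

namespace Pool.Agent.P.MP_5d7cf0_gt.T

variable {S : Type} [TopologicalSpace S] [ChartedSpace ℂ S]

/-- change of the marking of a datum -/
def Datum.re (φ : Homeo S) (τ : Datum S) : Datum S := ⟨remark φ τ.M, τ.x, τ.f, τ.r, τ.dbl⟩

theorem trel_one (hM : S_MobC) {τ τ' : Datum S} (h1 : τ'.x = τ.x) (h2 : τ'.ρ = τ.ρ)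
    (h3 : ∀ s, τ'.F s = τ.F s) : TRel 1 τ τ' :=
  ⟨by rw [hM.1, h1], Homeomorph.refl S, .refl _, fun i => by rw [h2]; rfl,
    fun s _ => by rw [hM.2.1]; exact h3 s⟩

theorem hyper (hPq : S_Pq) (hTwo : S_Two) (hSix : S_Six) (hNorm : S_Norm) (Y : Type)
    [TopologicalSpace Y] [ChartedSpace ℂ Y] [RS Y] (h : Module.finrank ℂ (Om Y) = 2) :
    ∃ (x : E) (f : Y → ℂ) (r : Fin 6 → Y), Dbl x f r := by
  classical
  obtain ⟨p, q, f, h1, h2, h3, h4⟩ := hPq Y h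
  obtain ⟨R, ι, h5⟩ := hTwo Y p q f h1 h2 h3 h4
  refine hNorm Y f p q R ι h1 h5 h3 h4 (hSix Y f _ R ι h5 (fun a ha => ?_) h)
  rcases Finset.mem_insert.mp ha with rfl | ha
  · exact h3
  · rw [Finset.mem_singleton.mp ha]; exact h4

open Bundle in
theorem asm (hB4 : S_B4) (hGen : S_Gen) (hPq : S_Pq) (hTwo : S_Two) (hSix : S_Six)
    (hNorm : S_Norm) (hMot : S_Mot) (hM : S_MobC) (hDefo : S_Defo) (hFam : S_Fam) (hPL : S_PL)
    (hRel : S_Rel) (hAtl : S_Atl) (hA : S_RieA) (hB : S_RieB) (hI : S_Isom) (hP : S_Pin)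
    (hL : S_Lind) (hG : S_Good) [RS S] (s : S) (genus : Module.finrank ℂ (H1 S s) = 4) :
    Admits S E realBasis := by
  classical
  have hg : ∀ M : Marked S, Module.finrank ℂ (Om M.Y) = 2 := fun M =>
    hGen M.Y (M.f s) ((hB4 S M.Y M.f s).trans genus)
  obtain ⟨R, h, k, hm⟩ := hMot
  obtain ⟨r1, r2, r3⟩ := hRel S hg
  have hd : ∀ (τ : Datum S) (a : E), ∃ τ', a ∈ ball τ.x (R τ.x) → IsDefo h τ a τ' := fun τ a => by
    by_cases ha : a ∈ ball τ.x (R τ.x)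
    · exact (hDefo S R h k hm τ a ha).imp fun _ h1 _ => h1
    · exact ⟨τ, fun h1 => absurd h1 ha⟩
  choose defo hdefo using hd
  have hsurj : Function.Surjective fun τ : Datum S => (Quot.mk _ τ.M : Teich S) := fun t => by
    obtain ⟨M, rfl⟩ := Quot.exists_rep t
    obtain ⟨x, f, r, h1⟩ := hyper hPq hTwo hSix hNorm M.Y (hg M)
    exact ⟨⟨M, x, f, r, h1⟩, rfl⟩
  have hsys : Sys (fun τ : Datum S => (Quot.mk _ τ.M : Teich S)) Datum.x R defo TRel :=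
    { surj := hsurj
      eq := r1
      ctr_rel := fun _ _ _ h1 => h1.1
      free := r2
      self := fun τ => by
        have h1 := hdefo τ τ.x (mem_ball_self (hm.pos _ τ.dbl.1))
        exact trel_one hM h1.1.symm h1.2.1.symm fun s => by rw [h1.2.2, hm.self]
      mem := fun τ => τ.dbl.1
      ctr_defo := fun τ a ha => (hdefo τ a ha).1
      contR := hm.contR
      pos := hm.pos
      sub := hm.sub
      lift := fun τ τ' σ γ hγ => hPL S R h k hm τ τ' _ _ _ _ σ γ hγ (hdefo _ _ (hγ 0).1)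
        (hdefo _ _ (hγ 1).1) (hdefo _ _ (hγ 0).2) (hdefo _ _ (hγ 1).2) }
  obtain ⟨top, cs, ρ, ch, ht2, hatl, hch, hρ, hc⟩ := hAtl _ (Teich S) _ _ _ _ _ hsys
  obtain ⟨g, f, B, hgood, hvol, a, ha, hsec⟩ := hG
  obtain ⟨hman, rb, hsm, hin⟩ := hA (Teich S) g f B hatl hgood
  have hsub : ∀ τ, (ch τ).target ⊆ ball τ.x (R τ.x) := fun τ =>
    (hc τ).1 ▸ ball_subset_ball (hρ _ τ.dbl.1).2
  have : LocallyCompactSpace (Teich S) := ChartedSpace.locallyCompactSpace E _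
  have : IsContinuousRiemannianBundle E fun t : Teich S => TangentSpace 𝓘(ℝ, E) t :=
    ⟨hsm.exists_contMDiff.imp fun _ h1 => ⟨h1.1.continuous, h1.2⟩⟩
  let em := EMetricSpace.ofRiemannianMetric 𝓘(ℝ, E) (Teich S)
  have hrm : IsRiemannianManifold 𝓘(ℝ, E) (Teich S) := ⟨fun _ _ => rfl⟩
  refine ⟨em, cs, hman, rb, hsm, hrm, fun e he => ?_, hB (Teich S) g f B hatl hgood hin,
    fun φ => hI (Teich S) g _ hin fun e he => ?_, ?_, a, ha, fun e he =>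
      hP g f B a _ _ hgood e.open_target (hatl.sub e he) (hin e he) hsec⟩
  · obtain ⟨τ, rfl⟩ := hch ▸ he
    exact ⟨fun a => (defo τ a).M,
      hFam S R h k hm τ _ _ (hsub τ) fun a ha => hdefo τ a (hsub τ ha), (hc τ).2⟩
  · obtain ⟨τ, rfl⟩ := hch ▸ he
    have e1 : (ch (τ.re φ)).target = (ch τ).target := (hc _).1.trans (hc τ).1.symm
    refine ⟨ch (τ.re φ), hch ▸ mem_range_self _, e1, fun a ha => ?_⟩
    rw [(hc τ).2 a ha, (hc _).2 a (e1 ▸ ha)]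
    have h1 := hdefo τ a (hsub τ ha)
    have h2 := hdefo (τ.re φ) a (hsub τ ha)
    refine (r1 ((defo τ a).re φ) _).mpr ⟨1, trel_one hM (h2.1.trans h1.1.symm) ?_ fun s => ?_⟩
    · rw [h2.2.1]
      exact funext fun i => (congrArg φ.1.symm (congrFun h1.2.1 i)).symm
    · rw [h2.2.2]
      exact (h1.2.2 (φ.1 s)).symm
  · obtain ⟨τ₀, -⟩ := hsurj (Quot.mk _ ⟨S, Homeomorph.refl S, fun p => ⟨univ, univ_mem,
      fun _ _ _ h => h⟩⟩)
    obtain ⟨z, A, h1, h2, h3⟩ := hL (range Datum.x) ρ g ⟨_, τ₀, rfl⟩ (by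
      rintro _ ⟨τ, rfl⟩
      exact ⟨(hρ _ τ.dbl.1).1, (hc τ).1 ▸ hatl.sub _ (hch ▸ mem_range_self τ)⟩) hvol
    choose τ hτ using fun n => (h1 n).1
    have h4 : ∀ n, A n ⊆ (ch (τ n)).target := fun n => by
      rw [(hc _).1, hτ n]; exact (h1 n).2.2
    refine ⟨fun n => ch (τ n), A, fun n => ⟨hch ▸ mem_range_self _, (h1 n).2.1, h4 n⟩, fun t => ?_,
      h3 _ fun n x hx => hin _ (hch ▸ mem_range_self _) x (h4 n hx)⟩
    obtain ⟨τ', rfl⟩ := hsurj t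
    obtain ⟨n, hn⟩ := mem_iUnion.mp (h2 ⟨τ', rfl⟩)
    obtain ⟨φ, hφ⟩ := r3 τ' (defo (τ n) τ'.x) (hdefo _ _ (hsub _ (h4 n hn))).1.symm
    exact ⟨φ, n, τ'.x, hn, ((hc _).2 _ (h4 n hn)).trans hφ.symm⟩

end Pool.Agent.P.MP_5d7cf0_gt.T
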