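import Pool.Agent.P.MP_5d7cf0_gt.T.St

/-!
The atlas defined by an abstract system of charts.
-/

open Set Filter Topology Metric

noncomputable section

namespace Pool.Agent.P.MP_5d7cf0_gt.T

namespace AtlP

theorem small (hA : S_Act) {x : E} (hx : x ∈ X) (y : E) {r r' : ℝ} (hr : 0 < r) (hr' : 0 < r') :
    ∃ ε, 0 < ε ∧ ε ≤ r ∧ ε ≤ r' ∧ ∀ σ, ∀ a ∈ ball x ε, act σ a ∈ ball y ε →
      act σ x = y ∧ ∀ a' ∈ ball x ε, act σ a' ∈ ball y r' := by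
  have h : ∀ σ, ∀ᶠ ε in 𝓝[>] (0 : ℝ), ∀ a ∈ ball x ε, act σ a ∈ ball y ε →
      act σ x = y ∧ ∀ a' ∈ ball x ε, act σ a' ∈ ball y r' := by
    intro σ
    have hc : ContinuousAt (act σ) x := ((hA.2 σ).1 x hx).2.2.continuousAt
    by_cases h : act σ x = y
    · obtain ⟨δ, hδ, h1⟩ := Metric.continuousAt_iff.1 hc r' hr'
      filter_upwards [Ioc_mem_nhdsGT hδ] with ε hε a _ _
      exact ⟨h, fun a' ha' => h ▸ h1 (lt_of_lt_of_le ha' hε.2)⟩
    · have hd : 0 < dist (act σ x) y / 2 := half_pos (dist_pos.2 h)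
      obtain ⟨δ, hδ, h1⟩ := Metric.continuousAt_iff.1 hc _ hd
      filter_upwards [Ioc_mem_nhdsGT hδ, Ioc_mem_nhdsGT hd] with ε hε hε' a ha hb
      have h2 := h1 (lt_of_lt_of_le ha hε.2)
      have h3 : dist (act σ a) y < ε := hb
      have h4 := dist_triangle_left (act σ x) y (act σ a)
      exact absurd hε'.2 (by intro h5; linarith)
  obtain ⟨ε, h1, h2, h3⟩ := ((eventually_all.2 h).and
    ((show ∀ᶠ ε in 𝓝[>] (0 : ℝ), ε ∈ Ioc 0 r from Ioc_mem_nhdsGT hr).and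
      (show ∀ᶠ ε in 𝓝[>] (0 : ℝ), ε ∈ Ioc 0 r' from Ioc_mem_nhdsGT hr'))).exists
  exact ⟨ε, h2.1, h2.2, h3.2, h1⟩

variable {𝒟 T : Type 1} {pr : 𝒟 → T} {ctr : 𝒟 → E} {R : E → ℝ} {defo : 𝒟 → E → 𝒟}
  {Rel : Equiv.Perm (Fin 6) → 𝒟 → 𝒟 → Prop}

theorem liftW (h : Sys pr ctr R defo Rel) (τ τ' : 𝒟) (σ : Equiv.Perm (Fin 6)) {W : Set E}
    (hW : Convex ℝ W)
    (h1 : ∀ a ∈ W, a ∈ ball (ctr τ) (R (ctr τ)) ∧ act σ a ∈ ball (ctr τ') (R (ctr τ')))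
    {a b : E} (ha : a ∈ W) (hb : b ∈ W) (hr : Rel σ (defo τ a) (defo τ' (act σ a))) :
    Rel σ (defo τ b) (defo τ' (act σ b)) := by
  have := h.lift τ τ' σ ⟨fun s => a + (s : ℝ) • (b - a), by fun_prop⟩
    (fun s => h1 _ (hW.add_smul_sub_mem ha hb s.2))
  simp only [ContinuousMap.coe_mk, Icc.coe_zero, Icc.coe_one, zero_smul, add_zero, one_smul,
    add_sub_cancel] at this
  exact this hr

theorem rel_of_eq (h : Sys pr ctr R defo Rel) {τ τ' : 𝒟} {a b : E}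
    (ha : a ∈ ball (ctr τ) (R (ctr τ))) (hb : b ∈ ball (ctr τ') (R (ctr τ')))
    (e : pr (defo τ a) = pr (defo τ' b)) :
    ∃ σ, b = act σ a ∧ Rel σ (defo τ a) (defo τ' (act σ a)) := by
  obtain ⟨σ, hσ⟩ := (h.eq _ _).1 e
  have h1 := h.ctr_rel _ _ _ hσ
  rw [h.ctr_defo _ _ ha, h.ctr_defo _ _ hb] at h1
  exact ⟨σ, h1, h1 ▸ hσ⟩

theorem pr_ctr (h : Sys pr ctr R defo Rel) (τ : 𝒟) : pr (defo τ (ctr τ)) = pr τ :=
  (h.eq _ _).2 ⟨1, h.self τ⟩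

theorem sep (hA : S_Act) (h : Sys pr ctr R defo Rel) {x y : E} (hx : x ∈ X) (hy : y ∈ X) :
    ∃ ε, 0 < ε ∧ ε ≤ R x ∧ ∀ τ τ', ctr τ = x → ctr τ' = y → ∀ a ∈ ball x ε, ∀ b ∈ ball y ε,
      pr (defo τ a) = pr (defo τ' b) → ∃ σ, b = act σ a ∧ Rel σ (defo τ x) (defo τ' y) := by
  obtain ⟨ε, h0, h1, h2, h3⟩ := small hA hx y (h.pos x hx) (h.pos y hy)
  refine ⟨ε, h0, h1, ?_⟩
  rintro τ τ' rfl rfl a ha b hb e
  obtain ⟨σ, rfl, hr⟩ := rel_of_eq h (ball_subset_ball h1 ha) (ball_subset_ball h2 hb) e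
  obtain ⟨h4, h5⟩ := h3 σ a ha hb
  refine ⟨σ, rfl, ?_⟩
  have := liftW h τ τ' σ (convex_ball _ ε) (fun a' ha' => ⟨ball_subset_ball h1 ha', h5 a' ha'⟩)
    ha (mem_ball_self h0) hr
  rwa [h4] at this

theorem near (hA : S_Act) (h : Sys pr ctr R defo Rel) {τ τ' : 𝒟} {a b : E}
    (ha : a ∈ ball (ctr τ) (R (ctr τ))) (hb : b ∈ ball (ctr τ') (R (ctr τ')))
    (e : pr (defo τ a) = pr (defo τ' b)) :
    ∃ σ, b = act σ a ∧ ContinuousAt (act σ) a ∧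
      ∀ᶠ a' in 𝓝 a, pr (defo τ a') = pr (defo τ' (act σ a')) := by
  obtain ⟨σ, rfl, hr⟩ := rel_of_eq h ha hb e
  have hc : ContinuousAt (act σ) a := ((hA.2 σ).1 a (h.sub _ (h.mem τ) ha)).2.2.continuousAt
  obtain ⟨δ, hδ, h1⟩ := Metric.mem_nhds_iff.1
    (inter_mem (isOpen_ball.mem_nhds ha) (hc (isOpen_ball.mem_nhds hb)))
  refine ⟨σ, rfl, hc, ?_⟩
  filter_upwards [ball_mem_nhds a hδ] with a' ha'
  exact (h.eq _ _).2 ⟨σ, liftW h τ τ' σ (convex_ball a δ) (fun _ h2 => h1 h2) (mem_ball_self hδ)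
    ha' hr⟩

theorem radius (hA : S_Act) (h1 : ∀ x, act 1 x = x) (h : Sys pr ctr R defo Rel) :
    ∃ ρ : E → ℝ, (∀ x ∈ X, 0 < ρ x ∧ ρ x ≤ R x) ∧
      ∀ τ, InjOn (fun a => pr (defo τ a)) (ball (ctr τ) (ρ (ctr τ))) := by
  choose! ρ a1 a2 a3 using fun x (hx : x ∈ X) => sep hA h hx hx
  refine ⟨ρ, fun x hx => ⟨a1 x hx, a2 x hx⟩, fun τ a ha b hb e => ?_⟩
  obtain ⟨σ, e1, hr⟩ := a3 _ (h.mem τ) τ τ rfl rfl a ha b hb e
  rw [e1, h.free _ _ hr, h1]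

theorem trans_near (hA : S_Act) (h : Sys pr ctr R defo Rel) {ρ : E → ℝ}
    (hρ : ∀ x ∈ X, 0 < ρ x ∧ ρ x ≤ R x) {pe : 𝒟 → PartialEquiv T E}
    (ht : ∀ τ, (pe τ).target = ball (ctr τ) (ρ (ctr τ)))
    (hs : ∀ τ a, (pe τ).symm a = pr (defo τ a)) (τ τ' : 𝒟) {a : E}
    (ha : a ∈ ((pe τ).symm.trans (pe τ')).source) :
    ∃ σ, ContinuousAt (act σ) a ∧ ∀ᶠ a' in 𝓝 a, a' ∈ ((pe τ).symm.trans (pe τ')).source ∧
      ((pe τ).symm.trans (pe τ')) a' = act σ a' := by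
  have ha1 : a ∈ (pe τ).target := ha.1
  have ha2 : (pe τ).symm a ∈ (pe τ').source := ha.2
  have hb := (pe τ').map_source ha2
  have e := (pe τ').left_inv ha2
  rw [hs, hs τ a] at e
  rw [hs] at hb
  have sub : ∀ τ, (pe τ).target ⊆ ball (ctr τ) (R (ctr τ)) := fun τ => by
    rw [ht]
    exact ball_subset_ball (hρ _ (h.mem τ)).2
  have op : ∀ τ, IsOpen (pe τ).target := fun τ => by
    rw [ht]
    exact isOpen_ball
  obtain ⟨σ, e1, hc, h2⟩ := near hA h (sub τ ha1) (sub τ' hb) e.symm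
  rw [e1] at hb
  refine ⟨σ, hc, ?_⟩
  filter_upwards [h2, (op τ).mem_nhds ha1, hc ((op τ').mem_nhds hb)] with a' h3 h4 h5
  rw [← hs, ← hs] at h3
  refine ⟨⟨h4, ?_⟩, ?_⟩
  · change (pe τ).symm a' ∈ (pe τ').source
    rw [h3]
    exact (pe τ').map_target h5
  · change pe τ' ((pe τ).symm a') = _
    rw [h3]
    exact (pe τ').right_inv h5

end AtlP

open AtlP in
theorem atl (hA : S_Act) (h1 : ∀ x, act 1 x = x) : S_Atl := by
  intro 𝒟 T pr ctr R defo Rel h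
  obtain ⟨ρ, hρ, hi⟩ := radius hA h1 h
  obtain ⟨pe, ht, hs⟩ : ∃ pe : 𝒟 → PartialEquiv T E,
      (∀ τ, (pe τ).target = ball (ctr τ) (ρ (ctr τ))) ∧ ∀ τ a, (pe τ).symm a = pr (defo τ a) :=
    ⟨fun τ => ((hi τ).toPartialEquiv _ _).symm, fun _ => rfl, fun _ _ => rfl⟩
  have tn := trans_near hA h hρ ht hs
  have hc : ∀ τ, ctr τ ∈ (pe τ).target := fun τ => by
    rw [ht]
    exact mem_ball_self (hρ _ (h.mem τ)).1
  have hp : ∀ τ, (pe τ).symm (ctr τ) = pr τ := fun τ => (hs τ _).trans (pr_ctr h τ)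
  have hm : ∀ τ, pr τ ∈ (pe τ).source := fun τ => hp τ ▸ (pe τ).map_target (hc τ)
  have hv : ∀ τ, pe τ (pr τ) = ctr τ := fun τ => hp τ ▸ (pe τ).right_inv (hc τ)
  have sub : ∀ τ, (pe τ).target ⊆ ball (ctr τ) (R (ctr τ)) := fun τ => by
    rw [ht]
    exact ball_subset_ball (hρ _ (h.mem τ)).2
  have hm' : ∀ t, t ∈ (pe (Function.surjInv h.surj t)).source := fun t => by
    have := hm (Function.surjInv h.surj t)
    rwa [Function.surjInv_eq h.surj] at this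
  let core : ChartedSpaceCore E T :=
    { atlas := range pe
      chartAt := fun t => pe (Function.surjInv h.surj t)
      mem_chart_source := hm'
      chart_mem_atlas := fun t => mem_range_self _
      open_source := by
        rintro _ _ ⟨τ, rfl⟩ ⟨τ', rfl⟩
        refine isOpen_iff_mem_nhds.2 fun a ha => ?_
        obtain ⟨σ, -, h2⟩ := tn τ τ' ha
        exact h2.mono fun _ h3 => h3.1
      continuousOn_toFun := by
        rintro _ _ ⟨τ, rfl⟩ ⟨τ', rfl⟩ a ha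
        obtain ⟨σ, h2, h3⟩ := tn τ τ' ha
        exact (h2.congr (h3.mono fun _ h4 => h4.2.symm)).continuousWithinAt }
  obtain ⟨top, ch, hch⟩ : ∃ (_ : TopologicalSpace T) (ch : 𝒟 → OpenPartialHomeomorph T E),
      ∀ τ, (ch τ).toPartialEquiv = pe τ := ⟨core.toTopologicalSpace,
    fun τ => core.openPartialHomeomorph (pe τ) (mem_range_self τ), fun _ => rfl⟩
  clear core
  obtain rfl : pe = fun τ => (ch τ).toPartialEquiv := funext fun τ => (hch τ).symm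
  let cs : ChartedSpace E T :=
    { atlas := range ch
      chartAt := fun t => ch (Function.surjInv h.surj t)
      mem_chart_source := hm'
      chart_mem_atlas := fun t => mem_range_self _ }
  refine ⟨top, cs, ρ, ch, ⟨?_⟩, ⟨?_, ?_, ?_⟩, rfl, hρ,
    fun τ => ⟨ht τ, fun a _ => hs τ a⟩⟩
  · intro t t' hne
    obtain ⟨τ, rfl⟩ := h.surj t
    obtain ⟨τ', rfl⟩ := h.surj t'
    obtain ⟨ε, h0, -, h2⟩ := sep hA h (h.mem τ) (h.mem τ')
    refine ⟨(ch τ).source ∩ ch τ ⁻¹' ball (ctr τ) ε, (ch τ').source ∩ ch τ' ⁻¹' ball (ctr τ') ε,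
      (ch τ).isOpen_inter_preimage isOpen_ball, (ch τ').isOpen_inter_preimage isOpen_ball,
      ⟨hm τ, mem_ball.2 ?_⟩, ⟨hm τ', mem_ball.2 ?_⟩, disjoint_left.2 fun t a b => hne ?_⟩
    · exact lt_of_eq_of_lt (dist_eq_zero.2 (hv τ)) h0
    · exact lt_of_eq_of_lt (dist_eq_zero.2 (hv τ')) h0
    · obtain ⟨σ, -, hr⟩ := h2 τ τ' rfl rfl _ a.2 _ b.2
        (((hs τ _).symm.trans ((ch τ).left_inv a.1)).trans
          ((hs τ' _).symm.trans ((ch τ').left_inv b.1)).symm)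
      rw [← pr_ctr h τ, ← pr_ctr h τ']
      exact (h.eq _ _).2 ⟨σ, hr⟩
  · rintro _ ⟨τ, rfl⟩
    exact (sub τ).trans (h.sub _ (h.mem τ))
  · rintro _ ⟨τ, rfl⟩ _ ⟨τ', rfl⟩ t a b
    obtain ⟨σ, -, h2⟩ := tn τ τ' (a := ch τ t) ⟨(ch τ).map_source a, by
      change (ch τ).symm (ch τ t) ∈ (ch τ').source
      rwa [(ch τ).left_inv a]⟩
    refine ⟨σ, ?_⟩
    filter_upwards [((ch τ).continuousAt a).eventually h2, (ch τ).open_source.mem_nhds a]
      with t' h3 h4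
    have h5 : ch τ' ((ch τ).symm (ch τ t')) = act σ (ch τ t') := h3.2
    rwa [(ch τ).left_inv h4] at h5
  · intro z hz
    have hR : ContinuousAt R z := h.contR.continuousAt (hA.1.mem_nhds hz)
    have hz0 := h.pos z hz
    obtain ⟨δ, hδ, h2⟩ := Metric.mem_nhds_iff.1
      (hR.eventually (lt_mem_nhds (half_lt_self hz0)))
    refine ⟨min (ρ z) (min δ (R z / 2)), lt_min (hρ z hz).1 (lt_min hδ (half_pos hz0)), ?_⟩
    rintro _ ⟨τ0, rfl⟩ t ht0 ha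
    have e0 : pr (defo τ0 (ch τ0 t)) = t := (hs τ0 _).symm.trans ((ch τ0).left_inv ht0)
    have c0 : ctr (defo τ0 (ch τ0 t)) = ch τ0 t :=
      h.ctr_defo _ _ (sub τ0 ((ch τ0).map_source ht0))
    generalize defo τ0 (ch τ0 t) = τa at e0 c0
    generalize ch τ0 t = a at c0 ha
    subst c0
    rw [mem_ball, lt_min_iff, lt_min_iff] at ha
    have hza : z ∈ ball (ctr τa) (R (ctr τa)) := by
      rw [mem_ball, dist_comm]
      exact ha.2.2.trans (h2 ha.2.1)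
    have c1 := h.ctr_defo τa z hza
    have r1 := h.self (defo τa z)
    rw [c1] at r1
    have r2 := liftW h (defo τa z) τa 1
      ((convex_ball z (R z)).inter (convex_ball (ctr τa) (R (ctr τa))))
      (fun a ha' => by rw [c1, h1]; exact ha') ⟨mem_ball_self hz0, hza⟩
      ⟨ha.1.trans_le (hρ z hz).2, mem_ball_self (h.pos _ (h.mem τa))⟩ (by rw [h1]; exact r1)
    rw [h1] at r2
    have e1 : (ch (defo τa z)).symm (ctr τa) = t :=
      (hs _ _).trans (((h.eq _ _).2 ⟨1, r2⟩).trans ((pr_ctr h τa).trans e0))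
    have ht1 : (ch (defo τa z)).target = ball z (ρ z) := (ht _).trans (by rw [c1])
    have hat : ctr τa ∈ (ch (defo τa z)).target := by
      rw [ht1]
      exact ha.1
    refine ⟨ch (defo τa z), mem_range_self _, e1 ▸ (ch _).map_target hat,
      e1 ▸ (ch _).right_inv hat, ?_⟩
    rw [ht1]
    exact ball_subset_ball (min_le_left _ _)

end Pool.Agent.P.MP_5d7cf0_gt.T
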