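import Pool.Agent.P.MP_5d7cf0_gt.T.St

/-!
Package Mot: a motion of the plane that follows the branch points, and the Moebius maps on the
sphere.
-/

open Set Filter Topology Metric

noncomputable section

namespace Pool.Agent.P.MP_5d7cf0_gt.T

namespace MotP

theorem cont1 (i : Fin 6) : Continuous fun x : E => (pt x i).1 := by
  fin_cases i <;> simp [pt] <;> fun_prop

theorem snd_eq (a x : E) (i : Fin 6) : (pt a i).2 = (pt x i).2 := by
  fin_cases i <;> simp [pt]

theorem snd_one (x : E) {i : Fin 6} (h : i ≠ 5) : (pt x i).2 = 1 := by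
  fin_cases i <;> simp [pt] at h ⊢

theorem snd_le (x : E) (i : Fin 6) : ‖(pt x i).2‖ ≤ 1 := by
  fin_cases i <;> simp [pt]

theorem fst_le (a x : E) (i : Fin 6) : ‖(pt a i).1 - (pt x i).1‖ ≤ ‖a - x‖ := by
  have h := fun k => norm_le_pi_norm (a - x) k
  fin_cases i <;> simp [pt]
  exacts [h 0, h 1, h 2]

theorem cont_pt (i : Fin 6) : Continuous fun x : E => pt x i :=
  (cont1 i).prodMk (continuous_const.congr fun x => snd_eq 0 x i)

theorem cont_br (i j : Fin 6) : Continuous fun x : E => br (pt x i) (pt x j) := by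
  have := cont_pt i
  have := cont_pt j
  unfold br; fun_prop

theorem br_self (u : ℂ × ℂ) : br u u = 0 := by unfold br; ring

/-- a lower bound for the distances -/
def dl (x : E) : ℝ := (∑ i, ∑ j, ‖br (pt x i) (pt x j)‖⁻¹)⁻¹ / 4

theorem term_le (x : E) (i j : Fin 6) :
    ‖br (pt x i) (pt x j)‖⁻¹ ≤ ∑ i, ∑ j, ‖br (pt x i) (pt x j)‖⁻¹ :=
  (Finset.single_le_sum (f := fun j => ‖br (pt x i) (pt x j)‖⁻¹) (fun _ _ => by positivity)
    (Finset.mem_univ j)).trans (Finset.single_le_sum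
      (f := fun i => ∑ j, ‖br (pt x i) (pt x j)‖⁻¹) (fun _ _ => by positivity) (Finset.mem_univ i))

theorem sum_pos {x : E} (hx : x ∈ X) : 0 < ∑ i, ∑ j, ‖br (pt x i) (pt x j)‖⁻¹ :=
  (inv_pos.2 (norm_pos_iff.2 (hx 0 1 (by decide)))).trans_le (term_le x 0 1)

theorem dl_pos {x : E} (hx : x ∈ X) : 0 < dl x := div_pos (inv_pos.2 (sum_pos hx)) four_pos

theorem dl_le {x : E} (hx : x ∈ X) {i j : Fin 6} (h : i ≠ j) :
    4 * dl x ≤ ‖br (pt x i) (pt x j)‖ := by
  have := inv_le_of_inv_le₀ (norm_pos_iff.2 (hx i j h)) (term_le x i j)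
  unfold dl; linarith

theorem cont_dl : ContinuousOn dl X := by
  refine (ContinuousOn.inv₀ (continuousOn_finsetSum _ fun i _ => continuousOn_finsetSum _
    fun j _ => ?_) fun x hx => (sum_pos hx).ne').div_const 4
  by_cases h : i = j
  · simp only [h, br_self]; exact continuousOn_const
  · exact (cont_br i j).norm.continuousOn.inv₀ fun x hx => norm_ne_zero_iff.2 (hx i j h)

/-- the cut-off -/
def be (δ t : ℝ) : ℝ := max 0 (min 1 (2 - t / δ))

theorem be_one {δ t : ℝ} (h0 : 0 < δ) (h : t ≤ δ) : be δ t = 1 := by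
  have : t / δ ≤ 1 := (div_le_one h0).2 h
  rw [be, min_eq_left (by linarith), max_eq_right zero_le_one]

theorem be_zero {δ t : ℝ} (h0 : 0 < δ) (h : 2 * δ ≤ t) : be δ t = 0 := by
  have : 2 ≤ t / δ := (le_div_iff₀ h0).2 h
  exact max_eq_left ((min_le_right _ _).trans (by linarith))

theorem be_lip {δ : ℝ} (h0 : 0 < δ) (s t : ℝ) : |be δ s - be δ t| ≤ |s - t| / δ := by
  unfold be
  rw [max_comm 0, max_comm 0]
  refine (abs_max_sub_max_le_abs _ _ _).trans ((abs_min_sub_min_le_max _ _ _ _).trans ?_)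
  rw [sub_self, abs_zero, max_eq_right (abs_nonneg _),
    show 2 - s / δ - (2 - t / δ) = -((s - t) / δ) by ring, abs_neg, abs_div, abs_of_pos h0]

def RR (x : E) : ℝ := dl x / 12

def hh (x a : E) (z : ℂ) : ℂ :=
  z + ∑ i, (be (dl x) ‖z - (pt x i).1‖ : ℂ) * ((pt a i).1 - (pt x i).1)

def kk (x a : E) : ℂ → ℂ := Function.invFun (hh x a)

theorem hh_cont (x : E) : Continuous fun q : E × ℂ => hh x q.1 q.2 := by
  unfold hh be
  refine continuous_snd.add (continuous_finsetSum _ fun i _ => ?_)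
  exact Continuous.mul (by fun_prop) (((cont1 i).comp continuous_fst).sub continuous_const)

theorem hh_lip {x : E} (hx : x ∈ X) {a : E} (ha : a ∈ ball x (RR x)) (z z' : ℂ) :
    ‖hh x a z - hh x a z' - (z - z')‖ ≤ 1 / 2 * ‖z - z'‖ := by
  have h0 := dl_pos hx
  rw [mem_ball, dist_eq_norm, RR] at ha
  have e : hh x a z - hh x a z' - (z - z') = ∑ i, ((be (dl x) ‖z - (pt x i).1‖
      - be (dl x) ‖z' - (pt x i).1‖ : ℝ) : ℂ) * ((pt a i).1 - (pt x i).1) := by
    simp only [hh, Complex.ofReal_sub, sub_mul, Finset.sum_sub_distrib]; ring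
  rw [e]
  refine (norm_sum_le_of_le _ (n := fun _ => ‖z - z'‖ / 12) fun i _ => ?_).trans (le_of_eq ?_)
  · rw [norm_mul, Complex.norm_real, Real.norm_eq_abs]
    have h1 := abs_norm_sub_norm_le (z - (pt x i).1) (z' - (pt x i).1)
    rw [sub_sub_sub_cancel_right] at h1
    have h2 := (be_lip h0 _ _).trans (div_le_div_of_nonneg_right h1 h0.le)
    refine (mul_le_mul h2 ((fst_le a x i).trans ha.le) (norm_nonneg _) (by positivity)).trans
      (le_of_eq ?_)
    field_simp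
  · simp only [Finset.sum_const, Finset.card_univ, Fintype.card_fin, nsmul_eq_mul]
    push_cast; ring

theorem hh_low {x : E} (hx : x ∈ X) {a : E} (ha : a ∈ ball x (RR x)) (z z' : ℂ) :
    ‖z - z'‖ ≤ 2 * ‖hh x a z - hh x a z'‖ := by
  have h1 := hh_lip hx ha z z'
  have h2 := norm_sub_norm_le (z - z') (hh x a z - hh x a z')
  rw [norm_sub_rev (z - z')] at h2
  linarith

theorem hh_bij {x : E} (hx : x ∈ X) {a : E} (ha : a ∈ ball x (RR x)) :
    Function.Bijective (hh x a) := by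
  refine ⟨fun z z' h => ?_, fun w => ?_⟩
  · have := hh_low hx ha z z'
    rw [h, sub_self, norm_zero, mul_zero] at this
    exact sub_eq_zero.1 (norm_le_zero_iff.1 this)
  · have hc : ContractingWith (1 / 2) fun z => w - (hh x a z - z) := by
      refine ⟨by norm_num, LipschitzWith.of_dist_le_mul fun z z' => ?_⟩
      rw [dist_eq_norm, dist_eq_norm, norm_sub_rev,
        show w - (hh x a z' - z') - (w - (hh x a z - z)) = hh x a z - hh x a z' - (z - z') by ring]
      simpa using hh_lip hx ha z z'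
    refine ⟨hc.fixedPoint _, ?_⟩
    have := hc.fixedPoint_isFixedPt
    simp only [Function.IsFixedPt] at this
    linear_combination -this

theorem kk_inv {x : E} (hx : x ∈ X) {a : E} (ha : a ∈ ball x (RR x)) (z : ℂ) :
    kk x a (hh x a z) = z ∧ hh x a (kk x a z) = z :=
  ⟨Function.leftInverse_invFun (hh_bij hx ha).1 z, Function.rightInverse_invFun (hh_bij hx ha).2 z⟩

theorem kk_cont {x : E} (hx : x ∈ X) :
    ContinuousOn (fun q : E × ℂ => kk x q.1 q.2) (ball x (RR x) ×ˢ univ) := by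
  intro q0 hq0
  refine tendsto_iff_norm_sub_tendsto_zero.2 (squeeze_zero'
    (g := fun q : E × ℂ => 2 * ‖q.2 - hh x q.1 (kk x q0.1 q0.2)‖)
    (Eventually.of_forall fun _ => norm_nonneg _) ?_ (tendsto_nhdsWithin_of_tendsto_nhds ?_))
  · filter_upwards [self_mem_nhdsWithin] with q hq
    have := hh_low hx hq.1 (kk x q.1 q.2) (kk x q0.1 q0.2)
    rwa [(kk_inv hx hq.1 _).2] at this
  · have hc : Continuous fun q : E × ℂ => 2 * ‖q.2 - hh x q.1 (kk x q0.1 q0.2)‖ :=
      continuous_const.mul (continuous_snd.sub ((hh_cont x).comp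
        (continuous_fst.prodMk continuous_const))).norm
    have := hc.tendsto q0
    rwa [(kk_inv hx hq0.1 _).2, sub_self, norm_zero, mul_zero] at this

theorem ball_sub {x : E} (hx : x ∈ X) : ball x (RR x) ⊆ X := fun a ha i j hij h => by
  have h0 := dl_pos hx
  rw [mem_ball, dist_eq_norm, RR] at ha
  have h1 := dl_le hx hij
  have e : br (pt x i) (pt x j) = (pt x i).2 * ((pt a j).1 - (pt x j).1)
      - ((pt a i).1 - (pt x i).1) * (pt x j).2 := by
    unfold br at h ⊢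
    rw [snd_eq a x, snd_eq a x] at h
    linear_combination h
  have h2 := norm_sub_le ((pt x i).2 * ((pt a j).1 - (pt x j).1))
    (((pt a i).1 - (pt x i).1) * (pt x j).2)
  rw [← e, norm_mul, norm_mul] at h2
  have h3 := mul_le_mul (snd_le x i) (fst_le a x j) (norm_nonneg _) zero_le_one
  have h4 := mul_le_mul (fst_le a x i) (snd_le x j) (norm_nonneg _) (norm_nonneg _)
  linarith

theorem hh_far {x : E} (hx : x ∈ X) : ∃ C : ℝ, ∀ a z, C ≤ ‖z‖ → hh x a z = z := by
  refine ⟨∑ i, ‖(pt x i).1‖ + 2 * dl x, fun a z hz => ?_⟩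
  rw [hh, Finset.sum_eq_zero fun i _ => ?_, add_zero]
  have h1 := Finset.single_le_sum (f := fun i => ‖(pt x i).1‖) (fun _ _ => norm_nonneg _)
    (Finset.mem_univ i)
  rw [be_zero (dl_pos hx) (by linarith [norm_sub_norm_le z (pt x i).1]), Complex.ofReal_zero,
    zero_mul]

theorem hh_near {x : E} (hx : x ∈ X) (i : Fin 6) (hi : i ≠ 5) :
    ∀ᶠ z in 𝓝 (pt x i).1, ∀ a, hh x a z = z + ((pt a i).1 - (pt x i).1) := by
  have h0 := dl_pos hx
  filter_upwards [ball_mem_nhds _ h0] with z hz a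
  rw [mem_ball, dist_eq_norm] at hz
  rw [hh, Finset.sum_eq_single i (fun j _ hj => ?_) (fun h => absurd (Finset.mem_univ i) h),
    be_one h0 hz.le, Complex.ofReal_one, one_mul]
  by_cases h5 : j = 5
  · simp [h5, pt]
  have h1 := dl_le hx hj
  rw [br, snd_one x hi, snd_one x h5, mul_one, one_mul] at h1
  have h2 := norm_sub_le (z - (pt x i).1) (z - (pt x j).1)
  rw [sub_sub_sub_cancel_left] at h2
  rw [be_zero h0 (by linarith), Complex.ofReal_zero, zero_mul]

/-! ### The sphere -/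

theorem prj_vec (ζ : OnePoint ℂ) : prj (vec ζ) = ζ := by
  induction ζ using OnePoint.rec <;> simp [prj, vec]

theorem vec_ne (ζ : OnePoint ℂ) : vec ζ ≠ 0 := by
  induction ζ using OnePoint.rec <;> simp [vec]

theorem prj_eq_iff {u v : ℂ × ℂ} (hu : u ≠ 0) (hv : v ≠ 0) : prj u = prj v ↔ br u v = 0 := by
  obtain ⟨a, b⟩ := u
  obtain ⟨c, d⟩ := v
  simp only [ne_eq, Prod.mk_eq_zero, not_and] at hu hv
  simp only [prj, br]
  by_cases hb : b = 0 <;> by_cases hd : d = 0
  · simp [hb, hd]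
  · have : a ≠ 0 := fun h => hu h hb
    simp [hb, hd, this]
  · have : c ≠ 0 := fun h => hv h hd
    simp [hb, hd, this]
  · simp only [hb, hd, if_false, OnePoint.coe_eq_coe]
    rw [div_eq_div_iff hb hd, sub_eq_zero, mul_comm c b]

theorem prj_cont {v : ℂ × ℂ} (hv : v ≠ 0) : ContinuousAt prj v := by
  by_cases h : v.2 = 0
  · have h1 : v.1 ≠ 0 := fun h' => hv (Prod.ext h' h)
    have e : prj v = OnePoint.infty := if_pos h
    rw [ContinuousAt, e, OnePoint.hasBasis_nhds_infty.tendsto_right_iff]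
    rintro s ⟨-, hs⟩
    obtain ⟨r, hr⟩ := hs.isBounded.subset_closedBall 0
    have h2 : ∀ᶠ w : ℂ × ℂ in 𝓝 v, r * ‖w.2‖ < ‖w.1‖ :=
      ContinuousAt.eventually_lt (by fun_prop) (by fun_prop)
        (by rw [h, norm_zero, mul_zero]; exact norm_pos_iff.2 h1)
    filter_upwards [h2] with w hw
    by_cases h3 : w.2 = 0
    · exact Or.inr (if_pos h3)
    · refine Or.inl ⟨w.1 / w.2, fun h4 => ?_, (if_neg h3).symm⟩
      have h5 := hr h4
      rw [mem_closedBall, dist_zero_right, norm_div, div_le_iff₀ (norm_pos_iff.2 h3)] at h5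
      linarith
  · have h1 : ContinuousAt (fun w : ℂ × ℂ => ((w.1 / w.2 : ℂ) : OnePoint ℂ)) v :=
      OnePoint.continuous_coe.continuousAt.comp (continuousAt_fst.div continuousAt_snd h)
    refine h1.congr ?_
    filter_upwards [continuousAt_snd.eventually_ne h] with w hw
    exact (if_neg hw).symm

theorem loc_vec (ζ0 : OnePoint ℂ) : ∃ V : OnePoint ℂ → ℂ × ℂ, ContinuousAt V ζ0 ∧
    ∀ᶠ ζ in 𝓝 ζ0, V ζ ≠ 0 ∧ prj (V ζ) = ζ := by
  induction ζ0 using OnePoint.rec with
  | coe z =>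
    refine ⟨vec, OnePoint.continuousAt_coe.2 ?_, Eventually.of_forall fun ζ =>
      ⟨vec_ne ζ, prj_vec ζ⟩⟩
    exact (continuous_id.prodMk continuous_const).continuousAt
  | infty =>
    refine ⟨fun ζ => ζ.elim (1, 0) fun z => (1, z⁻¹), OnePoint.continuousAt_infty'.2 ?_, ?_⟩
    · rw [Filter.coclosedCompact_eq_cocompact, ← Metric.cobounded_eq_cocompact]
      exact tendsto_const_nhds.prodMk_nhds tendsto_inv₀_cobounded
    · filter_upwards [isOpen_compl_singleton.mem_nhds (OnePoint.infty_ne_coe (0 : ℂ))] with ζ hζ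
      induction ζ using OnePoint.rec with
      | infty => simp [prj]
      | coe z =>
        have : z ≠ 0 := fun h => hζ (by simp [h])
        simp [prj, this]

/-- the linear map behind `mobH` -/
def LL (p q r v : ℂ × ℂ) : ℂ × ℂ := (br v p * br q r, br v r * br q p)

theorem br_LL (p q r v v' : ℂ × ℂ) :
    br (LL p q r v) (LL p q r v') = br q r * br q p * br p r * br v v' := by
  simp only [LL, br]; ring

variable {p q r : ℂ × ℂ}

theorem LL_ne (h1 : br q r ≠ 0) (h2 : br q p ≠ 0) (h3 : br p r ≠ 0) {v : ℂ × ℂ} (hv : v ≠ 0) :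
    LL p q r v ≠ 0 := fun h => by
  have e1 := (mul_eq_zero.1 (congrArg Prod.fst h)).resolve_right h1
  have e2 := (mul_eq_zero.1 (congrArg Prod.snd h)).resolve_right h2
  refine hv (Prod.ext (mul_left_cancel₀ h3 ?_) (mul_left_cancel₀ h3 ?_))
  · simp only [br, Prod.fst_zero, mul_zero] at e1 e2 ⊢
    linear_combination p.1 * e2 - r.1 * e1
  · simp only [br, Prod.snd_zero, mul_zero] at e1 e2 ⊢
    linear_combination p.2 * e2 - r.2 * e1

theorem LL_prj (h1 : br q r ≠ 0) (h2 : br q p ≠ 0) (h3 : br p r ≠ 0) {v : ℂ × ℂ} (hv : v ≠ 0) :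
    prj (LL p q r (vec (prj v))) = prj (LL p q r v) := by
  rw [prj_eq_iff (LL_ne h1 h2 h3 (vec_ne _)) (LL_ne h1 h2 h3 hv), br_LL,
    (prj_eq_iff (vec_ne _) hv).1 (prj_vec _), mul_zero]

theorem LL_bij (h1 : br q r ≠ 0) (h2 : br q p ≠ 0) (h3 : br p r ≠ 0) :
    Function.Bijective fun ζ => prj (LL p q r (vec ζ)) := by
  refine ⟨fun ζ ζ' h => ?_, fun η => ?_⟩
  · have h4 := (prj_eq_iff (LL_ne h1 h2 h3 (vec_ne _)) (LL_ne h1 h2 h3 (vec_ne _))).1 h
    rw [br_LL] at h4
    have h5 := (mul_eq_zero.1 h4).resolve_left (mul_ne_zero (mul_ne_zero h1 h2) h3)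
    rw [← prj_vec ζ, ← prj_vec ζ', prj_eq_iff (vec_ne _) (vec_ne _), h5]
  · set u := vec η with hu
    set v : ℂ × ℂ := (u.2 / (br q p * br p r)) • p - (u.1 / (br q r * br p r)) • r with hv
    have a1 : br v p = u.1 / (br q r * br p r) * br p r := by
      simp only [hv, br, Prod.fst_sub, Prod.snd_sub, Prod.smul_fst, Prod.smul_snd, smul_eq_mul]
      ring
    have a2 : br v r = u.2 / (br q p * br p r) * br p r := by
      simp only [hv, br, Prod.fst_sub, Prod.snd_sub, Prod.smul_fst, Prod.smul_snd, smul_eq_mul]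
      ring
    have e : LL p q r v = u := by
      refine Prod.ext ?_ ?_ <;> simp only [LL, a1, a2] <;> field_simp
    have h0 : v ≠ 0 := fun h => vec_ne η (by rw [← hu, ← e, h]; simp [LL, br])
    exact ⟨prj v, by simp only [LL_prj h1 h2 h3 h0, e, hu, prj_vec]⟩

theorem pt_ne (x : E) (i : Fin 6) : pt x i ≠ 0 := by
  fin_cases i <;> simp [pt]

theorem mobH_eq (σ : Equiv.Perm (Fin 6)) (x : E) (ζ : OnePoint ℂ) :
    mobH σ x ζ = prj (LL (pt x (σ 0)) (pt x (σ 4)) (pt x (σ 5)) (vec ζ)) := rfl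

theorem mob_cont (σ : Equiv.Perm (Fin 6)) :
    ContinuousOn (fun q : E × OnePoint ℂ => mobH σ q.1 q.2) (X ×ˢ univ) := by
  intro q0 hq0
  obtain ⟨V, hV, hV'⟩ := loc_vec q0.2
  have g : ∀ x ∈ X, ∀ i j : Fin 6, i ≠ j → br (pt x (σ i)) (pt x (σ j)) ≠ 0 :=
    fun x hx i j h => hx _ _ (σ.injective.ne h)
  have h1 : ContinuousAt (fun q : E × OnePoint ℂ =>
      LL (pt q.1 (σ 0)) (pt q.1 (σ 4)) (pt q.1 (σ 5)) (V q.2)) q0 := by
    have a0 := cont_pt (σ 0)
    have a4 := cont_pt (σ 4)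
    have a5 := cont_pt (σ 5)
    have aV : ContinuousAt (fun q : E × OnePoint ℂ => V q.2) q0 := hV.comp continuousAt_snd
    unfold LL br; fun_prop
  have h2 := (prj_cont (LL_ne (g _ hq0.1 4 5 (by decide)) (g _ hq0.1 4 0 (by decide))
    (g _ hq0.1 0 5 (by decide)) hV'.self_of_nhds.1)).comp (f := fun q : E × OnePoint ℂ =>
      LL (pt q.1 (σ 0)) (pt q.1 (σ 4)) (pt q.1 (σ 5)) (V q.2)) h1
  have key : ∀ x ∈ X, ∀ ζ, V ζ ≠ 0 ∧ prj (V ζ) = ζ →
      mobH σ x ζ = prj (LL (pt x (σ 0)) (pt x (σ 4)) (pt x (σ 5)) (V ζ)) := fun x hx ζ h => by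
    rw [← LL_prj (g x hx 4 5 (by decide)) (g x hx 4 0 (by decide)) (g x hx 0 5 (by decide)) h.1,
      h.2, mobH_eq]
  refine h2.continuousWithinAt.congr_of_eventuallyEq ?_ (key _ hq0.1 _ hV'.self_of_nhds)
  filter_upwards [self_mem_nhdsWithin,
    mem_nhdsWithin_of_mem_nhds (continuousAt_snd.eventually hV')] with q hq hq'
  exact key _ hq.1 _ hq'

theorem mob_pt (σ : Equiv.Perm (Fin 6)) {x : E} (hx : x ∈ X) (i : Fin 6) :
    mobH σ x (prj (pt x (σ i))) = prj (pt (act σ x) i) := by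
  have g : ∀ i j : Fin 6, i ≠ j → br (pt x (σ i)) (pt x (σ j)) ≠ 0 :=
    fun i j h => hx _ _ (σ.injective.ne h)
  have h1 := g 4 5 (by decide)
  have h2 := g 4 0 (by decide)
  have h3 := g 0 5 (by decide)
  rw [mobH_eq, LL_prj h1 h2 h3 (pt_ne _ _), prj_eq_iff (LL_ne h1 h2 h3 (pt_ne _ _)) (pt_ne _ _)]
  have k : ∀ (A B : ℂ), B ≠ 0 → br (A, B) (A / B, 1) = 0 := fun A B hB => by
    simp only [br]; field_simp; ring
  fin_cases i
  · change br (LL _ _ _ (pt x (σ 0))) (0, 1) = 0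
    simp only [LL, br]; ring
  · exact k _ _ (mul_ne_zero (g 1 5 (by decide)) h2)
  · exact k _ _ (mul_ne_zero (g 2 5 (by decide)) h2)
  · exact k _ _ (mul_ne_zero (g 3 5 (by decide)) h2)
  · change br (LL _ _ _ (pt x (σ 4))) (1, 1) = 0
    simp only [LL, br]; ring
  · change br (LL _ _ _ (pt x (σ 5))) (1, 0) = 0
    simp only [LL, br]; ring

theorem mob_fin (σ : Equiv.Perm (Fin 6)) {x : E} (hx : x ∈ X) (z : ℂ)
    (hz : ∀ i, i ≠ 5 → z ≠ (pt x i).1) :
    mobH σ x z = (mob σ x z : ℂ) ∧ AnalyticAt ℂ (mob σ x) z ∧ deriv (mob σ x) z ≠ 0 := by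
  have g : ∀ i j : Fin 6, i ≠ j → br (pt x (σ i)) (pt x (σ j)) ≠ 0 :=
    fun i j h => hx _ _ (σ.injective.ne h)
  have h1 := g 4 5 (by decide)
  have h2 := g 4 0 (by decide)
  have h3 := g 0 5 (by decide)
  have h4 : br (z, 1) (pt x (σ 5)) ≠ 0 := by
    by_cases h : σ 5 = 5
    · simp [h, br, pt]
    · rw [br, snd_one x h, mul_one, one_mul]; exact sub_ne_zero.2 (hz _ h)
  have h5 := mul_ne_zero h4 h2
  have d : ∀ u : ℂ × ℂ, HasDerivAt (fun w : ℂ => br (w, 1) u) u.2 z := fun u => by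
    simpa [br] using ((hasDerivAt_id z).mul_const u.2).sub_const u.1
  refine ⟨if_neg h5, ?_, ?_⟩
  · refine AnalyticAt.div ?_ ?_ h5 <;> unfold br <;> fun_prop
  · have h6 : HasDerivAt (mob σ x) _ z :=
      ((d (pt x (σ 0))).mul_const (br (pt x (σ 4)) (pt x (σ 5)))).div
        ((d (pt x (σ 5))).mul_const (br (pt x (σ 4)) (pt x (σ 0)))) h5
    rw [h6.deriv]
    refine div_ne_zero ?_ (pow_ne_zero _ h5)
    convert mul_ne_zero (mul_ne_zero h1 h2) h3 using 1
    generalize br (pt x (σ 4)) (pt x (σ 5)) = A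
    generalize br (pt x (σ 4)) (pt x (σ 0)) = B
    simp only [br]; ring

end MotP

open MotP

theorem mot : S_Mot :=
  ⟨RR, hh, kk,
    { contR := cont_dl.div_const 12
      pos := fun _ hx => div_pos (dl_pos hx) (by norm_num)
      sub := fun _ hx => ball_sub hx
      self := fun x z => by simp [hh]
      cont := fun x _ => hh_cont x
      contk := fun _ hx => kk_cont hx
      inv := fun _ hx _ ha => kk_inv hx ha
      lip := fun _ hx _ ha => hh_lip hx ha
      far := fun _ hx => hh_far hx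
      near := fun _ hx => hh_near hx }⟩

theorem mobC : S_MobC := by
  refine ⟨fun x => ?_, fun x z => ?_, fun σ => ⟨mob_cont σ, fun x hx =>
    ⟨?_, mob_pt σ hx, mob_fin σ hx⟩⟩⟩
  · funext k
    fin_cases k <;> simp [act, cr, br, pt]
  · simp [mob, cr, br, pt]
  · exact LL_bij (hx _ _ (σ.injective.ne (by decide))) (hx _ _ (σ.injective.ne (by decide)))
      (hx _ _ (σ.injective.ne (by decide)))

end Pool.Agent.P.MP_5d7cf0_gt.T
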