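import Pool.Agent.P.MP_5d7cf0_gt.T.RS
import Pool.Agent.P.MP_5d7cf0_gt.T.Mot

/-!
Package Aut: a biholomorphic map of genus two curves covers a Moebius map that permutes the six
branch points; an automorphism homotopic to the identity fixes the ramification points.
-/

open Set Filter Topology Manifold Metric
open scoped ContDiff

namespace Pool.Agent.P.MP_5d7cf0_gt.T

namespace AutP

theorem hom_ne {A : Type} (f : A → ℂ) (p y : A) : hom f p y ≠ 0 := by
  by_cases h : y = p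
  · rw [h, hom_self]; simp
  · rw [hom_of_ne f h]; simp

theorem hat_eq_iff {A : Type} (f : A → ℂ) (p y y' : A) :
    hat f p y = hat f p y' ↔ br (hom f p y) (hom f p y') = 0 :=
  MotP.prj_eq_iff (hom_ne f p y) (hom_ne f p y')

theorem cr_std (x : E) (z : ℂ) : cr (pt x 0) (pt x 4) (pt x 5) (z, 1) = z := by
  simp [cr, br, pt]

variable {Y Y' : Type} [TopologicalSpace Y] [ChartedSpace ℂ Y] [TopologicalSpace Y']
  [ChartedSpace ℂ Y']

/-- two forms with independent values at two points span a two-dimensional space of forms -/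
theorem span_two (h2 : Module.finrank ℂ (Om Y) = 2) {w₁ w₂ : Y → ℂ} (h₁ : w₁ ∈ Om Y)
    (h₂ : w₂ ∈ Om Y) {a b : Y} (hb : br (w₁ a, w₂ a) (w₁ b, w₂ b) ≠ 0) {w : Y → ℂ}
    (hw : w ∈ Om Y) : ∃ α β : ℂ, ∀ y, w y = α * w₁ y + β * w₂ y := by
  have li : LinearIndependent ℂ ![(⟨w₁, h₁⟩ : Om Y), ⟨w₂, h₂⟩] := by
    rw [LinearIndependent.pair_iff]
    intro s t hst
    have e : ∀ y, s * w₁ y + t * w₂ y = 0 := fun y => by
      simpa using congrFun (congrArg Subtype.val hst) y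
    simp only [br] at hb
    exact ⟨(mul_eq_zero.mp (by linear_combination w₂ b * e a - w₂ a * e b)).resolve_right hb,
      (mul_eq_zero.mp (by linear_combination w₁ a * e b - w₁ b * e a)).resolve_right hb⟩
  have hs := li.span_eq_top_of_card_eq_finrank (by simp [h2])
  have hm : (⟨w, hw⟩ : Om Y) ∈ Submodule.span ℂ (range ![(⟨w₁, h₁⟩ : Om Y), ⟨w₂, h₂⟩]) :=
    hs ▸ Submodule.mem_top
  obtain ⟨c, hc⟩ := (Submodule.mem_span_range_iff_exists_fun ℂ).mp hm
  refine ⟨c 0, c 1, fun y => ?_⟩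
  have := congrFun (congrArg Subtype.val hc) y
  simpa [Fin.sum_univ_two] using this.symm

/-- the determinants of the homogeneous coordinates are multiplied by nonzero scalars -/
theorem key (hC : S_Can) [RS Y] [RS Y'] {x x' : E} {f : Y → ℂ} {r : Fin 6 → Y} {f' : Y' → ℂ}
    {r' : Fin 6 → Y'} (j : Y ≃ₜ Y') (h : Dbl x f r) (h' : Dbl x' f' r')
    (h2 : Module.finrank ℂ (Om Y) = 2) (h2' : Module.finrank ℂ (Om Y') = 2)
    (hj : ∀ y, Hol j y) (hj' : ∀ y, Hol j.symm y) :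
    ∃ (c : Y → ℂ) (d : ℂ), (∀ y, c y ≠ 0) ∧ d ≠ 0 ∧ ∀ y z,
      br (hom f' (r' 5) (j y)) (hom f' (r' 5) (j z)) =
        c y * c z * d * br (hom f (r 5) y) (hom f (r 5) z) := by
  obtain ⟨w₁, h₁, w₂, h₂, hw⟩ := hC Y x f r h h2
  obtain ⟨v₁, k₁, v₂, k₂, hv⟩ := hC Y' x' f' r' h' h2'
  choose a ha hw using hw
  choose b hb hv using hv
  have hind : br (w₁ (r 0), w₂ (r 0)) (w₁ (r 5), w₂ (r 5)) ≠ 0 := by
    rw [hw, hw, h.2.1, h.2.1]
    simp [br, pt, ha]
  obtain ⟨α, β, e₁⟩ := span_two h2 h₁ h₂ hind (pull_mem hj k₁)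
  obtain ⟨γ, δ, e₂⟩ := span_two h2 h₁ h₂ hind (pull_mem hj k₂)
  have hD : ∀ y, D (zc (j y) ∘ j) y ≠ 0 := fun y =>
    (hj y).D_ne (hj' (j y)) (Eventually.of_forall j.symm_apply_apply)
  have main : ∀ y z, br (hom f' (r' 5) (j y)) (hom f' (r' 5) (j z)) =
      a y / (b (j y) * D (zc (j y) ∘ j) y) * (a z / (b (j z) * D (zc (j z) ∘ j) z)) *
        (α * δ - β * γ) * br (hom f (r 5) y) (hom f (r 5) z) := fun y z => by
    have t : ∀ y, (hom f' (r' 5) (j y)).1 = a y / (b (j y) * D (zc (j y) ∘ j) y) *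
        (α * (hom f (r 5) y).1 + β * (hom f (r 5) y).2) ∧
        (hom f' (r' 5) (j y)).2 = a y / (b (j y) * D (zc (j y) ∘ j) y) *
        (γ * (hom f (r 5) y).1 + δ * (hom f (r 5) y).2) := fun y => by
      have u1 := congrArg Prod.fst (hw y)
      have u2 := congrArg Prod.snd (hw y)
      have u3 := congrArg Prod.fst (hv (j y))
      have u4 := congrArg Prod.snd (hv (j y))
      have u5 := e₁ y
      have u6 := e₂ y
      simp only [pull, Prod.smul_fst, Prod.smul_snd, smul_eq_mul] at u1 u2 u3 u4 u5 u6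
      rw [u1, u2] at u5 u6
      rw [u3] at u5
      rw [u4] at u6
      have := hb (j y)
      have := hD y
      constructor
      · field_simp
        linear_combination u5
      · field_simp
        linear_combination u6
    simp only [br]
    rw [(t y).1, (t y).2, (t z).1, (t z).2]
    ring
  refine ⟨_, α * δ - β * γ, fun y => div_ne_zero (ha y) (mul_ne_zero (hb _) (hD y)), fun h0 => ?_,
    main⟩
  have := main (j.symm (r' 0)) (j.symm (r' 5))
  rw [h0, j.apply_symm_apply, j.apply_symm_apply, h'.2.1, h'.2.1] at this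
  simp [br, pt] at this

end AutP

open AutP in
theorem aT (hC : S_Can) (hV : S_Cvr) : S_AT := by
  intro Y Y' _ _ _ _ _ _ x x' f r f' r' j h h' h2 h2' hj hj'
  obtain ⟨c, d, hc, hd, hb⟩ :=
    key hC j h h' h2 h2' (mdiff_iff_hol.mp hj) (mdiff_iff_hol.mp hj')
  have hcr : ∀ p q s y, cr (hom f' (r' 5) (j p)) (hom f' (r' 5) (j q)) (hom f' (r' 5) (j s))
      (hom f' (r' 5) (j y)) =
      cr (hom f (r 5) p) (hom f (r 5) q) (hom f (r 5) s) (hom f (r 5) y) := fun p q s y => by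
    have hK : c y * c p * c q * c s * d * d ≠ 0 := by simp [hc, hd]
    rw [cr, cr, hb, hb, hb, hb]
    refine Eq.trans ?_ (mul_div_mul_left _ _ hK)
    congr 1 <;> ring
  have hr : ∀ i, ∃ k, r k = j.symm (r' i) := fun i => by
    by_contra hn
    obtain ⟨y, hy, e⟩ := ((hV Y x f r h).2.2.2 (j.symm (r' i)) hn).2
    refine hy (j.eq_symm_apply.mpr ((hV Y' x' f' r' h').2.1 i _ ?_))
    rw [hat_eq_iff] at e ⊢
    rw [← j.apply_symm_apply (r' i), hb, e, mul_zero]
  choose s hs using hr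
  have hsi : Function.Injective s := fun i k e =>
    h'.inj (j.symm.injective (by rw [← hs, ← hs, e]))
  let σ : Equiv.Perm (Fin 6) := Equiv.ofBijective s (Finite.injective_iff_bijective.mp hsi)
  have hσ : ∀ i, j (r (σ i)) = r' i := fun i => by
    rw [show σ i = s i from rfl, hs, j.apply_symm_apply]
  have hp : ∀ y, cr (pt x' 0) (pt x' 4) (pt x' 5) (hom f' (r' 5) (j y)) =
      cr (pt x (σ 0)) (pt x (σ 4)) (pt x (σ 5)) (hom f (r 5) y) := fun y => by
    have := hcr (r (σ 0)) (r (σ 4)) (r (σ 5)) y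
    rwa [hσ, hσ, hσ, h'.2.1, h'.2.1, h'.2.1, h.2.1, h.2.1, h.2.1] at this
  refine ⟨σ, funext fun k => ?_, hσ, fun y hy => ?_⟩
  · have := hp (r (σ (![1, 2, 3] k)))
    rw [hσ, h'.2.1, h.2.1] at this
    rw [act, ← this]
    fin_cases k <;> simp [cr, br, pt]
  · have h5 : j y ≠ r' 5 := fun e => hy ⟨σ 5, j.injective ((hσ 5).trans e.symm)⟩
    have := hp y
    rwa [hom_of_ne f' h5, hom_of_ne f fun e => hy ⟨5, e.symm⟩, cr_std] at this

open AutP in
theorem nT (hC : S_Can) (hV : S_Cvr) (hP : S_P3) : S_NT := by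
  intro Y _ _ _ x f r j h h2 hj hh i
  obtain ⟨w₁, h₁, w₂, h₂, hw⟩ := hC Y x f r h h2
  have e₁ := congrFun (hP Y j (mdiff_iff_hol.mp hj) hh w₁ h₁) (r i)
  have e₂ := congrFun (hP Y j (mdiff_iff_hol.mp hj) hh w₂ h₂) (r i)
  obtain ⟨a, ha, u⟩ := hw (r i)
  obtain ⟨b, hb, v⟩ := hw (j (r i))
  refine (hV Y x f r h).2.1 i _ ((hat_eq_iff _ _ _ _).mpr ?_)
  have u1 := congrArg Prod.fst u
  have u2 := congrArg Prod.snd u
  have u3 := congrArg Prod.fst v
  have u4 := congrArg Prod.snd v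
  simp only [pull, Prod.smul_fst, Prod.smul_snd, smul_eq_mul, ContinuousMap.coe_coe]
    at u1 u2 u3 u4 e₁ e₂
  rw [u1, u3] at e₁
  rw [u2, u4] at e₂
  refine (mul_eq_zero.mp (?_ : a * _ = 0)).resolve_left ha
  simp only [br]
  linear_combination (hom f (r 5) (j (r i))).2 * e₁ - (hom f (r 5) (j (r i))).1 * e₂

end Pool.Agent.P.MP_5d7cf0_gt.T
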