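import Pool.Agent.P.MP_5d7cf0_gt.T.St
import Pool.Agent.P.MP_f981b0_an.R1.Pompeiu

/-!
Package CT: the Cauchy transform solves the inhomogeneous Cauchy-Riemann equation, and entire
functions of polynomial growth are polynomials.
-/

open Set Filter Topology MeasureTheory Metric
open scoped ContDiff Convolution

noncomputable section

namespace Pool.Agent.P.MP_5d7cf0_gt.T

namespace CTP

/-- the kernel -/
def ker (z : ℂ) : ℂ := z⁻¹

/-- multiplication as a real bilinear map -/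
abbrev LL : ℂ →L[ℝ] ℂ →L[ℝ] ℂ := ContinuousLinearMap.mul ℝ ℂ

lemma ker_loc : LocallyIntegrable ker volume := by
  intro x
  refine ⟨ball 0 (‖x‖ + 1), isOpen_ball.mem_nhds (by simp), ?_⟩
  have h := Pool.Agent.P.MP_f981b0_an.R1.intOn_zero (‖x‖ + 1)
  refine Integrable.mono' h ?_ (Eventually.of_forall fun z => ?_)
  · exact (measurable_inv : Measurable (fun z : ℂ => z⁻¹)).aestronglyMeasurable
  · simp [ker]

lemma conv_eq (a : ℂ → ℂ) (z : ℂ) : (ker ⋆[LL, volume] a) z = ∫ ζ, a ζ / (z - ζ) := by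
  rw [convolution_eq_swap]
  refine integral_congr_ae (Eventually.of_forall fun ζ => ?_)
  simp [ker, div_eq_mul_inv, mul_comm]

lemma ct_eq (a : ℂ → ℂ) : ct a = fun z => (Real.pi : ℂ)⁻¹ * (ker ⋆[LL, volume] a) z := by
  funext z
  rw [conv_eq]
  rfl

lemma ct_smooth {a : ℂ → ℂ} (ha : ContDiff ℝ ∞ a) (hc : HasCompactSupport a) :
    ContDiff ℝ ∞ (ct a) := by
  rw [ct_eq]
  exact contDiff_const.mul (hc.contDiff_convolution_right LL ker_loc ha)

lemma fderiv_ct {a : ℂ → ℂ} (ha : ContDiff ℝ 1 a) (hc : HasCompactSupport a) (z v : ℂ) :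
    fderiv ℝ (ct a) z v =
      (Real.pi : ℂ)⁻¹ * (ker ⋆[LL, volume] fun t => fderiv ℝ a t v) z := by
  have h := (hc.hasFDerivAt_convolution_right LL ker_loc ha z).const_mul ((Real.pi : ℂ)⁻¹)
  rw [ct_eq, h.fderiv]
  rw [ContinuousLinearMap.smul_apply,
    convolution_precompR_apply LL ker_loc (hc.fderiv ℝ) (ha.continuous_fderiv one_ne_zero)]
  rfl

lemma int_conv {b : ℂ → ℂ} (hb : Continuous b) (hc : HasCompactSupport b) (z : ℂ) :
    Integrable (fun t => ker t * b (z - t)) volume :=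
  hc.convolutionExists_right LL ker_loc hb z

lemma dbar_ct {a : ℂ → ℂ} (ha : ContDiff ℝ 1 a) (hc : HasCompactSupport a) (z : ℂ) :
    dbar (ct a) z = ct (dbar a) z := by
  have hcont : ∀ v : ℂ, Continuous fun t => fderiv ℝ a t v := fun v =>
    (ha.continuous_fderiv one_ne_zero).clm_apply continuous_const
  have hsupp : ∀ v : ℂ, HasCompactSupport fun t => fderiv ℝ a t v := fun v =>
    hc.fderiv_apply ℝ v
  have h1 := int_conv (hcont 1) (hsupp 1) z
  have h2 := int_conv (hcont Complex.I) (hsupp Complex.I) z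
  rw [ct_eq (dbar a)]
  unfold dbar
  rw [fderiv_ct ha hc, fderiv_ct ha hc]
  simp only [convolution_def, ContinuousLinearMap.mul_apply']
  have e : (fun t => ker t * ((1 / 2 : ℂ) * (fderiv ℝ a (z - t) 1 +
      Complex.I * fderiv ℝ a (z - t) Complex.I))) = fun t => (1 / 2 : ℂ) *
      (ker t * fderiv ℝ a (z - t) 1 + Complex.I * (ker t * fderiv ℝ a (z - t) Complex.I)) := by
    funext t; ring
  rw [e, integral_const_mul, integral_add h1 (h2.const_mul _), integral_const_mul]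
  ring

lemma ct_dbar {a : ℂ → ℂ} (ha : ContDiff ℝ 1 a) (hc : HasCompactSupport a) (z : ℂ) :
    ct (dbar a) z = a z := by
  obtain ⟨R, hR⟩ := hc.isCompact.isBounded.subset_ball (0 : ℂ)
  have hout : ∀ w : ℂ, R ≤ ‖w‖ → w ∉ tsupport a := fun w hw hm => by
    have := hR hm
    simp at this
    linarith
  have h0 : ∀ w : ℂ, R ≤ ‖w‖ → Pool.Agent.P.MP_f981b0_an.R1.dbar a w = 0 := fun w hw => by
    have : fderiv ℝ a w = 0 := by
      by_contra hne
      exact hout w hw (support_fderiv_subset ℝ hne)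
    simp [Pool.Agent.P.MP_f981b0_an.R1.dbar, this]
  have hdec : ∀ w : ℂ, R ≤ ‖w‖ → ‖a w‖ ≤ 0 / ‖w‖ := fun w hw => by
    have : a w = 0 := image_eq_zero_of_notMem_tsupport (hout w hw)
    simp [this]
  have h := Pool.Agent.P.MP_f981b0_an.R1.pompeiu ha h0 hdec z
  unfold Pool.Agent.P.MP_f981b0_an.R1.cauchy at h
  have e : ∫ ζ, dbar a ζ / (z - ζ) =
      -∫ ζ, Pool.Agent.P.MP_f981b0_an.R1.dbar a ζ / (ζ - z) := by
    rw [← integral_neg]
    refine integral_congr_ae (Eventually.of_forall fun ζ => ?_)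
    show dbar a ζ / (z - ζ) = -(dbar a ζ / (ζ - z))
    rw [← neg_sub ζ z, div_neg]
  unfold ct
  rw [e, h]
  have hpi : (Real.pi : ℂ) ≠ 0 := by exact_mod_cast Real.pi_ne_zero
  field_simp

lemma off_diff {K : Set ℂ} {a : ℂ → ℂ} (hK : IsCompact K) (ha : ContinuousOn a K) {z : ℂ}
    (hz : z ∉ K) : DifferentiableAt ℂ (fun w => ∫ ζ in K, a ζ / (w - ζ)) z := by
  obtain ⟨ε, hε, hb⟩ := Metric.isOpen_iff.1 hK.isClosed.isOpen_compl z hz
  obtain ⟨M, hM⟩ := hK.exists_bound_of_continuousOn ha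
  have hfar : ∀ w ∈ ball z (ε / 2), ∀ ζ ∈ K, ε / 2 ≤ ‖w - ζ‖ := fun w hw ζ hζ => by
    by_contra hlt
    push Not at hlt
    apply hb (_ : ζ ∈ ball z ε) hζ
    rw [mem_ball, dist_eq_norm] at *
    have := norm_sub_le_norm_sub_add_norm_sub ζ w z
    rw [norm_sub_rev ζ w] at this
    linarith
  have hne : ∀ w ∈ ball z (ε / 2), ∀ ζ ∈ K, w - ζ ≠ 0 := fun w hw ζ hζ h => by
    have := hfar w hw ζ hζ
    rw [h, norm_zero] at this
    linarith
  have hcont : ∀ w ∈ ball z (ε / 2), ContinuousOn (fun ζ => a ζ / (w - ζ)) K := fun w hw =>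
    ha.div (continuous_const.sub continuous_id).continuousOn (hne w hw)
  have hz' : z ∈ ball z (ε / 2) := mem_ball_self (by positivity)
  have hfin : IsFiniteMeasure (volume.restrict K) := ⟨by
    rw [Measure.restrict_apply_univ]; exact hK.measure_lt_top⟩
  have key := hasDerivAt_integral_of_dominated_loc_of_deriv_le (μ := volume.restrict K)
    (F := fun w ζ => a ζ / (w - ζ)) (F' := fun w ζ => -(a ζ / (w - ζ) ^ 2)) (x₀ := z)
    (s := ball z (ε / 2)) (bound := fun _ => M / (ε / 2) ^ 2) (ball_mem_nhds z (by positivity))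
    (by
      filter_upwards [ball_mem_nhds z (half_pos hε)] with w hw
      exact (hcont w hw).aestronglyMeasurable hK.measurableSet)
    ((hcont z hz').integrableOn_compact hK)
    (by
      refine ContinuousOn.aestronglyMeasurable ?_ hK.measurableSet
      exact (ha.div ((continuous_const.sub continuous_id).pow 2).continuousOn
        fun ζ hζ => pow_ne_zero 2 (hne z hz' ζ hζ)).neg)
    (by
      filter_upwards [ae_restrict_mem hK.measurableSet] with ζ hζ w hw
      rw [norm_neg, norm_div, norm_pow]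
      have h1 := hfar w hw ζ hζ
      have h2 := hM ζ hζ
      have h3 : 0 ≤ M := (norm_nonneg _).trans h2
      gcongr)
    (integrable_const _)
    (by
      filter_upwards [ae_restrict_mem hK.measurableSet] with ζ hζ w hw
      have h1 : HasDerivAt (fun w : ℂ => w - ζ) 1 w := (hasDerivAt_id w).sub_const ζ
      have h2 := (h1.inv (hne w hw ζ hζ)).const_mul (a ζ)
      have e : -(a ζ / (w - ζ) ^ 2) = a ζ * (-1 / (w - ζ) ^ 2) := by ring
      rw [e]
      exact h2)
  exact key.2.differentiableAt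

lemma off_analytic {K : Set ℂ} {a : ℂ → ℂ} (hK : IsCompact K) (ha : ContinuousOn a K) {z : ℂ}
    (hz : z ∉ K) : AnalyticAt ℂ (fun w => ∫ ζ in K, a ζ / (w - ζ)) z := by
  have h : DifferentiableOn ℂ (fun w => ∫ ζ in K, a ζ / (w - ζ)) Kᶜ := fun w hw =>
    (off_diff hK ha hw).differentiableWithinAt
  exact h.analyticAt (hK.isClosed.isOpen_compl.mem_nhds hz)

lemma bdd_const {G : ℂ → ℂ} {C : ℝ} (hG : Differentiable ℂ G)
    (h : ∀ᶠ z in Bornology.cobounded ℂ, ‖G z‖ ≤ C) (z : ℂ) : G z = G 0 := by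
  have hb : Bornology.IsBounded {z : ℂ | ‖G z‖ ≤ C}ᶜ := Bornology.isBounded_compl_iff.2 h
  obtain ⟨R, hR⟩ := hb.subset_closedBall (0 : ℂ)
  obtain ⟨M, hM⟩ := (isCompact_closedBall (0 : ℂ) R).exists_bound_of_continuousOn
    hG.continuous.continuousOn
  refine hG.apply_eq_apply_of_bounded ?_ z 0
  refine isBounded_iff_forall_norm_le.2 ⟨max C M, ?_⟩
  rintro _ ⟨w, rfl⟩
  by_cases hw : ‖G w‖ ≤ C
  · exact hw.trans (le_max_left _ _)
  · exact (hM w (hR hw)).trans (le_max_right _ _)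

lemma poly_aux (n : ℕ) : ∀ (G : ℂ → ℂ) (C : ℝ), Differentiable ℂ G →
    (∀ᶠ z in Bornology.cobounded ℂ, ‖G z‖ ≤ C * ‖z‖ ^ n) →
    ∃ Q : Polynomial ℂ, Q.natDegree ≤ n ∧ ∀ z, G z = Q.eval z := by
  induction n with
  | zero =>
    intro G C hG h
    refine ⟨Polynomial.C (G 0), by simp, fun z => ?_⟩
    rw [Polynomial.eval_C]
    exact bdd_const (C := C) hG (by simpa using h) z
  | succ n ih =>
    intro G C hG h
    have hd : Differentiable ℂ (dslope G 0) := by
      rw [← differentiableOn_univ] at hG ⊢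
      exact (Complex.differentiableOn_dslope univ_mem).2 hG
    have hid : ∀ z, G z = G 0 + z * dslope G 0 z := fun z => by
      have := sub_smul_dslope G 0 z
      rw [sub_zero, smul_eq_mul] at this
      rw [this]; ring
    have h1 : ∀ᶠ z : ℂ in Bornology.cobounded ℂ, 1 ≤ ‖z‖ :=
      (tendsto_norm_cobounded_atTop (E := ℂ)).eventually_ge_atTop 1
    obtain ⟨Q, hQ, hQe⟩ := ih (dslope G 0) (C + ‖G 0‖) hd (by
      filter_upwards [h, h1] with z hz hz1
      have hpos : 0 < ‖z‖ := by linarith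
      have e : ‖z‖ * ‖dslope G 0 z‖ = ‖G z - G 0‖ := by
        rw [← norm_mul, hid z]; congr 1; ring
      have h2 : ‖G z - G 0‖ ≤ C * ‖z‖ ^ (n + 1) + ‖G 0‖ := (norm_sub_le _ _).trans (by linarith)
      have h3 : (1 : ℝ) ≤ ‖z‖ ^ (n + 1) := one_le_pow₀ hz1
      have h4 : ‖G 0‖ ≤ ‖G 0‖ * ‖z‖ ^ (n + 1) := le_mul_of_one_le_right (norm_nonneg _) h3
      refine le_of_mul_le_mul_left ?_ hpos
      rw [e]
      calc _ ≤ C * ‖z‖ ^ (n + 1) + ‖G 0‖ * ‖z‖ ^ (n + 1) := by linarith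
        _ = _ := by ring)
    refine ⟨Polynomial.C (G 0) + Polynomial.X * Q, ?_, fun z => ?_⟩
    · refine (Polynomial.natDegree_add_le _ _).trans (max_le (by simp) ?_)
      refine Polynomial.natDegree_mul_le.trans ?_
      rw [Polynomial.natDegree_X]; omega
    · rw [hid z, hQe z]; simp

end CTP

theorem cT : S_CT :=
  ⟨fun _ ha hc => ⟨CTP.ct_smooth ha hc, fun z => by
      have h1 := ha.of_le (m := 1) (by exact_mod_cast le_top)
      rw [CTP.dbar_ct h1 hc, CTP.ct_dbar h1 hc]⟩,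
    fun _ _ hK ha _ hz => CTP.off_analytic hK ha hz⟩

theorem poly : S_Poly := fun G n C hG h => CTP.poly_aux n G C hG h

end Pool.Agent.P.MP_5d7cf0_gt.T
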