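import Pool.Agent.P.MP_5d7cf0_gt.T.Six

/-!
Package Can: on a surface of genus two the double cover of the projective line is the canonical
map.
-/

open Set Filter Topology Manifold Metric
open scoped ContDiff

namespace Pool.Agent.P.MP_5d7cf0_gt.T

namespace CanP

open SixP

variable {Y : Type} [TopologicalSpace Y] [ChartedSpace ℂ Y] {f W φ u H w v : Y → ℂ}
  {R : Finset Y} {ι : Y → Y} {p : Y}

/-- a function whose square agrees with a holomorphic one is bounded -/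
theorem bdd_sq (hH : An H p) (e : ∀ᶠ y in 𝓝[≠] p, u y ^ 2 = H y) :
    ∃ C : ℝ, ∀ᶠ y in 𝓝[≠] p, ‖u y‖ ≤ C := by
  obtain ⟨C, hC⟩ := bdd hH e
  refine ⟨C + 1, hC.mono fun y hy => ?_⟩
  rw [norm_pow] at hy
  nlinarith [norm_nonneg (u y), sq_nonneg (‖u y‖ - 1)]

/-- holomorphic forms that agree near a point agree at the point -/
theorem hf_eq (hw : Hf w p) (hv : Hf v p) (e : ∀ᶠ y in 𝓝[≠] p, w y = v y) : w p = v p :=
  tendsto_nhds_unique (hw.tendsto.mono_left (nhdsWithin_le_nhds (s := {p}ᶜ)))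
    ((hv.tendsto.mono_left nhdsWithin_le_nhds).congr' (e.mono fun y hy => by simp only [hy]))

variable [RS Y]

/-- the form `f df / W` is bounded at the branch point at infinity -/
theorem atInf (h : Two f {p} R ι) (hW : IsW f {p} R ι W) (hR : R.card = 5) (h1 : An φ p)
    (h2 : φ p = 0) (h3 : ¬∀ᶠ y in 𝓝 p, φ y = φ p) (h4 : ∀ᶠ y in 𝓝[≠] p, φ y * f y = 1) :
    ∃ C : ℝ, ∀ᶠ y in 𝓝[≠] p, ‖f y / W y * D f y / D (zc p) y‖ ≤ C := by
  have h5 : D φ p = 0 := by
    by_contra h5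
    obtain ⟨k, hk⟩ := even_card hW (p := p) ⟨φ, h1, h2, h5, h4⟩
    omega
  obtain ⟨n, ψ, hn, h6, h7, h8, h9⟩ := h1.nf h3
  obtain ⟨m, rfl⟩ := Nat.exists_eq_add_of_le' ((nf_D hn h6 h7 h8 h9).mp h5)
  have hG : An (fun y => ∏ r ∈ R, (1 - f r * φ y)) p := an_G h1
  have hG0 : (∏ r ∈ R, (1 - f r * φ p)) ≠ 0 := by simp [h2]
  refine bdd_sq (H := fun y => ((m + 2 : ℕ) : ℂ) ^ 2 * ψ y ^ m * (D ψ y / D (zc p) y) ^ 2 /
    ∏ r ∈ R, (1 - f r * φ y))
    (An.div (((an_const _).mul (h6.pow m)).mul (An.pow h6.hf 2)) hG hG0) ?_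
  filter_upwards [h4, eventually_eventually_nhdsWithin.mpr h4, self_mem_nhdsWithin,
    eventually_notMem R.finite_toSet p,
    mem_nhdsWithin_of_mem_nhds (h1.eventually.and (h6.eventually.and h9.eventually_nhds))]
    with y h10 h11 h12 h13 h14
  have hP : y ∉ ({p} : Finset Y) := fun h15 => h12 (Finset.mem_singleton.mp h15)
  have h15 : φ y ≠ 0 := left_ne_zero_of_mul_eq_one h10
  rw [(isOpen_compl_singleton.nhdsWithin_eq h12)] at h11
  have h16 : φ y = ψ y ^ (m + 2) := by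
    have := h14.2.2.self_of_nhds
    rwa [h2, zero_add] at this
  have h17 : ψ y ≠ 0 := fun h0 => h15 (by rw [h16, h0, zero_pow (by omega)])
  have h18 : D φ y = ((m + 2 : ℕ) : ℂ) * ψ y ^ (m + 1) * D ψ y := by
    rw [D_congr (v := fun y => φ p + ψ y ^ (m + 2)) h14.2.2,
      D_add (an_const _) (h14.2.1.pow _), D_const, D_pow h14.2.1, zero_add]
    rfl
  have h19 : ∏ r ∈ R, (1 - f r * φ y) = W y ^ 2 * φ y ^ 5 := by
    rw [(hW y hP).2.1, ← hR, ← Finset.prod_const, ← Finset.prod_mul_distrib]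
    exact Finset.prod_congr rfl fun r _ => by linear_combination -h10
  have h20 : W y ≠ 0 := W_ne h hW hP h13
  rw [h19, D_of_mul_eq_one h14.1 h11, eq_inv_of_mul_eq_one_right h10, h18, h16]
  field_simp
  ring

/-- the two forms `f df / W` and `df / W` -/
theorem forms (hI : S_Iota) (h : Two f {p} R ι) (hW : IsW f {p} R ι W) (hR : R.card = 5) :
    ∃ η₁ ∈ Om Y, ∃ η₂ ∈ Om Y, η₂ p = 0 ∧ (∀ y, y ≠ p → η₁ y = f y * η₂ y) ∧
      ∀ y, y ≠ p → y ∉ R → η₂ y ≠ 0 := by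
  have hA : ((({p} : Finset Y) : Set Y) ∪ R).Finite :=
    ({p} : Finset Y).finite_toSet.union R.finite_toSet
  have hne : ∀ y, y ≠ p → y ∉ ({p} : Finset Y) := fun y hy h1 => hy (Finset.mem_singleton.mp h1)
  obtain ⟨φ, h1, h2, h3, h4⟩ := exists_inv (f := f) (p := p)
    (eventually_nhdsWithin_of_forall fun y hy => h.an y (hne y hy))
    (h.pole p (Finset.mem_singleton_self p))
  obtain ⟨C, hC⟩ := atInf h hW hR h1 h2 h3 h4
  have key : ∀ m : ℕ, (∃ C : ℝ, ∀ᶠ y in 𝓝[≠] p, ‖f y ^ m / W y * D f y / D (zc p) y‖ ≤ C) →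
      ∃ η ∈ Om Y, ∀ y, y ≠ p → y ∉ R → η y = f y ^ m / W y * D f y := fun m hm => by
    obtain ⟨η, h5, h6⟩ := om_extend (w := fun y => f y ^ m / W y * D f y) hA (fun y hy => by
      have h5 : y ∉ ({p} : Finset Y) := fun h5 => hy (Or.inl h5)
      have h6 : y ∉ R := fun h6 => hy (Or.inr h6)
      exact Hf.mul (((h.an y h5).pow m).div (hW y h5).1 (W_ne h hW h5 h6)) (h.an y h5).hf) (by
      rintro a (ha | ha)
      · obtain rfl : a = p := Finset.mem_singleton.mp ha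
        exact hm
      · obtain ⟨ψ, h5, h6, h7, h8⟩ := ((hI Y f {p} R ι h).2.2.2.2 a ha).2
        obtain ⟨V, h9, h10, h11⟩ := ram_data h hW ha h5 h6 h7 h8
        refine bdd (v := fun y => 2 * f y ^ m / V y * (D ψ y / D (zc a) y))
          (An.mul (((an_const 2).mul ((h.an a (h.disj a ha)).pow m)).div h9 h10) h5.hf) ?_
        filter_upwards [h11] with y hy
        obtain ⟨h12, -, h13, h14, h15⟩ := hy
        rw [h14, h15]
        field_simp)
    exact ⟨η, h5, fun y h7 h8 => h6 y fun h9 => h9.elim (hne y h7) h8⟩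
  obtain ⟨η₁, h5, h6⟩ := key 1 ⟨C, by simpa only [pow_one] using hC⟩
  obtain ⟨η₂, h7, h8⟩ := key 0 (by
    obtain ⟨C', hC'⟩ := bdd (u := φ) h1 (Eventually.of_forall fun _ => rfl)
    refine ⟨C' * C, ?_⟩
    filter_upwards [h4, hC, hC'] with y h9 h10 h11
    have h12 : f y ^ 0 / W y * D f y / D (zc p) y = φ y * (f y / W y * D f y / D (zc p) y) := by
      rw [pow_zero, ← h9]
      ring
    rw [h12, norm_mul]
    exact mul_le_mul h11 h10 (norm_nonneg _) ((norm_nonneg _).trans h11))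
  have h9 : ∀ y, y ≠ p → y ∉ R → η₁ y = f y * η₂ y := fun y h9 h10 => by
    rw [h6 y h9 h10, h8 y h9 h10]
    ring
  refine ⟨η₁, h5, η₂, h7, ?_, fun y hy => ?_, fun y h10 h11 => ?_⟩
  · have h10 := hf_eq (h7 p) (Hf.mul h1 (h5 p)) (by
      filter_upwards [h4, self_mem_nhdsWithin, eventually_notMem R.finite_toSet p]
        with y h10 h11 h12
      rw [h9 y h11 h12, ← mul_assoc, h10, one_mul])
    simpa only [h2, zero_mul] using h10
  · refine hf_eq (h5 y) (Hf.mul (h.an y (hne y hy)) (h7 y)) ?_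
    filter_upwards [eventually_notMem hA y] with z hz
    exact h9 z (fun h10 => hz (Or.inl (by simp [h10]))) fun h10 => hz (Or.inr h10)
  · rw [h8 y h10 h11]
    exact mul_ne_zero (div_ne_zero (by simp) (W_ne h hW (hne y h10) h11)) (h.der y (hne y h10) h11)

end CanP

theorem can (hW : S_W) (hI : S_Iota) (hB : S_Bpf) : S_Can := by
  classical
  intro Y _ _ _ x f r hd hg
  obtain ⟨R, ι, h, hR, -⟩ := hd.two
  obtain ⟨W, hW⟩ := hW Y f {r 5} R ι h (exists_ne_zero_of_finrank hg)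
  have hc : R.card = 5 := by
    have h1 : R = (Finset.univ.erase (5 : Fin 6)).image r := by
      ext y
      simp only [hR, Finset.mem_image, Finset.mem_erase, Finset.mem_univ, and_true]
      exact ⟨fun ⟨i, h1, h2⟩ => ⟨i, h1, h2.symm⟩, fun ⟨i, h1, h2⟩ => ⟨i, h1, h2.symm⟩⟩
    rw [h1, Finset.card_image_of_injective _ hd.inj]
    rfl
  obtain ⟨η₁, h1, η₂, h2, h3, h4, h5⟩ := CanP.forms hI h hW hc
  have hli : LinearIndependent ℂ ![(⟨η₁, h1⟩ : Om Y), ⟨η₂, h2⟩] := by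
    refine LinearIndependent.pair_iff.mpr fun a b hab => ?_
    have key : ∀ c, c ∉ f '' R → a * c + b = 0 := fun c hc => by
      obtain ⟨y, h6, h7⟩ := (hI Y f {r 5} R ι h).1 c
      have h8 : y ≠ r 5 := fun h8 => h6 (Finset.mem_singleton.mpr h8)
      have h9 : y ∉ R := fun h9 => hc ⟨y, h9, h7⟩
      have h10 : a * η₁ y + b * η₂ y = 0 := congrFun (congrArg Subtype.val hab) y
      rw [h4 y h8, h7] at h10
      refine mul_right_cancel₀ (h5 y h8 h9) ?_
      linear_combination h10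
    obtain ⟨c, hc, c', hc', hne⟩ := (R.finite_toSet.image f).infinite_compl.nontrivial
    have h6 : a = 0 := mul_right_cancel₀ (sub_ne_zero.mpr hne) (by
      linear_combination key c hc - key c' hc')
    refine ⟨h6, ?_⟩
    simpa [h6] using key c hc
  have hspan := hli.span_eq_top_of_card_eq_finrank (by simp [hg])
  have hnz : ∀ y, η₁ y = 0 → η₂ y ≠ 0 := fun y h6 h7 => by
    obtain ⟨w, h8, h9⟩ := hB Y (exists_ne_zero_of_finrank hg) y
    have h10 : (⊤ : Submodule ℂ (Om Y)) ≤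
        LinearMap.ker ((LinearMap.proj y : (Y → ℂ) →ₗ[ℂ] ℂ) ∘ₗ (Om Y).subtype) := by
      rw [← hspan, Submodule.span_le]
      rintro _ ⟨i, rfl⟩
      fin_cases i
      · exact h6
      · exact h7
    exact h9 (h10 (Submodule.mem_top (x := (⟨w, h8⟩ : Om Y))))
  refine ⟨η₁, h1, η₂, h2, fun y => ?_⟩
  by_cases hy : y = r 5
  · subst hy
    refine ⟨η₁ (r 5), fun h6 => hnz _ h6 h3, ?_⟩
    rw [hom_self, h3]
    simp
  · refine ⟨η₂ y, fun h6 => hnz y (by rw [h4 y hy, h6, mul_zero]) h6, ?_⟩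
    rw [hom_of_ne f hy, h4 y hy]
    simp [mul_comm]

end Pool.Agent.P.MP_5d7cf0_gt.T
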