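import Pool.Agent.P.MP_5d7cf0_gt.T.St

/-!
Package TopA: additive homotopy invariant functions on paths.
-/

open Set Filter Topology

namespace Pool.Agent.P.MP_5d7cf0_gt.T

namespace TopAP

variable {Y : Type} [TopologicalSpace Y]

theorem c_refl {c : PF Y} (hc : IsAdd c) (a : Y) : c a a (Path.refl a) = 0 := by
  have h1 := hc.trans a a a (Path.refl a) (Path.refl a)
  have h2 := hc.homot a a _ _ (Path.Homotopic.trans_refl (Path.refl a))
  rw [h2] at h1
  linear_combination -h1

theorem c_symm {c : PF Y} (hc : IsAdd c) {a b : Y} (p : Path a b) : c b a p.symm = -c a b p := by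
  have h1 := hc.trans a b a p p.symm
  have h2 := hc.homot a a _ _ (Path.Homotopic.trans_symm p)
  rw [h2, c_refl hc] at h1
  linear_combination -h1

theorem c_cast (c : PF Y) {a b a' b' : Y} (p : Path a b) (h1 : a' = a) (h2 : b' = b) :
    c a' b' (p.cast h1 h2) = c a b p := by
  subst h1 h2
  rfl

theorem ev_homot {y : Y} (χ : H1 Y y) {p q : Path y y} (h : p.Homotopic q) : ev χ p = ev χ q := by
  unfold ev
  rw [Path.Homotopic.Quotient.eq.2 h]

theorem ev_trans {y : Y} (χ : H1 Y y) (p q : Path y y) : ev χ (p.trans q) = ev χ p + ev χ q := by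
  have : (FundamentalGroup.fromPath (Path.Homotopic.Quotient.mk (p.trans q)) :
      FundamentalGroup Y y) = FundamentalGroup.fromPath (Path.Homotopic.Quotient.mk q) *
        FundamentalGroup.fromPath (Path.Homotopic.Quotient.mk p) := rfl
  unfold ev
  rw [this, ofMul_mul, map_add, add_comm]

theorem ev_refl {y : Y} (χ : H1 Y y) : ev χ (Path.refl y) = 0 := by
  have h1 := ev_trans χ (Path.refl y) (Path.refl y)
  rw [ev_homot χ (Path.Homotopic.trans_refl (Path.refl y))] at h1
  linear_combination -h1

theorem ev_symm {y : Y} (χ : H1 Y y) (p : Path y y) : ev χ p.symm = -ev χ p := by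
  have h1 := ev_trans χ p p.symm
  rw [ev_homot χ (Path.Homotopic.trans_symm p), ev_refl] at h1
  linear_combination -h1

theorem cancel {y a b d : Y} (A : Path y a) (B : Path y b) (D : Path y d) (p : Path a b)
    (q : Path b d) : (A.trans ((p.trans q).trans D.symm)).Homotopic
      ((A.trans (p.trans B.symm)).trans (B.trans (q.trans D.symm))) := by
  rw [← Path.Homotopic.Quotient.eq]
  simp only [Path.Homotopic.Quotient.mk_trans, Path.Homotopic.Quotient.mk_symm,
    Path.Homotopic.Quotient.trans_assoc]
  rw [← Path.Homotopic.Quotient.trans_assoc (Path.Homotopic.Quotient.mk B).symm,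
    Path.Homotopic.Quotient.symm_trans, Path.Homotopic.Quotient.refl_trans]

/-- the homomorphism given by an additive function -/
noncomputable def toH1 {c : PF Y} (hc : IsAdd c) (y : Y) : H1 Y y :=
  AddMonoidHom.mk' (fun g => _root_.Quotient.lift (s := Path.Homotopic.setoid y y) (c y y)
    (fun p q h => hc.homot y y p q h) (FundamentalGroup.toPath g.toMul)) (by
      intro g g'
      obtain ⟨p, hp⟩ := Path.Homotopic.Quotient.mk_surjective (FundamentalGroup.toPath g.toMul)
      obtain ⟨q, hq⟩ := Path.Homotopic.Quotient.mk_surjective (FundamentalGroup.toPath g'.toMul)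
      have h3 : FundamentalGroup.toPath (g + g').toMul =
          Path.Homotopic.Quotient.mk (q.trans p) := by
        rw [Path.Homotopic.Quotient.mk_trans, hp, hq]
        rfl
      rw [h3, ← hp, ← hq]
      exact (hc.trans y y y q p).trans (add_comm _ _))

/-- the isomorphism of fundamental groups given by a homeomorphism -/
noncomputable def grp {Z : Type} [TopologicalSpace Z] (f : Y ≃ₜ Z) (y : Y) :
    FundamentalGroup Y y ≃* FundamentalGroup Z (f y) :=
  MulEquiv.ofBijective (FundamentalGroup.map (f : C(Y, Z)) y) (by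
    constructor
    · intro g g' h
      obtain ⟨p, rfl⟩ := Path.Homotopic.Quotient.mk_surjective g
      obtain ⟨q, rfl⟩ := Path.Homotopic.Quotient.mk_surjective g'
      have h1 : (p.map f.continuous).Homotopic (q.map f.continuous) :=
        Path.Homotopic.Quotient.exact h
      have h2 := (h1.map (f.symm : C(Z, Y))).pathCast (f.symm_apply_apply y).symm
        (f.symm_apply_apply y).symm
      have e : ∀ r : Path y y, ((r.map f.continuous).map (f.symm : C(Z, Y)).continuous).cast
          (f.symm_apply_apply y).symm (f.symm_apply_apply y).symm = r := by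
        intro r
        ext t
        simp
      rw [e, e] at h2
      exact Path.Homotopic.Quotient.eq.2 h2
    · intro g
      obtain ⟨p, rfl⟩ := Path.Homotopic.Quotient.mk_surjective g
      refine ⟨Path.Homotopic.Quotient.mk ((p.map f.symm.continuous).cast
        (f.symm_apply_apply y).symm (f.symm_apply_apply y).symm), ?_⟩
      have e : (((p.map f.symm.continuous).cast (f.symm_apply_apply y).symm
          (f.symm_apply_apply y).symm).map f.continuous) = p := by
        ext t
        simp
      exact congrArg Path.Homotopic.Quotient.mk e)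

end TopAP

open TopAP

theorem locAdd : S_Loc := by
  intro Y _ c hc hl a b p
  let g : unitInterval → ℂ := fun t => c _ _ (p.subpath 0 t)
  have hg : IsLocallyConstant g := by
    refine (IsLocallyConstant.iff_eventually_eq g).2 fun t => ?_
    obtain ⟨V, hV, h0⟩ := hl (p t)
    have h1 : p ⁻¹' V ∈ 𝓝 t := p.continuous.continuousAt.preimage_mem_nhds hV
    filter_upwards [ordConnectedComponent_mem_nhds.2 h1] with s hs
    have h2 : uIcc t s ⊆ p ⁻¹' V := hs
    have h3 := hc.homot _ _ _ _ ⟨Path.Homotopy.subpathTransSubpath p 0 t s⟩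
    rw [hc.trans, h0 _ _ (p.subpath t s) (by
      rw [Path.range_subpath]; exact image_subset_iff.2 h2), add_zero] at h3
    exact h3.symm
  have h1 : g 1 = g 0 := hg.apply_eq_of_preconnectedSpace 1 0
  simp only [g, Path.subpath_zero_one, Path.subpath_self] at h1
  rw [c_cast c p, c_refl hc] at h1
  exact h1

theorem ext : S_Ext := by
  intro Y _ _ y
  let γ : ∀ a : Y, Path y a := fun a => PathConnectedSpace.somePath y a
  refine ⟨⟨{ toFun := fun χ a b p => ev χ ((γ a).trans (p.trans (γ b).symm))
             map_add' := fun _ _ => rfl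
             map_smul' := fun _ _ => rfl }, fun χ => ⟨⟨?_, ?_⟩, ?_⟩⟩, ?_, ?_, ?_⟩
  · intro a b d p q
    exact (ev_homot χ (cancel (γ a) (γ b) (γ d) p q)).trans (ev_trans χ _ _)
  · intro a b p q h
    exact ev_homot χ ((Path.Homotopic.refl _).hcomp (h.hcomp (Path.Homotopic.refl _)))
  · intro p
    change ev χ ((γ y).trans (p.trans (γ y).symm)) = ev χ p
    rw [ev_trans, ev_trans, ev_symm]
    ring
  · intro c hc
    exact ⟨toH1 hc y, fun p => rfl⟩
  · intro χ χ' h
    refine AddMonoidHom.ext fun g => ?_
    obtain ⟨p, hp⟩ := Path.Homotopic.Quotient.mk_surjective (FundamentalGroup.toPath g.toMul)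
    have h1 : g = Additive.ofMul (FundamentalGroup.fromPath (Path.Homotopic.Quotient.mk p)) := by
      rw [hp]
      rfl
    rw [h1]
    exact h p
  · intro c hc h
    refine ⟨fun a => c y a (γ a), fun a b p => ?_⟩
    have h1 := h ((γ a).trans (p.trans (γ b).symm))
    rw [hc.trans, hc.trans, c_symm hc] at h1
    linear_combination h1

theorem sq : S_Sq := by
  rintro Y Z _ _ j₀ j₁ c hc ⟨H⟩
  refine ⟨fun y => c _ _ (H.evalAt y), fun a b p => ?_⟩
  have h1 := hc.homot _ _ _ _ (Path.Homotopic.map_trans_evalAt H p)
  rw [hc.trans, hc.trans] at h1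
  linear_combination -h1

theorem b4 : S_B4 := by
  intro Y Z _ _ f y
  let e := MulEquiv.toAdditive (grp f y)
  refine LinearEquiv.finrank_eq
    { toFun := fun χ => χ.comp e.toAddMonoidHom
      invFun := fun χ => χ.comp e.symm.toAddMonoidHom
      map_add' := fun _ _ => rfl
      map_smul' := fun _ _ => rfl
      left_inv := fun χ => AddMonoidHom.ext fun g => by simp
      right_inv := fun χ => AddMonoidHom.ext fun g => by simp }

end Pool.Agent.P.MP_5d7cf0_gt.T
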