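import Pool.Agent.P.MP_5d7cf0_gt.T.St

/-!
Package TopB: integration of locally exact data along paths, and local primitives.
-/

open Set Filter Topology Metric

noncomputable section

namespace Pool.Agent.P.MP_5d7cf0_gt.T

namespace TopBP

/-- a discrete copy of the complex numbers -/
structure Dc where
  v : ℂ

instance : TopologicalSpace Dc := ⊥

instance : DiscreteTopology Dc := ⟨rfl⟩

theorem ev_eq {X : Type} [TopologicalSpace X] {g : X → Dc} {x : X} (h : ContinuousAt g x) :
    ∀ᶠ x' in 𝓝 x, g x' = g x :=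
  h.eventually (p := fun v => v = g x) (by simp)

section Core

variable {Y : Type} [TopologicalSpace Y] {V : Y → Set Y} {F : Y → Y → ℂ}

/-- the bundle of local primitives -/
def core (hV : ∀ y, IsOpen (V y) ∧ y ∈ V y)
    (hF : ∀ y y' z, z ∈ V y → z ∈ V y' → ∀ᶠ w in 𝓝 z, F y w - F y' w = F y z - F y' z) :
    FiberBundleCore Y Y Dc where
  baseSet := V
  isOpen_baseSet := fun y => (hV y).1
  indexAt := id
  mem_baseSet_at := fun y => (hV y).2
  coordChange := fun i j x v => ⟨v.v + F i x - F j x⟩
  coordChange_self := fun i x _ v => by simp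
  continuousOn_coordChange := fun i j q hq => by
    refine ContinuousAt.continuousWithinAt ?_
    have h1 : ∀ᶠ q' : Y × Dc in 𝓝 q, F i q'.1 - F j q'.1 = F i q.1 - F j q.1 :=
      continuousAt_fst.eventually (hF i j q.1 hq.1.1 hq.1.2)
    have h2 : ∀ᶠ q' : Y × Dc in 𝓝 q, q'.2 = q.2 := ev_eq continuousAt_snd
    refine (continuousAt_const (y := (⟨q.2.v + F i q.1 - F j q.1⟩ : Dc))).congr ?_
    filter_upwards [h1, h2] with q' a b
    rw [b, add_sub_assoc, add_sub_assoc, a]
  coordChange_comp := fun i j k x _ v => by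
    simp only [Dc.mk.injEq]
    ring

end Core

/-- abstract form: a covering map with a function whose difference to the local primitives is
locally constant -/
theorem exists_cover {Y : Type} [TopologicalSpace Y] {V : Y → Set Y} {F : Y → Y → ℂ}
    (hV : ∀ y, IsOpen (V y) ∧ y ∈ V y)
    (hF : ∀ y y' z, z ∈ V y → z ∈ V y' → ∀ᶠ w in 𝓝 z, F y w - F y' w = F y z - F y' z) :
    ∃ (E : Type) (_ : TopologicalSpace E) (π : E → Y) (s : Y → E) (G : E → ℂ),
      IsCoveringMap π ∧ (∀ y, π (s y) = y) ∧
      ∀ (e : E) (y : Y), π e ∈ V y → ∀ᶠ e' in 𝓝 e, G e' - F y (π e') = G e - F y (π e) := by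
  let Z := core hV hF
  refine ⟨Z.TotalSpace, inferInstance, Z.proj, fun y => ⟨y, (⟨0⟩ : Dc)⟩,
    fun e => F e.1 e.1 + Dc.v e.2, ?_, fun y => rfl, ?_⟩
  · exact IsFiberBundle.isCoveringMap (F := Dc) fun x => ⟨Z.localTriv x, (hV x).2⟩
  · intro e y hy
    have hs : e ∈ (Z.localTriv y).source := (Z.mem_localTriv_source y e).2 hy
    have hc : ContinuousAt (Z.localTriv y) e :=
      (Z.localTriv y).continuousOn.continuousAt ((Z.localTriv y).open_source.mem_nhds hs)
    have h2 : ContinuousAt (fun e' => ((Z.localTriv y) e').2) e := continuousAt_snd.comp hc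
    have h3 : ∀ᶠ e' in 𝓝 e, ((Z.localTriv y) e').2 = ((Z.localTriv y) e).2 :=
      ev_eq h2
    filter_upwards [h3] with e' he'
    have h4 : Dc.v e'.2 + F e'.1 e'.1 - F y e'.1 = Dc.v e.2 + F e.1 e.1 - F y e.1 :=
      congrArg Dc.v he'
    change F e'.1 e'.1 + Dc.v e'.2 - F y e'.1 = F e.1 e.1 + Dc.v e.2 - F y e.1
    linear_combination h4

theorem const_of_ev {g : unitInterval → ℂ} (h : ∀ t, ∀ᶠ s in 𝓝 t, g s = g t) : g 1 = g 0 :=
  ((IsLocallyConstant.iff_eventually_eq g).2 h).apply_eq_of_preconnectedSpace 1 0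

theorem cast_eq {Y : Type} [TopologicalSpace Y] (c : PF Y) {a b a' b' : Y} (p : Path a b)
    (q : Path a' b') (h : ∀ t, p t = q t) : c a b p = c a' b' q := by
  have ha : a = a' := by rw [← p.source, ← q.source, h]
  have hb : b = b' := by rw [← p.target, ← q.target, h]
  subst ha hb
  have : p = q := Path.ext (funext h)
  rw [this]

end TopBP

open TopBP in
theorem int : S_Int := by
  intro Y _ V F hV hF
  obtain ⟨E, _, π, s, G, cov, hs, hG⟩ := exists_cover hV hF
  have hloc : ∀ (L : C(unitInterval, E)) (t : unitInterval) (y : Y), π (L t) ∈ V y →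
      ∀ᶠ u in 𝓝 t, G (L u) - F y (π (L u)) = G (L t) - F y (π (L t)) := fun L t y hy =>
    (L.continuous.tendsto t).eventually (hG (L t) y hy)
  have hA : ∀ L L' : C(unitInterval, E), (∀ t, π (L t) = π (L' t)) →
      G (L 1) - G (L 0) = G (L' 1) - G (L' 0) := by
    intro L L' h
    have : G (L 1) - G (L' 1) = G (L 0) - G (L' 0) := by
      refine const_of_ev (g := fun t => G (L t) - G (L' t)) fun t => ?_
      have h1 := hloc L t (π (L t)) (hV _).2
      have h2 := hloc L' t (π (L t)) (by rw [← h t]; exact (hV _).2)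
      filter_upwards [h1, h2] with u a b
      rw [← h u, ← h t] at b
      linear_combination a - b
    linear_combination this
  have h0 : ∀ (a b : Y) (p : Path a b), (p : C(unitInterval, Y)) 0 = π (s a) := fun a b p =>
    p.source.trans (hs a).symm
  refine ⟨fun a b p => G (cov.liftPath p (s a) (h0 a b p) 1) - G (s a), ⟨?_, ?_⟩, ?_⟩
  · intro a b d p q
    have ht := cov.liftPath_trans (hs a).symm p q
    have h1 := (congrArg (fun L : C(unitInterval, E) => L 1) ht).trans (Path.target _)
    have hq0 : (q : C(unitInterval, Y)) 0 = π (cov.liftPath p (s a) (h0 a b p) 1) := by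
      have := congrFun (cov.liftPath_lifts p (s a) (h0 a b p)) 1
      simp only [Function.comp_apply] at this
      rw [this]
      simp
    have h2 := hA (cov.liftPath q _ hq0) (cov.liftPath q (s b) (h0 b d q)) fun t =>
      (congrFun (cov.liftPath_lifts q _ hq0) t).trans
        (congrFun (cov.liftPath_lifts q (s b) (h0 b d q)) t).symm
    rw [cov.liftPath_zero, cov.liftPath_zero] at h2
    have h3 : G (cov.liftPath (p.trans q) (s a) (h0 a d (p.trans q)) 1) =
        G (cov.liftPath q _ hq0 1) := congrArg G h1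
    linear_combination h3 + h2
  · intro a b p q hpq
    exact congrArg (fun e => G e - G (s a))
      (cov.liftPath_apply_one_eq_of_homotopicRel hpq (s a) (h0 a b p) (h0 a b q))
  · intro y a b p hp
    set L := cov.liftPath p (s a) (h0 a b p) with hL
    have hl : ∀ t, π (L t) = p t := fun t => congrFun (cov.liftPath_lifts p (s a) (h0 a b p)) t
    have : G (L 1) - F y (π (L 1)) = G (L 0) - F y (π (L 0)) :=
      const_of_ev (g := fun t => G (L t) - F y (π (L t))) fun t =>
        hloc L t y (by rw [hl]; exact hp ⟨t, rfl⟩)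
    simp only [hl, Path.source, Path.target] at this
    have hz : L 0 = s a := cov.liftPath_zero _ _ _
    rw [hz] at this
    linear_combination this

open TopBP Classical in
theorem prim : S_Prim := by
  intro Y _ _ p ε hε
  by_cases h0 : 0 < ε
  swap
  · refine ⟨0, fun c _ a b q hq => ?_⟩
    have := (hq ⟨0, rfl⟩).2
    rw [ball_eq_empty.2 (not_lt.1 h0)] at this
    exact absurd this (by simp)
  let B := ball (zc p p) ε
  have : ContractibleSpace B := (convex_ball _ _).contractibleSpace (nonempty_ball.2 h0)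
  have hg : Continuous fun z : B => (chartAt ℂ p).symm z :=
    ((chartAt ℂ p).continuousOn_symm.mono hε).domRestrict
  let z₀ : B := ⟨zc p p, mem_ball_self h0⟩
  let W := (chartAt ℂ p).source ∩ zc p ⁻¹' B
  refine ⟨{ toFun := fun c y => if h : y ∈ W then
              c _ _ ((PathConnectedSpace.somePath z₀ (⟨zc p y, h.2⟩ : B)).map hg) else 0
            map_add' := fun c c' => ?_
            map_smul' := fun k c => ?_ }, fun c hc a b q hq => ?_⟩
  · funext y
    by_cases h : y ∈ W <;> simp [h]
  · funext y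
    by_cases h : y ∈ W <;> simp [h]
  · have hW : ∀ t, q t ∈ W := fun t => hq ⟨t, rfl⟩
    have ha : a ∈ W := q.source ▸ hW 0
    have hb : b ∈ W := q.target ▸ hW 1
    have hq' : Continuous fun t => zc p (q t) :=
      (chartAt ℂ p).continuousOn.comp_continuous q.continuous fun t => (hW t).1
    let q' : Path (⟨zc p a, ha.2⟩ : B) (⟨zc p b, hb.2⟩ : B) :=
      { toFun := fun t => ⟨zc p (q t), (hW t).2⟩
        continuous_toFun := hq'.subtype_mk _
        source' := by simp
        target' := by simp }
    have h1 : c a b q = c _ _ (q'.map hg) :=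
      cast_eq c _ _ fun t => ((chartAt ℂ p).left_inv (hW t).1).symm
    have h2 := (SimplyConnectedSpace.paths_homotopic
      ((PathConnectedSpace.somePath z₀ (⟨zc p a, ha.2⟩ : B)).trans q')
      (PathConnectedSpace.somePath z₀ (⟨zc p b, hb.2⟩ : B))).map ⟨_, hg⟩
    have h3 := hc.homot _ _ _ _ h2
    rw [Path.map_trans, hc.trans] at h3
    simp only [LinearMap.coe_mk, AddHom.coe_mk, dif_pos ha, dif_pos hb]
    rw [h1]
    exact eq_sub_of_add_eq' h3

end Pool.Agent.P.MP_5d7cf0_gt.T
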