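import Pool.Agent.P.MP_5d7cf0_gt.T.RS
import Pool.Agent.P.MP_5d7cf0_gt.T.TopA
import Pool.Agent.P.MP_5d7cf0_gt.T.TopB

/-!
Package Cous: from a cohomology class to a locally exact `(0,1)`-form; if the form is exact, the
class is the period class of a holomorphic one-form.
-/

open Set Filter Topology Manifold Metric
open scoped ContDiff

namespace Pool.Agent.P.MP_5d7cf0_gt.T

namespace CousP

variable {Y : Type} [TopologicalSpace Y] [ChartedSpace ℂ Y] {n : ℕ} {V : Fin n → Set Y}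
  {ρ E : Fin n → Y → ℂ}

theorem term (hs : ∀ k y, Sm (ρ k) y) (hz : ∀ k y, y ∉ V k → ∀ᶠ y' in 𝓝 y, ρ k y' = 0)
    (hE : ∀ i k y, y ∈ V i → y ∈ V k → ∀ᶠ y' in 𝓝 y, E i y' - E k y' = E i y - E k y)
    {i : Fin n} {y : Y} (hy : y ∈ V i) (k : Fin n) :
    Sm (fun y => ρ k y * (E i y - E k y)) y ∧
      Db (fun y => ρ k y * (E i y - E k y)) y = (E i y - E k y) * Db (ρ k) y := by
  by_cases hk : y ∈ V k
  · have h : (fun y' => (E i y - E k y) * ρ k y') =ᶠ[𝓝 y] fun y => ρ k y * (E i y - E k y) :=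
      (hE i k y hy hk).mono fun y' h => by
        simp only [h]
        ring
    exact ⟨((sm_const _).mul (hs k y)).congr h, by rw [← Db_congr h, Db_const_mul _ (hs k y)]⟩
  · have h : (fun _ => (0 : ℂ)) =ᶠ[𝓝 y] fun y => ρ k y * (E i y - E k y) :=
      (hz k y hk).mono fun y' h => by simp only [h, zero_mul]
    refine ⟨(sm_const _).congr h, ?_⟩
    rw [← Db_congr h, Db_const, Db_congr (v := fun _ => 0) (hz k y hk), Db_const, mul_zero]

theorem loc_sol (hs : ∀ k y, Sm (ρ k) y) (h1 : ∀ y, ∑ k, ρ k y = 1)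
    (hz : ∀ k y, y ∉ V k → ∀ᶠ y' in 𝓝 y, ρ k y' = 0)
    (hE : ∀ i k y, y ∈ V i → y ∈ V k → ∀ᶠ y' in 𝓝 y, E i y' - E k y' = E i y - E k y)
    {i : Fin n} {y : Y} (hy : y ∈ V i) :
    Sm (fun y => ∑ k, ρ k y * (E i y - E k y)) y ∧
      Db (fun y => ∑ k, ρ k y * (E i y - E k y)) y = -∑ k, E k y * Db (ρ k) y := by
  refine ⟨sm_sum fun k _ => (term hs hz hE hy k).1, ?_⟩
  have h0 : ∑ k, Db (ρ k) y = 0 := by
    rw [← Db_sum fun k _ => hs k y, Db_congr (v := fun _ => 1) (Eventually.of_forall h1), Db_const]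
  rw [Db_sum fun k _ => (term hs hz hE hy k).1,
    Finset.sum_congr rfl fun k _ => (term hs hz hE hy k).2]
  simp only [sub_mul, Finset.sum_sub_distrib, ← Finset.mul_sum, h0, mul_zero, zero_sub]

theorem holo [IsManifold 𝓘(ℂ) ω Y] (hV : ∀ i, IsOpen (V i)) (hc : ∀ y, ∃ i, y ∈ V i)
    (hs : ∀ k y, Sm (ρ k) y) (h1 : ∀ y, ∑ k, ρ k y = 1)
    (hz : ∀ k y, y ∉ V k → ∀ᶠ y' in 𝓝 y, ρ k y' = 0)
    (hE : ∀ i k y, y ∈ V i → y ∈ V k → ∀ᶠ y' in 𝓝 y, E i y' - E k y' = E i y - E k y)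
    (hx : Ex fun y => -∑ k, E k y * Db (ρ k) y) :
    ∃ w ∈ Om Y, ∃ G : Y → ℂ, ∀ i, ∀ y ∈ V i,
      An (fun y => E i y - G y) y ∧ D (fun y => E i y - G y) y = w y := by
  obtain ⟨v, hv⟩ := hx
  let G : Y → ℂ := fun y => ∑ k, ρ k y * E k y + v y
  have hA : ∀ i, ∀ y ∈ V i, An (fun y => E i y - G y) y := fun i y hy => by
    have h2 : (fun y => E i y - G y) = fun y => ∑ k, ρ k y * (E i y - E k y) - v y := by
      funext y
      simp only [G, mul_sub, Finset.sum_sub_distrib, ← Finset.sum_mul, h1]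
      ring
    rw [h2]
    refine an_of_Db ?_
    filter_upwards [(hV i).mem_nhds hy] with z hz'
    have h3 := loc_sol hs h1 hz hE hz'
    exact ⟨h3.1.sub (hv z).1, by rw [Db_sub h3.1 (hv z).1, h3.2, (hv z).2, sub_self]⟩
  choose j hj using hc
  have hD : ∀ i, ∀ y ∈ V i, D (fun y => E i y - G y) y = D (fun z => E (j y) z - G z) y :=
    fun i y hy => by
      have h : (fun z => E (j y) z - G z) =ᶠ[𝓝 y] fun z => (E i z - G z) + (E (j y) y - E i y) :=
        (hE (j y) i y (hj y) hy).mono fun z h => by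
          simp only [← h]
          ring
      rw [D_congr h, D_add (hA i y hy) (an_const _), D_const, add_zero]
  refine ⟨fun y => D (fun z => E (j y) z - G z) y, fun y => ?_, G, fun i y hy =>
    ⟨hA i y hy, hD i y hy⟩⟩
  refine (hA (j y) y (hj y)).hf.congr ?_
  filter_upwards [(hV (j y)).mem_nhds (hj y)] with z hz' using hD (j y) z hz'

omit [ChartedSpace ℂ Y] in
/-- two primitives of one additive function differ by a locally constant function -/
theorem loc_const [LocallyPathConnectedSpace Y] {c : PF Y} {A B : Set Y} {e e' : Y → ℂ}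
    (hA : IsOpen A) (hB : IsOpen B)
    (he : ∀ (a b : Y) (q : Path a b), range q ⊆ A → c a b q = e b - e a)
    (he' : ∀ (a b : Y) (q : Path a b), range q ⊆ B → c a b q = e' b - e' a) {y : Y} (h : y ∈ A)
    (h' : y ∈ B) : ∀ᶠ z in 𝓝 y, e z - e' z = e y - e' y := by
  filter_upwards [pathComponentIn_mem_nhds ((hA.inter hB).mem_nhds ⟨h, h'⟩)] with z hz
  obtain ⟨q, hq⟩ := hz
  have h1 := he y z q (by rintro _ ⟨t, rfl⟩; exact (hq t).1)
  have h2 := he' y z q (by rintro _ ⟨t, rfl⟩; exact (hq t).2)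
  linear_combination h2 - h1

end CousP

theorem p2 (hC : S_Cover) : S_P2 := by
  intro Y _ _ _ y
  obtain ⟨C⟩ := hC Y
  obtain ⟨⟨x, hx⟩, -⟩ := ext Y y
  have hp := fun i => prim Y (C.p i) (4 * C.ε i) (ball_subset_closedBall.trans (C.sub i))
  choose e he using hp
  let V : Fin C.n → Set Y := fun i =>
    (chartAt ℂ (C.p i)).source ∩ zc (C.p i) ⁻¹' ball (zc (C.p i) (C.p i)) (4 * C.ε i)
  have hε : ∀ i, C.ε i < 4 * C.ε i := fun i => by linarith [C.pos i]
  have hV : ∀ i, IsOpen (V i) := fun i => (chartAt ℂ (C.p i)).isOpen_inter_preimage isOpen_ball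
  have hc : ∀ z, ∃ i, z ∈ V i := fun z => by
    obtain ⟨i, -, hi⟩ := Finset.exists_ne_zero_of_sum_ne_zero (C.sum z ▸ one_ne_zero)
    exact ⟨i, (C.supp i z hi).1, ball_subset_ball (hε i).le (C.supp i z hi).2⟩
  have hz : ∀ k z, z ∉ V k → ∀ᶠ y' in 𝓝 z, C.ρ k y' = 0 := fun k z hk => by
    filter_upwards [eventually_not_over (isCompact_closedBall (zc (C.p k) (C.p k)) (C.ε k))
      ((closedBall_subset_closedBall (hε k).le).trans (C.sub k))
      fun h1 h2 => hk ⟨h1, closedBall_subset_ball (hε k) h2⟩] with y' h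
    by_contra h0
    exact h (C.supp k y' h0).1 (ball_subset_closedBall (C.supp k y' h0).2)
  have hE : ∀ χ i k z, z ∈ V i → z ∈ V k →
      ∀ᶠ y' in 𝓝 z, e i (x χ) y' - e k (x χ) y' = e i (x χ) z - e k (x χ) z :=
    fun χ i k z => CousP.loc_const (hV i) (hV k) (he i _ (hx χ).1) (he k _ (hx χ).1)
  refine ⟨{ toFun := fun χ z => -∑ k, e k (x χ) z * Db (C.ρ k) z
            map_add' := fun χ χ' => ?_
            map_smul' := fun a χ => ?_ }, fun χ => ⟨fun z => ?_, fun h => ?_⟩⟩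
  · funext z
    simp only [map_add, Pi.add_apply, add_mul, Finset.sum_add_distrib, neg_add]
  · funext z
    simp only [map_smul, Pi.smul_apply, smul_eq_mul, RingHom.id_apply, mul_assoc, ← Finset.mul_sum,
      mul_neg]
  · obtain ⟨i, hi⟩ := hc z
    refine ⟨fun z => ∑ k, C.ρ k z * (e i (x χ) z - e k (x χ) z), ?_⟩
    filter_upwards [(hV i).mem_nhds hi] with z hz'
    exact CousP.loc_sol (E := fun i => e i (x χ)) C.sm C.sum hz (hE χ) hz'
  · obtain ⟨w, hw, G, hG⟩ :=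
      CousP.holo (E := fun i => e i (x χ)) hV hc C.sm C.sum hz (hE χ) h
    refine ⟨w, hw, fun a b p => x χ a b p - G b + G a, ⟨⟨fun a b d p q => ?_, fun a b p q hpq => ?_⟩,
      fun z => ?_⟩, fun p => ?_⟩
    · rw [(hx χ).1.trans]
      ring
    · rw [(hx χ).1.homot a b p q hpq]
    · obtain ⟨i, hi⟩ := hc z
      refine ⟨V i, (hV i).mem_nhds hi, fun z => e i (x χ) z - G z, hG i, fun a b p hp => ?_⟩
      linear_combination he i _ (hx χ).1 a b p hp
    · linear_combination -(hx χ).2 p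

end Pool.Agent.P.MP_5d7cf0_gt.T
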