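import Pool.Agent.P.MP_5d7cf0_gt.T.RS

/-!
Package Cover: partitions of unity and polar forms.
-/

open Set Filter Topology Manifold Metric
open scoped ContDiff

noncomputable section

namespace Pool.Agent.P.MP_5d7cf0_gt.T

namespace CoverP

theorem exists_bump (c : ℂ) {r s : ℝ} (hr : 0 < r) (hs : r < s) :
    ∃ b : ℂ → ℂ, ContDiff ℝ ∞ b ∧ (∀ z, 0 ≤ (b z).re) ∧ (∀ z ∈ closedBall c r, b z = 1) ∧
      ∀ z, z ∉ ball c s → b z = 0 := by
  let f : ContDiffBump c := ⟨r, s, hr, hs⟩
  refine ⟨fun z => (f z : ℂ), Complex.ofRealCLM.contDiff.comp f.contDiff, fun z => f.nonneg,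
    fun z hz => ?_, fun z hz => ?_⟩
  · simp only [f.one_of_mem_closedBall hz, Complex.ofReal_one]
  · simp only [f.zero_of_le_dist (not_lt.1 hz), Complex.ofReal_zero]

variable {Y : Type} [TopologicalSpace Y] [ChartedSpace ℂ Y]

theorem exists_eps (y : Y) : ∃ ε > 0, closedBall (zc y y) (4 * ε) ⊆ (chartAt ℂ y).target := by
  obtain ⟨δ, h0, h⟩ := nhds_basis_closedBall.mem_iff.1 (target_mem (mem_chart_source ℂ y))
  exact ⟨δ / 4, by positivity, by rwa [mul_div_cancel₀ _ four_ne_zero]⟩

open Classical in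
/-- extension by zero of a function given in the chart at `p` -/
def ext (p : Y) (g : ℂ → ℂ) (y : Y) : ℂ := if y ∈ (chartAt ℂ p).source then g (zc p y) else 0

theorem ext_of_mem {p y : Y} (g : ℂ → ℂ) (h : y ∈ (chartAt ℂ p).source) :
    ext p g y = g (zc p y) := if_pos h

theorem ext_of_notMem {p y : Y} (g : ℂ → ℂ) (h : y ∉ (chartAt ℂ p).source) : ext p g y = 0 :=
  if_neg h

variable [RS Y]

theorem sm_ext {p y : Y} {g : ℂ → ℂ} {K : Set ℂ} (hK : IsCompact K)
    (hs : K ⊆ (chartAt ℂ p).target) (h0 : ∀ z, z ∉ K → g z = 0)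
    (hg : y ∈ (chartAt ℂ p).source → ∀ᶠ z in 𝓝 (zc p y), ContDiffAt ℝ ∞ g z) :
    Sm (ext p g) y := by
  by_cases hy : y ∈ (chartAt ℂ p).source
  · refine ((an_zc hy).sm.comp (hg hy)).congr ?_
    filter_upwards [source_mem hy] with y' hy'
    exact (ext_of_mem g hy').symm
  · refine (sm_const 0).congr ?_
    filter_upwards [eventually_not_over hK hs fun h => absurd h hy] with y' hy'
    by_cases h : y' ∈ (chartAt ℂ p).source
    · rw [ext_of_mem g h, h0 _ (hy' h)]
    · rw [ext_of_notMem g h]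

theorem polar_an {z u : Y → ℂ} {p : Y} (hz : An z p) (hD : D z p ≠ 0)
    (hu : ∀ᶠ y in 𝓝 p, u y = (z y - z p)⁻¹) : ∀ᶠ y in 𝓝[≠] p, An u y := by
  obtain ⟨U, hU, hi⟩ := hz.injOn hD
  filter_upwards [self_mem_nhdsWithin, mem_nhdsWithin_of_mem_nhds hU,
    mem_nhdsWithin_of_mem_nhds hz.eventually,
    mem_nhdsWithin_of_mem_nhds hu.eventually_nhds] with y h1 h2 h3 h4
  refine ((An.sub h3 (an_const (z p))).inv
    (sub_ne_zero.2 fun e => h1 (hi h2 (mem_of_mem_nhds hU) e))).congr ?_
  filter_upwards [h4] with y' hy'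
  exact hy'.symm

theorem pol1 (p : Y) : ∃ β, Polar (zc p) p β := by
  classical
  obtain ⟨ε, h0, hs⟩ := exists_eps p
  obtain ⟨b, hb, -, h1, h2⟩ := exists_bump (zc p p) h0 (by linarith : ε < 4 * ε)
  refine ⟨fun y => if y = p then 0 else Db (ext p fun z => b z * (z - zc p p)⁻¹) y,
    ext p fun z => b z * (z - zc p p)⁻¹, fun y hy => ⟨?_, (if_neg hy).symm⟩, if_pos rfl, ?_⟩
  · refine sm_ext (isCompact_closedBall _ _) hs
      (fun z hz => by rw [h2 z fun h => hz (ball_subset_closedBall h), zero_mul]) fun h => ?_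
    have h3 : zc p y ≠ zc p p := fun e =>
      hy ((chartAt ℂ p).injOn h (mem_chart_source ℂ p) e)
    filter_upwards [isOpen_ne.mem_nhds h3] with z hz
    exact hb.contDiffAt.mul ((contDiffAt_id.sub contDiffAt_const).inv (sub_ne_zero.2 hz))
  · filter_upwards [source_mem (mem_chart_source ℂ p),
      (continuousAt_zc (mem_chart_source ℂ p)).eventually (closedBall_mem_nhds _ h0)] with y hy hy'
    rw [ext_of_mem _ hy, h1 _ hy', one_mul]

theorem pol2 {p : Y} {z β : Y → ℂ} (hz : An z p) (hD : D z p ≠ 0) (h : Polar z p β) : LEx β := by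
  obtain ⟨u, h1, h2, h3⟩ := h
  intro q
  by_cases hq : q = p
  · subst hq
    refine ⟨fun _ => 0, ?_⟩
    filter_upwards [eventually_nhdsWithin_iff.1 (polar_an hz hD h3)] with y hy
    refine ⟨sm_const 0, ?_⟩
    rw [Db_const]
    by_cases e : y = q
    · rw [e, h2]
    · rw [← (h1 y e).2, (hy e).Db_zero]
  · refine ⟨u, ?_⟩
    filter_upwards [isOpen_ne.mem_nhds hq] with y hy
    exact h1 y hy

theorem an_dslope {G : ℂ → ℂ} {a : ℂ} (h : AnalyticAt ℂ G a) : AnalyticAt ℂ (dslope G a) a :=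
  let ⟨_, hp⟩ := h
  ⟨_, hp.has_fpower_series_dslope_fslope⟩

theorem pol3 {p : Y} {z β β' : Y → ℂ} (hz : An z p) (hD : D z p ≠ 0) (h : Polar (zc p) p β)
    (h' : Polar z p β') : Ex (β - D z p • β') := by
  classical
  obtain ⟨u, h1, h2, h3⟩ := h
  obtain ⟨u', h1', h2', h3'⟩ := h'
  set a := zc p p with ha
  set g := dslope (loc z p) a with hg
  have g1 : AnalyticAt ℂ g a := an_dslope hz
  have g2 : g a = D z p := dslope_same _ _
  have g3 : AnalyticAt ℂ (fun ζ => dslope g a ζ / g ζ) a :=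
    (an_dslope g1).div g1 (g2 ▸ hD)
  set v : Y → ℂ := fun y => if y = p then dslope g a a / g a else u y - D z p * u' y with hv
  refine ⟨v, fun y => ?_⟩
  by_cases hy : y = p
  · subst hy
    have h4 : An v y := by
      refine (an_zc_self.comp (g := fun ζ => dslope g a ζ / g ζ) g3).congr ?_
      filter_upwards [h3, h3', source_mem (mem_chart_source ℂ y),
        (continuousAt_zc (mem_chart_source ℂ y)).eventually
          (g1.continuousAt.eventually_ne (g2 ▸ hD))] with y' e1 e2 e3 e4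
      by_cases e : y' = y
      · simp only [hv, e, if_true, ha]
      · have h5 : zc y y' - a ≠ 0 := sub_ne_zero.2 fun e' =>
          e ((chartAt ℂ y).injOn e3 (mem_chart_source ℂ y) e')
        have h6 := sub_smul_dslope (loc z y) a (zc y y')
        have h7 := sub_smul_dslope g a (zc y y')
        rw [loc_zc e3, ha, loc_self, ← ha, ← hg, smul_eq_mul] at h6
        rw [g2, smul_eq_mul] at h7
        simp only [hv, if_neg e, e1, e2, ← h6]
        field_simp
        linear_combination h7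
    refine ⟨h4.sm, ?_⟩
    rw [h4.Db_zero, Pi.sub_apply, Pi.smul_apply, h2, h2', smul_zero, sub_zero]
  · have e : (fun y => u y - D z p * u' y) =ᶠ[𝓝 y] v := by
      filter_upwards [isOpen_ne.mem_nhds hy] with y' hy'
      exact (if_neg hy').symm
    have s1 := (sm_const (D z p)).mul (h1' y hy).1
    refine ⟨((h1 y hy).1.sub s1).congr e, ?_⟩
    rw [← Db_congr e, Db_sub (h1 y hy).1 s1, Db_const_mul _ (h1' y hy).1, (h1 y hy).2,
      (h1' y hy).2, Pi.sub_apply, Pi.smul_apply, smul_eq_mul]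

end CoverP

open CoverP

theorem cover : S_Cover := by
  intro Y _ _ _
  choose ε hε hs using exists_eps (Y := Y)
  obtain ⟨t, ht⟩ := CompactSpace.elim_nhds_subcover
    (fun y : Y => (chartAt ℂ y).source ∩ zc y ⁻¹' closedBall (zc y y) (ε y / 2)) fun y =>
      inter_mem (source_mem (mem_chart_source ℂ y))
        (continuousAt_zc (mem_chart_source ℂ y) (closedBall_mem_nhds _ (half_pos (hε y))))
  choose b hb1 hb2 hb3 hb4 using fun y : Y =>
    exists_bump (zc y y) (half_pos (hε y)) (half_lt_self (hε y))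
  choose χ hχ1 _ hχ3 hχ4 using fun y : Y =>
    exists_bump (zc y y) (r := 2 * ε y) (s := 3 * ε y) (by linarith [hε y]) (by linarith [hε y])
  set p : Fin t.card → Y := fun i => (t.equivFin.symm i : Y) with hp
  have hsm : ∀ q y : Y, Sm (ext q (b q)) y := fun q y =>
    sm_ext (isCompact_closedBall _ _) (hs q)
      (fun z hz => hb4 q z fun h => hz (ball_subset_closedBall
        (ball_subset_ball (by linarith [hε q]) h)))
      fun _ => Eventually.of_forall fun _ => (hb1 q).contDiffAt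
  have hne : ∀ y, ∑ i, ext (p i) (b (p i)) y ≠ 0 := fun y h => by
    have h1 := congrArg Complex.re h
    rw [Complex.re_sum, Complex.zero_re] at h1
    refine absurd h1 (Finset.sum_pos' (fun i _ => ?_) ?_).ne'
    · by_cases e : y ∈ (chartAt ℂ (p i)).source
      · rw [ext_of_mem _ e]; exact hb2 _ _
      · rw [ext_of_notMem _ e, Complex.zero_re]
    · obtain ⟨q, hq, h2, h3⟩ := mem_iUnion₂.1 (ht.superset (mem_univ y))
      refine ⟨t.equivFin ⟨q, hq⟩, Finset.mem_univ _, ?_⟩
      simp only [hp, Equiv.symm_apply_apply]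
      rw [ext_of_mem _ h2, hb3 q _ h3, Complex.one_re]
      exact one_pos
  exact ⟨{
    n := t.card
    p := p
    ε := fun i => ε (p i)
    ρ := fun i y => ext (p i) (b (p i)) y * (∑ j, ext (p j) (b (p j)) y)⁻¹
    χ := fun i => χ (p i)
    pos := fun i => hε _
    sub := fun i => hs _
    sm := fun i y => (hsm _ y).mul ((sm_sum fun j _ => hsm _ y).inv (hne y))
    sum := fun y => by rw [← Finset.sum_mul, mul_inv_cancel₀ (hne y)]
    supp := fun i y h => by
      have h1 := left_ne_zero_of_mul h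
      have h2 : y ∈ (chartAt ℂ (p i)).source := by
        by_contra e
        exact h1 (ext_of_notMem _ e)
      refine ⟨h2, ?_⟩
      by_contra e
      exact h1 ((ext_of_mem _ h2).trans (hb4 _ _ e))
    χsm := fun i => hχ1 _
    χone := fun i => hχ3 _
    χzero := fun i => hχ4 _ }⟩

theorem pol : S_Pol := fun _ _ _ _ p =>
  ⟨pol1 p, fun _ _ => pol2, fun _ _ _ => pol3⟩

end Pool.Agent.P.MP_5d7cf0_gt.T
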