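import Pool.Agent.P.MP_5d7cf0_gt.T.St2

/-!
The curve `w² = z⁵ - 1` with one point at infinity is a compact connected Riemann surface.
-/

open Set Filter Topology Manifold
open scoped ContDiff

noncomputable section

namespace Pool.Agent.P.MP_5d7cf0_gt.T

namespace CurveP

/-- the affine curve -/
def C : Set (ℂ × ℂ) := {v | v.2 ^ 2 = v.1 ^ 5 - 1}

/-- the compactified curve -/
abbrev Y : Type := OnePoint C

/-- the point at infinity -/
abbrev oo : Y := OnePoint.infty

/-- the coordinates of a point, `(0, 0)` at infinity -/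
def pr (y : Y) : ℂ × ℂ := y.elim (0, 0) fun v => v.1

open Classical in
/-- the point with given coordinates, infinity if they are not on the curve -/
def mk (v : ℂ × ℂ) : Y := if h : v ∈ C then ((⟨v, h⟩ : C) : OnePoint C) else oo

theorem isClosed_C : IsClosed C := isClosed_eq (by fun_prop) (by fun_prop)

theorem pr_inf : pr oo = (0, 0) := rfl

theorem pr_mem {y : Y} (hy : y ≠ oo) : pr y ∈ C := by
  induction y using OnePoint.rec with
  | infty => exact absurd rfl hy
  | coe v => exact v.2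

theorem mk_pr (y : Y) : mk (pr y) = y := by
  induction y using OnePoint.rec with
  | infty => exact dif_neg (show ¬((0 : ℂ) ^ 2 = 0 ^ 5 - 1) by norm_num)
  | coe v => exact dif_pos v.2

theorem pr_mk {v : ℂ × ℂ} (h : v ∈ C) : pr (mk v) = v := by
  rw [mk, dif_pos h]; rfl

theorem mk_ne {v : ℂ × ℂ} (h : v ∈ C) : mk v ≠ oo := by
  rw [mk, dif_pos h]; exact OnePoint.coe_ne_infty _

theorem pr_inj {y y' : Y} (h : pr y = pr y') : y = y' := by rw [← mk_pr y, h, mk_pr]

theorem cont_pr {y : Y} (hy : y ≠ oo) : ContinuousAt pr y := by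
  induction y using OnePoint.rec with
  | infty => exact absurd rfl hy
  | coe v => exact OnePoint.continuousAt_coe.mpr continuous_subtype_val.continuousAt

theorem cont_mk : ContinuousOn mk C := by
  rw [continuousOn_iff_continuous_domRestrict]
  exact OnePoint.continuous_coe.congr fun v => (mk_pr v).symm

theorem pole : Tendsto (fun y => (pr y).1) (𝓝[≠] oo) (Bornology.cobounded ℂ) := by
  rw [OnePoint.nhdsNE_infty_eq, tendsto_map'_iff, coclosedCompact_eq_cocompact,
    ← tendsto_norm_atTop_iff_cobounded, tendsto_atTop]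
  intro b
  have h1 : Tendsto (fun v : C => ‖v.1‖) (cocompact C) atTop :=
    (tendsto_norm_cocompact_atTop (E := ℂ × ℂ)).comp
      isClosed_C.isClosedEmbedding_subtypeVal.tendsto_cocompact
  filter_upwards [h1.eventually_gt_atTop (max |b| (|b| ^ 5 + 1))] with v hv
  by_contra h2
  have h3 : ‖v.1.1‖ ≤ |b| := (not_le.mp h2).le.trans (le_abs_self b)
  have h4 : ‖v.1.2‖ ^ 2 ≤ |b| ^ 5 + 1 := by
    rw [← norm_pow, show v.1.2 ^ 2 = v.1.1 ^ 5 - 1 from v.2]
    refine (norm_sub_le _ _).trans ?_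
    rw [norm_pow, norm_one]
    gcongr
  have h5 : ‖v.1.2‖ ≤ |b| ^ 5 + 1 := by
    have : 0 ≤ |b| ^ 5 := by positivity
    nlinarith [norm_nonneg v.1.2]
  exact absurd hv (not_lt.mpr (max_le_max h3 h5))

theorem mk_inf {l : Filter ℂ} {g : ℂ → ℂ × ℂ}
    (h : Tendsto (fun t => (g t).1) l (Bornology.cobounded ℂ)) :
    Tendsto (fun t => mk (g t)) l (𝓝 oo) := by
  rw [OnePoint.hasBasis_nhds_infty.tendsto_right_iff]
  rintro s ⟨-, hs⟩
  have h1 := (hs.image (continuous_fst.comp continuous_subtype_val)).isBounded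
  filter_upwards [h.eventually h1] with t ht
  by_cases h2 : g t ∈ C
  · exact Or.inl ⟨⟨g t, h2⟩, fun h3 => ht ⟨_, h3, rfl⟩, (mk_pr ((⟨g t, h2⟩ : C) : OnePoint C)).symm⟩
  · exact Or.inr (dif_neg h2)

/-! ### Connectedness -/

theorem cont_root (c : ℂ) : Continuous fun x : ℝ => (1 - (x : ℂ) * c) ^ (2 : ℂ)⁻¹ := by
  have h0 : 0 < ((2 : ℂ)⁻¹).re := by norm_num
  by_cases hc : c.im = 0
  · have h1 : (c.re : ℂ) = c := Complex.ext rfl (by simp [hc])
    refine ((Complex.continuous_ofReal_cpow_const h0).comp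
      (f := fun x : ℝ => 1 - x * c.re) (by fun_prop)).congr fun x => ?_
    simp only [Function.comp]
    push_cast
    rw [h1]
  · refine continuous_iff_continuousAt.mpr fun x => ?_
    refine ContinuousAt.comp (f := fun x : ℝ => 1 - (x : ℂ) * c)
      (Complex.continuousAt_cpow_const_of_re_pos ?_ h0) (by fun_prop)
    by_cases hx : x = 0
    · left; simp [hx]
    · right; simp [hx, hc]

/-- the path `t ↦ (t z, a √(1 - x(t) c))` -/
theorem join (z a c : ℂ) (x : ℝ → ℝ) (hx : Continuous x)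
    (h : ∀ t : ℝ, a ^ 2 * (1 - (x t : ℂ) * c) = (t * z) ^ 5 - 1) {u v : C}
    (hu : u.1 = (0, a * (1 - (x 0 : ℂ) * c) ^ (2 : ℂ)⁻¹))
    (hv : v.1 = (z, a * (1 - (x 1 : ℂ) * c) ^ (2 : ℂ)⁻¹)) :
    connectedComponent u = connectedComponent v := by
  let γ : ℝ → C := fun t => ⟨(t * z, a * (1 - (x t : ℂ) * c) ^ (2 : ℂ)⁻¹), by
    show (a * _) ^ 2 = _
    rw [mul_pow, Complex.cpow_ofNat_inv_pow, h]⟩
  have hγ : Continuous γ := Continuous.subtype_mk
    (Continuous.prodMk (by fun_prop) (continuous_const.mul ((cont_root c).comp hx))) _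
  refine connectedComponent_eq ((isPreconnected_range hγ).subset_connectedComponent
    ⟨0, Subtype.ext ?_⟩ ⟨1, Subtype.ext ?_⟩)
  · rw [hu]; simp [γ]
  · rw [hv]; simp [γ]

theorem join_root {u v : C} (hu : u.1.1 = 0) (hv : v.1.2 = 0) :
    connectedComponent u = connectedComponent v := by
  have h1 : u.1.2 ^ 2 = -1 := by
    rw [show u.1.2 ^ 2 = u.1.1 ^ 5 - 1 from u.2, hu]; norm_num
  have h2 : v.1.1 ^ 5 = 1 := by
    have : v.1.2 ^ 2 = v.1.1 ^ 5 - 1 := v.2
    rw [hv] at this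
    linear_combination -this
  refine join v.1.1 u.1.2 1 (fun t => t ^ 5) (by fun_prop) (fun t => ?_) ?_ ?_
  · push_cast
    rw [h1, mul_pow, h2]; ring
  · ext
    · exact hu
    · simp
  · ext
    · rfl
    · simp [hv]

instance : PreconnectedSpace C := by
  let o : C := ⟨(1, 0), by simp [C]⟩
  let i : C := ⟨(0, Complex.I), by simp [C]⟩
  have key : ∀ v : C, connectedComponent v = connectedComponent o := fun v => by
    by_cases hv : v.1.2 = 0
    · rw [← join_root (u := i) rfl hv, join_root (u := i) (v := o) rfl rfl]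
    · have h0 : v.1.2 ^ 2 = v.1.1 ^ 5 - 1 := v.2
      have h : ∀ t : ℝ, v.1.2 ^ 2 * (1 - ((1 - t ^ 5 : ℝ) : ℂ) * (v.1.1 ^ 5 / v.1.2 ^ 2)) =
          (t * v.1.1) ^ 5 - 1 := fun t => by
        push_cast
        field_simp
        linear_combination h0
      let u : C := ⟨(0, v.1.2 * (1 - ((1 - 0 ^ 5 : ℝ) : ℂ) * (v.1.1 ^ 5 / v.1.2 ^ 2)) ^ (2 : ℂ)⁻¹), by
        show (_ * _) ^ 2 = _
        rw [mul_pow, Complex.cpow_ofNat_inv_pow, h]; simp⟩
      rw [← join v.1.1 v.1.2 _ (fun t => 1 - t ^ 5) (by fun_prop) h (u := u) (v := v) rfl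
        (by ext <;> simp), join_root (u := u) (v := o) rfl rfl]
  have : ConnectedSpace C := connectedSpace_iff_connectedComponent.mpr
    ⟨o, eq_univ_of_forall fun v => key v ▸ mem_connectedComponent⟩
  infer_instance

instance : NoncompactSpace C := by
  refine ⟨fun h => noncompact_univ ℂ ?_⟩
  convert h.image (continuous_fst.comp continuous_subtype_val)
  refine (eq_univ_of_forall fun z => ?_).symm
  exact ⟨⟨(z, (z ^ 5 - 1) ^ (2 : ℂ)⁻¹), Complex.cpow_ofNat_inv_pow _ 2⟩, trivial, rfl⟩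

instance : LocallyCompactSpace C := isClosed_C.locallyCompactSpace

/-! ### Charts -/

theorem loc_inv {B : ℂ → ℂ} {b : ℂ} (h : AnalyticAt ℂ B b) (h0 : deriv B b ≠ 0) :
    ∃ e : OpenPartialHomeomorph ℂ ℂ, b ∈ e.source ∧ ⇑e = B ∧
      ∀ τ ∈ e.target, AnalyticAt ℂ e.symm τ := by
  obtain ⟨e, h1, h2, h3⟩ := An.exists_homeo (Y := ℂ) (ψ := B) (p := b) h h0
  refine ⟨e, h1, h2, fun τ hτ => ?_⟩
  have := (h3 _ (e.map_target hτ)).2.2 id analyticAt_id
  rwa [← h2, e.right_inv hτ] at this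

/-- what is needed of a chart -/
structure Nice (c : OpenPartialHomeomorph Y ℂ) : Prop where
  fwd : ∃ G : ℂ × ℂ → ℂ, (∀ y, c y = G (pr y)) ∧ ∀ y ∈ c.source, y ≠ oo → AnalyticAt ℂ G (pr y)
  bwd : ∀ y ∈ c.source, y ≠ oo → AnalyticAt ℂ (pr ∘ c.symm) (c y)

/-- A chart from a relation `A (a y) = B (s y)` with `B` invertible. -/
theorem chart {U : Set Y} (hU : IsOpen U) {G : ℂ × ℂ → ℂ} {s : Y → ℂ} {A : ℂ → ℂ}
    (e : OpenPartialHomeomorph ℂ ℂ) (he : ∀ τ ∈ e.target, AnalyticAt ℂ e.symm τ)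
    (hA : ∀ t, AnalyticAt ℂ A t) (ha : ContinuousOn (fun y => G (pr y)) U) (hs : ContinuousOn s U)
    (hG : ∀ y ∈ U, y ≠ oo → AnalyticAt ℂ G (pr y))
    (hrel : ∀ y ∈ U, A (G (pr y)) = e (s y)) {g : ℂ × ℂ → ℂ × ℂ}
    (h1 : ∀ y ∈ U, g (G (pr y), s y) = pr y) {N : Set ℂ} (hN : IsOpen N)
    (h2 : ∀ t ∈ N, ∀ σ, A t = e σ → g (t, σ) ∈ C ∧ AnalyticAt ℂ g (t, σ))
    (h3 : ∀ t, ∀ σ ∈ e.source, A t = e σ → mk (g (t, σ)) ∈ U ∧ G (pr (mk (g (t, σ)))) = t ∧
      s (mk (g (t, σ))) = σ)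
    (h4 : ∀ y ∈ U, y ≠ oo → G (pr y) ∈ N)
    (h5 : ∀ t, t ∉ N → A t ∈ e.target → ContinuousAt (fun t => mk (g (t, e.symm (A t)))) t) :
    ∃ c : OpenPartialHomeomorph Y ℂ, Nice c ∧ c.source = U ∩ s ⁻¹' e.source ∧
      ∀ y, c y = G (pr y) := by
  have hA' : Continuous A := continuous_iff_continuousAt.mpr fun t => (hA t).continuousAt
  have k1 : ∀ t ∈ N, A t ∈ e.target → AnalyticAt ℂ (fun t => g (t, e.symm (A t))) t ∧
      ∀ᶠ t' in 𝓝 t, g (t', e.symm (A t')) ∈ C := fun t ht ht' => by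
    refine ⟨AnalyticAt.comp (f := fun t => (t, e.symm (A t)))
      (h2 t ht _ (e.right_inv ht').symm).2 (analyticAt_id.prod ((he _ ht').comp (hA t))), ?_⟩
    filter_upwards [hN.mem_nhds ht, (e.open_target.preimage hA').mem_nhds ht'] with t' k k'
    exact (h2 t' k _ (e.right_inv k').symm).1
  refine ⟨{ toFun := fun y => G (pr y)
            invFun := fun t => mk (g (t, e.symm (A t)))
            source := U ∩ s ⁻¹' e.source
            target := A ⁻¹' e.target
            map_source' := fun y hy => ?_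
            map_target' := fun t ht => ?_
            left_inv' := fun y hy => ?_
            right_inv' := fun t ht => (h3 t _ (e.map_target ht) (e.right_inv ht).symm).2.1
            open_source := hs.isOpen_inter_preimage hU e.open_source
            open_target := e.open_target.preimage hA'
            continuousOn_toFun := ha.mono inter_subset_left
            continuousOn_invFun := fun t ht => ContinuousAt.continuousWithinAt ?_ },
    ⟨⟨G, fun _ => rfl, fun y hy => hG y hy.1⟩, fun y hy hy' => ?_⟩, rfl, fun _ => rfl⟩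
  · rw [mem_preimage, hrel y hy.1]
    exact e.map_source hy.2
  · obtain ⟨k, -, k'⟩ := h3 t _ (e.map_target ht) (e.right_inv ht).symm
    refine ⟨k, ?_⟩
    rw [mem_preimage, k']
    exact e.map_target ht
  · rw [hrel y hy.1, e.left_inv hy.2, h1 y hy.1, mk_pr]
  · by_cases h : t ∈ N
    · obtain ⟨k, k'⟩ := k1 t h ht
      exact (cont_mk _ k'.self_of_nhds).tendsto.comp
        (tendsto_nhdsWithin_iff.mpr ⟨k.continuousAt, k'⟩)
    · exact h5 t h ht
  · obtain ⟨k, k'⟩ := k1 _ (h4 y hy.1 hy') (by rw [hrel y hy.1]; exact e.map_source hy.2)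
    exact k.congr (k'.mono fun t ht => (pr_mk ht).symm)

theorem chart_a {y : Y} (hy : y ≠ oo) (h0 : (pr y).2 ≠ 0) : ∃ c : OpenPartialHomeomorph Y ℂ,
    Nice c ∧ y ∈ c.source ∧ oo ∉ c.source ∧ ∀ y, c y = (pr y).1 := by
  obtain ⟨e, k1, k2, k3⟩ := loc_inv (B := fun w => w ^ 2) (b := (pr y).2) (by fun_prop)
    (by simpa using h0)
  obtain ⟨c, k4, k5, k6⟩ := chart (U := {oo}ᶜ) isOpen_compl_singleton (G := Prod.fst)
    (s := fun y => (pr y).2) (A := fun z => z ^ 5 - 1) e k3 (fun _ => by fun_prop)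
    (fun y hy => (cont_pr hy).fst.continuousWithinAt)
    (fun y hy => (cont_pr hy).snd.continuousWithinAt) (fun _ _ _ => analyticAt_fst)
    (fun y hy => by rw [k2]; exact (pr_mem hy).symm) (g := id) (fun _ _ => rfl) isOpen_univ
    (fun t _ σ h => ⟨by rw [k2] at h; exact h.symm, analyticAt_id⟩)
    (fun t σ _ h => by
      have : (t, σ) ∈ C := by rw [k2] at h; exact h.symm
      exact ⟨mk_ne this, by rw [id, pr_mk this], by rw [id, pr_mk this]⟩)
    (fun _ _ _ => trivial) (fun _ h => absurd trivial h)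
  exact ⟨c, k4, k5 ▸ ⟨hy, k1⟩, k5 ▸ fun h => h.1 rfl, k6⟩

theorem chart_b {y : Y} (hy : y ≠ oo) (h0 : (pr y).2 = 0) : ∃ c : OpenPartialHomeomorph Y ℂ,
    Nice c ∧ y ∈ c.source ∧ oo ∉ c.source := by
  have h1 : (pr y).1 ≠ 0 := fun h => by
    have : (pr y).2 ^ 2 = (pr y).1 ^ 5 - 1 := pr_mem hy
    rw [h, h0] at this
    norm_num at this
  obtain ⟨e, k1, k2, k3⟩ := loc_inv (B := fun z => z ^ 5 - 1) (b := (pr y).1) (by fun_prop)
    (by simpa using h1)
  obtain ⟨c, k4, k5, -⟩ := chart (U := {oo}ᶜ) isOpen_compl_singleton (G := Prod.snd)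
    (s := fun y => (pr y).1) (A := fun w => w ^ 2) e k3 (fun _ => by fun_prop)
    (fun y hy => (cont_pr hy).snd.continuousWithinAt)
    (fun y hy => (cont_pr hy).fst.continuousWithinAt) (fun _ _ _ => analyticAt_snd)
    (fun y hy => by rw [k2]; exact pr_mem hy) (g := fun v => (v.2, v.1)) (fun _ _ => rfl)
    isOpen_univ
    (fun t _ σ h => ⟨by rw [k2] at h; exact h, analyticAt_snd.prod analyticAt_fst⟩)
    (fun t σ _ h => by
      have : (σ, t) ∈ C := by rw [k2] at h; exact h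
      exact ⟨mk_ne this, by rw [pr_mk this], by rw [pr_mk this]⟩)
    (fun _ _ _ => trivial) (fun _ h => absurd trivial h)
  exact ⟨c, k4, k5 ▸ ⟨hy, k1⟩, k5 ▸ fun h => h.1 rfl⟩

theorem cont_inv : ContinuousAt (fun y => (pr y).1⁻¹) oo := by
  rw [continuousAt_iff_punctured_nhds, pr_inf, inv_zero]
  exact tendsto_inv₀_cobounded.comp pole

theorem rel (y : Y) : ((pr y).1 ^ 2 / (pr y).2) ^ 2 = (pr y).1⁻¹ / (1 - (pr y).1⁻¹ ^ 5) := by
  by_cases h : (pr y).1 = 0
  · simp [h]
  · have hy : y ≠ oo := fun k => h (by rw [k, pr_inf])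
    rw [div_pow, show (pr y).2 ^ 2 = (pr y).1 ^ 5 - 1 from pr_mem hy,
      show 1 - (pr y).1⁻¹ ^ 5 = ((pr y).1 ^ 5 - 1) / (pr y).1 ^ 5 by field_simp, div_div_eq_mul_div]
    congr 1
    field_simp

theorem cont_t : ContinuousAt (fun y => (pr y).1 ^ 2 / (pr y).2) oo := by
  have h1 : Tendsto (fun y => ((pr y).1 ^ 2 / (pr y).2) ^ 2) (𝓝 oo) (𝓝 0) := by
    simp only [rel]
    have := (cont_inv.div ((continuousAt_const (y := (1 : ℂ))).sub (cont_inv.pow 5))
      (by simp [pr_inf])).tendsto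
    convert this using 2 <;> simp [pr_inf]
  have h2 := h1.norm.sqrt
  simp only [norm_pow, Real.sqrt_sq (norm_nonneg _), norm_zero, Real.sqrt_zero] at h2
  rw [ContinuousAt, pr_inf, div_zero]
  exact tendsto_zero_iff_norm_tendsto_zero.mpr h2

theorem chart_c : ∃ c : OpenPartialHomeomorph Y ℂ, Nice c ∧ oo ∈ c.source := by
  have hB : AnalyticAt ℂ (fun s : ℂ => s / (1 - s ^ 5)) 0 :=
    analyticAt_id.div (by fun_prop) (by simp)
  have hd : HasDerivAt (fun s : ℂ => s / (1 - s ^ 5)) 1 0 := by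
    have := (hasDerivAt_id (0 : ℂ)).div ((hasDerivAt_pow 5 (0 : ℂ)).const_sub 1) (by simp)
    exact this.congr_deriv (by simp)
  obtain ⟨e, k1, k2, k3⟩ := loc_inv hB (by rw [hd.deriv]; exact one_ne_zero)
  have e0 : e 0 = 0 := by rw [k2]; simp
  have hU : IsOpen {y : Y | y ≠ oo → (pr y).1 ≠ 0 ∧ (pr y).2 ≠ 0} := by
    refine isOpen_iff_mem_nhds.mpr fun y hy => ?_
    by_cases h : y = oo
    · subst h
      refine eventually_nhdsWithin_iff.mp ?_
      have := pole.eventually (Metric.isBounded_closedBall (x := (0 : ℂ)) (r := 1))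
      filter_upwards [this, self_mem_nhdsWithin] with y h1 h2
      refine ⟨fun h => h1 (by simp [h]), fun h => h1 ?_⟩
      have h3 : (pr y).2 ^ 2 = (pr y).1 ^ 5 - 1 := pr_mem h2
      have h4 : (pr y).1 ^ 5 = 1 := by rw [h] at h3; linear_combination -h3
      simp [Complex.norm_eq_one_of_pow_eq_one h4 (by norm_num)]
    · filter_upwards [(cont_pr h).fst.eventually_ne (hy h).1, (cont_pr h).snd.eventually_ne (hy h).2]
        with y h1 h2 _ using ⟨h1, h2⟩
  have hne : ∀ t σ : ℂ, t ≠ 0 → t ^ 2 = e σ → σ ≠ 0 ∧ (σ⁻¹, (σ ^ 2 * t)⁻¹) ∈ C := fun t σ ht h => by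
    replace h : t ^ 2 = σ / (1 - σ ^ 5) := by rw [h, k2]
    have h1 : σ / (1 - σ ^ 5) ≠ 0 := h ▸ pow_ne_zero 2 ht
    have h2 : σ ≠ 0 := (div_ne_zero_iff.mp h1).1
    have h3 := (div_ne_zero_iff.mp h1).2
    refine ⟨h2, ?_⟩
    show (σ ^ 2 * t)⁻¹ ^ 2 = σ⁻¹ ^ 5 - 1
    rw [inv_pow, mul_pow, h]
    field_simp
  obtain ⟨c, k4, k5, -⟩ := chart hU (G := fun v => v.1 ^ 2 / v.2)
    (s := fun y => (pr y).1⁻¹) (A := fun t => t ^ 2) e k3 (fun _ => by fun_prop)
    (fun y hy => ContinuousAt.continuousWithinAt (by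
      by_cases h : y = oo
      · exact h ▸ cont_t
      · exact ((cont_pr h).fst.pow 2).div (cont_pr h).snd (hy h).2))
    (fun y hy => ContinuousAt.continuousWithinAt (by
      by_cases h : y = oo
      · exact h ▸ cont_inv
      · exact (cont_pr h).fst.inv₀ (hy h).1))
    (fun y hy h => (analyticAt_fst.pow 2).div analyticAt_snd (hy h).2)
    (fun y _ => by rw [k2]; exact rel y) (g := fun v => (v.2⁻¹, (v.2 ^ 2 * v.1)⁻¹))
    (fun y hy => by
      by_cases h : y = oo
      · simp [h, pr_inf]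
      · obtain ⟨h1, h2⟩ := hy h
        ext
        · simp
        · simp only
          field_simp)
    (N := {0}ᶜ) isOpen_compl_singleton
    (fun t ht σ h => ⟨(hne t σ ht h).2, (analyticAt_snd.inv (hne t σ ht h).1).prod
      (((analyticAt_snd.pow 2).mul analyticAt_fst).inv
        (mul_ne_zero (pow_ne_zero 2 (hne t σ ht h).1) ht))⟩)
    (fun t σ hσ h => by
      by_cases ht : t = 0
      · have h1 : σ = 0 := e.injOn hσ k1 (by rw [← h, e0, ht]; simp)
        have h2 : mk (σ⁻¹, (σ ^ 2 * t)⁻¹) = oo := by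
          rw [← mk_pr oo, pr_inf, h1]; simp
        simp only [h2]
        exact ⟨fun k => absurd rfl k, by simp [pr_inf, ht], by simp [pr_inf, h1]⟩
      · obtain ⟨h1, h2⟩ := hne t σ ht h
        simp only [mem_ofPred_eq, pr_mk h2]
        refine ⟨fun _ => ⟨inv_ne_zero h1, inv_ne_zero (mul_ne_zero (pow_ne_zero 2 h1) ht)⟩, ?_,
          inv_inv σ⟩
        field_simp)
    (fun y hy h => div_ne_zero (pow_ne_zero 2 (hy h).1) (hy h).2)
    (fun t ht _ => by
      obtain rfl : t = 0 := not_not.mp ht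
      have h1 : e.symm 0 = 0 := by rw [← e0, e.left_inv k1, e0]
      have h2 : mk ((e.symm (0 ^ 2))⁻¹, (e.symm (0 ^ 2) ^ 2 * 0)⁻¹) = oo := by
        rw [← mk_pr oo, pr_inf]; simp [h1]
      rw [continuousAt_iff_punctured_nhds]
      simp only [h2]
      refine mk_inf (tendsto_inv₀_nhdsNE_zero.comp ?_)
      have h3 : Tendsto e.symm (𝓝[≠] 0) (𝓝[≠] 0) := by
        have := map_ne_of_homeo e.symm (e.map_source k1)
        rw [e0, h1] at this
        exact this.le
      refine h3.comp (tendsto_nhdsWithin_iff.mpr ⟨?_, ?_⟩)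
      · have : Tendsto (fun t : ℂ => t ^ 2) (𝓝 0) (𝓝 (0 ^ 2)) := (continuous_pow 2).tendsto 0
        rw [zero_pow two_ne_zero] at this
        exact this.mono_left nhdsWithin_le_nhds
      · filter_upwards [self_mem_nhdsWithin] with t ht using pow_ne_zero 2 ht)
  refine ⟨c, k4, k5 ▸ ⟨fun h => absurd rfl h, ?_⟩⟩
  simpa [pr_inf] using k1

theorem exists_chart (y : Y) : ∃ c : OpenPartialHomeomorph Y ℂ, Nice c ∧ y ∈ c.source ∧
    (oo ∈ c.source → y = oo) ∧ ((pr y).2 ≠ 0 → ∀ y, c y = (pr y).1) := by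
  by_cases hy : y = oo
  · obtain ⟨c, h1, h2⟩ := chart_c
    exact ⟨c, h1, hy ▸ h2, fun _ => hy, fun h => absurd (by rw [hy, pr_inf]) h⟩
  · by_cases h0 : (pr y).2 = 0
    · obtain ⟨c, h1, h2, h3⟩ := chart_b hy h0
      exact ⟨c, h1, h2, fun h => absurd h h3, fun h => absurd h0 h⟩
    · obtain ⟨c, h1, h2, h3, h4⟩ := chart_a hy h0
      exact ⟨c, h1, h2, fun h => absurd h h3, fun _ => h4⟩

/-- the chosen chart -/
def ch (y : Y) : OpenPartialHomeomorph Y ℂ := (exists_chart y).choose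

instance : ChartedSpace ℂ Y where
  atlas := range ch
  chartAt := ch
  mem_chart_source y := (exists_chart y).choose_spec.2.1
  chart_mem_atlas y := ⟨y, rfl⟩

instance : IsManifold 𝓘(ℂ) ω Y := by
  refine isManifold_of_contDiffOn _ _ _ ?_
  rintro _ _ ⟨p, rfl⟩ ⟨q, rfl⟩
  simp only [modelWithCornersSelf_coe, modelWithCornersSelf_coe_symm, Function.comp_id,
    Function.id_comp, preimage_id_eq, id, range_id, inter_univ]
  rintro t ⟨h1, h2⟩
  refine ContDiffAt.contDiffWithinAt (AnalyticAt.contDiffAt ?_)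
  have h3 := (ch p).map_target h1
  by_cases hy : (ch p).symm t = oo
  · have k1 : p = oo := (exists_chart p).choose_spec.2.2.1
      (mem_of_eq_of_mem hy.symm h3)
    have k2 : q = oo := (exists_chart q).choose_spec.2.2.1
      (mem_of_eq_of_mem hy.symm h2)
    rw [k2, ← k1]
    refine analyticAt_id.congr ?_
    filter_upwards [(ch p).open_target.mem_nhds h1] with t ht using ((ch p).right_inv ht).symm
  · obtain ⟨G, k1, k2⟩ := (exists_chart q).choose_spec.1.fwd
    have k3 := (exists_chart p).choose_spec.1.bwd _ h3 hy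
    rw [show (exists_chart p).choose = ch p from rfl, (ch p).right_inv h1] at k3
    exact (AnalyticAt.comp (f := pr ∘ (ch p).symm) (k2 _ h2 hy) k3).congr
      (Eventually.of_forall fun t => (k1 _).symm)

instance : RS Y where

theorem an_pr {y : Y} (hy : y ≠ oo) : AnalyticAt ℂ (pr ∘ (chartAt ℂ y).symm) (zc y y) :=
  (exists_chart y).choose_spec.1.bwd y (mem_chart_source ℂ y) hy

theorem an_fst {y : Y} (hy : y ≠ oo) : An (fun y => (pr y).1) y := analyticAt_fst.comp (an_pr hy)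

theorem an_snd {y : Y} (hy : y ≠ oo) : An (fun y => (pr y).2) y := analyticAt_snd.comp (an_pr hy)

theorem D_fst {y : Y} (hy : (pr y).2 ≠ 0) : D (fun y => (pr y).1) y = 1 := by
  rw [← D_zc_self (p := y)]
  congr 1
  exact (funext ((exists_chart y).choose_spec.2.2.2 hy)).symm

/-- the sheet exchange -/
def io (y : Y) : Y := mk ((pr y).1, -(pr y).2)

theorem io_mem {y : Y} (hy : y ≠ oo) : ((pr y).1, -(pr y).2) ∈ C := by
  show (-(pr y).2) ^ 2 = _
  rw [neg_sq]
  exact pr_mem hy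

theorem root_mem {ζ : ℂ} (h : ζ ∈ Polynomial.nthRootsFinset 5 (1 : ℂ)) : (ζ, (0 : ℂ)) ∈ C := by
  rw [Polynomial.mem_nthRootsFinset (by norm_num)] at h
  simp [C, h]

end CurveP

open CurveP in
theorem curve : S_Curve := by
  classical
  have hζ := Complex.isPrimitiveRoot_exp 5 (by norm_num)
  let R : Finset Y := (Polynomial.nthRootsFinset 5 (1 : ℂ)).image fun ζ => mk (ζ, 0)
  have hinj : InjOn (fun ζ : ℂ => mk (ζ, 0)) (Polynomial.nthRootsFinset 5 (1 : ℂ)) :=
    fun a ha b hb h => by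
      have := congrArg pr h
      simp only [pr_mk (root_mem ha), pr_mk (root_mem hb)] at this
      exact congrArg Prod.fst this
  have hR : ∀ y, y ∈ R ↔ y ≠ oo ∧ (pr y).2 = 0 := fun y => by
    rw [Finset.mem_image]
    constructor
    · rintro ⟨ζ, h, rfl⟩
      exact ⟨mk_ne (root_mem h), by rw [pr_mk (root_mem h)]⟩
    · rintro ⟨h1, h2⟩
      have h3 : (pr y).2 ^ 2 = (pr y).1 ^ 5 - 1 := pr_mem h1
      refine ⟨(pr y).1, ?_, by rw [← h2, mk_pr]⟩
      rw [Polynomial.mem_nthRootsFinset (by norm_num)]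
      rw [h2] at h3
      linear_combination -h3
  refine ⟨Y, inferInstance, inferInstance, inferInstance, fun y => (pr y).1, fun y => (pr y).2, oo,
    R, io, ⟨fun y hy => an_fst (by simpa using hy), fun p hp => ?_, Finset.singleton_nonempty _,
      fun r hr => by simpa using ((hR r).mp hr).1, fun y hy h => ?_,
      fun y hy => by simpa [io] using mk_ne (io_mem (by simpa using hy)), fun y hy y' hy' => ?_,
      fun y hy => ?_⟩, ?_, fun y hy => ⟨an_snd hy, ?_, by simp only [io, pr_mk (io_mem hy)]⟩⟩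
  · rw [Finset.mem_singleton.mp hp]
    exact pole
  · rw [D_fst fun h0 => h ((hR y).mpr ⟨by simpa using hy, h0⟩)]
    exact one_ne_zero
  · rw [Finset.mem_singleton] at hy hy'
    constructor
    · intro h
      have h1 : (pr y').2 ^ 2 = (pr y).2 ^ 2 := by
        rw [show (pr y').2 ^ 2 = _ from pr_mem hy', show (pr y).2 ^ 2 = _ from pr_mem hy, h]
      rcases sq_eq_sq_iff_eq_or_eq_neg.mp h1 with h2 | h2
      · exact Or.inl (pr_inj (Prod.ext h h2))
      · exact Or.inr (pr_inj (by rw [io, pr_mk (io_mem hy)]; exact Prod.ext h h2))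
    · rintro (rfl | rfl)
      · rfl
      · rw [io, pr_mk (io_mem hy)]
  · rw [Finset.mem_singleton] at hy
    rw [hR]
    constructor
    · intro h
      have := congrArg (fun y => (pr y).2) h
      simp only [io, pr_mk (io_mem hy)] at this
      exact ⟨hy, by linear_combination (-1 / 2 : ℂ) * this⟩
    · rintro ⟨-, h⟩
      refine pr_inj ?_
      rw [io, pr_mk (io_mem hy), h, neg_zero, ← h]
  · rw [Finset.card_image_of_injOn hinj, hζ.card_nthRootsFinset]
  · rw [Finset.prod_image hinj, show (pr y).2 ^ 2 = _ from pr_mem hy]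
    have := congrArg (Polynomial.eval (pr y).1) (Polynomial.X_pow_sub_one_eq_prod (by norm_num) hζ)
    simp only [Polynomial.eval_sub, Polynomial.eval_pow, Polynomial.eval_X, Polynomial.eval_one,
      Polynomial.eval_prod, Polynomial.eval_C] at this
    rw [this]
    exact Finset.prod_congr rfl fun ζ h => by simp only [pr_mk (root_mem h)]

end Pool.Agent.P.MP_5d7cf0_gt.T
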