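import Pool.Agent.P.MP_5d7cf0_gt.T.RS
import Pool.Agent.P.MP_5d7cf0_gt.T.Mot

/-!
Package Cvr: the double cover as a branched covering map of the sphere, and its uniqueness.
-/

open Set Filter Topology Manifold Metric
open scoped ContDiff

namespace Pool.Agent.P.MP_5d7cf0_gt.T

namespace CvrP

theorem hat_cont {A : Type} [TopologicalSpace A] [T1Space A] {g : A → ℂ} {p : A}
    (hc : ∀ y, y ≠ p → ContinuousAt g y) (ht : Tendsto g (𝓝[≠] p) (Bornology.cobounded ℂ)) :
    Continuous (hat g p) := by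
  refine continuous_iff_continuousAt.mpr fun y => ?_
  by_cases hy : y = p
  · subst hy
    rw [← continuousWithinAt_compl_self, ContinuousWithinAt, hat_self]
    rw [Metric.cobounded_eq_cocompact, ← coclosedCompact_eq_cocompact] at ht
    refine (OnePoint.tendsto_coe_infty.comp ht).congr' ?_
    filter_upwards [self_mem_nhdsWithin] with z hz using (hat_of_ne g hz).symm
  · refine (OnePoint.continuous_coe.continuousAt.comp (hc y hy)).congr ?_
    filter_upwards [isOpen_compl_singleton.mem_nhds hy] with z hz using (hat_of_ne g hz).symm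

theorem hat_eq_iff {A B : Type} {g : A → ℂ} {g' : B → ℂ} {p y : A} {p' y' : B}
    (h : hat g p y = hat g' p' y') : (y = p ∧ y' = p') ∨ (y ≠ p ∧ y' ≠ p' ∧ g y = g' y') := by
  by_cases h1 : y = p <;> by_cases h2 : y' = p'
  · exact Or.inl ⟨h1, h2⟩
  · rw [h1, hat_self, hat_of_ne g' h2] at h
    exact absurd h (OnePoint.infty_ne_coe _)
  · rw [h2, hat_self, hat_of_ne g h1] at h
    exact absurd h (OnePoint.coe_ne_infty _)
  · rw [hat_of_ne g h1, hat_of_ne g' h2] at h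
    exact Or.inr ⟨h1, h2, OnePoint.coe_eq_coe.mp h⟩

theorem tendsto_prod {A B : Type} {l : Filter A} {s : Finset B} (hs : s.Nonempty) {g : B → A → ℝ}
    (h : ∀ b ∈ s, Tendsto (g b) l atTop) : Tendsto (fun a => ∏ b ∈ s, g b a) l atTop := by
  induction hs using Finset.Nonempty.cons_induction with
  | singleton b => simpa using h b (Finset.mem_singleton_self b)
  | cons b s hb hs ih =>
    simp only [Finset.prod_cons]
    exact (h b (Finset.mem_cons_self _ _)).atTop_mul_atTop₀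
      (ih fun c hc => h c (Finset.mem_cons_of_mem hc))

variable {Y Y' : Type} [TopologicalSpace Y] [ChartedSpace ℂ Y] [RS Y] [TopologicalSpace Y']
  [ChartedSpace ℂ Y'] [RS Y'] {x : E} {f : Y → ℂ} {r : Fin 6 → Y}

theorem cont (h : Dbl x f r) : Continuous (hat f (r 5)) :=
  hat_cont (fun _ hy => (h.an hy).continuousAt) h.pole

omit [RS Y] in
theorem fibre (h : Dbl x f r) (i : Fin 6) (y : Y) (e : hat f (r 5) y = hat f (r 5) (r i)) :
    y = r i := by
  obtain ⟨R, ι, h1, h2, -⟩ := h.two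
  rcases hat_eq_iff e with ⟨e1, e2⟩ | ⟨e1, e2, e3⟩
  · rw [e1, e2]
  · have h3 : r i ∉ ({r 5} : Finset Y) := by simpa using e2
    have h4 : ι (r i) = r i := (h1.fix _ h3).mpr ((h2 _).mpr ⟨i, fun h5 => e2 (h5 ▸ rfl), rfl⟩)
    have h5 := (h1.fib _ h3 y (by simpa using e1)).mp e3
    rwa [h4, or_self] at h5

theorem ne_five {A : Type} {r : Fin 6 → A} {y : A} (hy : y ∉ range r) : y ≠ r 5 := fun h => hy ⟨5, h.symm⟩

omit [RS Y] in
theorem val_ne (h : Dbl x f r) {y : Y} (hy : y ∉ range r) (i : Fin 6) (hi : i ≠ 5) :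
    f y ≠ (pt x i).1 := fun e => hy ⟨i, (fibre h i y (by
  rw [hat_of_ne f (ne_five hy), hat_of_ne f (h.ne_five hi), h.f_r hi, e])).symm⟩

theorem cover (h : Dbl x f r) : IsCoveringMapOn (hat f (r 5)) (range (hat f (r 5) ∘ r))ᶜ := by
  refine .of_isLocalHomeomorphOn (cont h) (.mk _ _ fun y hy => ?_)
  have h1 : y ∉ range r := by
    rintro ⟨i, rfl⟩
    exact hy ⟨i, rfl⟩
  obtain ⟨e, h2, h3, -⟩ := (h.an (ne_five h1)).exists_homeo (h.D_ne h1)
  refine ⟨(e.restrOpen {r 5}ᶜ isOpen_compl_singleton).trans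
    (OnePoint.isOpenEmbedding_coe.toOpenPartialHomeomorph _), ⟨⟨h2, ne_five h1⟩, mem_univ _⟩,
    fun z hz => ?_⟩
  rw [hat_of_ne f hz.1.2, ← h3]
  rfl

theorem surj (h : Dbl x f r) (c : ℂ) : ∃ y, y ≠ r 5 ∧ f y = c := by
  set Z : Set ℂ := {c | ∃ y, y ≠ r 5 ∧ f y = c}
  have h1 : IsClosed Z := by
    have : Z = (fun c : ℂ => (c : OnePoint ℂ)) ⁻¹' range (hat f (r 5)) := by
      ext c
      constructor
      · rintro ⟨y, h1, rfl⟩
        exact ⟨y, hat_of_ne f h1⟩
      · rintro ⟨y, h1⟩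
        by_cases h2 : y = r 5
        · rw [h2, hat_self] at h1
          exact absurd h1 (OnePoint.infty_ne_coe _)
        · rw [hat_of_ne f h2] at h1
          exact ⟨y, h2, OnePoint.coe_eq_coe.mp h1⟩
    rw [this]
    exact (isCompact_range (cont h)).isClosed.preimage OnePoint.continuous_coe
  have h2 : IsOpen Z := by
    refine isOpen_iff_mem_nhds.mpr ?_
    rintro _ ⟨y, hy, rfl⟩
    refine (h.an hy).nhds_le_map (fun h3 => not_const_of_pole (finite_singleton (r 5))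
      (fun z hz => h.an hz) h.pole y _ (h3.filter_mono nhdsWithin_le_nhds)) (mem_map.mpr ?_)
    filter_upwards [isOpen_compl_singleton.mem_nhds hy] with z hz using ⟨z, hz, rfl⟩
  obtain ⟨y, hy⟩ := (eventually_mem_nhdsWithin (a := r 5) (s := {r 5}ᶜ)).exists
  have h3 : Z = univ := IsClopen.eq_univ ⟨h1, h2⟩ ⟨f y, y, hy, rfl⟩
  exact (h3 ▸ mem_univ c : c ∈ Z)

/-- the hyperelliptic curve with its point at infinity -/
def Gam (x : E) : Set (OnePoint ℂ × OnePoint ℂ) :=
  {q | q = (OnePoint.infty, OnePoint.infty) ∨ ∃ z w : ℂ, q = ((z : OnePoint ℂ), (w : OnePoint ℂ)) ∧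
    w ^ 2 = ∏ i ∈ Finset.univ.erase (5 : Fin 6), (z - (pt x i).1)}

theorem model (hW : S_W) (h : Dbl x f r) (hw : ∃ w ∈ Om Y, w ≠ 0) :
    ∃ Φ : Y → OnePoint ℂ × OnePoint ℂ, Continuous Φ ∧ Function.Injective Φ ∧ range Φ = Gam x ∧
      ∀ y, (Φ y).1 = hat f (r 5) y := by
  classical
  obtain ⟨R, ι, h1, h2, -⟩ := h.two
  obtain ⟨W, h3⟩ := hW Y f _ R ι h1 hw
  have hm : ∀ {y}, y ≠ r 5 → y ∉ ({r 5} : Finset Y) := fun hy => by simpa using hy
  have hR : R = (Finset.univ.erase (5 : Fin 6)).image r := by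
    ext y
    simp [h2, eq_comm]
  have hP : ∀ z : ℂ, ∏ s ∈ R, (z - f s) =
      ∏ i ∈ Finset.univ.erase (5 : Fin 6), (z - (pt x i).1) := fun z => by
    rw [hR, Finset.prod_image fun _ _ _ _ e => h.inj e]
    exact Finset.prod_congr rfl fun i hi => by rw [h.f_r (Finset.ne_of_mem_erase hi)]
  have hpole : Tendsto W (𝓝[≠] (r 5)) (Bornology.cobounded ℂ) := by
    rw [← tendsto_norm_atTop_iff_cobounded]
    have h4 := tendsto_prod (s := R) ⟨r 0, (h2 _).mpr ⟨0, by decide, rfl⟩⟩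
      (g := fun s y => ‖f y - f s‖) fun s _ => tendsto_norm_atTop_iff_cobounded.mpr
        ((tendsto_sub_const_cobounded (f s)).comp h.pole)
    refine (Real.tendsto_sqrt_atTop.comp h4).congr' ?_
    filter_upwards [self_mem_nhdsWithin] with y hy
    simp only [Function.comp]
    rw [← norm_prod, ← (h3 y (hm hy)).2.1, norm_pow, Real.sqrt_sq (norm_nonneg _)]
  refine ⟨fun y => (hat f (r 5) y, hat W (r 5) y), (cont h).prodMk
    (hat_cont (fun y hy => (h3 y (hm hy)).1.continuousAt) hpole), fun y y' e => ?_, ?_,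
    fun _ => rfl⟩
  · rcases hat_eq_iff (congrArg Prod.fst e) with ⟨e1, e2⟩ | ⟨e1, e2, e3⟩
    · rw [e1, e2]
    have e4 := ((hat_eq_iff (congrArg Prod.snd e)).resolve_left fun e4 => e1 e4.1).2.2
    rcases (h1.fib y (hm e1) y' (hm e2)).mp e3.symm with e5 | e5
    · exact e5.symm
    rw [e5, (h3 y (hm e1)).2.2] at e4
    have e6 : W y = 0 := by linear_combination e4 / 2
    have e7 := (h3 y (hm e1)).2.1
    rw [e6, zero_pow two_ne_zero] at e7
    obtain ⟨s, hs, e8⟩ := Finset.prod_eq_zero_iff.mp e7.symm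
    have e9 := (h1.fib s (h1.disj s hs) y (hm e1)).mp (sub_eq_zero.mp e8)
    rw [(h1.fix s (h1.disj s hs)).mpr hs, or_self] at e9
    rw [e5, (h1.fix y (hm e1)).mpr (e9 ▸ hs)]
  · ext q
    constructor
    · rintro ⟨y, rfl⟩
      by_cases hy : y = r 5
      · exact Or.inl (by simp only [hy, hat_self])
      · exact Or.inr ⟨f y, W y, by simp only [hat_of_ne _ hy], by rw [(h3 y (hm hy)).2.1, hP]⟩
    · rintro (rfl | ⟨z, w, rfl, e⟩)
      · exact ⟨r 5, by simp only [hat_self]⟩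
      obtain ⟨y, hy, rfl⟩ := surj h z
      rw [← hP, ← (h3 y (hm hy)).2.1] at e
      rcases sq_eq_sq_iff_eq_or_eq_neg.mp e with rfl | rfl
      · exact ⟨y, by simp only [hat_of_ne _ hy]⟩
      · have h4 : ι y ≠ r 5 := by simpa using h1.mem y (hm hy)
        refine ⟨ι y, ?_⟩
        simp only [hat_of_ne _ h4]
        rw [(h3 y (hm hy)).2.2, (h1.fib y (hm hy) _ (hm h4)).mpr (Or.inr rfl)]

theorem hol_all {j : Y → Y'} (hc : Continuous j) (h : ∀ y, y ∉ range r → Hol j y) :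
    MDifferentiable 𝓘(ℂ) 𝓘(ℂ) j :=
  mdiff_iff_hol.mpr fun y => hol_of_punctured hc.continuousAt
    ((eventually_notMem (finite_range r) y).mono h)

end CvrP

open CvrP

theorem cvr : S_Cvr := by
  intro Y _ _ _ x f r h
  refine ⟨cont h, fibre h, cover h, fun y hy => ⟨val_ne h hy, ?_⟩⟩
  obtain ⟨R, ι, h1, -, h2⟩ := h.two
  obtain ⟨h3, h4⟩ := (h2 y).mp hy
  have h5 := h1.mem y h3
  refine ⟨ι y, fun e => h4 ((h1.fix y h3).mp e), ?_⟩
  rw [hat_of_ne f (by simpa using h5), hat_of_ne f (CvrP.ne_five hy),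
    (h1.fib y h3 _ h5).mpr (Or.inr rfl)]

theorem bi : S_Bi := by
  intro Y Y' _ _ _ _ _ _ x σ f r f' r' j h h' hr hf
  have h1 : ∀ y, y ∉ range r ↔ j y ∉ range r' := fun y => not_congr
    ⟨by rintro ⟨i, rfl⟩; exact ⟨σ.symm i, by rw [← hr, σ.apply_symm_apply]⟩,
      by rintro ⟨i, e⟩; exact ⟨σ i, j.injective ((hr i).trans e)⟩⟩
  have h2 : ∀ y, y ∉ range r → An (fun y => mob σ x (f y)) y ∧
      D (fun y => mob σ x (f y)) y ≠ 0 := fun y hy => by
    have h3 := (((mobC.2.2 σ).2 x h.1).2.2 _ (val_ne h hy)).2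
    have h4 := h.an (CvrP.ne_five hy)
    refine ⟨h4.comp h3.1, ?_⟩
    rw [D_comp h4 h3.1.differentiableAt]
    exact mul_ne_zero h3.2 (h.D_ne hy)
  refine ⟨hol_all (r := r) j.continuous fun y hy => ?_,
    hol_all (r := r') j.symm.continuous fun y hy => ?_⟩
  · refine hol_of_local j.continuous.continuousAt (h'.an (CvrP.ne_five ((h1 y).mp hy)))
      (h'.D_ne ((h1 y).mp hy)) ((h2 y hy).1.congr ?_)
    filter_upwards [eventually_notMem' (finite_range r) hy] with z hz using (hf z hz).symm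
  · have h3 : ∀ z, z ∉ range r' → j.symm z ∉ range r := fun z hz =>
      (h1 _).mpr (by rwa [j.apply_symm_apply])
    refine hol_of_local j.symm.continuous.continuousAt (h2 _ (h3 y hy)).1 (h2 _ (h3 y hy)).2
      ((h'.an (CvrP.ne_five hy)).congr ?_)
    filter_upwards [eventually_notMem' (finite_range r') hy] with z hz
    rw [← hf _ (h3 z hz), j.apply_symm_apply]

theorem uq (hW : S_W) : S_Uq := by
  intro Y Y' _ _ _ _ _ _ x f r f' r' h h' hw hw'
  obtain ⟨Φ, h1, h2, h3, h4⟩ := model hW h hw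
  obtain ⟨Φ', h1', h2', h3', h4'⟩ := model hW h' hw'
  have e := (h1.isClosedEmbedding h2).isEmbedding
  have e' := (h1'.isClosedEmbedding h2').isEmbedding
  set j : Y ≃ₜ Y' := (e.toHomeomorph.trans (Homeomorph.setCongr (h3.trans h3'.symm))).trans
    e'.toHomeomorph.symm
  have h5 : ∀ y, Φ' (j y) = Φ y := fun y =>
    congrArg Subtype.val (e'.toHomeomorph.apply_symm_apply _)
  have h6 : ∀ y, hat f' (r' 5) (j y) = hat f (r 5) y := fun y => by rw [← h4, ← h4', h5]
  refine ⟨j, fun i => fibre h' i _ (by rw [h6, h.hat_r, h'.hat_r]), fun y hy => ?_⟩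
  exact ((hat_eq_iff (h6 y)).resolve_left fun e4 => CvrP.ne_five hy e4.2).2.2

end Pool.Agent.P.MP_5d7cf0_gt.T
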