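import Pool.Agent.P.MP_5d7cf0_gt.T.Stm
import Pool.Agent.P.MP_5d7cf0_gt.Defs

/-!
Internal definitions for the dictionary between Teichmueller space in genus two and six points on
the projective line.
-/

open Set Filter Topology MeasureTheory Manifold Metric ComplexConjugate
open scoped ContDiff ENNReal

noncomputable section

namespace Pool.Agent.P.MP_5d7cf0_gt.T

/-- compact connected Riemann surfaces -/
class RS (Y : Type) [TopologicalSpace Y] [ChartedSpace ℂ Y] : Prop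
    extends T2Space Y, CompactSpace Y, ConnectedSpace Y, IsManifold 𝓘(ℂ) ω Y

instance Marked.rs {S : Type} [TopologicalSpace S] [ChartedSpace ℂ S] [RS S] (M : Marked S) :
    RS M.Y :=
  { M.f.t2Space, M.f.compactSpace, M.f.surjective.connectedSpace M.f.continuous, M.man with }

/-- the Cauchy-Riemann operator -/
def dbar (g : ℂ → ℂ) (z : ℂ) : ℂ :=
  (1 / 2 : ℂ) * (fderiv ℝ g z 1 + Complex.I * fderiv ℝ g z Complex.I)

/-- the Cauchy transform -/
def ct (a : ℂ → ℂ) (z : ℂ) : ℂ := (Real.pi : ℂ)⁻¹ * ∫ ζ : ℂ, a ζ / (z - ζ)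

section RS

variable {Y Y' : Type} [TopologicalSpace Y] [ChartedSpace ℂ Y] [TopologicalSpace Y']
  [ChartedSpace ℂ Y']

/-- the preferred coordinate at `p`, as a function -/
def zc (p : Y) : Y → ℂ := chartAt ℂ p

/-- the function `u` read in the chart at `p` -/
def loc (u : Y → ℂ) (p : Y) : ℂ → ℂ := u ∘ (chartAt ℂ p).symm

/-- `u` is holomorphic near `p` -/
def An (u : Y → ℂ) (p : Y) : Prop := AnalyticAt ℂ (loc u p) (zc p p)

/-- the coefficient of `du` at `p` in the chart at `p` -/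
def D (u : Y → ℂ) (p : Y) : ℂ := deriv (loc u p) (zc p p)

/-- `u` is smooth near `p` -/
def Sm (u : Y → ℂ) (p : Y) : Prop := ∀ᶠ z in 𝓝 (zc p p), ContDiffAt ℝ ∞ (loc u p) z

/-- the coefficient of `dbar u` at `p` in the chart at `p` -/
def Db (u : Y → ℂ) (p : Y) : ℂ := dbar (loc u p) (zc p p)

/-- A one-form is the function `w` of its coefficients, `w y` in the chart at `y`.
`Hf w p`: the form is holomorphic near `p`. -/
def Hf (w : Y → ℂ) (p : Y) : Prop := An (fun y => w y / D (zc p) y) p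

variable (Y) in
/-- holomorphic one-forms -/
def Om : Submodule ℂ (Y → ℂ) where
  carrier := {w | ∀ p, Hf w p}
  add_mem' := fun {a b} ha hb p => by
    have := AnalyticAt.add (ha p) (hb p)
    refine this.congr (Eventually.of_forall fun z => ?_)
    simp [loc, add_div]
  zero_mem' := fun p => by
    refine (analyticAt_const (v := (0 : ℂ))).congr (Eventually.of_forall fun z => ?_)
    simp [loc]
  smul_mem' := fun c a ha p => by
    have := AnalyticAt.mul (analyticAt_const (v := c)) (ha p)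
    refine this.congr (Eventually.of_forall fun z => ?_)
    simp [loc, mul_div_assoc]

/-- `j` is holomorphic near `y` -/
def Hol (j : Y → Y') (y : Y) : Prop := ContinuousAt j y ∧ An (zc (j y) ∘ j) y

/-- pull-back of one-forms -/
def pull (j : Y → Y') (w : Y' → ℂ) : Y → ℂ := fun y => w (j y) * D (zc (j y) ∘ j) y

/-- locally `dbar`-exact `(0,1)`-forms -/
def LEx (β : Y → ℂ) : Prop := ∀ p, ∃ u, ∀ᶠ y in 𝓝 p, Sm u y ∧ Db u y = β y

/-- `dbar`-exact `(0,1)`-forms -/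
def Ex (β : Y → ℂ) : Prop := ∃ u, ∀ y, Sm u y ∧ Db u y = β y

/-- `β` is `dbar` of a function that is smooth outside `p` and equals `1 / (z - z p)` near `p` -/
def Polar (z : Y → ℂ) (p : Y) (β : Y → ℂ) : Prop :=
  ∃ u, (∀ y, y ≠ p → Sm u y ∧ Db u y = β y) ∧ β p = 0 ∧ ∀ᶠ y in 𝓝 p, u y = (z y - z p)⁻¹

/-- `f` has a simple pole at `p` -/
def SP (f : Y → ℂ) (p : Y) : Prop :=
  ∃ φ, An φ p ∧ φ p = 0 ∧ D φ p ≠ 0 ∧ ∀ᶠ y in 𝓝[≠] p, φ y * f y = 1

/-- a meromorphic function of degree two: poles `P`, finite ramification points `R`, and the map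
`ι` that exchanges the points of a fibre -/
structure Two (f : Y → ℂ) (P R : Finset Y) (ι : Y → Y) : Prop where
  an : ∀ y, y ∉ P → An f y
  pole : ∀ p ∈ P, Tendsto f (𝓝[≠] p) (Bornology.cobounded ℂ)
  ne : P.Nonempty
  disj : ∀ r ∈ R, r ∉ P
  der : ∀ y, y ∉ P → y ∉ R → D f y ≠ 0
  mem : ∀ y, y ∉ P → ι y ∉ P
  fib : ∀ y, y ∉ P → ∀ y', y' ∉ P → (f y' = f y ↔ y' = y ∨ y' = ι y)
  fix : ∀ y, y ∉ P → (ι y = y ↔ y ∈ R)

open Classical in
/-- homogeneous coordinates of the value of a function with the pole `p` -/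
def hom {A : Type} (f : A → ℂ) (p y : A) : ℂ × ℂ := if y = p then (1, 0) else (f y, 1)

/-- a double cover of the projective line branched over `0, x₀, x₁, x₂, 1, ∞` -/
def Dbl (x : E) (f : Y → ℂ) (r : Fin 6 → Y) : Prop :=
  x ∈ X ∧ (∀ i, hom f (r 5) (r i) = pt x i) ∧
    ∃ R ι, Two f {r 5} R ι ∧ ∀ y, y ∈ R ↔ ∃ i, i ≠ 5 ∧ y = r i

/-- a finite atlas with a smooth partition of unity `ρ` and cut-off functions `χ` -/
structure Cov (Y : Type) [TopologicalSpace Y] [ChartedSpace ℂ Y] where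
  n : ℕ
  p : Fin n → Y
  ε : Fin n → ℝ
  ρ : Fin n → Y → ℂ
  χ : Fin n → ℂ → ℂ
  pos : ∀ i, 0 < ε i
  sub : ∀ i, closedBall (zc (p i) (p i)) (4 * ε i) ⊆ (chartAt ℂ (p i)).target
  sm : ∀ i y, Sm (ρ i) y
  sum : ∀ y, ∑ i, ρ i y = 1
  supp : ∀ i y, ρ i y ≠ 0 →
    y ∈ (chartAt ℂ (p i)).source ∧ zc (p i) y ∈ ball (zc (p i) (p i)) (ε i)
  χsm : ∀ i, ContDiff ℝ ∞ (χ i)
  χone : ∀ i, ∀ z ∈ closedBall (zc (p i) (p i)) (2 * ε i), χ i z = 1
  χzero : ∀ i z, z ∉ ball (zc (p i) (p i)) (3 * ε i) → χ i z = 0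

namespace Cov

variable (C : Cov Y)

/-- the small closed disc -/
def K (i : Fin C.n) : Set ℂ := closedBall (zc (C.p i) (C.p i)) (C.ε i)

/-- the middle open disc -/
def Ω (i : Fin C.n) : Set ℂ := ball (zc (C.p i) (C.p i)) (2 * C.ε i)

/-- the coefficient of `ρ j • β` in the chart number `j` -/
def cf (β : Y → ℂ) (j : Fin C.n) (y : Y) : ℂ := C.ρ j y * β y / conj (D (zc (C.p j)) y)

open Classical in
/-- the form `dbar (χ i (z) / (z - ζ))`, `z` the coordinate number `i` -/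
def gam (i : Fin C.n) (ζ : ℂ) (y : Y) : ℂ :=
  if y ∈ (chartAt ℂ (C.p i)).source then
    conj (D (zc (C.p i)) y) * dbar (C.χ i) (zc (C.p i) y) / (zc (C.p i) y - ζ) else 0

/-- the error term of the parametrix -/
def err (a : Fin C.n → ℂ → ℂ) (y : Y) : ℂ :=
  ∑ i, (Real.pi : ℂ)⁻¹ * ∫ ζ in C.K i, a i ζ * C.gam i ζ y

end Cov

end RS

section Paths

/-- functions on paths -/
abbrev PF (Y : Type) [TopologicalSpace Y] : Type := ∀ a b : Y, Path a b → ℂ

/-- additive homotopy invariant functions on paths -/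
structure IsAdd {Y : Type} [TopologicalSpace Y] (c : PF Y) : Prop where
  trans : ∀ (a b d : Y) (p : Path a b) (q : Path b d), c a d (p.trans q) = c a b p + c b d q
  homot : ∀ (a b : Y) (p q : Path a b), p.Homotopic q → c a b p = c a b q

/-- `c` is integration of the form `w` -/
def Rep {Y : Type} [TopologicalSpace Y] [ChartedSpace ℂ Y] (c : PF Y) (w : Y → ℂ) : Prop :=
  IsAdd c ∧ ∀ y, ∃ V ∈ 𝓝 y, ∃ F : Y → ℂ, (∀ z ∈ V, An F z ∧ D F z = w z) ∧
    ∀ (a b : Y) (p : Path a b), range p ⊆ V → c a b p = F b - F a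

/-- the first cohomology -/
abbrev H1 (Y : Type) [TopologicalSpace Y] (y : Y) : Type := Additive (FundamentalGroup Y y) →+ ℂ

/-- the value on a loop -/
def ev {Y : Type} [TopologicalSpace Y] {y : Y} (χ : H1 Y y) (p : Path y y) : ℂ :=
  χ (Additive.ofMul (FundamentalGroup.fromPath (Path.Homotopic.Quotient.mk p)))

end Paths

section Sphere

open Classical in
/-- the point of the projective line with homogeneous coordinates `v` -/
def prj (v : ℂ × ℂ) : OnePoint ℂ := if v.2 = 0 then OnePoint.infty else (v.1 / v.2 : ℂ)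

/-- homogeneous coordinates -/
def vec (ζ : OnePoint ℂ) : ℂ × ℂ := ζ.elim (1, 0) fun z => (z, 1)

/-- the map to the sphere given by a function with the pole `p` -/
def hat {A : Type} (f : A → ℂ) (p y : A) : OnePoint ℂ := prj (hom f p y)

/-- the Moebius map that carries the points of `x` to the points of `act σ x` -/
def mob (σ : Equiv.Perm (Fin 6)) (x : E) (z : ℂ) : ℂ :=
  cr (pt x (σ 0)) (pt x (σ 4)) (pt x (σ 5)) (z, 1)

/-- the same map on the sphere -/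
def mobH (σ : Equiv.Perm (Fin 6)) (x : E) (ζ : OnePoint ℂ) : OnePoint ℂ :=
  prj (br (vec ζ) (pt x (σ 0)) * br (pt x (σ 4)) (pt x (σ 5)),
    br (vec ζ) (pt x (σ 5)) * br (pt x (σ 4)) (pt x (σ 0)))

/-- A motion of the plane that carries the finite points of `x` to those of `a`, for `a` in the
ball of radius `R x`; `k x a` is the inverse of `h x a`. -/
structure Mot (R : E → ℝ) (h k : E → E → ℂ → ℂ) : Prop where
  contR : ContinuousOn R X
  pos : ∀ x ∈ X, 0 < R x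
  sub : ∀ x ∈ X, ball x (R x) ⊆ X
  self : ∀ x z, h x x z = z
  cont : ∀ x ∈ X, Continuous fun q : E × ℂ => h x q.1 q.2
  contk : ∀ x ∈ X, ContinuousOn (fun q : E × ℂ => k x q.1 q.2) (ball x (R x) ×ˢ univ)
  inv : ∀ x ∈ X, ∀ a ∈ ball x (R x), ∀ z, k x a (h x a z) = z ∧ h x a (k x a z) = z
  lip : ∀ x ∈ X, ∀ a ∈ ball x (R x), ∀ z z',
    ‖h x a z - h x a z' - (z - z')‖ ≤ 1 / 2 * ‖z - z'‖
  far : ∀ x ∈ X, ∃ C : ℝ, ∀ a z, C ≤ ‖z‖ → h x a z = z
  near : ∀ x ∈ X, ∀ i, i ≠ 5 → ∀ᶠ z in 𝓝 (pt x i).1, ∀ a, h x a z = z + ((pt a i).1 - (pt x i).1)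

end Sphere

section Data

/-- a marked surface with a double cover -/
structure Datum (S : Type) [TopologicalSpace S] [ChartedSpace ℂ S] where
  M : Marked S
  x : E
  f : M.Y → ℂ
  r : Fin 6 → M.Y
  dbl : Dbl x f r

variable {S : Type} [TopologicalSpace S] [ChartedSpace ℂ S]

/-- the double cover on `S` -/
def Datum.F (τ : Datum S) (s : S) : ℂ := τ.f (τ.M.f s)

/-- the ramification points on `S` -/
def Datum.ρ (τ : Datum S) (i : Fin 6) : S := τ.M.f.symm (τ.r i)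

/-- labelled equivalence of data, in topological terms -/
def TRel (σ : Equiv.Perm (Fin 6)) (τ τ' : Datum S) : Prop :=
  τ'.x = act σ τ.x ∧ ∃ φ : S ≃ₜ S, ContinuousMap.Homotopic (φ : C(S, S)) (.id S) ∧
    (∀ i, φ (τ.ρ (σ i)) = τ'.ρ i) ∧ ∀ s, s ∉ range τ.ρ → τ'.F (φ s) = mob σ τ.x (τ.F s)

/-- `τ'` is the deformation of `τ` with branch points `a` -/
def IsDefo (h : E → E → ℂ → ℂ) (τ : Datum S) (a : E) (τ' : Datum S) : Prop :=
  τ'.x = a ∧ τ'.ρ = τ.ρ ∧ ∀ s, τ'.F s = h τ.x a (τ.F s)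

/-- the abstract system of charts -/
structure Sys {𝒟 T : Type 1} (pr : 𝒟 → T) (ctr : 𝒟 → E) (R : E → ℝ) (defo : 𝒟 → E → 𝒟)
    (Rel : Equiv.Perm (Fin 6) → 𝒟 → 𝒟 → Prop) : Prop where
  surj : Function.Surjective pr
  eq : ∀ τ τ', pr τ = pr τ' ↔ ∃ σ, Rel σ τ τ'
  ctr_rel : ∀ σ τ τ', Rel σ τ τ' → ctr τ' = act σ (ctr τ)
  free : ∀ σ τ, Rel σ τ τ → σ = 1
  self : ∀ τ, Rel 1 (defo τ (ctr τ)) τ
  mem : ∀ τ, ctr τ ∈ X
  ctr_defo : ∀ τ, ∀ a ∈ ball (ctr τ) (R (ctr τ)), ctr (defo τ a) = a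
  contR : ContinuousOn R X
  pos : ∀ x ∈ X, 0 < R x
  sub : ∀ x ∈ X, ball x (R x) ⊆ X
  lift : ∀ τ τ' σ (γ : C(unitInterval, E)),
    (∀ s, γ s ∈ ball (ctr τ) (R (ctr τ)) ∧ act σ (γ s) ∈ ball (ctr τ') (R (ctr τ'))) →
    Rel σ (defo τ (γ 0)) (defo τ' (act σ (γ 0))) → Rel σ (defo τ (γ 1)) (defo τ' (act σ (γ 1)))

/-- an atlas with values in `X`, transitions in the symmetric group and uniform charts -/
structure Atl (T : Type 1) [TopologicalSpace T] [ChartedSpace E T] : Prop where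
  sub : ∀ e ∈ atlas E T, e.target ⊆ X
  trans : ∀ e ∈ atlas E T, ∀ e' ∈ atlas E T, ∀ t ∈ e.source, t ∈ e'.source →
    ∃ σ, ∀ᶠ t' in 𝓝 t, e' t' = act σ (e t')
  uni : ∀ z ∈ X, ∃ ρ : ℝ, 0 < ρ ∧ ∀ e ∈ atlas E T, ∀ t ∈ e.source, e t ∈ ball z ρ →
    ∃ e' ∈ atlas E T, t ∈ e'.source ∧ e' t = e t ∧ ball z ρ ⊆ e'.target

/-- an invariant metric on `X` with an invariant proper function of bounded gradient -/
structure Good (g : Met) (f : E → ℝ) (B : ℝ) : Prop where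
  smooth : ContDiffOn ℝ ∞ g X
  symm : ∀ x ∈ X, ∀ u v, g x u v = g x v u
  pos : ∀ x ∈ X, ∀ u, u ≠ 0 → 0 < g x u u
  inv : ∀ σ, ∀ x ∈ X, ∀ u v,
    g (act σ x) (fderiv ℝ (act σ) x u) (fderiv ℝ (act σ) x v) = g x u v
  finv : ∀ σ, ∀ x ∈ X, f (act σ x) = f x
  grad : ∀ x ∈ X, DifferentiableAt ℝ f x ∧ ∀ u, fderiv ℝ f x u ^ 2 ≤ B * g x u u
  proper : ∀ R : ℝ, ∃ K, IsCompact K ∧ K ⊆ X ∧ ∀ x ∈ X, f x ≤ R → x ∈ K

end Data

end Pool.Agent.P.MP_5d7cf0_gt.T
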