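import Pool.Agent.P.MP_5d7cf0_gt.T.St

/-!
Winding numbers: existence, uniqueness, stability; criteria for preserving the orientation.
-/

open Set Filter Topology Complex

namespace Pool.Agent.P.MP_5d7cf0_gt.T

namespace OriP

theorem wind_closed {u : unitInterval → ℂ} {n : ℤ} (h : Wind u n) : u 1 = u 0 := by
  obtain ⟨L, h1, h2⟩ := h
  rw [← h1, ← h1, exp_eq_exp_iff_exists_int]
  exact ⟨n, h2⟩

theorem wind_ne {u : unitInterval → ℂ} {n : ℤ} (h : Wind u n) (t : unitInterval) : u t ≠ 0 := by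
  obtain ⟨L, h1, -⟩ := h
  rw [← h1]; exact exp_ne_zero _

theorem wind_exists {u : unitInterval → ℂ} (hc : Continuous u) (h0 : ∀ t, u t ≠ 0)
    (h : u 1 = u 0) : ∃ n, Wind u n := by
  obtain ⟨L, h1, -⟩ := isCoveringMap_exp.exists_path_lifts
    (⟨fun t => ⟨u t, h0 t⟩, hc.subtype_mk _⟩ : C(unitInterval, {z : ℂ // z ≠ 0})) (log (u 0))
    (Subtype.ext (exp_log (h0 0)).symm)
  have h2 : ∀ t, exp (L t) = u t := fun t => congrArg Subtype.val (congrFun h1 t)
  obtain ⟨n, hn⟩ := exp_eq_exp_iff_exists_int.1 ((h2 1).trans (h.trans (h2 0).symm))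
  exact ⟨n, L, h2, hn⟩

theorem wind_unique {u : unitInterval → ℂ} {n m : ℤ} (h : Wind u n) (h' : Wind u m) : n = m := by
  obtain ⟨L, h1, h2⟩ := h
  obtain ⟨L', h1', h2'⟩ := h'
  have e : (fun t => L t) = fun t => L' t + (L 0 - L' 0) :=
    isCoveringMap_exp.eq_of_comp_eq L.continuous (L'.continuous.add continuous_const)
      (funext fun t => Subtype.ext (by
        change exp (L t) = exp (L' t + (L 0 - L' 0))
        rw [exp_add, exp_sub, h1, h1, h1', h1', div_self (h1 0 ▸ exp_ne_zero _), mul_one]))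
      0 (by ring)
  have e1 := congrFun e 1
  simp only [h2, h2'] at e1
  have e2 : (n : ℂ) * (2 * Real.pi * I) = m * (2 * Real.pi * I) := by linear_combination e1
  exact_mod_cast mul_right_cancel₀ two_pi_I_ne_zero e2

theorem wind_of_exp {u v M : unitInterval → ℂ} {n : ℤ} (hM : Continuous M) (h : M 1 = M 0)
    (hv : ∀ t, v t = exp (M t) * u t) (hu : Wind u n) : Wind v n := by
  obtain ⟨L, h1, h2⟩ := hu
  refine ⟨⟨fun t => M t + L t, hM.add L.continuous⟩, fun t => ?_, ?_⟩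
  · change exp (M t + L t) = v t
    rw [exp_add, h1, hv]
  · change M 1 + L 1 = M 0 + L 0 + _
    rw [h, h2, add_assoc]

theorem close_iff {u v : unitInterval → ℂ} {c : ℂ} (hu : Continuous u) (hv : Continuous v)
    (u1 : u 1 = u 0) (v1 : v 1 = v 0) (hc : c ≠ 0)
    (h : ∀ t, ‖v t - c * u t‖ ≤ 1 / 2 * ‖c * u t‖) (n : ℤ) : Wind u n ↔ Wind v n := by
  by_cases h0 : ∃ t, u t = 0
  · obtain ⟨t, ht⟩ := h0
    have := h t
    rw [ht, mul_zero, sub_zero, norm_zero, mul_zero, norm_le_zero_iff] at this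
    exact iff_of_false (fun hw => wind_ne hw t ht) fun hw => wind_ne hw t this
  push Not at h0
  have hne : ∀ t, c * u t ≠ 0 := fun t => mul_ne_zero hc (h0 t)
  have hs : ∀ t, v t / (c * u t) ∈ slitPlane := fun t => by
    have e : v t / (c * u t) = 1 + (v t - c * u t) / (c * u t) := by
      rw [sub_div, div_self (hne t)]; ring
    rw [e]
    refine mem_slitPlane_of_norm_lt_one ?_
    have := norm_pos_iff.2 (hne t)
    rw [norm_div, div_lt_one this]
    linarith [h t]
  have hM : Continuous fun t => log c + log (v t / (c * u t)) :=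
    continuous_const.add ((hv.div (continuous_const.mul hu) hne).clog hs)
  have hM1 : log c + log (v 1 / (c * u 1)) = log c + log (v 0 / (c * u 0)) := by rw [u1, v1]
  have he : ∀ t, v t = exp (log c + log (v t / (c * u t))) * u t := fun t => by
    rw [exp_add, exp_log hc, exp_log (slitPlane_ne_zero (hs t))]
    have := h0 t
    field_simp
  refine ⟨wind_of_exp hM hM1 he, wind_of_exp hM.neg (congrArg Neg.neg hM1) fun t => ?_⟩
  rw [Pi.neg_apply, exp_neg, eq_inv_mul_iff_mul_eq₀ (exp_ne_zero _)]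
  exact (he t).symm

theorem good {Y : Type} [TopologicalSpace Y] [ChartedSpace ℂ Y] {ψ : Y → ℂ} {p : Y} (h : An ψ p)
    (hd : D ψ p ≠ 0) : ∃ U ∈ 𝓝 p, U ⊆ (chartAt ℂ p).source ∧ ∀ γ : C(unitInterval, Y),
      (∀ t, γ t ∈ U) → γ 1 = γ 0 → Continuous (fun t => ψ (γ t)) ∧ ∀ n,
        (Wind (fun t => chartAt ℂ p (γ t) - chartAt ℂ p p) n ↔ Wind (fun t => ψ (γ t) - ψ p) n) := by
  have h1 : HasDerivAt (loc ψ p) (D ψ p) (zc p p) := h.differentiableAt.hasDerivAt
  have h2 := (hasDerivAt_iff_isLittleO.1 h1).bound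
    (half_pos (norm_pos_iff.2 hd))
  have h3 := h.eventually_continuousAt
  have hz : ContinuousAt (zc p) p := (chartAt ℂ p).continuousAt (mem_chart_source ℂ p)
  have e : ∀ y ∈ (chartAt ℂ p).source, loc ψ p (zc p y) = ψ y := fun y hy =>
    congrArg ψ ((chartAt ℂ p).left_inv hy)
  refine ⟨_, inter_mem (chart_source_mem_nhds ℂ p) (hz.eventually (h2.and h3)), inter_subset_left,
    fun γ hγ h01 => ?_⟩
  have c1 : Continuous fun t => zc p (γ t) :=
    (chartAt ℂ p).continuousOn.comp_continuous γ.continuous fun t => (hγ t).1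
  have c2 : Continuous fun t => ψ (γ t) := by
    have : Continuous fun t => loc ψ p (zc p (γ t)) := continuous_iff_continuousAt.2 fun t =>
      ContinuousAt.comp (f := fun t => zc p (γ t)) (hγ t).2.2 c1.continuousAt
    exact this.congr fun t => e _ (hγ t).1
  refine ⟨c2, close_iff (c1.sub continuous_const) (c2.sub continuous_const) (by rw [h01])
    (by rw [h01]) hd fun t => ?_⟩
  have h4 := (hγ t).2.1
  rw [e _ (hγ t).1, e _ (mem_chart_source ℂ p), smul_eq_mul, mul_comm] at h4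
  rw [norm_mul]
  exact h4.trans_eq (by unfold zc; ring)

theorem closed {Y : Type} [TopologicalSpace Y] [ChartedSpace ℂ Y] {p : Y}
    {γ : C(unitInterval, Y)} (hγ : ∀ t, γ t ∈ (chartAt ℂ p).source) {n : ℤ}
    (h : Wind (fun t => chartAt ℂ p (γ t) - chartAt ℂ p p) n) : γ 1 = γ 0 :=
  (chartAt ℂ p).injOn (hγ 1) (hγ 0) (sub_left_injective (wind_closed h))

end OriP

open OriP

theorem orInv : S_OrInv := by
  intro S Y _ _ _ _ f hf q
  obtain ⟨p, rfl⟩ := f.surjective q
  obtain ⟨U, hU, h⟩ := hf p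
  have hs : f.symm ⁻¹' (U ∩ (chartAt ℂ p).source) ∈ 𝓝 (f p) :=
    f.symm.continuous.continuousAt.preimage_mem_nhds (by
      rw [f.symm_apply_apply]; exact inter_mem hU (chart_source_mem_nhds ℂ p))
  refine ⟨_, inter_mem hs (chart_source_mem_nhds ℂ (f p)), fun γ hγ n hn => ?_⟩
  rw [f.symm_apply_apply]
  have h01 := closed (fun t => (hγ t).2) hn
  have c0 : Continuous fun t => f.symm (γ t) := f.symm.continuous.comp γ.continuous
  obtain ⟨m, hm⟩ := wind_exists (u := fun t => chartAt ℂ p (f.symm (γ t)) - chartAt ℂ p p)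
    (((chartAt ℂ p).continuousOn.comp_continuous c0 fun t => (hγ t).1.2).sub continuous_const)
    (fun t ht => wind_ne hn t (by
      have := (chartAt ℂ p).injOn (hγ t).1.2 (mem_chart_source ℂ p) (sub_eq_zero.1 ht)
      rw [← this, f.apply_symm_apply, sub_self])) (by rw [h01])
  have h2 := h ⟨_, c0⟩ (fun t => (hγ t).1.1) m hm
  simp only [ContinuousMap.coe_mk, f.apply_symm_apply] at h2
  rwa [wind_unique hn h2]

theorem orCrit : S_OrCrit := by
  intro Y Y' _ _ _ _ θ hθ h p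
  obtain ⟨ψ, ψ', H, a1, d1, a2, d2, hH, he⟩ := h p
  obtain ⟨U, hU, hs, h1⟩ := good a1 d1
  obtain ⟨U', hU', -, h2⟩ := good a2 d2
  refine ⟨_, inter_mem (inter_mem hU (hθ.continuousAt hU')) he, fun γ hγ n hn => ?_⟩
  have h01 := closed (fun t => hs (hγ t).1.1) hn
  obtain ⟨c1, w1⟩ := h1 γ (fun t => (hγ t).1.1) h01
  obtain ⟨c2, w2⟩ := h2 ⟨fun t => θ (γ t), hθ.comp γ.continuous⟩ (fun t => (hγ t).1.2)
    (congrArg θ h01)
  refine (w2 n).2 ((close_iff (u := fun t => ψ (γ t) - ψ p)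
    (v := fun t => ψ' (θ (γ t)) - ψ' (θ p)) (c1.sub continuous_const) (c2.sub continuous_const)
    (by rw [h01]) (by rw [h01]) one_ne_zero (fun t => ?_) n).1 ((w1 n).1 hn))
  have e1 : ψ' (θ (γ t)) = H (ψ (γ t)) := (hγ t).2
  simp only [one_mul, e1, he.self_of_nhds]
  exact hH _ _

end Pool.Agent.P.MP_5d7cf0_gt.T
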