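import Pool.Agent.P.MP_5d7cf0_gt.T.RS
import Pool.Agent.P.MP_5d7cf0_gt.T.Ori

/-!
Package Defo: a motion of the plane deforms the complex structure of a double cover.
-/

open Set Filter Topology Manifold Metric
open scoped ContDiff

noncomputable section

namespace Pool.Agent.P.MP_5d7cf0_gt.T

namespace DefoP

variable {Y : Type} [TopologicalSpace Y]

/-- the same space with the charts `ch` -/
def New (ch : Y → OpenPartialHomeomorph Y ℂ) (_hm : ∀ y, y ∈ (ch y).source) : Type := Y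

instance (ch : Y → OpenPartialHomeomorph Y ℂ) (hm : ∀ y, y ∈ (ch y).source) :
    TopologicalSpace (New ch hm) := inferInstanceAs (TopologicalSpace Y)

instance (ch : Y → OpenPartialHomeomorph Y ℂ) (hm : ∀ y, y ∈ (ch y).source) :
    ChartedSpace ℂ (New ch hm) where
  atlas := range ch
  chartAt := ch
  mem_chart_source := hm
  chart_mem_atlas := fun y => ⟨y, rfl⟩

theorem man (ch : Y → OpenPartialHomeomorph Y ℂ) (hm : ∀ y, y ∈ (ch y).source)
    (h : ∀ y y' z, z ∈ (ch y).source → z ∈ (ch y').source →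
      AnalyticAt ℂ (ch y' ∘ (ch y).symm) (ch y z)) : IsManifold 𝓘(ℂ) ω (New ch hm) := by
  refine isManifold_of_contDiffOn _ _ _ ?_
  rintro e e' ⟨y, rfl⟩ ⟨y', rfl⟩ w hw
  simp only [modelWithCornersSelf_coe, modelWithCornersSelf_coe_symm, range_id, inter_univ,
    preimage_id_eq, id, Function.comp_id, Function.id_comp] at hw ⊢
  have h1 : w ∈ (ch y).target := hw.1
  have h2 := h y y' _ ((ch y).map_target h1) hw.2
  rw [(ch y).right_inv h1] at h2
  exact h2.contDiffAt.contDiffWithinAt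

variable [ChartedSpace ℂ Y] {f : Y → ℂ} {r : Fin 6 → Y} {H : ℂ ≃ₜ ℂ}

/-- charts at unramified points -/
def TA (f : Y → ℂ) (r : Fin 6 → Y) (H : ℂ ≃ₜ ℂ) (c : OpenPartialHomeomorph Y ℂ) : Prop :=
  (∀ z, c z = H (f z)) ∧ ∀ z ∈ c.source, z ∉ range r ∧
    ∀ u, An u z → AnalyticAt ℂ (fun t => u (c.symm (H t))) (f z)

/-- charts at ramification points -/
def TB (f : Y → ℂ) (H : ℂ ≃ₜ ℂ) (y : Y) (c : OpenPartialHomeomorph Y ℂ) : Prop :=
  ⇑c = zc y ∧ ⇑c.symm = (chartAt ℂ y).symm ∧ ∀ z ∈ c.source, z ∈ (chartAt ℂ y).source ∧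
    (z ≠ y → ∃ k, ∀ᶠ t in 𝓝 (f z), H t = t + k)

theorem TA.id {c : OpenPartialHomeomorph Y ℂ} (h : TA f r H c) {z : Y} (hz : z ∈ c.source) :
    (fun y => H (f y)) ∘ c.symm =ᶠ[𝓝 (c z)] id := by
  filter_upwards [c.open_target.mem_nhds (c.map_source hz)] with w hw
  simp only [Function.comp, ← h.1, c.right_inv hw, _root_.id]

theorem an_shift {z : Y} {k : ℂ} (hf : An f z) (hk : ∀ᶠ t in 𝓝 (f z), H t = t + k) :
    An (fun y => H (f y)) z :=
  (hf.add (an_const k)).congr ((hf.continuousAt.eventually hk).mono fun _ h => h.symm)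

variable [IsManifold 𝓘(ℂ) ω Y]

theorem exists_ch [T2Space Y] {x : E} (hd : Dbl x f r)
    (hN : ∀ i, ∀ᶠ z in 𝓝[≠] (r i), ∃ k, ∀ᶠ t in 𝓝 (f z), H t = t + k) (y : Y) :
    ∃ c : OpenPartialHomeomorph Y ℂ, y ∈ c.source ∧ (y ∉ range r → TA f r H c) ∧
      (y ∈ range r → TB f H y c) := by
  by_cases hy : y ∈ range r
  · obtain ⟨i, rfl⟩ := hy
    obtain ⟨N, h1, h2, h3⟩ := eventually_nhds_iff.mp (eventually_nhdsWithin_iff.mp (hN i))
    exact ⟨(chartAt ℂ (r i)).restrOpen N h2, ⟨mem_chart_source ℂ _, h3⟩,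
      fun h => absurd ⟨i, rfl⟩ h, fun _ => ⟨rfl, rfl, fun z hz => ⟨hz.1, h1 z hz.2⟩⟩⟩
  · obtain ⟨e, h1, h2, h3⟩ := (hd.an fun h => hy ⟨5, h.symm⟩).exists_homeo (hd.D_ne hy)
    have ho : IsOpen (range r)ᶜ := (finite_range r).isClosed.isOpen_compl
    refine ⟨(e.restrOpen _ ho).transHomeomorph H, ⟨h1, hy⟩, fun _ => ⟨fun z => ?_, fun z hz =>
      ⟨hz.2, fun u hu => ?_⟩⟩, fun h => absurd h hy⟩
    · rw [← h2]
      rfl
    · refine ((h3 z hz.1).2.2 u hu).congr (Eventually.of_forall fun t => ?_)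
      change u (e.symm t) = u (e.symm (H.symm (H t)))
      rw [H.symm_apply_apply]

theorem trans {x : E} (hd : Dbl x f r) {ch : Y → OpenPartialHomeomorph Y ℂ}
    (hA : ∀ y, y ∉ range r → TA f r H (ch y)) (hB : ∀ y, y ∈ range r → TB f H y (ch y))
    (y y' z : Y) (hz : z ∈ (ch y).source) (hz' : z ∈ (ch y').source) :
    AnalyticAt ℂ (ch y' ∘ (ch y).symm) (ch y z) := by
  by_cases hy : y ∈ range r <;> by_cases hy' : y' ∈ range r
  · obtain ⟨a1, a2, a3⟩ := hB y hy
    obtain ⟨b1, -, b3⟩ := hB y' hy'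
    rw [a1, a2, b1]
    exact (an_zc (b3 z hz').1).loc (a3 z hz).1
  · obtain ⟨a1, a2, a3⟩ := hB y hy
    obtain ⟨b1, b2⟩ := hA y' hy'
    have hr := (b2 z hz').1
    obtain ⟨k, hk⟩ := (a3 z hz).2 fun h => hr (h ▸ hy)
    rw [a1, a2, show ⇑(ch y') = fun z => H (f z) from funext b1]
    exact (an_shift (hd.an fun h => hr ⟨5, h.symm⟩) hk).loc (a3 z hz).1
  · obtain ⟨a1, a2⟩ := hA y hy
    obtain ⟨b1, -, b3⟩ := hB y' hy'
    have hr := (a2 z hz).1
    obtain ⟨k, hk⟩ := (b3 z hz').2 fun h => hr (h ▸ hy')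
    have h1 := (a2 z hz).2 _ (an_zc (b3 z hz').1)
    have h2 : f z = ch y z - k := by rw [a1, hk.self_of_nhds, add_sub_cancel_right]
    rw [h2] at h1 hk
    have h3 : AnalyticAt ℂ (fun w => w - k) (ch y z) := analyticAt_id.sub analyticAt_const
    refine (h1.comp (f := fun w => w - k) h3).congr ?_
    filter_upwards [h3.continuousAt.eventually hk] with w hw
    simp only [Function.comp, hw, sub_add_cancel, b1]
  · rw [show ⇑(ch y') = fun z => H (f z) from funext (hA y' hy').1]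
    exact analyticAt_id.congr ((hA y hy).id hz).symm

end DefoP

open DefoP in
theorem defo : S_Defo := by
  intro S _ _ _ R h k hM τ a ha
  have hd := τ.dbl
  have hx : τ.x ∈ X := hd.1
  let H : ℂ ≃ₜ ℂ :=
    { toFun := h τ.x a
      invFun := k τ.x a
      left_inv := fun z => (hM.inv _ hx a ha z).1
      right_inv := fun z => (hM.inv _ hx a ha z).2
      continuous_toFun := (hM.cont _ hx).comp (Continuous.prodMk_right a)
      continuous_invFun := (hM.contk _ hx).comp_continuous (Continuous.prodMk_right a)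
        fun z => ⟨ha, mem_univ z⟩ }
  have hnear : ∀ i, i ≠ 5 → ∀ᶠ t in 𝓝 (τ.f (τ.r i)), H t = t + ((pt a i).1 - (pt τ.x i).1) :=
    fun i hi => by
      rw [hd.f_r hi]
      exact (hM.near _ hx i hi).mono fun z hz => hz a
  obtain ⟨C, hC⟩ := hM.far _ hx
  have hfar : ∀ᶠ z in 𝓝[≠] (τ.r 5), C < ‖τ.f z‖ :=
    hd.pole.eventually (tendsto_norm_atTop_iff_cobounded.mpr tendsto_id |>.eventually
      (eventually_gt_atTop C))
  have hN : ∀ i, ∀ᶠ z in 𝓝[≠] (τ.r i), ∃ c, ∀ᶠ t in 𝓝 (τ.f z), H t = t + c := fun i => by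
    by_cases hi : i = 5
    · subst hi
      filter_upwards [hfar] with z hz
      refine ⟨0, ?_⟩
      filter_upwards [continuous_norm.continuousAt.eventually (lt_mem_nhds hz)] with t ht
      rw [add_zero]
      exact hC a t ht.le
    · exact (((hd.an (hd.ne_five hi)).continuousAt.eventually
        (hnear i hi).eventually_nhds).filter_mono nhdsWithin_le_nhds).mono fun z hz => ⟨_, hz⟩
  choose ch hm hA hB using exists_ch hd hN
  have hman := man ch hm (trans hd hA hB)
  have a1 : ∀ y, y ∉ range τ.r → An (Y := New ch hm) (fun y => H (τ.f y)) y ∧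
      D (Y := New ch hm) (fun y => H (τ.f y)) y ≠ 0 := fun y hy => by
    have := (hA y hy).id (hm y)
    refine ⟨analyticAt_id.congr this.symm, ?_⟩
    have h1 : D (Y := New ch hm) (fun y => H (τ.f y)) y = deriv id (ch y y) := this.deriv_eq
    rw [h1, deriv_id]
    exact one_ne_zero
  have a2 : ∀ y, y ∈ range τ.r → ∀ u : τ.M.Y → ℂ, (An u y → An (Y := New ch hm) u y) ∧
      D (Y := New ch hm) u y = D u y := fun y hy u => by
    obtain ⟨b1, b2, -⟩ := hB y hy
    have e1 : loc (Y := New ch hm) u y = loc u y := congrArg (fun g => u ∘ g) b2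
    have e2 : zc (Y := New ch hm) y y = zc y y := congrFun b1 y
    exact ⟨fun hu => (congrArg₂ (fun g z => AnalyticAt ℂ g z) e1 e2).mpr hu,
      congrArg₂ (fun g z => deriv g z) e1 e2⟩
  have hor : OrPres (S := τ.M.Y) (Y := New ch hm) fun y => y := by
    refine orCrit τ.M.Y (New ch hm) _ continuous_id fun p => ?_
    by_cases hp : p ∈ range τ.r
    · refine ⟨zc p, zc (Y := τ.M.Y) p, id, an_zc_self, ?_, (a2 p hp _).1 an_zc_self, ?_,
        fun z z' => ?_, Eventually.of_forall fun y => rfl⟩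
      · rw [D_zc_self]
        exact one_ne_zero
      · rw [(a2 p hp _).2, D_zc_self]
        exact one_ne_zero
      · simp
    · exact ⟨τ.f, fun y => H (τ.f y), h τ.x a, hd.an fun e => hp ⟨5, e.symm⟩, hd.D_ne hp,
        (a1 p hp).1, (a1 p hp).2, hM.lip _ hx a ha, Eventually.of_forall fun y => rfl⟩
  have hdbl : Dbl (Y := New ch hm) a (fun y => H (τ.f y)) τ.r := by
    obtain ⟨R', ι, h1, h2, h3⟩ := hd.two
    refine ⟨hM.sub _ hx ha, fun i => ?_, R', ι, ⟨fun y hy => ?_, fun p hp => ?_, h1.ne, h1.disj,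
      fun y hy hy' => (a1 y ((h3 y).mpr ⟨hy, hy'⟩)).2, h1.mem, fun y hy y' hy' => ?_, h1.fix⟩, h2⟩
    · change hom (A := τ.M.Y) (fun y => H (τ.f y)) (τ.r 5) (τ.r i) = pt a i
      by_cases hi : i = 5
      · rw [hi, hom_self, pt_five]
      · rw [hom_of_ne _ (hd.ne_five hi), (hnear i hi).self_of_nhds, hd.f_r hi, add_sub_cancel,
          ← pt_of_ne a hi]
    · by_cases hr : y ∈ range τ.r
      · obtain ⟨i, rfl⟩ := hr
        have hi : i ≠ 5 := fun e => hy (by rw [e]; exact Finset.mem_singleton_self _)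
        exact (a2 _ ⟨i, rfl⟩ _).1 (an_shift (hd.an (hd.ne_five hi)) (hnear i hi))
      · exact (a1 y hr).1
    · obtain rfl : p = τ.r 5 := Finset.mem_singleton.mp hp
      refine hd.pole.congr' ?_
      filter_upwards [hfar] with z hz
      exact (hC a _ hz.le).symm
    · rw [H.injective.eq_iff]
      exact h1.fib y hy y' hy'
  exact ⟨{ M := { Y := New ch hm
                  man := hman
                  f := τ.M.f
                  or := hor.comp τ.M.or τ.M.f.continuous }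
           x := a
           f := fun y => H (τ.f y)
           r := τ.r
           dbl := hdbl }, rfl, rfl, fun s => rfl⟩

end Pool.Agent.P.MP_5d7cf0_gt.T
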