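import Pool.Agent.P.MP_5d7cf0_gt.T.RS

/-!
The degree of a meromorphic function with simple poles.
-/

open Set Filter Topology Manifold Metric
open scoped ContDiff

namespace Pool.Agent.P.MP_5d7cf0_gt.T

namespace DegP

theorem count {Y B : Type} [TopologicalSpace Y] [T2Space Y] {A : Set Y} (hA : A.Finite)
    {F : Filter B} {Q : B → Y → Prop}
    (h1 : ∀ a ∈ A, ∃ U ∈ 𝓝 a, ∀ c, ∀ y ∈ U, ∀ y' ∈ U, Q c y → Q c y' → y = y')
    (h2 : ∀ a ∈ A, ∀ U ∈ 𝓝 a, ∀ᶠ c in F, ∃ y ∈ U, Q c y)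
    (h3 : ∀ U ∈ 𝓝ˢ A, ∀ᶠ c in F, ∀ y, Q c y → y ∈ U) :
    ∀ᶠ c in F, {y | Q c y}.ncard = A.ncard := by
  obtain ⟨U, hU, hd⟩ := hA.t2_separation
  choose! V hV hi using h1
  have hW : ∀ a ∈ A, U a ∩ V a ∈ 𝓝 a := fun a ha =>
    inter_mem ((hU a).2.mem_nhds (hU a).1) (hV a ha)
  filter_upwards [(eventually_all_finite hA).2 fun a ha => h2 a ha _ (hW a ha),
    h3 (⋃ a ∈ A, U a ∩ V a) (mem_nhdsSet_iff_forall.2 fun a ha =>
      mem_of_superset (hW a ha) (subset_biUnion_of_mem (u := fun a => U a ∩ V a) ha))]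
    with c h4 h5
  choose g hg hq using h4
  refine (ncard_congr g hq (fun a b ha hb e => ?_) fun y hy => ?_).symm
  · by_contra hne
    exact disjoint_left.1 (hd ha hb hne) (hg a ha).1 (e ▸ (hg b hb).1)
  · obtain ⟨a, ha, h6⟩ := mem_iUnion₂.1 (h5 y hy)
    exact ⟨a, ha, hi a ha c _ (hg a ha).2 _ h6.2 (hq a ha) hy⟩

end DegP

open DegP in
theorem deg : S_Deg := by
  intro Y _ _ _ f P ⟨p0, hp0⟩ hf hP
  have hfin : (P : Set Y).Finite := P.finite_toSet
  have ht : ∀ p ∈ (P : Set Y), Tendsto f (𝓝[≠] p) (Bornology.cobounded ℂ) := fun p hp =>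
    (hP p hp).tendsto
  have hnc := not_const_of_pole hfin hf (ht p0 hp0)
  have hZ : {y | y ∉ P ∧ D f y = 0}.Finite := finite_of_isolated fun p => by
    by_cases hp : p ∈ P
    · obtain ⟨φ, h1, -, h2, h3⟩ := hP p hp
      filter_upwards [self_mem_nhdsWithin, mem_nhdsWithin_of_mem_nhds (h1.eventually.and
        ((h1.eventually_D_ne h2).and (eventually_nhdsWithin_iff.1 h3).eventually_nhds))]
        with y h4 h5 h6
      have h7 : ∀ᶠ y' in 𝓝 y, φ y' * f y' = 1 := by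
        filter_upwards [h5.2.2, isOpen_compl_singleton.mem_nhds h4] with z h7 h8 using h7 h8
      have h8 := h6.2
      rw [D_of_mul_eq_one h5.1 h7] at h8
      exact div_ne_zero (neg_ne_zero.2 h5.2.1)
        (pow_ne_zero 2 (left_ne_zero_of_mul_eq_one h7.self_of_nhds)) h8
    · filter_upwards [(hf p hp).eventually_D_ne' fun h => hnc p _ (h.filter_mono nhdsWithin_le_nhds)]
        with y h1 h2 using h1 h2.2
  have hC := hZ.image f
  have hloc : ∀ c ∉ f '' {y | y ∉ P ∧ D f y = 0},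
      ∀ᶠ c' in 𝓝 c, {y | y ∉ P ∧ f y = c'}.ncard = {y | y ∉ P ∧ f y = c}.ncard := fun c hc => by
    have hD : ∀ a ∈ {y | y ∉ P ∧ f y = c}, D f a ≠ 0 := fun a ha h => hc ⟨a, ⟨ha.1, h⟩, ha.2⟩
    refine count (finite_of_isolated fun p => ?_) (fun a ha => ?_) (fun a ha U hU => ?_)
      fun U hU => (proper_fin hf ht c hU).mono fun c' h y hy => h y hy.1 hy.2
    · by_cases hp : p ∈ P
      · filter_upwards [(ht p hp).eventually (p := fun z => z ≠ c)
          (Bornology.isBounded_singleton (x := c))] with y h1 h2 using h1 h2.2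
      · filter_upwards [((hf p hp).sub (an_const c)).zero_or.resolve_left fun h =>
          hnc p c ((h.filter_mono nhdsWithin_le_nhds).mono fun z hz => sub_eq_zero.1 hz)]
          with y h1 h2 using h1 (sub_eq_zero.2 h2.2)
    · obtain ⟨U, hU, hi⟩ := (hf a ha.1).injOn (hD a ha)
      exact ⟨U, hU, fun c' y hy y' hy' h1 h2 => hi hy hy' (h1.2.trans h2.2.symm)⟩
    · rw [← ha.2, ← (hf a ha.1).map_nhds (hD a ha)]
      filter_upwards [image_mem_map (inter_mem hU (eventually_notMem' hfin ha.1))] with c' h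
      obtain ⟨y, h1, h2⟩ := h
      exact ⟨y, h1.1, h1.2, h2⟩
  have hinf : ∀ᶠ c in Bornology.cobounded ℂ, {y | y ∉ P ∧ f y = c}.ncard = (P : Set Y).ncard := by
    refine count hfin (fun p hp => ?_) (fun p hp U hU => ?_)
      fun U hU => (proper_inf hf hU).mono fun c h y hy => h y hy.2
    · obtain ⟨φ, h1, -, h2, h3⟩ := hP p hp
      obtain ⟨U, hU, hi⟩ := h1.injOn h2
      refine ⟨_, inter_mem hU (eventually_nhdsWithin_iff.1 h3), fun c y hy y' hy' h4 h5 =>
        hi hy.1 hy'.1 ?_⟩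
      rw [eq_inv_of_mul_eq_one_left (hy.2 fun e => h4.1 (mem_singleton_iff.1 e ▸ hp)),
        eq_inv_of_mul_eq_one_left (hy'.2 fun e => h5.1 (mem_singleton_iff.1 e ▸ hp)), h4.2, h5.2]
    · obtain ⟨φ, h1, h0, h2, h3⟩ := hP p hp
      have h4 := image_mem_map (m := φ) (inter_mem (mem_nhdsWithin_of_mem_nhds hU)
        ((eventually_notMem hfin p).and h3))
      rw [h1.map_ne h2, h0] at h4
      filter_upwards [tendsto_inv₀_cobounded' h4] with c h
      obtain ⟨y, h5, h6⟩ := h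
      exact ⟨y, h5.1, h5.2.1, by rw [eq_inv_of_mul_eq_one_right h5.2.2, h6, inv_inv]⟩
  obtain ⟨c1, h1, h2⟩ := (hinf.and hC.isBounded).exists
  refine ⟨_, hC, fun c hc => ?_⟩
  rw [← ncard_coe_finset, ← h1]
  exact (hC.countable.isConnected_compl_of_one_lt_rank (by simp)).isPreconnected.constant
    (f := fun c => {y | y ∉ P ∧ f y = c}.ncard)
    (fun c hc => (continuousAt_const.congr (EventuallyEq.symm (hloc c hc))).continuousWithinAt) hc h2

end Pool.Agent.P.MP_5d7cf0_gt.T
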