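import Pool.Agent.P.MP_5d7cf0_gt.T.RS
import Pool.Agent.P.MP_5d7cf0_gt.T.CT

/-!
Package Desc: invariant functions on a double cover are polynomials in the covering map, and
holomorphic forms are odd.
-/

open Set Filter Topology Manifold Metric
open scoped ContDiff

namespace Pool.Agent.P.MP_5d7cf0_gt.T

namespace DescP

/-- removable singularities in the plane -/
theorem extend {G : ℂ → ℂ} {A : Set ℂ} (hA : A.Finite) (h : ∀ c, c ∉ A → AnalyticAt ℂ G c)
    (hb : ∀ a ∈ A, ∃ C : ℝ, ∀ᶠ c in 𝓝[≠] a, ‖G c‖ ≤ C) :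
    ∃ G' : ℂ → ℂ, Differentiable ℂ G' ∧ ∀ c, c ∉ A → G' c = G c := by
  classical
  have key : ∀ a ∈ A, ∃ v : ℂ → ℂ, AnalyticAt ℂ v a ∧ ∀ y, y ≠ a → v y = G y := fun a ha => by
    obtain ⟨C, hC⟩ := hb a ha
    refine an_update (Y := ℂ) ?_ hC
    filter_upwards [eventually_notMem hA a] with y h1 using h y h1
  choose! V hV using key
  refine ⟨fun y => if y ∈ A then V y y else G y, fun y => AnalyticAt.differentiableAt ?_,
    fun y hy => if_neg hy⟩
  by_cases h1 : y ∈ A
  · refine (hV y h1).1.congr ?_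
    filter_upwards [eventually_nhdsWithin_iff.mp (eventually_notMem hA y)] with z hz
    by_cases h2 : z = y
    · rw [h2, if_pos h1]
    · rw [if_neg (hz h2), (hV y h1).2 z h2]
  · refine (h y h1).congr ?_
    filter_upwards [eventually_notMem' hA h1] with z hz
    rw [if_neg hz]

variable {Y : Type} [TopologicalSpace Y] [ChartedSpace ℂ Y] {f w : Y → ℂ} {P R : Finset Y}
  {ι : Y → Y}

theorem fibre (h : Two f P R ι) {r y : Y} (hr : r ∈ R) (hy : y ∉ P) (e : f y = f r) : y = r := by
  have h1 := h.disj r hr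
  rcases (h.fib r h1 y hy).mp e with h2 | h2
  · exact h2
  · exact h2.trans ((h.fix r h1).mpr hr)

theorem f_iota (h : Two f P R ι) {y : Y} (hy : y ∉ P) : f (ι y) = f y :=
  (h.fib y hy _ (h.mem y hy)).mpr (Or.inr rfl)

variable [RS Y]

theorem off (P R : Finset Y) (p : Y) : ∀ᶠ y in 𝓝[≠] p, y ∉ P ∧ y ∉ R :=
  (eventually_notMem P.finite_toSet p).and (eventually_notMem R.finite_toSet p)

/-- the quotient `w / df` has a pole of order less than the ramification -/
theorem at_ram (h : Two f P R ι) (hw : w ∈ Om Y) {r : Y} (hr : r ∉ P) :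
    Tendsto (fun y => (f y - f r) * (w y / D f y)) (𝓝[≠] r) (𝓝 0) := by
  obtain ⟨p, hp⟩ := h.ne
  have hc : ¬∀ᶠ y in 𝓝 r, f y = f r := fun h0 =>
    not_const_of_pole P.finite_toSet h.an (h.pole p hp) r (f r) (h0.filter_mono nhdsWithin_le_nhds)
  have h1 := ((h.an r hr).tendsto_div_D hc).mul ((hw r).tendsto.mono_left nhdsWithin_le_nhds)
  rw [zero_mul] at h1
  refine h1.congr' ?_
  filter_upwards [nhdsWithin_le_nhds (source_mem (mem_chart_source ℂ r))] with y hy
  have := D_zc_ne hy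
  field_simp

/-- the quotient `w / df` vanishes at the poles -/
theorem at_pole (h : Two f P R ι) (hw : w ∈ Om Y) {p : Y} (hp : p ∈ P) :
    Tendsto (fun y => w y / D f y) (𝓝[≠] p) (𝓝 0) := by
  obtain ⟨φ, h1, h2, h3, h4⟩ := exists_inv ((off P R p).mono fun y hy => h.an y hy.1) (h.pole p hp)
  have h5 := ((h1.tendsto_div_D h3).mul ((hw p).tendsto.mono_left nhdsWithin_le_nhds)).mul
    (h1.continuousAt.tendsto.mono_left nhdsWithin_le_nhds)
  have h6 := h5.neg
  rw [zero_mul, zero_mul, neg_zero] at h6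
  refine h6.congr' ?_
  filter_upwards [nhdsWithin_le_nhds (source_mem (mem_chart_source ℂ p)),
    nhdsWithin_le_nhds h1.eventually, eventually_eventually_nhdsWithin.mpr h4,
    self_mem_nhdsWithin] with y hy ha he hne
  have h7 : ∀ᶠ y' in 𝓝 y, φ y' * f y' = 1 := by
    rwa [isOpen_compl_singleton.nhdsWithin_eq hne] at he
  have h8 : φ y ≠ 0 := left_ne_zero_of_mul_eq_one h7.self_of_nhds
  have := D_zc_ne hy
  rw [D_of_mul_eq_one ha h7, h2, sub_zero]
  field_simp

end DescP

open DescP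

theorem desc (hI : S_Iota) : S_Desc := by
  intro Y _ _ _ f P R ι u n h hu hR hP
  classical
  obtain ⟨i1, i2, i3, -, -⟩ := hI Y f P R ι h
  choose s s1 s2 using i1
  have e1 : ∀ y, y ∉ P → y ∉ R → u (s (f y)) = u y := fun y hy hy' => by
    rcases (h.fib y hy _ (s1 _)).mp (s2 (f y)) with e | e <;> rw [e]
    exact (hu y hy hy').2
  have hA : (f '' R).Finite := R.finite_toSet.image f
  obtain ⟨G, g1, g2⟩ := extend (G := fun c => u (s c)) hA (fun c hc => by
    have h1 : s c ∉ R := fun h1 => hc ⟨_, h1, s2 c⟩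
    obtain ⟨e, m1, m2, m3⟩ := (h.an _ (s1 c)).exists_homeo (h.der _ (s1 c) h1)
    have h2 := (m3 _ m1).2.2 u (hu _ (s1 c) h1).1
    have h3 : c ∈ e.target := by
      have := e.map_source m1
      rwa [m2, s2] at this
    have h4 : e.symm c = s c := by
      have := e.left_inv m1
      rwa [m2, s2] at this
    rw [s2] at h2
    refine h2.congr ?_
    have h5 : Tendsto e.symm (𝓝 c) (𝓝 (s c)) := h4 ▸ e.continuousAt_symm h3
    filter_upwards [e.open_target.mem_nhds h3,
      h5.eventually (eventually_notMem' P.finite_toSet (s1 c)),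
      h5.eventually (eventually_notMem' R.finite_toSet h1)] with z z1 z2 z3
    have h6 := e.right_inv z1
    rw [m2] at h6
    rw [Function.comp_apply, ← e1 _ z2 z3, h6]) (by
    rintro _ ⟨r, hr, rfl⟩
    obtain ⟨C, hC⟩ := hR r hr
    refine ⟨C, ?_⟩
    have h1 := i2 (f r) {y | y ≠ r → ‖u y‖ ≤ C} (mem_nhdsSet_iff_forall.mpr fun y hy => by
      rw [fibre h hr hy.1 hy.2]
      exact eventually_nhdsWithin_iff.mp hC)
    filter_upwards [nhdsWithin_le_nhds h1, self_mem_nhdsWithin] with c hc hne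
    exact hc _ (s1 c) (s2 c) fun e => hne ((s2 c).symm.trans (congrArg f e)))
  choose! C hC using hP
  obtain ⟨Q, q1, q2⟩ := poly G n (∑ p ∈ P, |C p|) g1 (by
    have h1 := i3 {y | y ∉ P → ‖u y‖ ≤ (∑ p ∈ P, |C p|) * ‖f y‖ ^ n}
      (mem_nhdsSet_iff_forall.mpr fun p hp => by
        filter_upwards [eventually_nhdsWithin_iff.mp (hC p hp)] with y hy hy'
        refine (hy fun e => hy' (e ▸ hp)).trans (mul_le_mul_of_nonneg_right ?_ (by positivity))
        exact (le_abs_self _).trans
          (Finset.single_le_sum (f := fun p => |C p|) (fun _ _ => abs_nonneg _) hp))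
    filter_upwards [h1, hA.isBounded.compl] with c hc hc'
    rw [g2 c hc']
    have := hc _ (s2 c) (s1 c)
    rwa [s2] at this)
  refine ⟨Q, q1, fun y hy hy' => ?_⟩
  rw [← q2, g2, e1 y hy hy']
  rintro ⟨r, hr, e⟩
  exact hy' (fibre h hr hy e.symm ▸ hr)

theorem odd (hI : S_Iota) : S_Odd := by
  intro Y _ _ _ f P R ι h w hw
  classical
  obtain ⟨-, -, i3, i4, -⟩ := hI Y f P R ι h
  obtain ⟨u, hu⟩ : ∃ u : Y → ℂ, u = fun y => w y / D f y := ⟨_, rfl⟩
  have u1 : ∀ y, y ∉ P → y ∉ R → An u y := fun y hy hy' =>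
    hu ▸ (hw y).div_D (h.an y hy) (h.der y hy hy')
  have v1 : ∀ r ∈ R, Tendsto (fun y => (∏ r ∈ R, (f y - f r)) * (u y + u (ι y))) (𝓝[≠] r)
      (𝓝 0) := fun r hr => by
    have hr' := h.disj r hr
    have h1 : Tendsto (fun y => (f y - f r) * u y) (𝓝[≠] r) (𝓝 0) := hu ▸ at_ram h hw hr'
    have h2 : Tendsto ι (𝓝[≠] r) (𝓝[≠] r) := by
      refine tendsto_nhdsWithin_iff.mpr ⟨?_, ?_⟩
      · have := (i4 r hr').2.1.tendsto
        rw [(h.fix r hr').mpr hr] at this
        exact this.mono_left nhdsWithin_le_nhds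
      · filter_upwards [off P R r] with y hy e
        exact ((i4 y hy.1).2.2 hy.2).1 (mem_singleton_iff.mp e ▸ hr)
    have h3 := ((an_prod (s := R.erase r) fun r' _ =>
      (h.an r hr').sub (an_const (f r'))).continuousAt.tendsto.mono_left nhdsWithin_le_nhds).mul
      (h1.add (h1.comp h2))
    rw [add_zero, mul_zero] at h3
    refine h3.congr' ?_
    filter_upwards [off P R r] with y hy
    rw [← Finset.prod_erase_mul R _ hr, Function.comp_apply, f_iota h hy.1]
    ring
  have v2 : ∀ p ∈ P, Tendsto (fun y => u y + u (ι y)) (𝓝[≠] p) (𝓝 0) := fun p hp => by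
    have h1 : ∀ p ∈ P, Tendsto u (𝓝[≠] p) (𝓝 0) := fun p hp => hu ▸ at_pole h hw hp
    have h2 : Tendsto (fun y => u (ι y)) (𝓝[≠] p) (𝓝 0) := fun V hV => by
      have h3 := i3 {y | y ∉ P → u y ∈ V} (mem_nhdsSet_iff_forall.mpr fun q hq => by
        filter_upwards [eventually_nhdsWithin_iff.mp ((h1 q hq).eventually hV)] with y hy hy'
        exact hy fun e => hy' (e ▸ hq))
      refine mem_map.mpr ?_
      filter_upwards [(h.pole p hp).eventually h3, off P R p] with y hy hy'
      exact hy _ (f_iota h hy'.1) (h.mem y hy'.1)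
    simpa using (h1 p hp).add h2
  obtain ⟨G, g1, g2⟩ := desc hI Y f P R ι (fun y => (∏ r ∈ R, (f y - f r)) * (u y + u (ι y)))
    R.card h (fun y hy hy' => by
      obtain ⟨a1, -, a2⟩ := i4 y hy
      refine ⟨(an_prod fun r _ => (h.an y hy).sub (an_const _)).mul ((u1 y hy hy').add
        ((a2 hy').2.an_comp (u1 _ (h.mem y hy) (a2 hy').1))), ?_⟩
      simp only [a1, f_iota h hy, add_comm])
    (fun r hr => ⟨1, ((v1 r hr).norm.eventually (ge_mem_nhds (by simp))).mono fun _ => id⟩)
    (fun p hp => ⟨2 ^ R.card, by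
      have h1 : ∀ᶠ y in 𝓝[≠] p, ∀ r ∈ R, ‖f r‖ ≤ ‖f y‖ :=
        (eventually_all_finset R).mpr fun r _ =>
          (tendsto_norm_cobounded_atTop.comp (h.pole p hp)).eventually_ge_atTop _
      filter_upwards [h1, (v2 p hp).norm.eventually (ge_mem_nhds (show ‖(0 : ℂ)‖ < 1 by simp))]
        with y y1 y2
      rw [norm_mul, norm_prod, ← mul_pow, ← Finset.prod_const]
      refine (mul_le_of_le_one_right (Finset.prod_nonneg fun _ _ => norm_nonneg _) y2).trans
        (Finset.prod_le_prod (fun _ _ => norm_nonneg _) fun r hr => ?_)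
      linarith [norm_sub_le (f y) (f r), y1 r hr]⟩)
  have g3 : ∀ r ∈ R, G.eval (f r) = 0 := fun r hr =>
    tendsto_nhds_unique' inferInstance
      ((((h.an r (h.disj r hr)).poly G).continuousAt.tendsto.mono_left nhdsWithin_le_nhds).congr'
        ((off P R r).mono fun y hy => (g2 y hy.1 hy.2).symm)) (v1 r hr)
  have ne : ∀ y, y ∉ P → y ∉ R → ∀ r ∈ R, f y ≠ f r := fun y hy hy' r hr e =>
    hy' (fibre h hr hy e ▸ hr)
  intro y hy hy'
  have g4 : G - Polynomial.C (u y + u (ι y)) * ∏ r ∈ R, (Polynomial.X - Polynomial.C (f r)) = 0 := by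
    refine Polynomial.eq_zero_of_natDegree_lt_card_of_eval_eq_zero' _ ((insert y R).image f)
      (fun c hc => ?_) ?_
    · obtain ⟨z, hz, rfl⟩ := Finset.mem_image.mp hc
      simp only [Polynomial.eval_sub, Polynomial.eval_mul, Polynomial.eval_C, Polynomial.eval_prod,
        Polynomial.eval_X]
      rcases Finset.mem_insert.mp hz with rfl | hz
      · rw [← g2 z hy hy', mul_comm, sub_self]
      · rw [g3 z hz, Finset.prod_eq_zero hz (sub_self _), mul_zero, sub_self]
    · rw [Finset.card_image_of_injOn, Finset.card_insert_of_notMem hy', Nat.lt_succ_iff]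
      · refine (Polynomial.natDegree_sub_le _ _).trans (max_le g1 ?_)
        refine (Polynomial.natDegree_C_mul_le _ _).trans (le_of_eq ?_)
        rw [Polynomial.natDegree_finsetProd_X_sub_C_eq_card]
      · intro a ha b hb e
        rcases Finset.mem_insert.mp ha with rfl | ha' <;>
          rcases Finset.mem_insert.mp hb with rfl | hb'
        exacts [rfl, absurd e (ne _ hy hy' _ hb'), absurd e.symm (ne _ hy hy' _ ha'),
          fibre h hb' (h.disj a ha') e]
  have g5 : ∀ z, z ∉ P → z ∉ R → u z + u (ι z) = u y + u (ι y) := fun z hz hz' => by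
    have h1 := congrArg (Polynomial.eval (f z)) g4
    simp only [Polynomial.eval_sub, Polynomial.eval_mul, Polynomial.eval_C, Polynomial.eval_prod,
      Polynomial.eval_X, Polynomial.eval_zero, ← g2 z hz hz'] at h1
    rw [mul_comm, ← sub_mul, mul_eq_zero, sub_eq_zero] at h1
    exact h1.resolve_right (Finset.prod_ne_zero_iff.mpr fun r hr => sub_ne_zero.mpr (ne z hz hz' r hr))
  obtain ⟨p, hp⟩ := h.ne
  have g6 : u y + u (ι y) = 0 := tendsto_nhds_unique' inferInstance
    (tendsto_const_nhds.congr' ((off P R p).mono fun z hz => (g5 z hz.1 hz.2).symm)) (v2 p hp)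
  rw [hu] at g6
  exact eq_neg_of_add_eq_zero_right g6

end Pool.Agent.P.MP_5d7cf0_gt.T
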