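import Pool.Agent.P.MP_5d7cf0_gt.T.RS

/-!
Package Six: a function of degree two with simple poles on a surface with a two dimensional space
of holomorphic forms has six ramification points.
-/

open Set Filter Topology Manifold Metric
open scoped ContDiff

namespace Pool.Agent.P.MP_5d7cf0_gt.T

namespace SixP

variable {Y : Type} [TopologicalSpace Y] [ChartedSpace ℂ Y] {f W φ ψ V H w : Y → ℂ}
  {P R : Finset Y} {ι : Y → Y} {p r y : Y}

/-- a function that agrees with a holomorphic one is bounded -/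
theorem bdd {u v : Y → ℂ} (h : An v p) (e : ∀ᶠ y in 𝓝[≠] p, u y = v y) :
    ∃ C : ℝ, ∀ᶠ y in 𝓝[≠] p, ‖u y‖ ≤ C := by
  refine ⟨‖v p‖ + 1, ?_⟩
  filter_upwards [e, mem_nhdsWithin_of_mem_nhds
    (h.continuousAt.norm.eventually (ge_mem_nhds (lt_add_one _)))] with y h1 h2
  rwa [h1]

/-- a ramification point is alone in its fibre -/
theorem alone (h : Two f P R ι) (hr : r ∈ R) (hy : y ∉ P) (e : f y = f r) : y = r := by
  have h1 := h.disj r hr
  rcases (h.fib r h1 y hy).mp e with h2 | h2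
  · exact h2
  · rw [h2, (h.fix r h1).mpr hr]

/-- the square root of the branch polynomial -/
def IsW (f : Y → ℂ) (P R : Finset Y) (ι : Y → Y) (W : Y → ℂ) : Prop :=
  ∀ y, y ∉ P → An W y ∧ W y ^ 2 = ∏ r ∈ R, (f y - f r) ∧ W (ι y) = -W y

theorem W_ne (h : Two f P R ι) (hW : IsW f P R ι W) (hP : y ∉ P) (hR : y ∉ R) : W y ≠ 0 := by
  intro h0
  have h1 := (hW y hP).2.1
  rw [h0, zero_pow two_ne_zero] at h1
  obtain ⟨r, hr, h2⟩ := Finset.prod_eq_zero_iff.mp h1.symm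
  exact hR (alone h hr hP (sub_eq_zero.mp h2) ▸ hr)

variable [RS Y]

/-- a square root of a holomorphic function extends -/
theorem sqrt_ext (hV : ∀ᶠ y in 𝓝[≠] p, An V y ∧ V y ^ 2 = H y) (hH : An H p) :
    ∃ V', An V' p ∧ (∀ y, y ≠ p → V' y = V y) ∧ ∀ᶠ y in 𝓝 p, V' y ^ 2 = H y := by
  obtain ⟨C, hC⟩ := bdd hH (hV.mono fun y hy => hy.2)
  obtain ⟨V', h1, h2⟩ := an_update (hV.mono fun y hy => hy.1) (C := C + 1) (hC.mono fun y hy => by
    rw [norm_pow] at hy
    nlinarith [norm_nonneg (V y), sq_nonneg (‖V y‖ - 1)])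
  have h3 : ∀ᶠ y in 𝓝[≠] p, V' y ^ 2 = H y := by
    filter_upwards [hV, self_mem_nhdsWithin] with y h3 h4
    rw [h2 y h4, h3.2]
  refine ⟨V', h1, h2, ?_⟩
  have h4 : V' p ^ 2 = H p := tendsto_nhds_unique
    ((h1.pow 2).continuousAt.tendsto.mono_left (nhdsWithin_le_nhds (s := {p}ᶜ)))
    ((hH.continuousAt.tendsto.mono_left nhdsWithin_le_nhds).congr' (h3.mono fun y hy => hy.symm))
  filter_upwards [eventually_nhdsWithin_iff.mp h3] with y hy
  by_cases h5 : y = p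
  · rw [h5, h4]
  · exact hy h5

omit [RS Y] in
theorem an_G (hφ : An φ p) : An (fun y => ∏ r ∈ R, (1 - f r * φ y)) p :=
  an_prod fun _ _ => (an_const _).sub ((an_const _).mul hφ)

/-- the behaviour of `W` at a pole -/
theorem atPole (hW : IsW f P R ι W) (hφ : An φ p) (h : ∀ᶠ y in 𝓝[≠] p, φ y * f y = 1) {k j : ℕ}
    (hk : 2 * k = R.card + j) : ∃ V, An V p ∧ (∀ y, y ≠ p → V y = W y * φ y ^ k) ∧
      ∀ᶠ y in 𝓝 p, V y ^ 2 = φ y ^ j * ∏ r ∈ R, (1 - f r * φ y) := by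
  refine sqrt_ext ?_ ((hφ.pow j).mul (an_G hφ))
  filter_upwards [h, eventually_notMem P.finite_toSet p, mem_nhdsWithin_of_mem_nhds hφ.eventually]
    with y h1 h2 h3
  refine ⟨(hW y h2).1.mul (h3.pow k), ?_⟩
  have h4 : ∏ r ∈ R, (1 - f r * φ y) = ∏ r ∈ R, ((f y - f r) * φ y) :=
    Finset.prod_congr rfl fun r _ => by linear_combination -h1
  rw [h4, Finset.prod_mul_distrib, Finset.prod_const, mul_pow, (hW y h2).2.1, ← pow_mul,
    mul_comm k 2, hk, pow_add]
  ring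

/-- the number of ramification points is even -/
theorem even_card (hW : IsW f P R ι W) (hp : SP f p) : ∃ k, R.card = 2 * k := by
  obtain ⟨k, hk | hk⟩ := Nat.even_or_odd' R.card
  · exact ⟨k, hk⟩
  obtain ⟨φ, h1, h2, h3, h4⟩ := hp
  obtain ⟨V, h5, -, h6⟩ := atPole hW h1 h4 (k := k + 1) (j := 1) (by omega)
  have h7 : V p = 0 := by
    have := h6.self_of_nhds
    rw [h2, pow_one, zero_mul] at this
    exact pow_eq_zero_iff two_ne_zero |>.mp this
  have h8 := D_congr (u := fun y => V y ^ 2) h6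
  rw [D_pow h5, D_mul (h1.pow 1) (an_G h1), D_pow h1, h7, h2] at h8
  simp only [Nat.cast_ofNat, Nat.add_one_sub_one, pow_one, mul_zero, zero_mul, Nat.cast_one,
    tsub_self, pow_zero, mul_one, one_mul, sub_zero, Finset.prod_const_one, add_zero] at h8
  exact absurd h8.symm h3

/-- local data at a pole -/
theorem pole_data (hW : IsW f P R ι W) (hp : SP f p) {k : ℕ} (hk : R.card = 2 * k) :
    ∃ φ V, An φ p ∧ D φ p ≠ 0 ∧ An V p ∧ V p ≠ 0 ∧ ∀ᶠ y in 𝓝[≠] p,
      φ y ≠ 0 ∧ D φ y ≠ 0 ∧ V y ≠ 0 ∧ f y = (φ y)⁻¹ ∧ D f y = -D φ y / φ y ^ 2 ∧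
        W y = V y / φ y ^ k := by
  obtain ⟨φ, h1, h2, h3, h4⟩ := hp
  obtain ⟨V, h5, h6, h7⟩ := atPole hW h1 h4 (k := k) (j := 0) (by omega)
  have h8 : V p ≠ 0 := fun h0 => by
    have := h7.self_of_nhds
    rw [h0, h2] at this
    simp at this
  refine ⟨φ, V, h1, h3, h5, h8, ?_⟩
  filter_upwards [h4, eventually_eventually_nhdsWithin.mpr h4, self_mem_nhdsWithin,
    mem_nhdsWithin_of_mem_nhds (h1.eventually.and ((h1.eventually_D_ne h3).and
      (h5.continuousAt.eventually_ne h8)))] with y h9 h10 h11 h12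
  have h13 : φ y ≠ 0 := left_ne_zero_of_mul_eq_one h9
  rw [(isOpen_compl_singleton.nhdsWithin_eq h11)] at h10
  refine ⟨h13, h12.2.1, h12.2.2, eq_inv_of_mul_eq_one_right h9, D_of_mul_eq_one h12.1 h10, ?_⟩
  rw [h6 y h11, mul_div_cancel_right₀ _ (pow_ne_zero _ h13)]

/-- local data at a ramification point -/
theorem ram_data (h : Two f P R ι) (hW : IsW f P R ι W) (hr : r ∈ R) (h1 : An ψ r) (h2 : ψ r = 0)
    (h3 : D ψ r ≠ 0) (h4 : ∀ᶠ y in 𝓝 r, f y = f r + ψ y ^ 2) :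
    ∃ V, An V r ∧ V r ≠ 0 ∧ ∀ᶠ y in 𝓝[≠] r,
      ψ y ≠ 0 ∧ D ψ y ≠ 0 ∧ V y ≠ 0 ∧ D f y = 2 * ψ y * D ψ y ∧ W y = V y * ψ y := by
  classical
  have h5 : ∀ᶠ y in 𝓝[≠] r, ψ y ≠ 0 := (h1.map_ne h3).le (show {0}ᶜ ∈ _ by
    rw [h2]; exact self_mem_nhdsWithin)
  have hf := h.an r (h.disj r hr)
  obtain ⟨V, h6, h7, h8⟩ := sqrt_ext (V := fun y => W y / ψ y) (p := r)
    (H := fun y => ∏ r' ∈ R.erase r, (f y - f r')) (by
      filter_upwards [h5, eventually_notMem P.finite_toSet r,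
        mem_nhdsWithin_of_mem_nhds (h1.eventually.and h4)] with y h5 h6 h7
      refine ⟨(hW y h6).1.div h7.1 h5, ?_⟩
      rw [div_pow, (hW y h6).2.1, ← Finset.mul_prod_erase R _ hr, h7.2, add_sub_cancel_left,
        mul_div_cancel_left₀ _ (pow_ne_zero _ h5)])
    (an_prod fun _ _ => hf.sub (an_const _))
  have h9 : V r ≠ 0 := fun h0 => by
    have := h8.self_of_nhds
    rw [h0, zero_pow two_ne_zero] at this
    obtain ⟨r', h9, h10⟩ := Finset.prod_eq_zero_iff.mp this.symm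
    obtain ⟨h11, h12⟩ := Finset.mem_erase.mp h9
    exact h11 (alone h hr (h.disj r' h12) (sub_eq_zero.mp h10).symm)
  refine ⟨V, h6, h9, ?_⟩
  filter_upwards [h5, self_mem_nhdsWithin, mem_nhdsWithin_of_mem_nhds (h4.eventually_nhds.and
    (h1.eventually.and ((h1.eventually_D_ne h3).and (h6.continuousAt.eventually_ne h9))))]
    with y h10 h11 h12
  refine ⟨h10, h12.2.2.1, h12.2.2.2, ?_, ?_⟩
  · rw [D_congr (v := fun y => f r + ψ y ^ 2) h12.1, D_add (an_const _) (h12.2.1.pow 2), D_const,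
      D_pow h12.2.1]
    simp
  · rw [h7 y h11, div_mul_cancel₀ _ h10]

/-- the forms `f ^ m df / W` -/
theorem exists_form (hI : S_Iota) (h : Two f P R ι) (hP : ∀ p ∈ P, SP f p) (hW : IsW f P R ι W)
    {k m : ℕ} (hk : R.card = 2 * k) (hm : m + 2 ≤ k) :
    ∃ η ∈ Om Y, ∀ y, y ∉ P → y ∉ R → η y = f y ^ m / W y * D f y := by
  have hA : ((P : Set Y) ∪ R).Finite := P.finite_toSet.union R.finite_toSet
  obtain ⟨η, h1, h2⟩ := om_extend (w := fun y => f y ^ m / W y * D f y) hA (fun y hy => by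
    have h1 : y ∉ P := fun h1 => hy (Or.inl h1)
    have h2 : y ∉ R := fun h2 => hy (Or.inr h2)
    exact Hf.mul (((h.an y h1).pow m).div (hW y h1).1 (W_ne h hW h1 h2)) (h.an y h1).hf) (by
    rintro a (ha | ha)
    · obtain ⟨φ, V, h1, -, h3, h4, h5⟩ := pole_data hW (hP a ha) hk
      obtain ⟨j, rfl⟩ := Nat.exists_eq_add_of_le hm
      refine bdd (v := fun y => -(φ y ^ j / V y) * (D φ y / D (zc a) y))
        (An.mul ((h1.pow j).div h3 h4).neg h1.hf) ?_
      filter_upwards [h5] with y hy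
      obtain ⟨h6, -, h7, h8, h9, h10⟩ := hy
      rw [h8, h9, h10, inv_pow, pow_add, pow_add]
      field_simp
    · obtain ⟨ψ, h1, h2, h3, h4⟩ := ((hI Y f P R ι h).2.2.2.2 a ha).2
      obtain ⟨V, h5, h6, h7⟩ := ram_data h hW ha h1 h2 h3 h4
      refine bdd (v := fun y => 2 * f y ^ m / V y * (D ψ y / D (zc a) y))
        (An.mul (((an_const 2).mul ((h.an a (h.disj a ha)).pow m)).div h5 h6) h1.hf) ?_
      filter_upwards [h7] with y hy
      obtain ⟨h8, -, h9, h10, h11⟩ := hy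
      rw [h10, h11]
      field_simp)
  exact ⟨η, h1, fun y h3 h4 => h2 y fun h5 => h5.elim h3 h4⟩

/-- at least eight ramification points give three independent forms -/
theorem three_le (hI : S_Iota) (h : Two f P R ι) (hP : ∀ p ∈ P, SP f p) (hW : IsW f P R ι W)
    {k : ℕ} (hk : R.card = 2 * k) (h4 : 4 ≤ k) [Module.Finite ℂ (Om Y)] :
    3 ≤ Module.finrank ℂ (Om Y) := by
  have key : ∀ m : Fin 3, ∃ η : Om Y, ∀ y, y ∉ P → y ∉ R →
      (η : Y → ℂ) y = f y ^ (m : ℕ) / W y * D f y := fun m => by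
    obtain ⟨η, h1, h2⟩ := exists_form hI h hP hW hk (m := m) (by omega)
    exact ⟨⟨η, h1⟩, h2⟩
  choose η hη using key
  have hli : LinearIndependent ℂ η := by
    refine Fintype.linearIndependent_iff.mpr fun g hg => congrFun ?_
    have hinf := (R.finite_toSet.image f).infinite_compl
    refine Matrix.eq_zero_of_forall_index_sum_pow_mul_eq_zero
      (f := fun j : Fin 3 => (hinf.natEmbedding _ j : ℂ)) (fun a b hab =>
        Fin.val_injective ((hinf.natEmbedding _).injective (Subtype.ext hab))) fun j => ?_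
    obtain ⟨y, h1, h2⟩ := (hI Y f P R ι h).1 (hinf.natEmbedding _ j : ℂ)
    have h3 : y ∉ R := fun h3 => (hinf.natEmbedding _ j).2 ⟨y, h3, h2⟩
    have h5 := congrFun (congrArg Subtype.val hg) y
    simp only [AddSubmonoidClass.coe_finsetSum, SetLike.val_smul, Finset.sum_apply,
      Pi.smul_apply, smul_eq_mul, ZeroMemClass.coe_zero, Pi.zero_apply, hη _ y h1 h3] at h5
    rw [← h2]
    refine mul_right_cancel₀ (div_ne_zero (h.der y h1 h3) (W_ne h hW h1 h3)) ?_
    rw [zero_mul, ← h5, Finset.sum_mul]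
    exact Finset.sum_congr rfl fun i _ => by ring
  simpa using hli.fintype_card_le_finrank

/-- with at most four ramification points every form is a multiple of `df / W` -/
theorem const_quot (hI : S_Iota) (hD : S_Desc) (hO : S_Odd) (h : Two f P R ι)
    (hP : ∀ p ∈ P, SP f p) (hW : IsW f P R ι W) {k : ℕ} (hk : R.card = 2 * k) (h2 : k ≤ 2)
    (hw : w ∈ Om Y) : ∃ c, ∀ y, y ∉ P → y ∉ R → W y * (w y / D f y) = c := by
  obtain ⟨Q, h1, h3⟩ := hD Y f P R ι (fun y => W y * (w y / D f y)) 0 h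
    (fun y h1 h3 => ⟨(hW y h1).1.mul ((hw y).div_D (h.an y h1) (h.der y h1 h3)), by
      rw [(hW y h1).2.2, hO Y f P R ι h w hw y h1 h3, neg_mul_neg]⟩)
    (fun r hr => by
      obtain ⟨ψ, h1, h2, h3, h4⟩ := ((hI Y f P R ι h).2.2.2.2 r hr).2
      obtain ⟨V, h5, -, h7⟩ := ram_data h hW hr h1 h2 h3 h4
      refine bdd (v := fun y => 2⁻¹ * V y * (w y / D ψ y))
        (((an_const _).mul h5).mul ((hw r).div_D h1 h3)) ?_
      filter_upwards [h7] with y hy
      obtain ⟨h8, h9, -, h10, h11⟩ := hy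
      rw [h10, h11]
      field_simp)
    (fun p hp => by
      obtain ⟨φ, V, h1, h3, h4, -, h5⟩ := pole_data hW (hP p hp) hk
      obtain ⟨j, hj⟩ := Nat.exists_eq_add_of_le h2
      simp only [pow_zero, mul_one]
      refine bdd (v := fun y => -(φ y ^ j * V y) * (w y / D φ y))
        (((h1.pow j).mul h4).neg.mul ((hw p).div_D h1 h3)) ?_
      filter_upwards [h5] with y hy
      obtain ⟨h6, h7, -, -, h9, h10⟩ := hy
      rw [h9, h10, hj, pow_add]
      field_simp)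
  refine ⟨Q.coeff 0, fun y h4 h5 => ?_⟩
  rw [h3 y h4 h5, Polynomial.eq_C_of_natDegree_le_zero h1, Polynomial.eval_C,
    Polynomial.coeff_C_zero]

theorem le_one (hI : S_Iota) (hD : S_Desc) (hO : S_Odd) (h : Two f P R ι)
    (hP : ∀ p ∈ P, SP f p) (hW : IsW f P R ι W) {k : ℕ} (hk : R.card = 2 * k) (h2 : k ≤ 2) :
    Module.finrank ℂ (Om Y) ≤ 1 := by
  have hA : ((P : Set Y) ∪ R).Finite := P.finite_toSet.union R.finite_toSet
  obtain ⟨y₀, h0⟩ := (eventually_notMem hA (Classical.arbitrary Y)).exists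
  have hinj : Function.Injective ((LinearMap.proj y₀ : (Y → ℂ) →ₗ[ℂ] ℂ) ∘ₗ (Om Y).subtype) := by
    refine (injective_iff_map_eq_zero _).mpr fun w hw => Subtype.ext ?_
    obtain ⟨c, hc⟩ := const_quot hI hD hO h hP hW hk h2 w.2
    have h1 : (w : Y → ℂ) y₀ = 0 := hw
    have h3 := hc y₀ (fun h3 => h0 (Or.inl h3)) fun h3 => h0 (Or.inr h3)
    rw [h1, zero_div, mul_zero] at h3
    refine om_eq_zero_of_finite w.2 hA fun y hy => ?_
    have h4 : y ∉ P := fun h1 => hy (Or.inl h1)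
    have h5 : y ∉ R := fun h2 => hy (Or.inr h2)
    have h6 := hc y h4 h5
    rw [← h3] at h6
    exact (div_eq_zero_iff.mp ((mul_eq_zero.mp h6).resolve_left (W_ne h hW h4 h5))).resolve_right
      (h.der y h4 h5)
  simpa using LinearMap.finrank_le_finrank_of_injective hinj

end SixP

theorem six (hW : S_W) (hI : S_Iota) (hD : S_Desc) (hO : S_Odd) : S_Six := by
  intro Y _ _ _ f P R ι h hP hg
  obtain ⟨W, hW⟩ := hW Y f P R ι h (exists_ne_zero_of_finrank hg)
  obtain ⟨p, hp⟩ := h.ne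
  obtain ⟨k, hk⟩ := SixP.even_card hW (hP p hp)
  have : Module.Finite ℂ (Om Y) := Module.finite_of_finrank_pos (by omega)
  have h1 : ¬4 ≤ k := fun h4 => by
    have := SixP.three_le hI h hP hW hk h4
    omega
  have h2 : ¬k ≤ 2 := fun h2 => by
    have := SixP.le_one hI hD hO h hP hW hk h2
    omega
  omega

end Pool.Agent.P.MP_5d7cf0_gt.T
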