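import Pool.Agent.P.MP_5d7cf0_gt.T.St2
import Pool.Agent.P.MP_5d7cf0_gt.T.Six

/-!
Package Dim2: a double cover with one pole and five finite ramification points has a two
dimensional space of holomorphic forms.
-/

open Set Filter Topology Manifold Metric
open scoped ContDiff

namespace Pool.Agent.P.MP_5d7cf0_gt.T

namespace Dim2P

open SixP

variable {Y : Type} [TopologicalSpace Y] [ChartedSpace ℂ Y] [RS Y] {f W w : Y → ℂ}
  {R : Finset Y} {ι : Y → Y} {p : Y}

/-- the pole has order two -/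
theorem order_two (h : Two f {p} R ι) (hR : R.card = 5) (hW : IsW f {p} R ι W) :
    ∃ ψ, An ψ p ∧ ψ p = 0 ∧ D ψ p ≠ 0 ∧ ∀ᶠ y in 𝓝[≠] p, ψ y ^ 2 * f y = 1 := by
  classical
  obtain ⟨φ, h1, h2, h3, h4⟩ := exists_inv (f := f) (p := p)
    (by filter_upwards [self_mem_nhdsWithin] with y hy using h.an y (by simpa using hy))
    (h.pole p (Finset.mem_singleton_self p))
  obtain ⟨n, ψ, hn, h5, h6, h7, h8⟩ := h1.nf h3
  have hge : 2 ≤ n := by
    refine (nf_D hn h5 h6 h7 h8).mp ?_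
    by_contra h0
    obtain ⟨k, hk⟩ := even_card hW ⟨φ, h1, h2, h0, h4⟩
    omega
  have hle : n ≤ 2 := by
    obtain ⟨c, ⟨s, hs, hc⟩, hc0⟩ := ((nf_preimages hn h5 h6 h7 h8
      (eventually_nhdsWithin_iff.mp h4)).and self_mem_nhdsWithin).exists
    have key : ∀ y ∈ s, y ∉ ({p} : Finset Y) ∧ f y = c⁻¹ := fun y hy => by
      have h9 : y ≠ p := fun e => hc0 (by rw [← (hc y hy).2, e]; rfl)
      have h10 : φ y * f y = 1 := (hc y hy).1 h9
      rw [(hc y hy).2] at h10
      exact ⟨by simpa using h9, eq_inv_of_mul_eq_one_right h10⟩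
    obtain ⟨y, hy⟩ := Finset.card_pos.mp (show 0 < s.card by omega)
    rw [← hs]
    refine (Finset.card_le_card (t := {y, ι y}) fun y' hy' => ?_).trans Finset.card_le_two
    simpa using (h.fib y (key y hy).1 y' (key y' hy').1).mp
      ((key y' hy').2.trans (key y hy).2.symm)
  obtain rfl : n = 2 := le_antisymm hle hge
  refine ⟨ψ, h5, h6, h7, ?_⟩
  filter_upwards [h4, mem_nhdsWithin_of_mem_nhds h8] with y h9 h10
  rwa [h10, h2, zero_add] at h9

/-- local data at the pole -/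
theorem pole2 (h : Two f {p} R ι) (hR : R.card = 5) (hW : IsW f {p} R ι W) :
    ∃ ψ V, An ψ p ∧ D ψ p ≠ 0 ∧ An V p ∧ V p ≠ 0 ∧ ∀ᶠ y in 𝓝[≠] p,
      ψ y ≠ 0 ∧ D ψ y ≠ 0 ∧ V y ≠ 0 ∧ f y = (ψ y ^ 2)⁻¹ ∧ D f y = -2 * D ψ y / ψ y ^ 3 ∧
        W y = V y / ψ y ^ 5 := by
  obtain ⟨ψ, h1, h2, h3, h4⟩ := order_two h hR hW
  obtain ⟨V, h5, h6, h7⟩ := sqrt_ext (V := fun y => W y * ψ y ^ 5) (p := p)
    (H := fun y => ∏ r ∈ R, (1 - f r * ψ y ^ 2)) (by
      filter_upwards [h4, eventually_notMem ({p} : Finset Y).finite_toSet p,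
        mem_nhdsWithin_of_mem_nhds h1.eventually] with y h8 h9 h10
      refine ⟨(hW y h9).1.mul (h10.pow 5), ?_⟩
      have h11 : ∏ r ∈ R, (1 - f r * ψ y ^ 2) = ∏ r ∈ R, ((f y - f r) * ψ y ^ 2) :=
        Finset.prod_congr rfl fun r _ => by linear_combination -h8
      rw [h11, Finset.prod_mul_distrib, Finset.prod_const, mul_pow, (hW y h9).2.1, hR]
      ring) (an_G (h1.pow 2))
  have h8 : V p ≠ 0 := fun h0 => by
    have := h7.self_of_nhds
    rw [h0, h2] at this
    simp at this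
  refine ⟨ψ, V, h1, h3, h5, h8, ?_⟩
  filter_upwards [h4, eventually_eventually_nhdsWithin.mpr h4, self_mem_nhdsWithin,
    mem_nhdsWithin_of_mem_nhds (h1.eventually.and ((h1.eventually_D_ne h3).and
      (h5.continuousAt.eventually_ne h8)))] with y h9 h10 h11 h12
  have h13 : ψ y ≠ 0 := fun h0 => by simp [h0] at h9
  rw [(isOpen_compl_singleton.nhdsWithin_eq h11)] at h10
  refine ⟨h13, h12.2.1, h12.2.2, eq_inv_of_mul_eq_one_right h9, ?_, ?_⟩
  · rw [D_of_mul_eq_one (φ := fun y => ψ y ^ 2) (h12.1.pow 2) h10, D_pow h12.1]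
    field_simp
    push_cast
    ring
  · rw [h6 y h11, mul_div_cancel_right₀ _ (pow_ne_zero _ h13)]

/-- the forms `df / W` and `f df / W` -/
theorem form (hI : S_Iota) (h : Two f {p} R ι) (hR : R.card = 5) (hW : IsW f {p} R ι W)
    (m : Fin 2) : ∃ η : Om Y, ∀ y, y ∉ ({p} : Finset Y) → y ∉ R →
      (η : Y → ℂ) y = f y ^ (m : ℕ) / W y * D f y := by
  have hA : ((({p} : Finset Y) : Set Y) ∪ R).Finite :=
    ({p} : Finset Y).finite_toSet.union R.finite_toSet
  obtain ⟨η, h1, h2⟩ := om_extend (w := fun y => f y ^ (m : ℕ) / W y * D f y) hA (fun y hy => by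
    have h1 : y ∉ ({p} : Finset Y) := fun h1 => hy (Or.inl h1)
    have h2 : y ∉ R := fun h2 => hy (Or.inr h2)
    exact Hf.mul (((h.an y h1).pow m).div (hW y h1).1 (W_ne h hW h1 h2)) (h.an y h1).hf) (by
    rintro a (ha | ha)
    · obtain rfl : a = p := by simpa using ha
      obtain ⟨ψ, V, h1, -, h3, h4, h5⟩ := pole2 h hR hW
      refine bdd (v := fun y => -2 * ψ y ^ (2 - 2 * (m : ℕ)) / V y * (D ψ y / D (zc a) y))
        (An.mul (((an_const _).mul (h1.pow _)).div h3 h4) h1.hf) ?_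
      filter_upwards [h5] with y hy
      obtain ⟨h6, -, h7, h8, h9, h10⟩ := hy
      rw [h8, h9, h10]
      fin_cases m <;> simp only [Fin.zero_eta, Fin.mk_one, Fin.val_zero, Fin.val_one] <;>
        field_simp <;> ring
    · obtain ⟨ψ, h1, h2, h3, h4⟩ := ((hI Y f {p} R ι h).2.2.2.2 a ha).2
      obtain ⟨V, h5, h6, h7⟩ := ram_data h hW ha h1 h2 h3 h4
      refine bdd (v := fun y => 2 * f y ^ (m : ℕ) / V y * (D ψ y / D (zc a) y))
        (An.mul (((an_const 2).mul ((h.an a (h.disj a ha)).pow m)).div h5 h6) h1.hf) ?_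
      filter_upwards [h7] with y hy
      obtain ⟨h8, -, h9, h10, h11⟩ := hy
      rw [h10, h11]
      field_simp)
  exact ⟨⟨η, h1⟩, fun y h3 h4 => h2 y fun h5 => h5.elim h3 h4⟩

/-- the quotient of a form by `df / W` is a polynomial of degree at most one in `f` -/
theorem lin_quot (hI : S_Iota) (hD : S_Desc) (hO : S_Odd) (h : Two f {p} R ι) (hR : R.card = 5)
    (hW : IsW f {p} R ι W) (hw : w ∈ Om Y) :
    ∃ a b : ℂ, ∀ y, y ∉ ({p} : Finset Y) → y ∉ R → W y * (w y / D f y) = a * f y + b := by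
  obtain ⟨Q, h1, h3⟩ := hD Y f {p} R ι (fun y => W y * (w y / D f y)) 1 h
    (fun y h1 h3 => ⟨(hW y h1).1.mul ((hw y).div_D (h.an y h1) (h.der y h1 h3)), by
      rw [(hW y h1).2.2, hO Y f {p} R ι h w hw y h1 h3, neg_mul_neg]⟩)
    (fun r hr => by
      obtain ⟨ψ, h1, h2, h3, h4⟩ := ((hI Y f {p} R ι h).2.2.2.2 r hr).2
      obtain ⟨V, h5, -, h7⟩ := ram_data h hW hr h1 h2 h3 h4
      refine bdd (v := fun y => 2⁻¹ * V y * (w y / D ψ y))
        (((an_const _).mul h5).mul ((hw r).div_D h1 h3)) ?_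
      filter_upwards [h7] with y hy
      obtain ⟨h8, h9, -, h10, h11⟩ := hy
      rw [h10, h11]
      field_simp)
    (fun a ha => by
      obtain rfl : a = p := by simpa using ha
      obtain ⟨ψ, V, h1, h3, h4, -, h5⟩ := pole2 h hR hW
      obtain ⟨C, hC⟩ := bdd (u := fun y => -2⁻¹ * V y * (w y / D ψ y))
        (((an_const _).mul h4).mul ((hw a).div_D h1 h3)) (Eventually.of_forall fun _ => rfl)
      refine ⟨C, ?_⟩
      filter_upwards [h5, hC] with y hy h11
      obtain ⟨h6, h7, -, h8, h9, h10⟩ := hy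
      have e : W y * (w y / D f y) = -2⁻¹ * V y * (w y / D ψ y) * f y := by
        rw [h8, h9, h10]
        field_simp
      rw [e, norm_mul, pow_one]
      gcongr)
  refine ⟨Q.coeff 1, Q.coeff 0, fun y h4 h5 => ?_⟩
  rw [h3 y h4 h5]
  conv_lhs => rw [Polynomial.eq_X_add_C_of_natDegree_le_one h1]
  simp

end Dim2P

open Dim2P in
theorem dim2 (hI : S_Iota) (hD : S_Desc) (hO : S_Odd) : S_Dim2 := by
  intro Y _ _ _ f W p R ι h hR hW
  replace hW : SixP.IsW f {p} R ι W := fun y hy => hW y (by simpa using hy)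
  choose η hη using form hI h hR hW
  have hli : LinearIndependent ℂ η := by
    refine Fintype.linearIndependent_iff.mpr fun g hg => congrFun ?_
    have hinf := (R.finite_toSet.image f).infinite_compl
    refine Matrix.eq_zero_of_forall_index_sum_pow_mul_eq_zero
      (f := fun j : Fin 2 => (hinf.natEmbedding _ j : ℂ)) (fun a b hab =>
        Fin.val_injective ((hinf.natEmbedding _).injective (Subtype.ext hab))) fun j => ?_
    obtain ⟨y, h1, h2⟩ := (hI Y f {p} R ι h).1 (hinf.natEmbedding _ j : ℂ)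
    have h3 : y ∉ R := fun h3 => (hinf.natEmbedding _ j).2 ⟨y, h3, h2⟩
    have h5 := congrFun (congrArg Subtype.val hg) y
    simp only [AddSubmonoidClass.coe_finsetSum, SetLike.val_smul, Finset.sum_apply,
      Pi.smul_apply, smul_eq_mul, ZeroMemClass.coe_zero, Pi.zero_apply, hη _ y h1 h3] at h5
    rw [← h2]
    refine mul_right_cancel₀ (div_ne_zero (h.der y h1 h3) (SixP.W_ne h hW h1 h3)) ?_
    rw [zero_mul, ← h5, Finset.sum_mul]
    exact Finset.sum_congr rfl fun i _ => by ring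
  have hsp : ⊤ ≤ Submodule.span ℂ (range η) := fun w _ => by
    obtain ⟨a, b, hab⟩ := lin_quot hI hD hO h hR hW w.2
    have e : w - (a • η 1 + b • η 0) = 0 := by
      refine Subtype.ext (om_eq_zero_of_finite (Subtype.prop _)
        (({p} : Finset Y).finite_toSet.union R.finite_toSet) fun y hy => ?_)
      have h1 : y ∉ ({p} : Finset Y) := fun h1 => hy (Or.inl h1)
      have h2 : y ∉ R := fun h2 => hy (Or.inr h2)
      have h3 := hab y h1 h2
      have h4 := h.der y h1 h2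
      have h5 := SixP.W_ne h hW h1 h2
      simp only [AddSubgroupClass.coe_sub, Submodule.coe_add, SetLike.val_smul, Pi.sub_apply,
        Pi.add_apply, Pi.smul_apply, smul_eq_mul, hη _ y h1 h2, Fin.val_one, Fin.val_zero,
        pow_one, pow_zero]
      field_simp at h3 ⊢
      linear_combination h3
    rw [sub_eq_zero.mp e]
    exact add_mem (Submodule.smul_mem _ _ (Submodule.subset_span ⟨1, rfl⟩))
      (Submodule.smul_mem _ _ (Submodule.subset_span ⟨0, rfl⟩))
  simpa using Module.finrank_eq_card_basis (Module.Basis.mk hli hsp)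

end Pool.Agent.P.MP_5d7cf0_gt.T
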