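import Pool.Agent.P.MP_5d7cf0_gt.T.St

/-!
A Fredholm type continuity lemma and a holomorphic family of continuous functions.
-/

open Set Filter Topology MeasureTheory Metric

namespace Pool.Agent.P.MP_5d7cf0_gt.T

namespace FredP

variable {B : Type} [NormedAddCommGroup B] [NormedSpace ℂ B]

theorem op (μ : Measure ℂ) (e : ℂ → B →ₗ[ℂ] ℂ)
    (h1 : ∀ a, AEStronglyMeasurable (fun ζ => e ζ a) μ) (h2 : ∀ a, ∀ᵐ ζ ∂μ, ‖e ζ a‖ ≤ ‖a‖)
    {g : ℂ → B} (hg : Integrable g μ) :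
    ∃ T : B →L[ℂ] B, (∀ a, T a = ∫ ζ, e ζ a • g ζ ∂μ) ∧ ‖T‖ ≤ ∫ ζ, ‖g ζ‖ ∂μ := by
  have hi : ∀ a, Integrable (fun ζ => e ζ a • g ζ) μ := fun a => hg.bdd_smul ‖a‖ (h1 a) (h2 a)
  let L : B →ₗ[ℂ] B :=
    { toFun := fun a => ∫ ζ, e ζ a • g ζ ∂μ
      map_add' := fun a b => by
        simp only [map_add, add_smul]
        exact integral_add (hi a) (hi b)
      map_smul' := fun r a => by
        simp only [map_smul, smul_eq_mul, mul_smul, RingHom.id_apply]
        exact integral_smul r _ }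
  have hb : ∀ a, ‖L a‖ ≤ (∫ ζ, ‖g ζ‖ ∂μ) * ‖a‖ := fun a => by
    rw [← integral_mul_const]
    refine norm_integral_le_of_norm_le (hg.norm.mul_const _) ?_
    filter_upwards [h2 a] with ζ hζ
    rw [norm_smul, mul_comm]
    gcongr
  exact ⟨L.mkContinuous _ hb, fun a => rfl,
    L.mkContinuous_norm_le (integral_nonneg fun _ => norm_nonneg _) hb⟩

theorem mem [CompleteSpace B] (μ : Measure ℂ) (W : Submodule ℂ B) [FiniteDimensional ℂ W]
    (φ : ℂ → ℂ) {s : ℂ → B} (hs : ∀ ζ, s ζ ∈ W) : ∫ ζ, φ ζ • s ζ ∂μ ∈ W := by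
  have : CompleteSpace W := FiniteDimensional.complete ℂ W
  have h := W.subtypeₗᵢ.integral_comp_comm (μ := μ) (fun ζ => φ ζ • (⟨s ζ, hs ζ⟩ : W))
  have e : ∫ ζ, φ ζ • s ζ ∂μ = W.subtypeₗᵢ (∫ ζ, φ ζ • (⟨s ζ, hs ζ⟩ : W) ∂μ) := h
  rw [e]
  exact Subtype.prop _

omit [NormedSpace ℂ B] in
theorem approx (μ : Measure ℂ) {k : ℂ → B} (hk : Integrable k μ) {δ : ℝ} (hδ : 0 < δ) :
    ∃ s : ℂ → B, (range s).Finite ∧ Integrable s μ ∧ ∫ ζ, ‖k ζ - s ζ‖ ∂μ ≤ δ := by
  obtain ⟨s, h1, h2⟩ := (memLp_one_iff_integrable.2 hk).exists_simpleFunc_eLpNorm_sub_lt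
    (by simp) (ε := ENNReal.ofReal δ) (by simpa using hδ)
  have hs := memLp_one_iff_integrable.1 h2
  refine ⟨s, s.finite_range, hs, ?_⟩
  rw [eLpNorm_one_eq_lintegral_enorm] at h1
  have := integral_norm_eq_lintegral_enorm (hk.sub hs).1
  exact this.trans_le (ENNReal.toReal_le_of_le_ofReal hδ.le h1.le)

theorem cont {Y : Type} [TopologicalSpace Y] {z c : Y → ℂ} {L : Set Y} (hL : IsClosed L)
    (hc : Continuous c) (h0 : ∀ y, y ∉ L → c y = 0) (hz : ContinuousOn z L) {ζ : ℂ}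
    (hζ : ∀ y ∈ L, z y ≠ ζ) (m : ℕ) : Continuous fun y => c y / (z y - ζ) ^ m := by
  rw [← continuousOn_univ, ← union_compl_self L]
  refine ContinuousOn.mono (s := L ∪ closure Lᶜ) ?_ (union_subset_union_right _ subset_closure)
  refine ContinuousOn.union_of_isClosed ?_ ?_ hL isClosed_closure
  · exact hc.continuousOn.div ((hz.sub continuousOn_const).pow m)
      fun y hy => pow_ne_zero _ (sub_ne_zero.2 (hζ y hy))
  · refine (continuousOn_const (c := (0 : ℂ))).congr fun y hy => ?_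
    have : c y = 0 := closure_minimal (t := {y | c y = 0}) h0 (isClosed_eq hc continuous_const) hy
    simp [this]

end FredP

open FredP

theorem fR : S_FR := by
  intro B _ _ _ n K k e h Λ hΛ
  have m1 : ∀ i a, AEStronglyMeasurable (fun ζ => e i ζ a) (volume.restrict (K i)) := fun i a =>
    ((h i).2.2.1 a).aestronglyMeasurable (h i).1.measurableSet
  have m2 : ∀ i a, ∀ᵐ ζ ∂(volume.restrict (K i)), ‖e i ζ a‖ ≤ ‖a‖ := fun i a =>
    (ae_restrict_mem (h i).1.measurableSet).mono fun ζ hζ => (h i).2.2.2 ζ hζ a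
  have ik : ∀ i, Integrable (k i) (volume.restrict (K i)) := fun i =>
    (h i).2.1.integrableOn_compact (h i).1
  choose s s1 s2 s3 using fun i => approx _ (ik i) (δ := 1 / (n + 1)) (by positivity)
  choose T T1 T2 using fun i => op _ (e i) (m1 i) (m2 i) ((ik i).sub (s2 i))
  choose F F1 _ using fun i => op _ (e i) (m1 i) (m2 i) (s2 i)
  set W := Submodule.span ℂ (⋃ i, range (s i))
  have : FiniteDimensional ℂ W := FiniteDimensional.span_of_finite ℂ (finite_iUnion s1)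
  have hF : ∀ a, (∑ i, F i) a ∈ W := fun a => by
    rw [sum_apply]
    refine W.sum_mem fun i _ => ?_
    rw [F1]
    exact mem _ W _ fun ζ => Submodule.subset_span (mem_iUnion.2 ⟨i, mem_range_self ζ⟩)
  have hT : ‖-∑ i, T i‖ < 1 := by
    rw [norm_neg]
    refine (norm_sum_le _ _).trans_lt ?_
    refine (Finset.sum_le_sum fun i _ => (T2 i).trans (s3 i)).trans_lt ?_
    rw [Finset.sum_const, Finset.card_univ, Fintype.card_fin, nsmul_eq_mul, mul_one_div,
      div_lt_one (by positivity)]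
    linarith
  set u := Units.oneSub _ hT
  have key : ∀ b, Λ b = -(Λ.domRestrict W) ⟨(∑ i, F i) ((↑u⁻¹ : B →L[ℂ] B) b), hF _⟩ := by
    intro b
    set a := (↑u⁻¹ : B →L[ℂ] B) b
    have e1 : (u : B →L[ℂ] B) a = b := by
      rw [← mul_apply_eq_comp, u.mul_inv, one_apply_eq_self]
    have e2 : b = a + (∑ i, T i) a := by
      rw [← e1]; simp [u]
    have e3 : ∑ i, ∫ ζ in K i, e i ζ a • k i ζ = (∑ i, T i) a + (∑ i, F i) a := by
      rw [sum_apply, sum_apply, ← Finset.sum_add_distrib]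
      refine Finset.sum_congr rfl fun i _ => ?_
      rw [T1, F1]
      refine Eq.trans ?_ (integral_add (((ik i).sub (s2 i)).bdd_smul ‖a‖ (m1 i a) (m2 i a))
        ((s2 i).bdd_smul ‖a‖ (m1 i a) (m2 i a)))
      congr 1; funext ζ
      simp [smul_sub]
    have e4 := hΛ a
    rw [e3, ← add_assoc, ← e2, map_add] at e4
    exact eq_neg_of_add_eq_zero_left e4
  rw [show (Λ : B → ℂ) = _ from funext key]
  refine ((Λ.domRestrict W).continuous_of_finiteDimensional.comp (Continuous.subtype_mk ?_ _)).neg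
  exact (∑ i, F i).continuous.comp (↑u⁻¹ : B →L[ℂ] B).continuous

theorem hB : S_HB := by
  intro Y _ _ z c L Ω hΩ hL hc h0 hz hzΩ
  classical
  have ne : ∀ ζ ∈ Ω, ∀ y ∈ L, z y ≠ ζ := fun ζ hζ y hy h => hzΩ y hy (h ▸ hζ)
  let g : ℕ → ℂ → C(Y, ℂ) := fun m ζ =>
    if h : ζ ∈ Ω then ⟨fun y => c y / (z y - ζ) ^ m, cont hL hc h0 hz (ne ζ h) m⟩ else 0
  have hg : ∀ m, ∀ ζ ∈ Ω, ∀ y, g m ζ y = c y / (z y - ζ) ^ m := fun m ζ hζ y => by
    simp only [g, dif_pos hζ, ContinuousMap.coe_mk]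
  refine ⟨g 1, fun w hw => ?_, fun ζ hζ y => by rw [hg 1 ζ hζ, pow_one]⟩
  refine (HasDerivAt.differentiableAt (f' := g 2 w) ?_).differentiableWithinAt
  obtain ⟨d, hd, hdL⟩ := hL.isCompact.exists_forall_le' (f := fun y => ‖z y - w‖) (a := 0)
    (hz.sub continuousOn_const).norm fun y hy => norm_pos_iff.2 (sub_ne_zero.2 (ne w hw y hy))
  rw [hasDerivAt_iff_isLittleO]
  refine Asymptotics.IsBigO.trans_isLittleO (g := fun ζ => ‖ζ - w‖ ^ 2) ?_
    (Asymptotics.isLittleO_pow_sub_sub w one_lt_two)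
  refine Asymptotics.IsBigO.of_bound (‖g 2 w‖ / (d / 2)) ?_
  filter_upwards [hΩ.mem_nhds hw, ball_mem_nhds w (half_pos hd)] with ζ hζ hb
  rw [mem_ball_iff_norm] at hb
  rw [Real.norm_of_nonneg (by positivity), ContinuousMap.norm_le _ (by positivity)]
  intro y
  simp only [ContinuousMap.sub_apply, ContinuousMap.smul_apply, smul_eq_mul]
  have hn := (g 2 w).norm_coe_le_norm y
  rw [hg 1 ζ hζ, hg 1 w hw, pow_one, pow_one]
  rw [hg 2 w hw] at hn ⊢
  by_cases hy : y ∈ L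
  · have n1 := sub_ne_zero.2 (ne ζ hζ y hy)
    have n2 := sub_ne_zero.2 (ne w hw y hy)
    have e : c y / (z y - ζ) - c y / (z y - w) - (ζ - w) * (c y / (z y - w) ^ 2)
        = c y / (z y - w) ^ 2 / (z y - ζ) * (ζ - w) ^ 2 := by field_simp; ring
    have lo : d / 2 ≤ ‖z y - ζ‖ := by
      have a := norm_add_le (z y - ζ) (ζ - w)
      rw [sub_add_sub_cancel] at a
      linarith [hdL y hy]
    rw [e, norm_mul, norm_div, norm_pow]
    gcongr
  · simp only [h0 y hy, zero_div, mul_zero, sub_zero, norm_zero]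
    positivity

end Pool.Agent.P.MP_5d7cf0_gt.T

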