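import Pool.Agent.P.MP_5d7cf0_gt.T.RS
import Pool.Agent.P.MP_5d7cf0_gt.T.Fred

/-!
Duality between the Dolbeault cohomology and holomorphic one-forms.
-/

open Set Filter Topology MeasureTheory Manifold Metric ComplexConjugate
open scoped ContDiff

noncomputable section

namespace Pool.Agent.P.MP_5d7cf0_gt.T

namespace DolP

variable {Y : Type} [TopologicalSpace Y] [ChartedSpace ℂ Y] (C : Cov Y)

theorem K_sub_Ω (i : Fin C.n) : C.K i ⊆ C.Ω i :=
  closedBall_subset_ball (by linarith [C.pos i])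

theorem K_sub (i : Fin C.n) : C.K i ⊆ (chartAt ℂ (C.p i)).target :=
  (closedBall_subset_closedBall (by linarith [C.pos i])).trans (C.sub i)

theorem K_compact (i : Fin C.n) : IsCompact (C.K i) := isCompact_closedBall _ _

/-- evaluation of the component `i` at the point over `ζ` -/
def ev (i : Fin C.n) (y : Y) : (Fin C.n → C(Y, ℂ)) →L[ℂ] ℂ :=
  (ContinuousMap.evalCLM ℂ y).comp (ContinuousLinearMap.proj i)

theorem ev_apply (i : Fin C.n) (y : Y) (a : Fin C.n → C(Y, ℂ)) : ev C i y a = a i y := rfl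

theorem cont_ev (i : Fin C.n) (a : Fin C.n → C(Y, ℂ)) :
    ContinuousOn (fun ζ => a i ((chartAt ℂ (C.p i)).symm ζ)) (C.K i) :=
  (a i).continuous.comp_continuousOn ((chartAt ℂ (C.p i)).continuousOn_symm.mono (K_sub C i))

/-- the coefficients of a locally exact form -/
def dat (h : ∀ β, LEx β → ∀ j, Continuous (C.cf β j)) : LExS Y →ₗ[ℂ] Fin C.n → C(Y, ℂ) where
  toFun β j := ⟨C.cf β j, h β β.2 j⟩
  map_add' β β' := by
    ext j y
    simp [Cov.cf, mul_add, add_div]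
  map_smul' c β := by
    ext j y
    simp [Cov.cf, mul_left_comm, mul_div_assoc]

variable [CompactSpace Y]

theorem intOn {k : Fin C.n → ℂ → Fin C.n → C(Y, ℂ)} (hk : ∀ i, ContinuousOn (k i) (C.K i))
    (i : Fin C.n) (a : Fin C.n → C(Y, ℂ)) :
    IntegrableOn (fun ζ => a i ((chartAt ℂ (C.p i)).symm ζ) • k i ζ) (C.K i) :=
  ((cont_ev C i a).smul (hk i)).integrableOn_compact (K_compact C i)

/-- the integral operator -/
def op {k : Fin C.n → ℂ → Fin C.n → C(Y, ℂ)} (hk : ∀ i, ContinuousOn (k i) (C.K i)) :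
    (Fin C.n → C(Y, ℂ)) →ₗ[ℂ] Fin C.n → C(Y, ℂ) where
  toFun a := ∑ i, ∫ ζ in C.K i, a i ((chartAt ℂ (C.p i)).symm ζ) • k i ζ
  map_add' a b := by
    rw [← Finset.sum_add_distrib]
    refine Finset.sum_congr rfl fun i _ => ?_
    rw [← integral_add (intOn C hk i a) (intOn C hk i b)]
    simp only [Pi.add_apply, ContinuousMap.add_apply, add_smul]
  map_smul' c a := by
    rw [RingHom.id_apply, Finset.smul_sum]
    refine Finset.sum_congr rfl fun i _ => ?_
    rw [← integral_smul]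
    simp only [Pi.smul_apply, ContinuousMap.smul_apply, smul_assoc]

theorem op_apply {k : Fin C.n → ℂ → Fin C.n → C(Y, ℂ)} (hk : ∀ i, ContinuousOn (k i) (C.K i))
    (a : Fin C.n → C(Y, ℂ)) :
    op C hk a = ∑ i, ∫ ζ in C.K i, a i ((chartAt ℂ (C.p i)).symm ζ) • k i ζ := rfl

theorem map_op {k : Fin C.n → ℂ → Fin C.n → C(Y, ℂ)} (hk : ∀ i, ContinuousOn (k i) (C.K i))
    (L : (Fin C.n → C(Y, ℂ)) →L[ℂ] ℂ) (a : Fin C.n → C(Y, ℂ)) :
    L (op C hk a) = ∑ i, ∫ ζ in C.K i, a i ((chartAt ℂ (C.p i)).symm ζ) * L (k i ζ) := by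
  rw [op_apply, map_sum]
  refine Finset.sum_congr rfl fun i _ => ?_
  rw [← L.integral_comp_comm (intOn C hk i a)]
  simp only [map_smul, smul_eq_mul]

theorem cont_of {k : Fin C.n → ℂ → Fin C.n → C(Y, ℂ)} (hk : ∀ i, ContinuousOn (k i) (C.K i))
    (Λ : (Fin C.n → C(Y, ℂ)) →ₗ[ℂ] ℂ) (h : ∀ a, Λ (a + op C hk a) = 0) : Continuous Λ :=
  fR _ C.n C.K k (fun i ζ => (ev C i ((chartAt ℂ (C.p i)).symm ζ)).toLinearMap)
    (fun i => ⟨K_compact C i, hk i, cont_ev C i, fun _ _ a =>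
      ((a i).norm_coe_le_norm _).trans (norm_le_pi_norm a i)⟩) Λ h

theorem factor {U B : Type} [AddCommGroup U] [Module ℂ U] [AddCommGroup B] [Module ℂ B]
    (d : U →ₗ[ℂ] B) (T : B →ₗ[ℂ] B) (l : U →ₗ[ℂ] ℂ) (h : ∀ u a, d u + (a + T a) = 0 → l u = 0) :
    ∃ Λ : B →ₗ[ℂ] ℂ, (∀ u, Λ (d u) = l u) ∧ ∀ a, Λ (a + T a) = 0 := by
  obtain ⟨Λ, hΛ⟩ : l ∘ₗ LinearMap.fst ℂ U B ∈
      LinearMap.range (d.coprod (LinearMap.id + T)).dualMap := by
    rw [LinearMap.range_dualMap_eq_dualAnnihilator_ker, Submodule.mem_dualAnnihilator]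
    exact fun w hw => h w.1 w.2 hw
  exact ⟨Λ, fun u => by simpa using LinearMap.congr_fun hΛ (u, 0),
    fun a => by simpa using LinearMap.congr_fun hΛ (0, a)⟩

end DolP

open DolP in
theorem dol (hC : S_Cover) (hP : S_Pol) (hA : S_KerA) (hB : S_KerB) : S_Dol := by
  intro Y _ _ _ l κ hl hκ
  obtain ⟨C⟩ := hC Y
  obtain ⟨hA1, -, hA3⟩ := hA Y C
  obtain ⟨hB1, hB2⟩ := hB Y C
  choose k hk1 hk2 using fun i => (hA3 i).2
  have hc : ∀ β, LEx β → ∀ j, Continuous (C.cf β j) := fun β h j => (hA1 β h j).1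
  have hk : ∀ i, ContinuousOn (fun ζ => (Real.pi : ℂ)⁻¹ • k i ζ) (C.K i) := fun i =>
    ((hk1 i).continuousOn.mono (K_sub_Ω C i)).const_smul (Real.pi : ℂ)⁻¹
  have hop : ∀ a j y, op C hk a j y
      = C.cf (C.err fun i ζ => a i ((chartAt ℂ (C.p i)).symm ζ)) j y := by
    intro a j y
    rw [← ev_apply, map_op, Cov.cf, Cov.err, Finset.mul_sum, Finset.sum_div]
    refine Finset.sum_congr rfl fun i _ => ?_
    rw [← integral_const_mul, ← integral_const_mul, ← integral_div]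
    refine setIntegral_congr_fun (K_compact C i).measurableSet fun ζ hζ => ?_
    simp only [map_smul, ev_apply, hk2 i ζ (K_sub_Ω C i hζ), Cov.cf, smul_eq_mul]
    ring
  obtain ⟨Λ, h1, h2⟩ := factor (dat C hc) (op C hk) (l ∘ₗ (LExS Y).subtype) fun β a h => by
    have hE := hB1 _ fun i => cont_ev C i a
    have h1 := hB2 _ ((LExS Y).sub_mem ((LExS Y).neg_mem β.2) hE)
    have h2 : ∀ i y, C.cf (-(β : Y → ℂ) - C.err fun i ζ => a i ((chartAt ℂ (C.p i)).symm ζ)) i y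
        = a i y := by
      intro i y
      have h3 : C.cf β i y + (a i y + op C hk a i y) = 0 := congrArg (fun b => b i y) h
      rw [hop] at h3
      simp only [Cov.cf, Pi.sub_apply, Pi.neg_apply] at h3 ⊢
      linear_combination -h3
    simp only [h2, sub_add_cancel] at h1
    have := hl _ h1
    rwa [map_neg, neg_eq_zero] at this
  replace h1 : ∀ β : LExS Y, Λ (dat C hc β) = l β := h1
  have hcont : Continuous Λ := cont_of C hk Λ h2
  have h3 : ∀ i, ∀ y ∈ (chartAt ℂ (C.p i)).source, zc (C.p i) y ∈ C.Ω i →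
      l (κ y) = D (zc (C.p i)) y * Λ (k i (zc (C.p i) y)) := by
    intro i y hy hz
    have a1 := (hA3 i).1 y hy hz
    have a2 := hl _ ((hP Y y).2.2 _ _ _ (an_zc hy) (D_zc_ne hy) (hκ y) a1)
    have a3 := h1 ⟨_, (hP Y y).2.1 _ _ (an_zc hy) (D_zc_ne hy) a1⟩
    rw [map_sub, map_smul, sub_eq_zero, smul_eq_mul] at a2
    rw [a2, ← a3]
    congr 2
    ext j y'
    exact (hk2 i _ hz j y').symm
  set L : (Fin C.n → C(Y, ℂ)) →L[ℂ] ℂ := ⟨Λ, hcont⟩ with hL
  refine ⟨fun p => ?_, fun h0 β hβ => ?_⟩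
  · obtain ⟨i, -, hi⟩ := Finset.exists_ne_zero_of_sum_ne_zero
      (ne_of_eq_of_ne (C.sum p) one_ne_zero)
    obtain ⟨hp, hz⟩ := C.supp i p hi
    have hz' : C.Ω i ∈ 𝓝 (zc (C.p i) p) :=
      isOpen_ball.mem_nhds (K_sub_Ω C i (ball_subset_closedBall hz))
    refine hf_of_div (an_zc hp) (D_zc_ne hp) (((an_zc hp).comp (g := fun ζ => L (k i ζ))
      ((L.differentiable.comp_differentiableOn (hk1 i)).analyticAt hz')).congr ?_)
    filter_upwards [source_mem hp, (continuousAt_zc hp).eventually hz'] with y hy hz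
    rw [h3 i y hy hz, mul_div_cancel_left₀ _ (D_zc_ne hy)]
    rfl
  · have h4 : ∀ a, L (op C hk a) = 0 := fun a => by
      rw [map_op]
      refine Finset.sum_eq_zero fun i _ => setIntegral_eq_zero_of_forall_eq_zero fun ζ hζ => ?_
      have hy := (chartAt ℂ (C.p i)).map_target (K_sub C i hζ)
      have h5 := h3 i _ hy (by rw [zc_symm (K_sub C i hζ)]; exact K_sub_Ω C i hζ)
      rw [h0, zc_symm (K_sub C i hζ)] at h5
      have h6 : L (k i ζ) = 0 := (mul_eq_zero.1 h5.symm).resolve_left (D_zc_ne hy)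
      rw [map_smul, h6, smul_zero, mul_zero]
    have h7 := h2 (dat C hc ⟨β, hβ⟩)
    rwa [map_add, h1, show Λ (op C hk _) = 0 from h4 _, add_zero] at h7

end Pool.Agent.P.MP_5d7cf0_gt.T
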