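import Pool.Agent.P.MP_5d7cf0_gt.T.RS

/-!
Package Fam: the deformations of a datum are the fibres of a holomorphic family.
-/

open Set Filter Topology Manifold Metric
open scoped ContDiff

noncomputable section

namespace Pool.Agent.P.MP_5d7cf0_gt.T

namespace FamP

theorem trans_diff {A B : Type} [TopologicalSpace A] [NormedAddCommGroup B] [NormedSpace ℂ B]
    (Φ Ψ : OpenPartialHomeomorph A B)
    (H : ∀ p ∈ Φ.source, p ∈ Ψ.source →
      ∃ G : B → B, DifferentiableAt ℂ G (Φ p) ∧ ∀ p' ∈ Φ.source, p' ∈ Ψ.source → Ψ p' = G (Φ p')) :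
    DifferentiableOn ℂ (Φ.symm ≫ₕ Ψ) (Φ.symm ≫ₕ Ψ).source := by
  intro w hw
  obtain ⟨G, h1, h2⟩ := H _ (Φ.map_target hw.1) hw.2
  rw [Φ.right_inv hw.1] at h1
  refine h1.differentiableWithinAt.congr (fun w' hw' => ?_) ?_
  · exact (h2 _ (Φ.map_target hw'.1) hw'.2).trans (congrArg G (Φ.right_inv hw'.1))
  · exact (h2 _ (Φ.map_target hw.1) hw.2).trans (congrArg G (Φ.right_inv hw.1))

/-- the motion as a partial homeomorphism over the ball -/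
def mot {R : E → ℝ} {h k : E → E → ℂ → ℂ} (hM : Mot R h k) {x : E} (hx : x ∈ X) :
    OpenPartialHomeomorph (E × ℂ) (E × ℂ) where
  toFun := fun q => (q.1, h x q.1 q.2)
  invFun := fun q => (q.1, k x q.1 q.2)
  source := ball x (R x) ×ˢ univ
  target := ball x (R x) ×ˢ univ
  map_source' := fun _ hq => ⟨hq.1, mem_univ _⟩
  map_target' := fun _ hq => ⟨hq.1, mem_univ _⟩
  left_inv' := fun q hq => Prod.ext rfl (hM.inv x hx q.1 hq.1 q.2).1
  right_inv' := fun q hq => Prod.ext rfl (hM.inv x hx q.1 hq.1 q.2).2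
  open_source := isOpen_ball.prod isOpen_univ
  open_target := isOpen_ball.prod isOpen_univ
  continuousOn_toFun := (continuous_fst.prodMk (hM.cont x hx)).continuousOn
  continuousOn_invFun := continuousOn_fst.prodMk (hM.contk x hx)

variable {S : Type} [TopologicalSpace S] [ChartedSpace ℂ S]

/-- charts away from the ramification points -/
def C1 (h : E → E → ℂ → ℂ) (τ : Datum S) (Φ : OpenPartialHomeomorph (E × S) (E × ℂ)) : Prop :=
  (∀ p, Φ p = (p.1, h τ.x p.1 (τ.F p.2))) ∧ ∃ e : OpenPartialHomeomorph τ.M.Y ℂ, ⇑e = τ.f ∧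
    ∀ p ∈ Φ.source, τ.M.f p.2 ∈ e.source ∧ τ.M.f p.2 ∉ range τ.r ∧
      ∀ u, An u (τ.M.f p.2) → AnalyticAt ℂ (u ∘ e.symm) (τ.F p.2)

/-- charts in which the motion is a translation -/
def C2 (h : E → E → ℂ → ℂ) (τ : Datum S) (Φ : OpenPartialHomeomorph (E × S) (E × ℂ)) : Prop :=
  ∃ (q : τ.M.Y) (c : E → ℂ), Differentiable ℂ c ∧ (∀ p, Φ p = (p.1, zc q (τ.M.f p.2))) ∧
    ∀ p ∈ Φ.source, τ.M.f p.2 ∈ (chartAt ℂ q).source ∧
      (τ.M.f p.2 ∉ range τ.r → h τ.x p.1 (τ.F p.2) = τ.F p.2 + c p.1)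

variable {h : E → E → ℂ → ℂ} {τ τ' : Datum S} {Φ Ψ : OpenPartialHomeomorph (E × S) (E × ℂ)}
  {a : E}

theorem an_f {y : τ.M.Y} (hy : y ∉ range τ.r) : An τ.f y := τ.dbl.an fun e => hy ⟨5, e.symm⟩

theorem t11 (h1 : C1 h τ Φ) (h2 : C1 h τ Ψ) :
    DifferentiableOn ℂ (Φ.symm ≫ₕ Ψ) (Φ.symm ≫ₕ Ψ).source :=
  trans_diff Φ Ψ fun _ _ _ => ⟨id, differentiableAt_id, fun p' _ _ => by rw [h1.1, h2.1]; rfl⟩

theorem t21 (h1 : C2 h τ Φ) (h2 : C1 h τ Ψ) :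
    DifferentiableOn ℂ (Φ.symm ≫ₕ Ψ) (Φ.symm ≫ₕ Ψ).source := by
  obtain ⟨q, c, hc, h3, h4⟩ := h1
  obtain ⟨h5, e, -, h6⟩ := h2
  refine trans_diff Φ Ψ fun p hp hp' => ⟨fun w => (w.1, loc τ.f q w.2 + c w.1), ?_,
    fun p' h7 h8 => ?_⟩
  · rw [h3]
    exact differentiableAt_fst.prodMk
      ((DifferentiableAt.comp (g := loc τ.f q) (f := Prod.snd) (p.1, zc q (τ.M.f p.2))
        ((an_f (h6 p hp').2.1).loc (h4 p hp).1).differentiableAt differentiableAt_snd).add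
          ((hc _).comp _ differentiableAt_fst))
  · rw [h3, h5, (h4 p' h7).2 (h6 p' h8).2.1]
    simp only [loc_zc (h4 p' h7).1]
    rfl

theorem t12 (h1 : C1 h τ Φ) (h2 : C2 h τ Ψ) :
    DifferentiableOn ℂ (Φ.symm ≫ₕ Ψ) (Φ.symm ≫ₕ Ψ).source := by
  obtain ⟨q, c, hc, h3, h4⟩ := h2
  obtain ⟨h5, e, he, h6⟩ := h1
  refine trans_diff Φ Ψ fun p hp hp' => ⟨fun w => (w.1, (zc q ∘ e.symm) (w.2 - c w.1)), ?_,
    fun p' h7 h8 => ?_⟩
  · rw [h5, (h4 p hp').2 (h6 p hp).2.1]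
    refine differentiableAt_fst.prodMk (DifferentiableAt.comp (g := zc q ∘ e.symm)
      (f := fun w : E × ℂ => w.2 - c w.1) _ ?_
      (differentiableAt_snd.sub ((hc _).comp _ differentiableAt_fst)))
    simp only [add_sub_cancel_right]
    exact ((h6 p hp).2.2 _ (an_zc (h4 p hp').1)).differentiableAt
  · rw [h3, h5, (h4 p' h8).2 (h6 p' h7).2.1]
    simp only [add_sub_cancel_right, Function.comp, Datum.F, ← he, e.left_inv (h6 p' h7).1]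

theorem t22 (h1 : C2 h τ Φ) (h2 : C2 h τ Ψ) :
    DifferentiableOn ℂ (Φ.symm ≫ₕ Ψ) (Φ.symm ≫ₕ Ψ).source := by
  obtain ⟨q, c, -, h3, h4⟩ := h1
  obtain ⟨q', c', -, h5, h6⟩ := h2
  refine trans_diff Φ Ψ fun p hp hp' => ⟨fun w => (w.1, loc (zc q') q w.2), ?_,
    fun p' h7 _ => ?_⟩
  · rw [h3]
    exact differentiableAt_fst.prodMk
      (DifferentiableAt.comp (g := loc (zc q') q) (f := Prod.snd) (p.1, zc q (τ.M.f p.2))
        ((an_zc (h6 p hp').1).loc (h4 p hp).1).differentiableAt differentiableAt_snd)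
  · rw [h3, h5]
    simp only [loc_zc (h4 p' h7).1]

theorem mem_range (hd : IsDefo h τ a τ') (s : S) :
    τ'.M.f s ∈ range τ'.r ↔ τ.M.f s ∈ range τ.r := by
  refine exists_congr fun i => ?_
  have := congrFun hd.2.1 i
  rw [← Homeomorph.symm_apply_eq, ← Homeomorph.symm_apply_eq]
  exact Iff.of_eq (congrArg (· = s) this)

theorem f1 (h1 : C1 h τ Φ) (hd : IsDefo h τ a τ') {s : S} (hs : (a, s) ∈ Φ.source) :
    MDifferentiableAt 𝓘(ℂ) 𝓘(ℂ) (fun y => (Φ (a, τ'.M.f.symm y)).2) (τ'.M.f s) := by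
  obtain ⟨h2, e, -, h3⟩ := h1
  have : (fun y => (Φ (a, τ'.M.f.symm y)).2) = τ'.f := funext fun y => by
    rw [h2, ← hd.2.2, Datum.F, Homeomorph.apply_symm_apply]
  rw [this]
  exact (an_f fun h4 => (h3 _ hs).2.1 ((mem_range hd s).mp h4)).mdiffAt

theorem f2 [RS S] (h1 : C2 h τ Φ) (hd : IsDefo h τ a τ') {s : S} (hs : (a, s) ∈ Φ.source) :
    MDifferentiableAt 𝓘(ℂ) 𝓘(ℂ) (fun y => (Φ (a, τ'.M.f.symm y)).2) (τ'.M.f s) := by
  obtain ⟨q, c, -, h2, h3⟩ := h1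
  have hc : Continuous fun y => τ.M.f (τ'.M.f.symm y) := by fun_prop
  have ho : IsOpen {y | (a, τ'.M.f.symm y) ∈ Φ.source} :=
    Φ.open_source.preimage (by fun_prop)
  have hr : ∀ y, y ∉ range τ'.r → τ.M.f (τ'.M.f.symm y) ∉ range τ.r := fun y hy h4 =>
    hy (by simpa using (mem_range hd _).mpr h4)
  have key : ∀ y, (a, τ'.M.f.symm y) ∈ Φ.source → y ∉ range τ'.r →
      Hol (fun y => τ.M.f (τ'.M.f.symm y)) y := fun y h4 h5 => by
    refine hol_of_local hc.continuousAt (an_f (hr y h5)) (τ.dbl.D_ne (hr y h5))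
      (((an_f h5).sub (an_const (c a))).congr ?_)
    filter_upwards [ho.mem_nhds h4, eventually_notMem' (finite_range τ'.r) h5] with y' h6 h7
    have h8 := hd.2.2 (τ'.M.f.symm y')
    rw [(h3 _ h6).2 (hr y' h7), Datum.F, Homeomorph.apply_symm_apply] at h8
    rw [h8, add_sub_cancel_right]
    rfl
  have hs' : (a, τ'.M.f.symm (τ'.M.f s)) ∈ Φ.source := by rwa [Homeomorph.symm_apply_apply]
  have hol : Hol (fun y => τ.M.f (τ'.M.f.symm y)) (τ'.M.f s) := by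
    refine hol_of_punctured hc.continuousAt ?_
    filter_upwards [mem_nhdsWithin_of_mem_nhds (ho.mem_nhds hs'),
      eventually_notMem (finite_range τ'.r) _] with y h4 h5 using key y h4 h5
  simp only [h2]
  exact (hol.an_comp (an_zc (h3 _ hs').1)).mdiffAt

variable [RS S] {R : E → ℝ} {k : E → E → ℂ → ℂ}

theorem ex1 (hM : Mot R h k) (ha : a ∈ ball τ.x (R τ.x)) {s : S} (hs : τ.M.f s ∉ range τ.r) :
    ∃ Φ, C1 h τ Φ ∧ (a, s) ∈ Φ.source := by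
  obtain ⟨e, h1, h2, h3⟩ := (an_f hs).exists_homeo (τ.dbl.D_ne hs)
  have ho : IsOpen (range τ.r)ᶜ := (finite_range τ.r).isClosed.isOpen_compl
  refine ⟨((OpenPartialHomeomorph.refl E).prod
    (τ.M.f.toOpenPartialHomeomorph ≫ₕ e.restrOpen _ ho)) ≫ₕ mot hM τ.dbl.1,
    ⟨fun p => ?_, e, h2, fun p hp => ?_⟩, ⟨mem_univ _, mem_univ _, h1, hs⟩, ha, mem_univ _⟩
  · exact congrArg (fun z => (p.1, h τ.x p.1 z)) (congrFun h2 (τ.M.f p.2))
  · exact ⟨hp.1.2.2.1, hp.1.2.2.2, (h3 _ hp.1.2.2.1).2.2⟩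

theorem diff_pt (i : Fin 6) : Differentiable ℂ fun a : E => (pt a i).1 := by
  fin_cases i <;> simp only [pt] <;> simp <;> fun_prop

omit [RS S] in
theorem near (hM : Mot R h k) (i : Fin 6) : ∃ c : E → ℂ, Differentiable ℂ c ∧
    ∀ᶠ y in 𝓝 (τ.r i), y ∉ range τ.r → ∀ a, h τ.x a (τ.f y) = τ.f y + c a := by
  by_cases hi : i = 5
  · obtain ⟨C, hC⟩ := hM.far _ τ.dbl.1
    refine ⟨0, differentiable_const _, ?_⟩
    have h1 : ∀ᶠ y in 𝓝[≠] (τ.r 5), C ≤ ‖τ.f y‖ :=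
      τ.dbl.pole.eventually (eventually_cobounded_le_norm C)
    rw [hi]
    filter_upwards [eventually_nhdsWithin_iff.mp h1] with y h2 h3 a
    rw [hC a _ (h2 fun h4 => h3 ⟨5, (mem_singleton_iff.mp h4).symm⟩), Pi.zero_apply, add_zero]
  · refine ⟨fun a => (pt a i).1 - (pt τ.x i).1, (diff_pt i).sub_const _, ?_⟩
    have h1 := hM.near _ τ.dbl.1 i hi
    rw [← τ.dbl.f_r hi] at h1 ⊢
    filter_upwards [(τ.dbl.an (τ.dbl.ne_five hi)).continuousAt.eventually h1] with y h2 _ using h2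

omit [RS S] in
theorem ex2 (hM : Mot R h k) (a : E) {s : S} (hs : τ.M.f s ∈ range τ.r) :
    ∃ Φ, C2 h τ Φ ∧ (a, s) ∈ Φ.source := by
  obtain ⟨i, hi⟩ := hs
  obtain ⟨c, hc, h1⟩ := near (τ := τ) hM i
  obtain ⟨N, h2, h3, h4⟩ := eventually_nhds_iff.mp h1
  rw [hi] at h4
  exact ⟨(OpenPartialHomeomorph.refl E).prod
    (τ.M.f.toOpenPartialHomeomorph ≫ₕ (chartAt ℂ (τ.M.f s)).restrOpen N h3),
    ⟨τ.M.f s, c, hc, fun _ => rfl, fun p hp => ⟨hp.2.2.1, fun h5 => h2 _ hp.2.2.2 h5 p.1⟩⟩,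
    mem_univ _, mem_univ _, mem_chart_source _ _, h4⟩

end FamP

open FamP in
theorem fam : S_Fam := by
  intro S _ _ _ R h k hM τ V d hV hd
  refine ⟨{Φ | C1 h τ Φ ∨ C2 h τ Φ}, fun a ha s => ?_, ?_, ?_, ?_⟩
  · by_cases hs : τ.M.f s ∈ range τ.r
    · obtain ⟨Φ, h1, h2⟩ := ex2 hM a hs
      exact ⟨Φ, Or.inr h1, h2⟩
    · obtain ⟨Φ, h1, h2⟩ := ex1 hM (hV ha) hs
      exact ⟨Φ, Or.inl h1, h2⟩
  · rintro Φ (h1 | ⟨q, c, -, h1, -⟩) p -
    · rw [h1.1]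
    · rw [h1]
  · rintro Φ (h1 | h1) Ψ (h2 | h2)
    exacts [t11 h1 h2, t12 h1 h2, t21 h1 h2, t22 h1 h2]
  · rintro Φ (h1 | h1) a ha s hs
    exacts [f1 h1 (hd a ha) hs, f2 h1 (hd a ha) hs]

end Pool.Agent.P.MP_5d7cf0_gt.T
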