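import Pool.Agent.P.MP_5d7cf0_gt.T.RS
import Pool.Agent.P.MP_5d7cf0_gt.T.TopA

/-!
Package Gen: the dimension of the space of holomorphic forms, and the Mittag-Leffler problem.
-/

open Set Filter Topology MeasureTheory Manifold Metric ComplexConjugate
open scoped ContDiff

noncomputable section

namespace Pool.Agent.P.MP_5d7cf0_gt.T

namespace GenP

/-- the conjugate class -/
def cj {Y : Type} [TopologicalSpace Y] {y : Y} (χ : H1 Y y) : H1 Y y :=
  (starRingEnd ℂ).toAddMonoidHom.comp χ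

theorem ev_cj {Y : Type} [TopologicalSpace Y] {y : Y} (χ : H1 Y y) (p : Path y y) :
    ev (cj χ) p = conj (ev χ p) := rfl

theorem cj_sum {Y : Type} [TopologicalSpace Y] {y : Y} {n : ℕ} (b : Fin n → ℂ)
    (χ : Fin n → H1 Y y) : ∑ i, b i • cj (χ i) = cj (∑ i, conj (b i) • χ i) := by
  ext g
  simp [cj]

variable {Y : Type} [TopologicalSpace Y] [ChartedSpace ℂ Y] [RS Y]

theorem key (hR : S_RepEx) (h1 : S_P1) {y : Y} (per : Om Y →ₗ[ℂ] H1 Y y)
    (hper : ∀ (w : Om Y) c, Rep c w → ∀ p : Path y y, ev (per w) p = c y y p) (w η : Om Y)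
    (h : per w + cj (per η) = 0) : w = 0 ∧ η = 0 := by
  obtain ⟨c, hc⟩ := hR Y w w.2
  obtain ⟨c', hc'⟩ := hR Y η η.2
  have := h1 Y y c c' w η hc hc' fun p => by
    rw [← hper w c hc p, ← hper η c' hc' p, ← ev_cj]
    have e : ev (per w + cj (per η)) p = ev (per w) p + ev (cj (per η)) p := rfl
    rw [← e, h]
    rfl
  exact ⟨Subtype.ext this.1, Subtype.ext this.2⟩

theorem upper {y : Y} [Module.Finite ℂ (H1 Y y)] [Module.Finite ℂ (Om Y)]
    (per : Om Y →ₗ[ℂ] H1 Y y) (h : ∀ w η : Om Y, per w + cj (per η) = 0 → w = 0 ∧ η = 0) :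
    Module.finrank ℂ (Om Y) + Module.finrank ℂ (Om Y) ≤ Module.finrank ℂ (H1 Y y) := by
  let b := Module.finBasis ℂ (Om Y)
  let Φ : (Om Y × (Fin (Module.finrank ℂ (Om Y)) → ℂ)) →ₗ[ℂ] H1 Y y :=
    per.coprod (Fintype.linearCombination ℂ fun i => cj (per (b i)))
  have hinj : Function.Injective Φ := by
    rw [injective_iff_map_eq_zero]
    rintro ⟨w, t⟩ h0
    have e : Φ (w, t) = per w + cj (per (∑ i, conj (t i) • b i)) := by
      simp only [Φ, LinearMap.coprod_apply, Fintype.linearCombination_apply, cj_sum, map_sum,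
        map_smul]
    obtain ⟨h2, h3⟩ := h w _ (e ▸ h0)
    have h4 := Fintype.linearIndependent_iff.1 b.linearIndependent (fun i => conj (t i)) h3
    refine Prod.ext h2 (funext fun i => ?_)
    simpa using h4 i
  have := LinearMap.finrank_le_finrank_of_injective hinj
  rwa [Module.finrank_prod, Module.finrank_fin_fun] at this

theorem kap_zero {p : Y} {β u : Y → ℂ} (h1 : ∀ y, y ≠ p → Sm u y ∧ Db u y = β y) (h2 : β p = 0)
    (h3 : ∀ᶠ y in 𝓝 p, u y = (zc p y - zc p p)⁻¹) : ∀ᶠ y in 𝓝 p, β y = 0 := by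
  filter_upwards [h3.eventually_nhds, source_mem (mem_chart_source ℂ p)] with y hy hs
  by_cases e : y = p
  · rw [e, h2]
  · rw [← (h1 y e).2]
    have hne : zc p y - zc p p ≠ 0 := sub_ne_zero.2 fun h =>
      e ((chartAt ℂ p).injOn hs (mem_chart_source ℂ p) h)
    exact ((((an_zc hs).sub (an_const _)).inv hne).congr (EventuallyEq.symm hy)).Db_zero

end GenP

theorem gen (hD : S_Dol) (hP : S_Pol) (hR : S_RepEx) (hPer : S_Per) (h1 : S_P1) (h2 : S_P2) :
    S_Gen := by
  intro Y _ _ _ y h4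
  haveI : Module.Finite ℂ (H1 Y y) := Module.finite_of_finrank_pos (by omega)
  obtain ⟨per, hper⟩ := hPer Y y
  have hk := GenP.key hR h1 per hper
  have hinj : Function.Injective per := by
    rw [injective_iff_map_eq_zero]
    intro w hw
    refine (hk w 0 ?_).1
    rw [hw, map_zero, zero_add]
    ext g
    simp [GenP.cj]
  haveI : Module.Finite ℂ (Om Y) := Module.Finite.of_injective per hinj
  have hup := GenP.upper per hk
  choose κ hκ using fun p : Y => (hP Y p).1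
  obtain ⟨Θ, hΘ⟩ := h2 Y y
  let f : H1 Y y →ₗ[ℂ] ((Y → ℂ) ⧸ ExS Y) := (ExS Y).mkQ ∘ₗ Θ
  have hker : LinearMap.ker f ≤ LinearMap.range per := fun χ hχ => by
    have h5 : Θ χ ∈ ExS Y := (Submodule.Quotient.mk_eq_zero _).1 hχ
    obtain ⟨w, hw, c, hc, he⟩ := (hΘ χ).2 h5
    exact ⟨⟨w, hw⟩, (ext Y y).2.2.1 _ _ fun p => by rw [hper ⟨w, hw⟩ c hc p, he p]⟩
  have hker' : Module.finrank ℂ (LinearMap.ker f) ≤ Module.finrank ℂ (Om Y) :=
    (Submodule.finrank_mono hker).trans (LinearMap.finrank_range_le per)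
  have hz : ∀ l : Module.Dual ℂ ((Y → ℂ) ⧸ ExS Y), ∀ β, Ex β → (l ∘ₗ (ExS Y).mkQ) β = 0 :=
    fun l β hβ => by
      have : (ExS Y).mkQ β = 0 := (Submodule.Quotient.mk_eq_zero _).2 hβ
      rw [LinearMap.comp_apply, this, map_zero]
  let T : Module.Dual ℂ ((Y → ℂ) ⧸ ExS Y) →ₗ[ℂ] Om Y :=
    { toFun := fun l => ⟨fun p => l ((ExS Y).mkQ (κ p)), (hD Y _ κ (hz l) hκ).1⟩
      map_add' := fun _ _ => rfl
      map_smul' := fun _ _ => rfl }
  obtain ⟨s, hs⟩ := f.dualMap.rangeRestrict.exists_rightInverse_of_surjective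
    (LinearMap.range_rangeRestrict _)
  have hTs : Function.Injective (T ∘ₗ s) := by
    rw [injective_iff_map_eq_zero]
    intro φ hφ
    have h5 : ∀ p, (s φ ∘ₗ (ExS Y).mkQ) (κ p) = 0 := fun p =>
      congrFun (congrArg Subtype.val hφ) p
    have h6 : f.dualMap (s φ) = 0 := LinearMap.ext fun χ =>
      (hD Y _ κ (hz (s φ)) hκ).2 h5 _ (hΘ χ).1
    have h7 := LinearMap.congr_fun hs φ
    rw [LinearMap.id_apply] at h7
    rw [← h7]
    exact Subtype.ext h6
  have h8 := LinearMap.finrank_le_finrank_of_injective hTs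
  rw [LinearMap.finrank_range_dualMap_eq_finrank_range] at h8
  have h9 := LinearMap.finrank_range_add_finrank_ker f
  omega

theorem mL (hD : S_Dol) (hP : S_Pol) : S_ML := by
  classical
  intro Y _ _ _ s a ha
  choose κ hκ using fun p : Y => (hP Y p).1
  have hβ : (∑ p ∈ s, a p • κ p) ∈ ExS Y := by
    by_contra hn
    obtain ⟨l, hl, hl0⟩ := Submodule.exists_dual_map_eq_bot_of_notMem hn inferInstance
    have hz : ∀ β, Ex β → l β = 0 := fun β hβ => by
      have : l β ∈ (ExS Y).map l := Submodule.mem_map_of_mem hβ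
      rwa [hl0, Submodule.mem_bot] at this
    apply hl
    rw [map_sum]
    simpa using ha _ (hD Y l κ hz hκ).1
  obtain ⟨v, hv⟩ := hβ
  choose u hu1 hu2 hu3 using hκ
  have main : ∀ (t : Finset Y) (y : Y), y ∉ t →
      Sm (fun z => ∑ q ∈ t, a q * u q z - v z) y ∧
      Db (fun z => ∑ q ∈ t, a q * u q z - v z) y =
        ∑ q ∈ t, a q * κ q y - ∑ q ∈ s, a q * κ q y := fun t y hy => by
    have h1 : ∀ q ∈ t, y ≠ q := fun q hq e => hy (e ▸ hq)
    have h2 : ∀ q ∈ t, Sm (fun z => a q * u q z) y := fun q hq =>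
      (sm_const _).mul (hu1 q y (h1 q hq)).1
    refine ⟨(sm_sum h2).sub (hv y).1, ?_⟩
    rw [Db_sub (sm_sum h2) (hv y).1, Db_sum h2, (hv y).2, Finset.sum_apply]
    congr 1
    exact Finset.sum_congr rfl fun q hq => by
      rw [Db_const_mul _ (hu1 q y (h1 q hq)).1, (hu1 q y (h1 q hq)).2]
  refine ⟨fun z => ∑ q ∈ s, a q * u q z - v z, fun y hy => an_of_Db ?_, fun p hp =>
    ⟨fun z => ∑ q ∈ s.erase p, a q * u q z - v z, an_of_Db ?_, ?_⟩⟩
  · filter_upwards [eventually_notMem' s.finite_toSet hy] with z hz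
    exact ⟨(main s z hz).1, by rw [(main s z hz).2, sub_self]⟩
  · filter_upwards [eventually_notMem' (s.erase p).finite_toSet (Finset.notMem_erase p s),
      GenP.kap_zero (hu1 p) (hu2 p) (hu3 p)] with z hz h0
    refine ⟨(main _ z hz).1, ?_⟩
    rw [(main _ z hz).2, ← Finset.add_sum_erase s _ hp, h0]
    ring
  · filter_upwards [mem_nhdsWithin_of_mem_nhds (hu3 p)] with z hz
    rw [← Finset.add_sum_erase s _ hp, hz, div_eq_mul_inv]
    ring

end Pool.Agent.P.MP_5d7cf0_gt.T
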