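import Pool.Agent.P.MP_5d7cf0_gt.T.St2
import Pool.Agent.P.MP_5d7cf0_gt.T.TopA

/-!
Package Gen2: the first Betti number is twice the number of holomorphic forms.
-/

open Set Filter Topology Manifold Module ComplexConjugate
open scoped ContDiff

namespace Pool.Agent.P.MP_5d7cf0_gt.T

namespace Gen2P

theorem upper {V Q O : Type} [AddCommGroup V] [Module ℂ V] [AddCommGroup Q] [Module ℂ Q]
    [AddCommGroup O] [Module ℂ O] [FiniteDimensional ℂ O] (Θ : V →ₗ[ℂ] Q) (Ψ : Dual ℂ Q →ₗ[ℂ] O)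
    (per : O →ₗ[ℂ] V) (h1 : ∀ l, Ψ l = 0 → ∀ v, l (Θ v) = 0)
    (h2 : ∀ v, Θ v = 0 → v ∈ LinearMap.range per) :
    FiniteDimensional ℂ V ∧ finrank ℂ V ≤ 2 * finrank ℂ O := by
  have hk : LinearMap.ker Ψ ≤ LinearMap.ker (LinearMap.range Θ).subtype.dualMap := fun l hl => by
    ext ⟨_, v, rfl⟩
    exact h1 l hl v
  have hs : Function.Surjective
      ((LinearMap.ker Ψ).liftQ _ hk ∘ₗ Ψ.quotKerEquivRange.symm.toLinearMap) := fun m => by
    obtain ⟨l, rfl⟩ := LinearMap.dualMap_surjective_of_injective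
      (LinearMap.range Θ).injective_subtype m
    exact ⟨Ψ.quotKerEquivRange (Submodule.Quotient.mk l), by simp⟩
  have f1 : Module.Finite ℂ (Dual ℂ (LinearMap.range Θ)) := Module.Finite.of_surjective _ hs
  have f2 : Module.Finite ℂ (LinearMap.range Θ) := (Module.finite_dual_iff ℂ).mp f1
  have r1 : finrank ℂ (LinearMap.range Θ) ≤ finrank ℂ O := by
    rw [← Subspace.dual_finrank_eq]
    exact (LinearMap.finrank_le_finrank_of_surjective hs).trans (Submodule.finrank_le _)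
  have hle : LinearMap.ker Θ ≤ LinearMap.range per := h2
  have f3 : Module.Finite ℂ (LinearMap.ker Θ) := Submodule.finiteDimensional_of_le hle
  have f4 : Module.Finite ℂ (V ⧸ LinearMap.ker Θ) := Module.Finite.equiv Θ.quotKerEquivRange.symm
  have f5 : Module.Finite ℂ V := Module.Finite.of_submodule_quotient (LinearMap.ker Θ)
  refine ⟨f5, ?_⟩
  have r2 := (Submodule.finrank_mono hle).trans per.finrank_range_le
  have r3 := Θ.finrank_range_add_finrank_ker
  omega

variable {Y : Type} [TopologicalSpace Y] {y : Y}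

/-- the complex conjugate of a class -/
noncomputable def cj (χ : H1 Y y) : H1 Y y := (starRingEnd ℂ).toAddMonoidHom.comp χ

/-- evaluation on a loop -/
noncomputable def evL (p : Path y y) : H1 Y y →ₗ[ℂ] ℂ where
  toFun χ := ev χ p
  map_add' _ _ := rfl
  map_smul' _ _ := rfl

theorem lower {O : Type} [AddCommGroup O] [Module ℂ O] [FiniteDimensional ℂ O]
    [FiniteDimensional ℂ (H1 Y y)] (per : O →ₗ[ℂ] H1 Y y)
    (h : ∀ w w', (∀ p, ev (per w) p + conj (ev (per w') p) = 0) → w = 0 ∧ w' = 0) :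
    2 * finrank ℂ O ≤ finrank ℂ (H1 Y y) := by
  let b := Module.finBasis ℂ O
  have hli : LinearIndependent ℂ (Sum.elim (fun i => per (b i)) fun i => cj (per (b i))) := by
    refine Fintype.linearIndependent_iff.mpr fun a ha => ?_
    obtain ⟨h1, h2⟩ := h (∑ i, a (.inl i) • b i) (∑ i, conj (a (.inr i)) • b i) fun p => by
      have e := congrArg (evL p) ha
      rw [Fintype.sum_sum_type, map_add, map_sum, map_sum, map_zero] at e
      change evL p _ + conj (evL p _) = 0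
      simp only [map_sum, map_smul, smul_eq_mul, map_mul, Complex.conj_conj]
      simp only [map_smul, smul_eq_mul] at e
      exact e
    rintro (i | i)
    · exact Fintype.linearIndependent_iff.mp b.linearIndependent _ h1 i
    · exact (map_eq_zero _).mp (Fintype.linearIndependent_iff.mp b.linearIndependent _ h2 i)
  simpa [two_mul] using hli.fintype_card_le_finrank

end Gen2P

open Gen2P in
theorem gen2 (hD : S_Dol) (hPol : S_Pol) (hR : S_RepEx) (hPer : S_Per) (hP1 : S_P1)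
    (hP2 : S_P2) : S_Gen2 := by
  intro Y _ _ _ y hfin
  choose κ hκ using fun p => (hPol Y p).1
  obtain ⟨per, hper⟩ := hPer Y y
  obtain ⟨Θ, hΘ⟩ := hP2 Y y
  have hl : ∀ (l : Dual ℂ ((Y → ℂ) ⧸ ExS Y)) β, Ex β → (l ∘ₗ (ExS Y).mkQ) β = 0 := fun l β h => by
    rw [LinearMap.comp_apply, Submodule.mkQ_apply, (Submodule.Quotient.mk_eq_zero _).mpr h,
      map_zero]
  let Ψ : Dual ℂ ((Y → ℂ) ⧸ ExS Y) →ₗ[ℂ] Om Y :=
    { toFun := fun l => ⟨_, (hD Y _ κ (hl l) hκ).1⟩
      map_add' := fun _ _ => rfl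
      map_smul' := fun _ _ => rfl }
  obtain ⟨f1, u1⟩ := upper ((ExS Y).mkQ ∘ₗ Θ) Ψ per
    (fun l h χ => (hD Y _ κ (hl l) hκ).2 (congrFun (congrArg Subtype.val h)) _ (hΘ χ).1)
    fun χ h => by
      obtain ⟨w, hw, c, hc, e⟩ := (hΘ χ).2 ((Submodule.Quotient.mk_eq_zero _).mp h)
      exact ⟨⟨w, hw⟩, (ext Y y).2.2.1 _ _ fun p => (hper ⟨w, hw⟩ c hc p).trans (e p).symm⟩
  refine le_antisymm u1 (lower per fun w w' h => ?_)
  obtain ⟨c, hc⟩ := hR Y w w.2
  obtain ⟨c', hc'⟩ := hR Y w' w'.2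
  obtain ⟨h1, h2⟩ := hP1 Y y c c' w w' hc hc' fun p => by
    rw [← hper w c hc p, ← hper w' c' hc' p, h p]
  exact ⟨Subtype.ext h1, Subtype.ext h2⟩

end Pool.Agent.P.MP_5d7cf0_gt.T
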