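import Pool.Agent.P.MP_5d7cf0_gt.T.Def
import Pool.Agent.P.MP_5d7cf0_gt.St

/-!
Statements of the packages.
-/

open Set Filter Topology MeasureTheory Manifold Metric ComplexConjugate
open scoped ContDiff ENNReal

namespace Pool.Agent.P.MP_5d7cf0_gt.T

/-! ### Package Fred -/

def S_FR : Prop :=
  ∀ (B : Type) [NormedAddCommGroup B] [NormedSpace ℂ B] [CompleteSpace B] (n : ℕ)
    (K : Fin n → Set ℂ) (k : Fin n → ℂ → B) (e : Fin n → ℂ → B →ₗ[ℂ] ℂ),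
    (∀ i, IsCompact (K i) ∧ ContinuousOn (k i) (K i) ∧ (∀ a, ContinuousOn (fun ζ => e i ζ a) (K i)) ∧
      ∀ ζ ∈ K i, ∀ a, ‖e i ζ a‖ ≤ ‖a‖) →
    ∀ Λ : B →ₗ[ℂ] ℂ, (∀ a, Λ (a + ∑ i, ∫ ζ in K i, e i ζ a • k i ζ) = 0) → Continuous Λ

def S_HB : Prop :=
  ∀ (Y : Type) [TopologicalSpace Y] [CompactSpace Y] (z c : Y → ℂ) (L : Set Y) (Ω : Set ℂ),
    IsOpen Ω → IsClosed L → Continuous c → (∀ y, y ∉ L → c y = 0) → ContinuousOn z L →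
    (∀ y ∈ L, z y ∉ Ω) →
    ∃ k : ℂ → C(Y, ℂ), DifferentiableOn ℂ k Ω ∧ ∀ ζ ∈ Ω, ∀ y, k ζ y = c y / (z y - ζ)

/-! ### Package CT -/

def S_CT : Prop :=
  (∀ a : ℂ → ℂ, ContDiff ℝ ∞ a → HasCompactSupport a →
    ContDiff ℝ ∞ (ct a) ∧ ∀ z, dbar (ct a) z = a z) ∧
  ∀ (K : Set ℂ) (a : ℂ → ℂ), IsCompact K → ContinuousOn a K → ∀ z, z ∉ K →
    AnalyticAt ℂ (fun w => ∫ ζ in K, a ζ / (w - ζ)) z

def S_Poly : Prop :=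
  ∀ (G : ℂ → ℂ) (n : ℕ) (C : ℝ), Differentiable ℂ G →
    (∀ᶠ z in Bornology.cobounded ℂ, ‖G z‖ ≤ C * ‖z‖ ^ n) →
    ∃ Q : Polynomial ℂ, Q.natDegree ≤ n ∧ ∀ z, G z = Q.eval z

/-! ### Package TopA -/

def S_Loc : Prop :=
  ∀ (Y : Type) [TopologicalSpace Y] (c : PF Y), IsAdd c →
    (∀ y, ∃ V ∈ 𝓝 y, ∀ (a b : Y) (p : Path a b), range p ⊆ V → c a b p = 0) →
    ∀ (a b : Y) (p : Path a b), c a b p = 0

def S_Ext : Prop :=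
  ∀ (Y : Type) [TopologicalSpace Y] [PathConnectedSpace Y] (y : Y),
    (∃ ext : H1 Y y →ₗ[ℂ] PF Y, ∀ χ, IsAdd (ext χ) ∧ ∀ p : Path y y, ext χ y y p = ev χ p) ∧
    (∀ c : PF Y, IsAdd c → ∃ χ : H1 Y y, ∀ p : Path y y, ev χ p = c y y p) ∧
    (∀ χ χ' : H1 Y y, (∀ p, ev χ p = ev χ' p) → χ = χ') ∧
    ∀ c : PF Y, IsAdd c → (∀ p : Path y y, c y y p = 0) →
      ∃ U : Y → ℂ, ∀ (a b : Y) (p : Path a b), c a b p = U b - U a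

def S_Sq : Prop :=
  ∀ (Y Z : Type) [TopologicalSpace Y] [TopologicalSpace Z] (j₀ j₁ : C(Y, Z)) (c : PF Z),
    IsAdd c → j₀.Homotopic j₁ → ∃ e : Y → ℂ, ∀ (a b : Y) (p : Path a b),
      c _ _ (p.map j₁.continuous) = c _ _ (p.map j₀.continuous) + e b - e a

def S_B4 : Prop :=
  ∀ (Y Z : Type) [TopologicalSpace Y] [TopologicalSpace Z] (f : Y ≃ₜ Z) (y : Y),
    Module.finrank ℂ (H1 Z (f y)) = Module.finrank ℂ (H1 Y y)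

/-! ### Package TopB -/

def S_Int : Prop :=
  ∀ (Y : Type) [TopologicalSpace Y] (V : Y → Set Y) (F : Y → Y → ℂ),
    (∀ y, IsOpen (V y) ∧ y ∈ V y) →
    (∀ y y' z, z ∈ V y → z ∈ V y' → ∀ᶠ w in 𝓝 z, F y w - F y' w = F y z - F y' z) →
    ∃ c : PF Y, IsAdd c ∧ ∀ (y a b : Y) (p : Path a b), range p ⊆ V y → c a b p = F y b - F y a

def S_Prim : Prop :=
  ∀ (Y : Type) [TopologicalSpace Y] [ChartedSpace ℂ Y] (p : Y) (ε : ℝ),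
    ball (zc p p) ε ⊆ (chartAt ℂ p).target →
    ∃ e : PF Y →ₗ[ℂ] (Y → ℂ), ∀ c, IsAdd c → ∀ (a b : Y) (q : Path a b),
      range q ⊆ (chartAt ℂ p).source ∩ zc p ⁻¹' ball (zc p p) ε → c a b q = e c b - e c a

/-! ### Package Lift -/

def S_HL : Prop :=
  ∀ (Y Y' Z : Type) [TopologicalSpace Y] [TopologicalSpace Y'] [TopologicalSpace Z] [T2Space Y']
    [T2Space Z] [CompactSpace Y] [CompactSpace Y'] [CompactSpace Z] (f : C(Y, Z)) (f' : C(Y', Z))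
    (r : Fin 6 → Y) (r' : Fin 6 → Y') (G G' : C(unitInterval × Z, Z)) (j : Y ≃ₜ Y'),
    (∀ i y, f y = f (r i) → y = r i) → (∀ i y, f' y = f' (r' i) → y = r' i) →
    IsCoveringMapOn f' (range (f' ∘ r'))ᶜ →
    (∀ s, Function.Bijective fun z => G (s, z)) → (∀ s, Function.Bijective fun z => G' (s, z)) →
    (∀ s i, G (s, f (r i)) = G' (s, f' (r' i))) → (∀ y, G' (0, f' (j y)) = G (0, f y)) →
    ∃ j₁ : Y ≃ₜ Y', ContinuousMap.Homotopic (j : C(Y, Y')) (j₁ : C(Y, Y')) ∧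
      (∀ i, j₁ (r i) = r' i) ∧ ∀ y, G' (1, f' (j₁ y)) = G (1, f y)

/-! ### Package Mot -/

def S_Mot : Prop := ∃ R h k, Mot R h k

def S_MobC : Prop :=
  (∀ x, act 1 x = x) ∧ (∀ x z, mob 1 x z = z) ∧ ∀ σ : Equiv.Perm (Fin 6),
    ContinuousOn (fun q : E × OnePoint ℂ => mobH σ q.1 q.2) (X ×ˢ univ) ∧ ∀ x ∈ X,
      Function.Bijective (mobH σ x) ∧ (∀ i, mobH σ x (prj (pt x (σ i))) = prj (pt (act σ x) i)) ∧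
      ∀ z : ℂ, (∀ i, i ≠ 5 → z ≠ (pt x i).1) →
        mobH σ x z = (mob σ x z : ℂ) ∧ AnalyticAt ℂ (mob σ x) z ∧ deriv (mob σ x) z ≠ 0

/-! ### Package Atl -/

def S_Atl : Prop :=
  ∀ (𝒟 T : Type 1) (pr : 𝒟 → T) (ctr : 𝒟 → E) (R : E → ℝ) (defo : 𝒟 → E → 𝒟)
    (Rel : Equiv.Perm (Fin 6) → 𝒟 → 𝒟 → Prop), Sys pr ctr R defo Rel →
    ∃ (_ : TopologicalSpace T) (_ : ChartedSpace E T) (ρ : E → ℝ)
      (ch : 𝒟 → OpenPartialHomeomorph T E), T2Space T ∧ Atl T ∧ atlas E T = range ch ∧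
      (∀ x ∈ X, 0 < ρ x ∧ ρ x ≤ R x) ∧ ∀ τ, (ch τ).target = ball (ctr τ) (ρ (ctr τ)) ∧
        ∀ a ∈ (ch τ).target, (ch τ).symm a = pr (defo τ a)

/-! ### Packages RieA, RieB, RieC -/

open Bundle in
def S_RieA : Prop :=
  ∀ (T : Type 1) [TopologicalSpace T] [ChartedSpace E T] (g : Met) (f : E → ℝ) (B : ℝ),
    Atl T → Good g f B →
    ∃ (_ : IsManifold 𝓘(ℝ, E) ∞ T) (_ : RiemannianBundle fun t : T => TangentSpace 𝓘(ℝ, E) t),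
      IsContMDiffRiemannianBundle 𝓘(ℝ, E) ∞ E (fun t : T => TangentSpace 𝓘(ℝ, E) t) ∧
      ∀ e ∈ atlas E T, ∀ x ∈ e.target, ∀ u v, inChart e x u v = g x u v

open Bundle in
def S_RieB : Prop :=
  ∀ (T : Type 1) [EMetricSpace T] [ChartedSpace E T] [IsManifold 𝓘(ℝ, E) ∞ T]
    [RiemannianBundle fun t : T => TangentSpace 𝓘(ℝ, E) t] [IsRiemannianManifold 𝓘(ℝ, E) T]
    (g : Met) (f : E → ℝ) (B : ℝ), Atl T → Good g f B →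
    (∀ e ∈ atlas E T, ∀ x ∈ e.target, ∀ u v, inChart e x u v = g x u v) → CompleteSpace T

open Bundle in
def S_Isom : Prop :=
  ∀ (T : Type 1) [TopologicalSpace T] [ChartedSpace E T] [IsManifold 𝓘(ℝ, E) ∞ T]
    [RiemannianBundle fun t : T => TangentSpace 𝓘(ℝ, E) t] (g : Met) (A : T → T),
    (∀ e ∈ atlas E T, ∀ x ∈ e.target, ∀ u v, inChart e x u v = g x u v) →
    (∀ e ∈ atlas E T, ∃ e' ∈ atlas E T, e'.target = e.target ∧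
      ∀ a ∈ e.target, A (e.symm a) = e'.symm a) → Isom (F := E) A

def S_Pin : Prop :=
  ∀ (g : Met) (f : E → ℝ) (B a : ℝ) (g' : E → E → E → ℝ) (V : Set E), Good g f B → IsOpen V →
    V ⊆ X → (∀ x ∈ V, ∀ u v, g' x u v = g x u v) →
    (∀ x ∈ X, ∀ u v, -a ≤ sec g x u v ∧ sec g x u v ≤ 0) → Pinched g' V a

def S_Lind : Prop :=
  ∀ (Z : Set E) (ρ : E → ℝ) (g : Met), Z.Nonempty → (∀ z ∈ Z, 0 < ρ z ∧ ball z (ρ z) ⊆ X) →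
    vol g < ⊤ → ∃ (z : ℕ → E) (A : ℕ → Set E),
      (∀ n, z n ∈ Z ∧ MeasurableSet (A n) ∧ A n ⊆ ball (z n) (ρ (z n))) ∧ Z ⊆ ⋃ n, A n ∧
      ∀ g' : ℕ → E → E → E → ℝ, (∀ n, ∀ x ∈ A n, ∀ u v, g' n x u v = g x u v) →
        ∑' n, volOn realBasis (g' n) (A n) < ⊤

def S_Good : Prop :=
  ∃ g f B, Good g f B ∧ vol g < ⊤ ∧
    ∃ a : ℝ, 0 < a ∧ ∀ x ∈ X, ∀ u v, -a ≤ sec g x u v ∧ sec g x u v ≤ 0

/-! ### Package Ori -/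

def S_OrInv : Prop :=
  ∀ (S Y : Type) [TopologicalSpace S] [ChartedSpace ℂ S] [TopologicalSpace Y] [ChartedSpace ℂ Y]
    (f : S ≃ₜ Y), OrPres f → OrPres f.symm

def S_OrCrit : Prop :=
  ∀ (Y Y' : Type) [TopologicalSpace Y] [ChartedSpace ℂ Y] [TopologicalSpace Y'] [ChartedSpace ℂ Y']
    (θ : Y → Y'), Continuous θ →
    (∀ p, ∃ (ψ : Y → ℂ) (ψ' : Y' → ℂ) (H : ℂ → ℂ), An ψ p ∧ D ψ p ≠ 0 ∧ An ψ' (θ p) ∧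
      D ψ' (θ p) ≠ 0 ∧ (∀ z z', ‖H z - H z' - (z - z')‖ ≤ 1 / 2 * ‖z - z'‖) ∧
      ∀ᶠ y in 𝓝 p, ψ' (θ y) = H (ψ y)) → OrPres θ

/-! ### Package Cover -/

def S_Cover : Prop :=
  ∀ (Y : Type) [TopologicalSpace Y] [ChartedSpace ℂ Y] [RS Y], Nonempty (Cov Y)

def S_Pol : Prop :=
  ∀ (Y : Type) [TopologicalSpace Y] [ChartedSpace ℂ Y] [RS Y] (p : Y),
    (∃ β, Polar (zc p) p β) ∧ (∀ z β, An z p → D z p ≠ 0 → Polar z p β → LEx β) ∧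
    ∀ z β β', An z p → D z p ≠ 0 → Polar (zc p) p β → Polar z p β' → Ex (β - D z p • β')

/-! ### Packages KerA, KerB, Dol -/

open Classical in
def S_KerA : Prop :=
  ∀ (Y : Type) [TopologicalSpace Y] [ChartedSpace ℂ Y] [RS Y] (C : Cov Y),
    (∀ β, LEx β → ∀ j, Continuous (C.cf β j) ∧ ContDiff ℝ ∞ fun ζ =>
      if ζ ∈ C.K j then C.cf β j ((chartAt ℂ (C.p j)).symm ζ) else 0) ∧
    (∀ β, (∀ j y, C.cf β j y = 0) → β = 0) ∧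
    ∀ i, (∀ y ∈ (chartAt ℂ (C.p i)).source, zc (C.p i) y ∈ C.Ω i →
        Polar (zc (C.p i)) y (C.gam i (zc (C.p i) y))) ∧
      ∃ k : ℂ → Fin C.n → C(Y, ℂ), DifferentiableOn ℂ k (C.Ω i) ∧
        ∀ ζ ∈ C.Ω i, ∀ j y, k ζ j y = C.cf (C.gam i ζ) j y

def S_KerB : Prop :=
  ∀ (Y : Type) [TopologicalSpace Y] [ChartedSpace ℂ Y] [RS Y] (C : Cov Y),
    (∀ a : Fin C.n → ℂ → ℂ, (∀ i, ContinuousOn (a i) (C.K i)) → LEx (C.err a)) ∧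
    ∀ β, LEx β → Ex (β + C.err fun i ζ => C.cf β i ((chartAt ℂ (C.p i)).symm ζ))

def S_Dol : Prop :=
  ∀ (Y : Type) [TopologicalSpace Y] [ChartedSpace ℂ Y] [RS Y] (l : (Y → ℂ) →ₗ[ℂ] ℂ)
    (κ : Y → Y → ℂ), (∀ β, Ex β → l β = 0) → (∀ p, Polar (zc p) p (κ p)) →
    (fun p => l (κ p)) ∈ Om Y ∧ ((∀ p, l (κ p) = 0) → ∀ β, LEx β → l β = 0)

/-! ### Package Per -/

def S_RepEx : Prop :=
  ∀ (Y : Type) [TopologicalSpace Y] [ChartedSpace ℂ Y] [RS Y], ∀ w ∈ Om Y, ∃ c, Rep c w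

def S_Per : Prop :=
  ∀ (Y : Type) [TopologicalSpace Y] [ChartedSpace ℂ Y] [RS Y] (y : Y),
    ∃ per : Om Y →ₗ[ℂ] H1 Y y, ∀ (w : Om Y) c, Rep c w → ∀ p : Path y y, ev (per w) p = c y y p

def S_P1 : Prop :=
  ∀ (Y : Type) [TopologicalSpace Y] [ChartedSpace ℂ Y] [RS Y] (y : Y) (c c' : PF Y)
    (w w' : Y → ℂ), Rep c w → Rep c' w' → (∀ p : Path y y, c y y p + conj (c' y y p) = 0) →
    w = 0 ∧ w' = 0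

def S_P3 : Prop :=
  ∀ (Y : Type) [TopologicalSpace Y] [ChartedSpace ℂ Y] [RS Y] (j : C(Y, Y)), (∀ y, Hol j y) →
    j.Homotopic (.id Y) → ∀ w ∈ Om Y, pull j w = w

/-! ### Package Cous -/

def S_P2 : Prop :=
  ∀ (Y : Type) [TopologicalSpace Y] [ChartedSpace ℂ Y] [RS Y] (y : Y),
    ∃ Θ : H1 Y y →ₗ[ℂ] (Y → ℂ), ∀ χ, LEx (Θ χ) ∧
      (Ex (Θ χ) → ∃ w ∈ Om Y, ∃ c, Rep c w ∧ ∀ p : Path y y, ev χ p = c y y p)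

/-! ### Package Gen -/

def S_Gen : Prop :=
  ∀ (Y : Type) [TopologicalSpace Y] [ChartedSpace ℂ Y] [RS Y] (y : Y),
    Module.finrank ℂ (H1 Y y) = 4 → Module.finrank ℂ (Om Y) = 2

def S_ML : Prop :=
  ∀ (Y : Type) [TopologicalSpace Y] [ChartedSpace ℂ Y] [RS Y] (s : Finset Y) (a : Y → ℂ),
    (∀ w ∈ Om Y, ∑ p ∈ s, a p * w p = 0) → ∃ f : Y → ℂ, (∀ y, y ∉ s → An f y) ∧
      ∀ p ∈ s, ∃ u, An u p ∧ ∀ᶠ y in 𝓝[≠] p, f y = a p / (zc p y - zc p p) + u y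

/-! ### Package Deg -/

def S_Deg : Prop :=
  ∀ (Y : Type) [TopologicalSpace Y] [ChartedSpace ℂ Y] [RS Y] (f : Y → ℂ) (P : Finset Y),
    P.Nonempty → (∀ y, y ∉ P → An f y) → (∀ p ∈ P, SP f p) →
    ∃ C : Set ℂ, C.Finite ∧ ∀ c, c ∉ C → {y | y ∉ P ∧ f y = c}.ncard = P.card

/-! ### Package Pq -/

def S_One : Prop :=
  ∀ (Y : Type) [TopologicalSpace Y] [ChartedSpace ℂ Y] [RS Y] (f : Y → ℂ) (p : Y),
    (∀ y, y ≠ p → An f y ∧ D f y ≠ 0) → Tendsto f (𝓝[≠] p) (Bornology.cobounded ℂ) →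
    ∀ w ∈ Om Y, w = 0

def S_Bpf : Prop :=
  ∀ (Y : Type) [TopologicalSpace Y] [ChartedSpace ℂ Y] [RS Y], (∃ w ∈ Om Y, w ≠ 0) →
    ∀ p, ∃ w ∈ Om Y, w p ≠ 0

def S_Pq : Prop :=
  ∀ (Y : Type) [TopologicalSpace Y] [ChartedSpace ℂ Y] [RS Y], Module.finrank ℂ (Om Y) = 2 →
    ∃ (p q : Y) (f : Y → ℂ), p ≠ q ∧ (∀ y, y ≠ p → y ≠ q → An f y) ∧ SP f p ∧ SP f q

/-! ### Package Two -/

open Classical in
def S_Two : Prop :=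
  ∀ (Y : Type) [TopologicalSpace Y] [ChartedSpace ℂ Y] [RS Y] (p q : Y) (f : Y → ℂ), p ≠ q →
    (∀ y, y ≠ p → y ≠ q → An f y) → SP f p → SP f q → ∃ R ι, Two f {p, q} R ι

def S_Iota : Prop :=
  ∀ (Y : Type) [TopologicalSpace Y] [ChartedSpace ℂ Y] [RS Y] (f : Y → ℂ) (P R : Finset Y)
    (ι : Y → Y), Two f P R ι →
    (∀ c, ∃ y, y ∉ P ∧ f y = c) ∧
    (∀ c, ∀ U ∈ 𝓝ˢ {y | y ∉ P ∧ f y = c}, ∀ᶠ c' in 𝓝 c, ∀ y, y ∉ P → f y = c' → y ∈ U) ∧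
    (∀ U ∈ 𝓝ˢ (P : Set Y), ∀ᶠ c in Bornology.cobounded ℂ, ∀ y, f y = c → y ∈ U) ∧
    (∀ y, y ∉ P → ι (ι y) = y ∧ ContinuousAt ι y ∧ (y ∉ R → ι y ∉ R ∧ Hol ι y)) ∧
    ∀ r ∈ R, D f r = 0 ∧ ∃ ψ, An ψ r ∧ ψ r = 0 ∧ D ψ r ≠ 0 ∧ ∀ᶠ y in 𝓝 r, f y = f r + ψ y ^ 2

/-! ### Package Desc -/

def S_Desc : Prop :=
  ∀ (Y : Type) [TopologicalSpace Y] [ChartedSpace ℂ Y] [RS Y] (f : Y → ℂ) (P R : Finset Y)
    (ι : Y → Y) (u : Y → ℂ) (n : ℕ), Two f P R ι →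
    (∀ y, y ∉ P → y ∉ R → An u y ∧ u (ι y) = u y) →
    (∀ r ∈ R, ∃ C : ℝ, ∀ᶠ y in 𝓝[≠] r, ‖u y‖ ≤ C) →
    (∀ p ∈ P, ∃ C : ℝ, ∀ᶠ y in 𝓝[≠] p, ‖u y‖ ≤ C * ‖f y‖ ^ n) →
    ∃ Q : Polynomial ℂ, Q.natDegree ≤ n ∧ ∀ y, y ∉ P → y ∉ R → u y = Q.eval (f y)

def S_Odd : Prop :=
  ∀ (Y : Type) [TopologicalSpace Y] [ChartedSpace ℂ Y] [RS Y] (f : Y → ℂ) (P R : Finset Y)
    (ι : Y → Y), Two f P R ι → ∀ w ∈ Om Y, ∀ y, y ∉ P → y ∉ R →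
    w (ι y) / D f (ι y) = -(w y / D f y)

/-! ### Package Root -/

def S_W : Prop :=
  ∀ (Y : Type) [TopologicalSpace Y] [ChartedSpace ℂ Y] [RS Y] (f : Y → ℂ) (P R : Finset Y)
    (ι : Y → Y), Two f P R ι → (∃ w ∈ Om Y, w ≠ 0) → ∃ W : Y → ℂ, ∀ y, y ∉ P →
      An W y ∧ W y ^ 2 = ∏ r ∈ R, (f y - f r) ∧ W (ι y) = -W y

/-! ### Package Six -/

def S_Six : Prop :=
  ∀ (Y : Type) [TopologicalSpace Y] [ChartedSpace ℂ Y] [RS Y] (f : Y → ℂ) (P R : Finset Y)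
    (ι : Y → Y), Two f P R ι → (∀ p ∈ P, SP f p) → Module.finrank ℂ (Om Y) = 2 → R.card = 6

/-! ### Package Norm -/

open Classical in
def S_Norm : Prop :=
  ∀ (Y : Type) [TopologicalSpace Y] [ChartedSpace ℂ Y] [RS Y] (f : Y → ℂ) (p q : Y) (R : Finset Y)
    (ι : Y → Y), p ≠ q → Two f {p, q} R ι → SP f p → SP f q → R.card = 6 →
    ∃ (x : E) (f' : Y → ℂ) (r : Fin 6 → Y), Dbl x f' r

/-! ### Package Can -/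

def S_Can : Prop :=
  ∀ (Y : Type) [TopologicalSpace Y] [ChartedSpace ℂ Y] [RS Y] (x : E) (f : Y → ℂ) (r : Fin 6 → Y),
    Dbl x f r → Module.finrank ℂ (Om Y) = 2 → ∃ w₁ ∈ Om Y, ∃ w₂ ∈ Om Y,
      ∀ y, ∃ c : ℂ, c ≠ 0 ∧ (w₁ y, w₂ y) = c • hom f (r 5) y

/-! ### Package Cvr -/

def S_Cvr : Prop :=
  ∀ (Y : Type) [TopologicalSpace Y] [ChartedSpace ℂ Y] [RS Y] (x : E) (f : Y → ℂ) (r : Fin 6 → Y),
    Dbl x f r → Continuous (hat f (r 5)) ∧ (∀ i y, hat f (r 5) y = hat f (r 5) (r i) → y = r i) ∧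
      IsCoveringMapOn (hat f (r 5)) (range (hat f (r 5) ∘ r))ᶜ ∧
      ∀ y, y ∉ range r → (∀ i, i ≠ 5 → f y ≠ (pt x i).1) ∧
        ∃ y', y' ≠ y ∧ hat f (r 5) y' = hat f (r 5) y

def S_Bi : Prop :=
  ∀ (Y Y' : Type) [TopologicalSpace Y] [ChartedSpace ℂ Y] [RS Y] [TopologicalSpace Y']
    [ChartedSpace ℂ Y'] [RS Y'] (x : E) (σ : Equiv.Perm (Fin 6)) (f : Y → ℂ) (r : Fin 6 → Y)
    (f' : Y' → ℂ) (r' : Fin 6 → Y') (j : Y ≃ₜ Y'), Dbl x f r → Dbl (act σ x) f' r' →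
    (∀ i, j (r (σ i)) = r' i) → (∀ y, y ∉ range r → f' (j y) = mob σ x (f y)) →
    MDifferentiable 𝓘(ℂ) 𝓘(ℂ) j ∧ MDifferentiable 𝓘(ℂ) 𝓘(ℂ) j.symm

def S_Uq : Prop :=
  ∀ (Y Y' : Type) [TopologicalSpace Y] [ChartedSpace ℂ Y] [RS Y] [TopologicalSpace Y']
    [ChartedSpace ℂ Y'] [RS Y'] (x : E) (f : Y → ℂ) (r : Fin 6 → Y) (f' : Y' → ℂ)
    (r' : Fin 6 → Y'), Dbl x f r → Dbl x f' r' → (∃ w ∈ Om Y, w ≠ 0) → (∃ w ∈ Om Y', w ≠ 0) →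
    ∃ j : Y ≃ₜ Y', (∀ i, j (r i) = r' i) ∧ ∀ y, y ∉ range r → f' (j y) = f y

/-! ### Package Aut -/

def S_AT : Prop :=
  ∀ (Y Y' : Type) [TopologicalSpace Y] [ChartedSpace ℂ Y] [RS Y] [TopologicalSpace Y']
    [ChartedSpace ℂ Y'] [RS Y'] (x x' : E) (f : Y → ℂ) (r : Fin 6 → Y) (f' : Y' → ℂ)
    (r' : Fin 6 → Y') (j : Y ≃ₜ Y'), Dbl x f r → Dbl x' f' r' → Module.finrank ℂ (Om Y) = 2 →
    Module.finrank ℂ (Om Y') = 2 → MDifferentiable 𝓘(ℂ) 𝓘(ℂ) j →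
    MDifferentiable 𝓘(ℂ) 𝓘(ℂ) j.symm → ∃ σ : Equiv.Perm (Fin 6), x' = act σ x ∧
      (∀ i, j (r (σ i)) = r' i) ∧ ∀ y, y ∉ range r → f' (j y) = mob σ x (f y)

def S_NT : Prop :=
  ∀ (Y : Type) [TopologicalSpace Y] [ChartedSpace ℂ Y] [RS Y] (x : E) (f : Y → ℂ) (r : Fin 6 → Y)
    (j : Y ≃ₜ Y), Dbl x f r → Module.finrank ℂ (Om Y) = 2 → MDifferentiable 𝓘(ℂ) 𝓘(ℂ) j →
    ContinuousMap.Homotopic (j : C(Y, Y)) (.id Y) → ∀ i, j (r i) = r i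

/-! ### Package Defo -/

def S_Defo : Prop :=
  ∀ (S : Type) [TopologicalSpace S] [ChartedSpace ℂ S] [RS S] (R : E → ℝ) (h k : E → E → ℂ → ℂ),
    Mot R h k → ∀ τ : Datum S, ∀ a ∈ ball τ.x (R τ.x), ∃ τ', IsDefo h τ a τ'

/-! ### Package Fam -/

def S_Fam : Prop :=
  ∀ (S : Type) [TopologicalSpace S] [ChartedSpace ℂ S] [RS S] (R : E → ℝ) (h k : E → E → ℂ → ℂ),
    Mot R h k → ∀ (τ : Datum S) (V : Set E) (d : E → Datum S), V ⊆ ball τ.x (R τ.x) →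
    (∀ a ∈ V, IsDefo h τ a (d a)) → Family V fun a => (d a).M

/-! ### Package PL -/

def S_PL : Prop :=
  ∀ (S : Type) [TopologicalSpace S] [ChartedSpace ℂ S] [RS S] (R : E → ℝ) (h k : E → E → ℂ → ℂ),
    Mot R h k → ∀ (τ τ' τ₀ τ₁ τ₀' τ₁' : Datum S) (σ : Equiv.Perm (Fin 6)) (γ : C(unitInterval, E)),
    (∀ s, γ s ∈ ball τ.x (R τ.x) ∧ act σ (γ s) ∈ ball τ'.x (R τ'.x)) →
    IsDefo h τ (γ 0) τ₀ → IsDefo h τ (γ 1) τ₁ → IsDefo h τ' (act σ (γ 0)) τ₀' →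
    IsDefo h τ' (act σ (γ 1)) τ₁' → TRel σ τ₀ τ₀' → TRel σ τ₁ τ₁'

/-! ### Package Rel -/

def S_Rel : Prop :=
  ∀ (S : Type) [TopologicalSpace S] [ChartedSpace ℂ S] [RS S],
    (∀ M : Marked S, Module.finrank ℂ (Om M.Y) = 2) →
    (∀ τ τ' : Datum S, (Quot.mk _ τ.M : Teich S) = Quot.mk _ τ'.M ↔ ∃ σ, TRel σ τ τ') ∧
    (∀ σ (τ : Datum S), TRel σ τ τ → σ = 1) ∧
    ∀ τ τ' : Datum S, τ.x = τ'.x →
      ∃ φ : Homeo S, move φ (Quot.mk _ τ.M) = Quot.mk _ τ'.M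

end Pool.Agent.P.MP_5d7cf0_gt.T
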