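import Pool.Agent.P.MP_5d7cf0_gt.Act
import Pool.Agent.P.MP_5d7cf0_gt.Data
import Pool.Agent.P.MP_5d7cf0_gt.Det
import Pool.Agent.P.MP_5d7cf0_gt.Fm
import Pool.Agent.P.MP_5d7cf0_gt.Hol
import Pool.Agent.P.MP_5d7cf0_gt.IdP
import Pool.Agent.P.MP_5d7cf0_gt.IdT
import Pool.Agent.P.MP_5d7cf0_gt.IneqA
import Pool.Agent.P.MP_5d7cf0_gt.IneqB
import Pool.Agent.P.MP_5d7cf0_gt.KZ
import Pool.Agent.P.MP_5d7cf0_gt.Lev
import Pool.Agent.P.MP_5d7cf0_gt.Loc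
import Pool.Agent.P.MP_5d7cf0_gt.Lp
import Pool.Agent.P.MP_5d7cf0_gt.Mob
import Pool.Agent.P.MP_5d7cf0_gt.ModA
import Pool.Agent.P.MP_5d7cf0_gt.ModB
import Pool.Agent.P.MP_5d7cf0_gt.NF
import Pool.Agent.P.MP_5d7cf0_gt.NV
import Pool.Agent.P.MP_5d7cf0_gt.Nat
import Pool.Agent.P.MP_5d7cf0_gt.Out
import Pool.Agent.P.MP_5d7cf0_gt.Pi
import Pool.Agent.P.MP_5d7cf0_gt.ProfJ
import Pool.Agent.P.MP_5d7cf0_gt.ProfK
import Pool.Agent.P.MP_5d7cf0_gt.Prop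
import Pool.Agent.P.MP_5d7cf0_gt.RP
import Pool.Agent.P.MP_5d7cf0_gt.RT
import Pool.Agent.P.MP_5d7cf0_gt.Ray
import Pool.Agent.P.MP_5d7cf0_gt.Rm
import Pool.Agent.P.MP_5d7cf0_gt.Seg
import Pool.Agent.P.MP_5d7cf0_gt.Sm
import Pool.Agent.P.MP_5d7cf0_gt.Sol
import Pool.Agent.P.MP_5d7cf0_gt.Sort
import Pool.Agent.P.MP_5d7cf0_gt.Str
import Pool.Agent.P.MP_5d7cf0_gt.Strip
import Pool.Agent.P.MP_5d7cf0_gt.TabA
import Pool.Agent.P.MP_5d7cf0_gt.TabB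
import Pool.Agent.P.MP_5d7cf0_gt.VB
import Pool.Agent.P.MP_5d7cf0_gt.VF
import Pool.Agent.P.MP_5d7cf0_gt.VolI
import Pool.Agent.P.MP_5d7cf0_gt.VolT
import Pool.Agent.P.MP_5d7cf0_gt.Xi
import Pool.Agent.P.MP_5d7cf0_gt.Glue
import Pool.Agent.P.MP_5d7cf0_gt.T.St

/-!
The invariant metric together with its invariant proper function.
-/

open Set Filter Topology MeasureTheory
open scoped ContDiff

namespace Pool.Agent.P.MP_5d7cf0_gt.T

namespace GoodP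

open GlueP

theorem glueG (hA : S_Act) (hN : S_NF) (hD : S_Data) (hPK : S_ProfK) (hPJ : S_ProfJ)
    (hSol : S_Sol) (hCol : S_Col) (hS : S_Sm) (hO : S_Out) (hP : S_Prop)
    (hVT : S_VolT) (hVI : S_VolI) (hNat : S_Nat) (hG : S_GGnat) (hGs : S_GGsm) : S_Good := by
  obtain ⟨C, η, hd⟩ := hD
  obtain ⟨p1, hp1⟩ := hCol _ _ _ _ hd
  obtain ⟨M, ps, K1, hM⟩ := hPJ p1
  obtain ⟨l1, hl1⟩ := hp1 ps
  obtain ⟨m, ψ, K2, hm⟩ := hPK l1
  have hk := hm (max K1 K2) (le_max_right _ _)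
  have hj := hM (max K1 K2) (le_max_left _ _)
  obtain ⟨q, hq⟩ := hSol _ _ _ _ _ _ _ _ _ _ _ hd hk hj
  obtain ⟨c1, c2, hc⟩ := hl1 m ψ M _ q hk hj hq
  have h : All _ _ C η m ψ M l1 p1 ps (max K1 K2) q c1 c2 := ⟨hd, hk, hj, hq, hc⟩
  obtain ⟨a, B, ha, ho⟩ := hO _ _ _ _ _ _ _ _ _ _ _ _ _ _ h
  have hi := fun σ x hx => met_inv hA hN hS hG h σ (x := x) hx
  have hsm := fun x hx => hGs _ _ q _ (prof m M) x (sm_all hA hN hS h (x := x) hx).hV
    (sm_all hA hN hS h hx).hq (prof_cases h hx (sm_all hA hN hS h hx))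
  have hpr := hP _ _ _ _ _ _ _ _ _ _ _ _ _ _ h
  have hpa := fun σ x hx => psi_act h σ (x := x) hx
  have hpd := fun x hx => psi_diff h (sm_all hA hN hS h (x := x) hx)
  replace ho := ho _ rfl
  change ∀ x ∈ X, ContDiffAt ℝ ∞ (met _ _ m M q) x ∧
    ∀ᶠ y in 𝓝 x, ∀ a b, met _ _ m M q y a b = met _ _ m M q y b a at hsm
  generalize met _ _ m M q = g at ho hi hsm
  generalize psi _ q ψ = f at ho hpr hpa hpd
  have hda : ∀ σ, ∀ x ∈ X, ContDiffAt ℝ ∞ (act σ) x := fun σ x hx =>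
    ((hA.2 σ).1 x hx).2.2.restrict_scalars ℝ
  have pos : ∀ x ∈ X, ∀ u, u ≠ 0 → 0 < g x u u := fun x hx u hu => by
    obtain ⟨σ, hσ⟩ := hN.2 x hx
    rw [← hi σ x hx]
    exact (ho _ hσ).1 _ fun h0 => hu (act_inj hA σ hx (by rw [h0, map_zero]))
  have hcd : ContDiffOn ℝ ∞ g X := fun x hx => (hsm x hx).1.contDiffWithinAt
  refine ⟨g, f, B, ?_, ?_, a, ha, fun x hx u v => ?_⟩
  · refine ⟨hcd, fun x hx => (hsm x hx).2.self_of_nhds, pos, hi, hpa,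
      fun x hx => ⟨hpd x hx, fun u => ?_⟩, fun R => ?_⟩
    · obtain ⟨σ, hσ⟩ := hN.2 x hx
      have e : f =ᶠ[𝓝 x] f ∘ act σ := by
        filter_upwards [hA.1.mem_nhds hx] with y hy using (hpa σ y hy).symm
      rw [e.fderiv_eq, fderiv_comp x (hpd _ hσ.1) ((hda σ x hx).differentiableAt (by simp)),
        ← hi σ x hx]
      exact (ho _ hσ).2.2.2 _
    · obtain ⟨T, h1, h2, h3⟩ := hpr R
      refine ⟨⋃ σ, act σ '' T, isCompact_iUnion fun σ => h1.image_of_continuousOn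
        fun x hx => (hda σ x (h2 hx)).continuousAt.continuousWithinAt, ?_, fun x hx hR => ?_⟩
      · rintro _ ⟨_, ⟨σ, rfl⟩, x, hx, rfl⟩
        exact ((hA.2 σ).1 x (h2 hx)).1
      · obtain ⟨σ, hσ⟩ := hN.2 x hx
        exact mem_iUnion.mpr ⟨σ⁻¹, _, h3 _ hσ (by rwa [hpa σ x hx]), ((hA.2 σ).1 x hx).2.1⟩
  · have h1 : X ⊆ ⋃ σ, act σ '' FF := fun x hx => by
      obtain ⟨σ, hσ⟩ := hN.2 x hx
      exact mem_iUnion.mpr ⟨σ⁻¹, _, hσ, ((hA.2 σ).1 x hx).2.1⟩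
    refine (lintegral_mono_set h1).trans_lt ((lintegral_iUnion_le _ _).trans_lt ?_)
    rw [tsum_fintype]
    refine ENNReal.sum_lt_top.mpr fun σ _ => ?_
    rw [hVT g (act σ) FF hN.1.measurableSet (fun x hx y hy e => by
        rw [← ((hA.2 σ).1 x hx.1).2.1, e, ((hA.2 σ).1 y hy.1).2.1])
      (fun x hx => (hda σ x hx.1).differentiableAt (by simp)) fun x hx => hi σ x hx.1]
    refine (setLIntegral_mono' hN.1.measurableSet
      (g := fun x => ENNReal.ofReal |B| * ENNReal.ofReal (maj x)) fun x hx => ?_).trans_lt ?_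
    · refine (ho x hx).2.2.1.trans ?_
      rw [← ENNReal.ofReal_mul (abs_nonneg B)]
      refine ENNReal.ofReal_le_ofReal (mul_le_mul_of_nonneg_right (le_abs_self B) ?_)
      have h4 : 0 ≤ Real.log (4 / wt none x) := by
        have h2 : ‖x 1‖ < 2 * ‖x 2‖ := hx.2.2.1
        have h3 : 0 < ‖x 2‖ := by linarith [norm_nonneg (x 1)]
        by_cases h0 : wt none x = 0
        · simp [h0]
        · refine Real.log_nonneg ((one_le_div (lt_of_le_of_ne (norm_nonneg _) (Ne.symm h0))).mpr ?_)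
          change ‖x 1 / x 2‖ ≤ 4
          rw [norm_div, div_le_iff₀ h3]
          linarith
      unfold maj pc pl
      positivity
    · rw [lintegral_const_mul' _ _ ENNReal.ofReal_ne_top]
      exact ENNReal.mul_lt_top ENNReal.ofReal_lt_top hVI
  · obtain ⟨σ, hσ⟩ := hN.2 x hx
    have h1 := hNat g g (act σ) x (hda σ x hx) (act_inj hA σ hx) (hsm _ hσ.1).1 (hsm _ hσ.1).2
      (ho _ hσ).1 (by filter_upwards [hA.1.mem_nhds hx] with y hy a b using (hi σ y hy a b).symm) u v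
    have h2 := (ho _ hσ).2.1 (fderiv ℝ (act σ) x u) (fderiv ℝ (act σ) x v)
    have h3 : area g (act σ x) (fderiv ℝ (act σ) x u) (fderiv ℝ (act σ) x v) = area g x u v := by
      simp only [area, hi σ x hx]
    rw [← h1, h3] at h2
    have h4 := area_nonneg (hsm x hx).2.self_of_nhds (pos x hx) u v
    refine ⟨?_, div_nonpos_of_nonpos_of_nonneg h2.2 h4⟩
    unfold sec
    rcases h4.eq_or_lt with h5 | h5
    · rw [← h5, div_zero]; linarith
    · rw [le_div_iff₀ h5]; linarith [h2.1]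

end GoodP

theorem good : S_Good := by
  have hN := pNF pAct
  have hStr := pStr pRay pFm
  have hSeg := pSeg pFm hStr
  have hHol := pHol pFm hStr
  have hRP := pRP pPi
  have hRT := pRT pLp
  have hXi := pXi pMob pVint hRP hRT pLp
  have hD := pData pAct hN pMob pVint (pVF pMob pVB pVint) hXi (pIdP hStr hSeg pPi hRP hXi)
    (pIdT pRay hStr hRT hXi) pTabA (pTabB hRP hRT hXi) pSort (pStrip pFm hStr hSeg pVint) hHol
    (pKZ hHol (pNV hHol hSeg))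
  have hNat := pNat pRm
  exact GoodP.glueG pAct hN hD pProfK pProfJ pSol pCol
    (pSm hN) (pOut hN (pSm hN) (pLoc pModA (pModB pModA pRm pGGsm) hNat pGGnat pGGsm) pIneqA
      (pIneqB pIneqA) pDet) pProp pVolT pVolI hNat pGGnat pGGsm

end Pool.Agent.P.MP_5d7cf0_gt.T
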