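import Pool.Agent.P.MP_5d7cf0_gt.T.RS
import Pool.Agent.P.MP_5d7cf0_gt.T.Fred

/-!
The coefficients of locally exact forms and the kernel of the parametrix.
-/

open Set Filter Topology Manifold Metric ComplexConjugate
open scoped ContDiff

namespace Pool.Agent.P.MP_5d7cf0_gt.T

namespace KerAP

variable {Y : Type} [TopologicalSpace Y] [ChartedSpace ℂ Y] [RS Y]

open Classical in
theorem cutoff {p y : Y} {K : Set ℂ} {g : ℂ → ℂ} (hK : IsCompact K)
    (hs : K ⊆ (chartAt ℂ p).target) (h0 : ∀ z, z ∉ K → g z = 0)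
    (hg : y ∈ (chartAt ℂ p).source → ∀ᶠ z in 𝓝 (zc p y), ContDiffAt ℝ ∞ g z) :
    Sm (fun y' => if y' ∈ (chartAt ℂ p).source then g (zc p y') else 0) y ∧
      Db (fun y' => if y' ∈ (chartAt ℂ p).source then g (zc p y') else 0) y =
        if y ∈ (chartAt ℂ p).source then conj (D (zc p) y) * dbar g (zc p y) else 0 := by
  by_cases hy : y ∈ (chartAt ℂ p).source
  · have e : (fun y' => g (zc p y')) =ᶠ[𝓝 y]
        fun y' => if y' ∈ (chartAt ℂ p).source then g (zc p y') else 0 := by
      filter_upwards [source_mem hy] with y' h using (if_pos h).symm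
    rw [if_pos hy, ← Db_congr e]
    exact ⟨((an_zc hy).sm.comp (hg hy)).congr e,
      Db_comp (an_zc hy) ((hg hy).self_of_nhds.differentiableAt (by simp))⟩
  · have e : (fun _ => (0 : ℂ)) =ᶠ[𝓝 y]
        fun y' => if y' ∈ (chartAt ℂ p).source then g (zc p y') else 0 := by
      filter_upwards [eventually_not_over hK hs fun h => absurd h hy] with y' h
      split_ifs with h1
      exacts [(h0 _ (h h1)).symm, rfl]
    rw [if_neg hy, ← Db_congr e]
    exact ⟨(sm_const 0).congr e, Db_const 0⟩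

variable (C : Cov Y)

omit [RS Y] in
theorem sub_target (i : Fin C.n) {r : ℝ} (hr : r ≤ 4) :
    closedBall (zc (C.p i) (C.p i)) (r * C.ε i) ⊆ (chartAt ℂ (C.p i)).target :=
  (closedBall_subset_closedBall (mul_le_mul_of_nonneg_right hr (C.pos i).le)).trans (C.sub i)

theorem sm_cf {β : Y → ℂ} (h : LEx β) (j : Fin C.n) (y : Y) : Sm (C.cf β j) y := by
  by_cases hy : y ∈ (chartAt ℂ (C.p j)).source
  · exact ((C.sm j y).mul (h.sm_div hy)).congr (Eventually.of_forall fun y' =>
      (mul_div_assoc _ _ _).symm)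
  · refine (sm_const 0).congr ?_
    have hs := sub_target C j (r := 1) (by norm_num)
    rw [one_mul] at hs
    filter_upwards [eventually_not_over (isCompact_closedBall _ _) hs fun h => absurd h hy]
      with y' h'
    have : C.ρ j y' = 0 := by
      by_contra hne
      exact h' (C.supp j y' hne).1 (ball_subset_closedBall (C.supp j y' hne).2)
    rw [Cov.cf, this, zero_mul, zero_div]

open Classical in
theorem part1 {β : Y → ℂ} (h : LEx β) (j : Fin C.n) : Continuous (C.cf β j) ∧ ContDiff ℝ ∞ fun ζ =>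
    if ζ ∈ C.K j then C.cf β j ((chartAt ℂ (C.p j)).symm ζ) else 0 := by
  refine ⟨continuous_iff_continuousAt.2 fun y => (sm_cf C h j y).continuousAt,
    contDiff_iff_contDiffAt.2 fun ζ => ?_⟩
  by_cases hζ : ζ ∈ C.K j
  · have hb : ζ ∈ ball (zc (C.p j) (C.p j)) (4 * C.ε j) :=
      closedBall_subset_ball (by linarith [C.pos j]) hζ
    have ht := C.sub j (ball_subset_closedBall hb)
    have h1 := ((sm_cf C h j _).loc ((chartAt ℂ (C.p j)).map_target ht)).self_of_nhds
    rw [zc_symm ht] at h1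
    refine h1.congr_of_eventuallyEq ?_
    filter_upwards [isOpen_ball.mem_nhds hb] with z hz
    split_ifs with h2
    · rfl
    · have : C.ρ j ((chartAt ℂ (C.p j)).symm z) = 0 := by
        by_contra hne
        have h3 := (C.supp j _ hne).2
        rw [zc_symm (C.sub j (ball_subset_closedBall hz))] at h3
        exact h2 (ball_subset_closedBall h3)
      change 0 = C.cf β j ((chartAt ℂ (C.p j)).symm z)
      rw [Cov.cf, this, zero_mul, zero_div]
  · refine (contDiffAt_const (c := (0 : ℂ))).congr_of_eventuallyEq ?_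
    filter_upwards [isClosed_closedBall.isOpen_compl.mem_nhds hζ] with z hz using if_neg hz

theorem part2 {β : Y → ℂ} (h : ∀ j y, C.cf β j y = 0) : β = 0 := by
  funext y
  obtain ⟨j, -, hj⟩ := Finset.exists_ne_zero_of_sum_ne_zero ((C.sum y).trans_ne one_ne_zero)
  have h1 := h j y
  rw [Cov.cf, div_eq_zero_iff, mul_eq_zero] at h1
  rcases h1 with (h1 | h1) | h1
  · exact absurd h1 hj
  · exact h1
  · exact absurd (by simpa using h1) (D_zc_ne (C.supp j y hj).1)

omit [RS Y] in
theorem chi_zero (i : Fin C.n) (z : ℂ) (h : z ∉ closedBall (zc (C.p i) (C.p i)) (3 * C.ε i)) :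
    C.χ i z = 0 := C.χzero i z fun h' => h (ball_subset_closedBall h')

theorem polar (i : Fin C.n) {y : Y} (hy : y ∈ (chartAt ℂ (C.p i)).source)
    (hΩ : zc (C.p i) y ∈ C.Ω i) : Polar (zc (C.p i)) y (C.gam i (zc (C.p i) y)) := by
  classical
  refine ⟨fun y' => if y' ∈ (chartAt ℂ (C.p i)).source then
    C.χ i (zc (C.p i) y') * (zc (C.p i) y' - zc (C.p i) y)⁻¹ else 0, fun y' hne => ?_, ?_, ?_⟩
  · have hz : y' ∈ (chartAt ℂ (C.p i)).source → zc (C.p i) y' ≠ zc (C.p i) y := fun h e =>
      hne ((chartAt ℂ (C.p i)).injOn h hy e)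
    obtain ⟨h1, h2⟩ := cutoff (y := y') (g := fun z => C.χ i z * (z - zc (C.p i) y)⁻¹)
      (isCompact_closedBall _ _) (sub_target C i (r := 3) (by norm_num))
      (fun z h => by rw [chi_zero C i z h, zero_mul]) fun h =>
        (eventually_ne_nhds (hz h)).mono fun z hz => (C.χsm i).contDiffAt.mul
          ((contDiffAt_id.sub contDiffAt_const).inv (sub_ne_zero.2 hz))
    refine ⟨h1, h2.trans ?_⟩
    unfold Cov.gam
    split_ifs with h
    · have hd : DifferentiableAt ℂ (fun z => (z - zc (C.p i) y)⁻¹) (zc (C.p i) y') :=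
        (differentiableAt_id.sub_const _).inv (sub_ne_zero.2 (hz h))
      rw [dbar_mul ((C.χsm i).differentiable (by simp) _) (hd.restrictScalars ℝ), dbar_holo hd]
      ring
    · rfl
  · unfold Cov.gam
    rw [if_pos hy, sub_self, div_zero]
  · filter_upwards [source_mem hy, (continuousAt_zc hy).eventually (isOpen_ball.mem_nhds hΩ)]
      with y' h1 h2
    rw [if_pos h1, C.χone i _ (ball_subset_closedBall h2), one_mul]

theorem kernel (i : Fin C.n) : ∃ k : ℂ → Fin C.n → C(Y, ℂ), DifferentiableOn ℂ k (C.Ω i) ∧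
    ∀ ζ ∈ C.Ω i, ∀ j y, k ζ j y = C.cf (C.gam i ζ) j y := by
  classical
  set β : Y → ℂ := fun y => if y ∈ (chartAt ℂ (C.p i)).source then
    conj (D (zc (C.p i)) y) * dbar (C.χ i) (zc (C.p i) y) else 0 with hβ
  have hs := sub_target C i (r := 3) (by norm_num)
  have hex : Ex β := ⟨_, fun y => cutoff (isCompact_closedBall _ _) hs (chi_zero C i) fun _ =>
    Eventually.of_forall fun _ => (C.χsm i).contDiffAt⟩
  have hL := isCompact_symm_image ((isCompact_closedBall (zc (C.p i) (C.p i)) (3 * C.ε i)).diff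
    (isOpen_ball (x := zc (C.p i) (C.p i)) (ε := 2 * C.ε i))) (sdiff_subset.trans hs)
  have key := fun j => hB Y (zc (C.p i)) (C.cf β j) _ (C.Ω i) isOpen_ball hL.isClosed
    (part1 C hex.lEx j).1 (fun y hy => ?_)
    ((chartAt ℂ (C.p i)).continuousOn.mono (by
      rintro _ ⟨z, hz, rfl⟩; exact (chartAt ℂ (C.p i)).map_target (hs hz.1)))
    (by rintro _ ⟨z, hz, rfl⟩; rw [zc_symm (hs hz.1)]; exact hz.2)
  · choose k hk1 hk2 using key
    refine ⟨fun ζ j => k j ζ, differentiableOn_pi.2 hk1, fun ζ hζ j y => ?_⟩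
    rw [hk2 j ζ hζ y, Cov.cf, Cov.cf, Cov.gam, hβ]
    dsimp only
    split_ifs
    · ring
    · simp
  · have : β y = 0 := by
      rw [hβ]
      dsimp only
      split_ifs with h
      · have h1 : zc (C.p i) y ∉ closedBall (zc (C.p i) (C.p i)) (3 * C.ε i) \
            ball (zc (C.p i) (C.p i)) (2 * C.ε i) := fun h2 => hy ⟨_, h2, symm_zc h⟩
        by_cases h2 : zc (C.p i) y ∈ ball (zc (C.p i) (C.p i)) (2 * C.ε i)
        · rw [dbar_congr (g := fun _ => 1), dbar_const, mul_zero]
          filter_upwards [isOpen_ball.mem_nhds h2] with z hz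
          exact C.χone i z (ball_subset_closedBall hz)
        · rw [dbar_congr (g := fun _ => 0), dbar_const, mul_zero]
          filter_upwards [isClosed_closedBall.isOpen_compl.mem_nhds fun h3 => h1 ⟨h3, h2⟩]
            with z hz using chi_zero C i z hz
      · rfl
    rw [Cov.cf, this, mul_zero, zero_div]

end KerAP

open KerAP in
theorem kerA : S_KerA := fun _ _ _ _ C =>
  ⟨fun _ h j => part1 C h j, fun _ h => part2 C h,
    fun i => ⟨fun _ hy hΩ => polar C i hy hΩ, kernel C i⟩⟩

end Pool.Agent.P.MP_5d7cf0_gt.T
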