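import Pool.Agent.P.MP_5d7cf0_gt.T.RS
import Pool.Agent.P.MP_5d7cf0_gt.T.CT

/-!
Package KerB: the error term of the parametrix.
-/

open Set Filter Topology MeasureTheory Manifold Metric ComplexConjugate
open scoped ContDiff

noncomputable section

namespace Pool.Agent.P.MP_5d7cf0_gt.T

namespace KerBP

variable {Y : Type} [TopologicalSpace Y] [ChartedSpace ℂ Y] (C : Cov Y)

/-- one term of the error -/
def term (a : ℂ → ℂ) (i : Fin C.n) (y : Y) : ℂ :=
  (Real.pi : ℂ)⁻¹ * ∫ ζ in C.K i, a ζ * C.gam i ζ y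

/-- the Cauchy transform over the small disc -/
def tr (a : ℂ → ℂ) (i : Fin C.n) (w : ℂ) : ℂ := (Real.pi : ℂ)⁻¹ * ∫ ζ in C.K i, a ζ / (w - ζ)

open Classical in
/-- a function on the plane, cut off and moved to the surface -/
def up (g : ℂ → ℂ) (i : Fin C.n) (y : Y) : ℂ :=
  if y ∈ (chartAt ℂ (C.p i)).source then C.χ i (zc (C.p i) y) * g (zc (C.p i) y) else 0

theorem term_src (a : ℂ → ℂ) {i : Fin C.n} {y : Y} (hy : y ∈ (chartAt ℂ (C.p i)).source) :
    term C a i y =
      conj (D (zc (C.p i)) y) * (dbar (C.χ i) (zc (C.p i) y) * tr C a i (zc (C.p i) y)) := by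
  have h : ∀ ζ, a ζ * C.gam i ζ y =
      conj (D (zc (C.p i)) y) * dbar (C.χ i) (zc (C.p i) y) * (a ζ / (zc (C.p i) y - ζ)) := by
    intro ζ
    rw [Cov.gam, if_pos hy]
    ring
  simp only [term, tr, h, integral_const_mul]
  ring

theorem term_out (a : ℂ → ℂ) {i : Fin C.n} {y : Y} (hy : y ∉ (chartAt ℂ (C.p i)).source) :
    term C a i y = 0 := by
  simp [term, Cov.gam, hy]

theorem dchi_in {i : Fin C.n} {z : ℂ} (hz : z ∈ C.Ω i) : dbar (C.χ i) z = 0 := by
  rw [dbar_congr (g := fun _ => 1), dbar_const]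
  filter_upwards [isOpen_ball.mem_nhds hz] with w hw using C.χone i w (ball_subset_closedBall hw)

theorem dchi_out {i : Fin C.n} {z : ℂ}
    (hz : z ∉ closedBall (zc (C.p i) (C.p i)) (3 * C.ε i)) : dbar (C.χ i) z = 0 := by
  rw [dbar_congr (g := fun _ => 0), dbar_const]
  filter_upwards [isClosed_closedBall.isOpen_compl.mem_nhds hz] with w hw
    using C.χzero i w fun h => hw (ball_subset_closedBall h)

theorem sub3 (i : Fin C.n) :
    closedBall (zc (C.p i) (C.p i)) (3 * C.ε i) ⊆ (chartAt ℂ (C.p i)).target :=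
  (closedBall_subset_closedBall (by linarith [C.pos i])).trans (C.sub i)

theorem K_sub (i : Fin C.n) : C.K i ⊆ C.Ω i :=
  closedBall_subset_ball (by linarith [C.pos i])

variable [RS Y]

theorem up_src {g : ℂ → ℂ} {i : Fin C.n} {y : Y} (hy : y ∈ (chartAt ℂ (C.p i)).source)
    (hg : ∀ᶠ z in 𝓝 (zc (C.p i) y), ContDiffAt ℝ ∞ g z) :
    Sm (up C g i) y ∧ Db (up C g i) y = conj (D (zc (C.p i)) y) *
      (dbar (C.χ i) (zc (C.p i) y) * g (zc (C.p i) y) +
        C.χ i (zc (C.p i) y) * dbar g (zc (C.p i) y)) := by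
  have e : (fun y' => (fun z => C.χ i z * g z) (zc (C.p i) y')) =ᶠ[𝓝 y] up C g i := by
    filter_upwards [source_mem hy] with y' hy'
    rw [up, if_pos hy']
  have h1 : DifferentiableAt ℝ (C.χ i) (zc (C.p i) y) :=
    (C.χsm i).contDiffAt.differentiableAt (by simp)
  have h2 : DifferentiableAt ℝ g (zc (C.p i) y) := hg.self_of_nhds.differentiableAt (by simp)
  refine ⟨Sm.congr ((an_zc hy).sm.comp (g := fun z => C.χ i z * g z)
    (hg.mono fun z hz => (C.χsm i).contDiffAt.mul hz)) e, ?_⟩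
  rw [← Db_congr e, Db_comp (g := fun z => C.χ i z * g z) (an_zc hy) (h1.mul h2), dbar_mul h1 h2]

theorem up_out (g : ℂ → ℂ) {i : Fin C.n} {y : Y} (hy : y ∉ (chartAt ℂ (C.p i)).source) :
    Sm (up C g i) y ∧ Db (up C g i) y = 0 := by
  have e : (fun _ => (0 : ℂ)) =ᶠ[𝓝 y] up C g i := by
    filter_upwards [eventually_not_over (isCompact_closedBall _ _) (sub3 C i)
      (fun h => absurd h hy)] with y' hy'
    rw [up]
    split_ifs with h
    · rw [C.χzero i _ fun h' => hy' h (ball_subset_closedBall h'), zero_mul]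
    · rfl
  exact ⟨(sm_const 0).congr e, by rw [← Db_congr e, Db_const]⟩

theorem lex_term {a : ℂ → ℂ} {i : Fin C.n} (ha : ContinuousOn a (C.K i)) : LEx (term C a i) := by
  intro p
  by_cases hp : p ∈ (chartAt ℂ (C.p i)).source
  · by_cases hΩ : zc (C.p i) p ∈ C.Ω i
    · refine ⟨fun _ => 0, ?_⟩
      filter_upwards [source_mem hp, (continuousAt_zc hp).eventually (isOpen_ball.mem_nhds hΩ)]
        with y h1 h2
      exact ⟨sm_const 0, by rw [Db_const, term_src C a h1, dchi_in C h2, zero_mul, mul_zero]⟩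
    · have hK : zc (C.p i) p ∈ (C.K i)ᶜ := fun h => hΩ (K_sub C i h)
      refine ⟨up C (tr C a i) i, ?_⟩
      filter_upwards [source_mem hp, (continuousAt_zc hp).eventually
        (isClosed_closedBall.isOpen_compl.mem_nhds hK)] with y h1 h2
      have han : AnalyticAt ℂ (tr C a i) (zc (C.p i) y) :=
        analyticAt_const.mul (cT.2 (C.K i) a (isCompact_closedBall _ _) ha _ h2)
      obtain ⟨h3, h4⟩ := up_src C h1 (han.eventually_analyticAt.mono fun _ hz =>
        (hz.restrictScalars (𝕜 := ℝ)).contDiffAt)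
      exact ⟨h3, by rw [h4, dbar_holo han.differentiableAt, mul_zero, add_zero, term_src C a h1]⟩
  · refine ⟨fun _ => 0, ?_⟩
    filter_upwards [eventually_not_over (isCompact_closedBall _ _) (sub3 C i)
      (fun h => absurd h hp)] with y hy
    refine ⟨sm_const 0, ?_⟩
    rw [Db_const]
    by_cases h : y ∈ (chartAt ℂ (C.p i)).source
    · rw [term_src C a h, dchi_out C (hy h), zero_mul, mul_zero]
    · rw [term_out C a h]

omit [RS Y] in
theorem err_eq (a : Fin C.n → ℂ → ℂ) : C.err a = ∑ i, term C (a i) i := by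
  funext y
  rw [Finset.sum_apply]
  rfl

open Classical in
omit [RS Y] in
theorem ct_cut (a : ℂ → ℂ) (i : Fin C.n) (z : ℂ) :
    ct (fun ζ => if ζ ∈ C.K i then a ζ else 0) z = tr C a i z := by
  rw [ct, tr, ← integral_indicator (s := C.K i) measurableSet_closedBall]
  congr 2
  funext ζ
  by_cases h : ζ ∈ C.K i <;> simp [h]

open Classical in
theorem piece {β : Y → ℂ} (i : Fin C.n)
    (h : ContDiff ℝ ∞ fun ζ => if ζ ∈ C.K i then C.cf β i ((chartAt ℂ (C.p i)).symm ζ) else 0)
    (y : Y) :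
    Sm (up C (tr C (fun ζ => C.cf β i ((chartAt ℂ (C.p i)).symm ζ)) i) i) y ∧
      Db (up C (tr C (fun ζ => C.cf β i ((chartAt ℂ (C.p i)).symm ζ)) i) i) y =
        C.ρ i y * β y + term C (fun ζ => C.cf β i ((chartAt ℂ (C.p i)).symm ζ)) i y := by
  by_cases hy : y ∈ (chartAt ℂ (C.p i)).source
  · obtain ⟨h1, h2⟩ := cT.1 _ h
      (HasCompactSupport.intro (K := C.K i) (isCompact_closedBall _ _) fun ζ hζ => if_neg hζ)
    rw [funext (ct_cut C _ i)] at h1 h2
    obtain ⟨h3, h4⟩ := up_src C hy (Eventually.of_forall fun z => h1.contDiffAt)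
    refine ⟨h3, ?_⟩
    rw [h4, h2, term_src C _ hy, mul_add, add_comm]
    congr 1
    split_ifs with hK
    · have h0 : conj (D (zc (C.p i)) y) ≠ 0 := (map_ne_zero _).mpr (D_zc_ne hy)
      rw [C.χone i _ (ball_subset_closedBall (K_sub C i hK)), symm_zc hy, Cov.cf, one_mul,
        mul_div_cancel₀ _ h0]
    · have : C.ρ i y = 0 := by
        by_contra h0
        exact hK (ball_subset_closedBall (C.supp i y h0).2)
      rw [this, mul_zero, mul_zero, zero_mul]
  · obtain ⟨h1, h2⟩ := up_out C (tr C (fun ζ => C.cf β i ((chartAt ℂ (C.p i)).symm ζ)) i) hy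
    have : C.ρ i y = 0 := by
      by_contra h0
      exact hy (C.supp i y h0).1
    exact ⟨h1, by rw [h2, this, term_out C _ hy, zero_mul, add_zero]⟩

end KerBP

open KerBP in
theorem kerB (hA : S_KerA) : S_KerB := by
  intro Y _ _ _ C
  refine ⟨fun a ha => ?_, fun β hβ => ?_⟩
  · rw [err_eq]
    exact mem_LExS.mp ((LExS Y).sum_mem fun i _ => mem_LExS.mpr (lex_term C (ha i)))
  · have h := fun i y => piece C i ((hA Y C).1 β hβ i).2 y
    refine ⟨fun y => ∑ i, up C (tr C (fun ζ => C.cf β i ((chartAt ℂ (C.p i)).symm ζ)) i) i y,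
      fun y => ⟨sm_sum fun i _ => (h i y).1, ?_⟩⟩
    rw [Db_sum fun i _ => (h i y).1, Finset.sum_congr rfl fun i _ => (h i y).2,
      Finset.sum_add_distrib, ← Finset.sum_mul, C.sum, one_mul, err_eq, Pi.add_apply,
      Finset.sum_apply]

end Pool.Agent.P.MP_5d7cf0_gt.T
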