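import Pool.Agent.P.MP_5d7cf0_gt.T.St

/-!
Package Lift: lifting an isotopy of the base of a branched covering whose branch points have
one preimage each.
-/

open Set Filter Topology

noncomputable section

namespace Pool.Agent.P.MP_5d7cf0_gt.T

namespace LiftP

/-- a map into a compact space is continuous at a point over which the fibre is one point -/
lemma cont_of_fibre {W Y' Z : Type} [TopologicalSpace W] [TopologicalSpace Y']
    [TopologicalSpace Z] [T2Space Z] [CompactSpace Y'] (f' : C(Y', Z)) (u : W → Y') (w : W)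
    (hc : ContinuousAt (f' ∘ u) w) (hf : ∀ y, f' y = f' (u w) → y = u w) : ContinuousAt u w := by
  refine tendsto_nhds_of_unique_mapClusterPt fun y hy => hf y ?_
  have h1 : MapClusterPt (f' y) (𝓝 w) (f' ∘ u) := hy.continuousAt_comp f'.continuous.continuousAt
  have h2 : ClusterPt (f' y) (𝓝 ((f' ∘ u) w)) := ClusterPt.mono h1 hc
  exact eq_of_nhds_neBot h2

/-- the quotient isotopy -/
lemma exGam {Z : Type} [TopologicalSpace Z] [T2Space Z] [CompactSpace Z]
    (G G' : C(unitInterval × Z, Z)) (hG' : ∀ s, Function.Bijective fun z => G' (s, z)) :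
    ∃ Γ : C(unitInterval × Z, Z), ∀ s z, G' (s, Γ (s, z)) = G (s, z) := by
  let Φ : unitInterval × Z → unitInterval × Z := fun q => (q.1, G' q)
  have hΦ : Function.Bijective Φ := by
    constructor
    · rintro ⟨s, z⟩ ⟨s', z'⟩ h
      have h1 : s = s' := congrArg Prod.fst h
      subst h1
      have h2 : G' (s, z) = G' (s, z') := congrArg Prod.snd h
      rw [(hG' s).1 h2]
    · rintro ⟨s, z⟩
      obtain ⟨z', hz'⟩ := (hG' s).2 z
      exact ⟨(s, z'), Prod.ext rfl hz'⟩
  have hc : Continuous (Equiv.ofBijective Φ hΦ) := continuous_fst.prodMk G'.continuous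
  let Ψ := hc.homeoOfEquivCompactToT2
  refine ⟨⟨fun q => (Ψ.symm (q.1, G q)).2, continuous_snd.comp (Ψ.symm.continuous.comp
    (continuous_fst.prodMk G.continuous))⟩, fun s z => ?_⟩
  have h : Φ (Ψ.symm (s, G (s, z))) = (s, G (s, z)) := Ψ.apply_symm_apply _
  have h1 : (Ψ.symm (s, G (s, z))).1 = s := congrArg Prod.fst h
  have h2 : G' (Ψ.symm (s, G (s, z))) = G (s, z) := congrArg Prod.snd h
  change G' (s, (Ψ.symm (s, G (s, z))).2) = G (s, z)
  have h3 : (s, (Ψ.symm (s, G (s, z))).2) = Ψ.symm (s, G (s, z)) := Prod.ext h1.symm rfl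
  rw [h3, h2]

lemma core {Y Y' Z : Type} [TopologicalSpace Y] [TopologicalSpace Y'] [TopologicalSpace Z]
    [T2Space Y'] [T2Space Z] [CompactSpace Y] [CompactSpace Y'] (f : C(Y, Z)) (f' : C(Y', Z))
    (r : Fin 6 → Y) (r' : Fin 6 → Y') (Γ : C(unitInterval × Z, Z)) (j : Y ≃ₜ Y')
    (hr : ∀ i y, f y = f (r i) → y = r i) (hr' : ∀ i y, f' y = f' (r' i) → y = r' i)
    (cov : IsCoveringMapOn f' (range (f' ∘ r'))ᶜ)
    (hΓ : ∀ s, Function.Bijective fun z => Γ (s, z))
    (hb : ∀ s i, Γ (s, f (r i)) = f' (r' i)) (h0 : ∀ y, Γ (0, f y) = f' (j y)) :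
    ∃ j₁ : Y ≃ₜ Y', ContinuousMap.Homotopic (j : C(Y, Y')) (j₁ : C(Y, Y')) ∧
      (∀ i, j₁ (r i) = r' i) ∧ ∀ y, f' (j₁ y) = Γ (1, f y) := by
  classical
  have : T2Space Y := j.symm.t2Space
  set B : Set Z := (range (f' ∘ r'))ᶜ with hB
  have p := cov.isCoveringMap_restrictPreimage
  have hjr : ∀ i, j (r i) = r' i := fun i => hr' i _ (by rw [← h0, hb])
  have hz : ∀ z, (∀ i, z ≠ f (r i)) → ∀ s, Γ (s, z) ∈ B := by
    rintro z hz s ⟨i, hi⟩
    exact hz i ((hΓ s).1 (show Γ (s, z) = Γ (s, f (r i)) by rw [hb]; exact hi.symm))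
  have hA : ∀ y, y ∉ range r → ∀ s, Γ (s, f y) ∈ B := fun y hy =>
    hz _ fun i hi => hy ⟨i, (hr i y hi).symm⟩
  let A := {y : Y // y ∉ range r}
  let H : C(unitInterval × A, B) :=
    ⟨fun q => ⟨Γ (q.1, f q.2.1), hA _ q.2.2 _⟩, by
      refine Continuous.subtype_mk ?_ _
      exact Γ.continuous.comp (continuous_fst.prodMk
        (f.continuous.comp (continuous_subtype_val.comp continuous_snd)))⟩
  let e0 : C(A, f' ⁻¹' B) :=
    ⟨fun a => ⟨j a.1, by
      change f' (j a.1) ∈ B
      rw [← h0]; exact hA _ a.2 _⟩, by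
      refine Continuous.subtype_mk ?_ _
      exact j.continuous.comp continuous_subtype_val⟩
  have H0 : ∀ a, H (0, a) = B.restrictPreimage f' (e0 a) := fun a => Subtype.ext (h0 a.1)
  let J := p.liftHomotopy H e0 H0
  have Jl : ∀ q, B.restrictPreimage f' (J q) = H q := fun q =>
    congrFun (p.liftHomotopy_lifts H e0 H0) q
  have J0 : ∀ a, J (0, a) = e0 a := p.liftHomotopy_zero H e0 H0
  let K : unitInterval × Y → Y' := fun q =>
    if h : q.2 ∈ range r then j q.2 else (J (q.1, ⟨q.2, h⟩)).1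
  have Kr : ∀ s i, K (s, r i) = r' i := fun s i => by
    have : r i ∈ range r := ⟨i, rfl⟩
    simp only [K, dif_pos this, hjr]
  have Kn : ∀ s y (h : y ∉ range r), K (s, y) = (J (s, ⟨y, h⟩)).1 := fun s y h => by
    simp only [K, dif_neg h]
  have Kf : ∀ s y, f' (K (s, y)) = Γ (s, f y) := by
    intro s y
    by_cases h : y ∈ range r
    · obtain ⟨i, rfl⟩ := h
      rw [Kr, hb]
    · rw [Kn s y h]
      exact congrArg Subtype.val (Jl (s, ⟨y, h⟩))
  have K0 : ∀ y, K (0, y) = j y := by
    intro y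
    by_cases h : y ∈ range r
    · obtain ⟨i, rfl⟩ := h
      rw [Kr, hjr]
    · rw [Kn 0 y h, J0]
      rfl
  have Kc : Continuous K := by
    rw [continuous_iff_continuousAt]
    rintro ⟨s, y⟩
    by_cases h : y ∈ range r
    · obtain ⟨i, rfl⟩ := h
      refine cont_of_fibre f' K _ ?_ ?_
      · have : f' ∘ K = fun q => Γ (q.1, f q.2) := funext fun q => Kf q.1 q.2
        rw [this]
        exact (Γ.continuous.comp (continuous_fst.prodMk
          (f.continuous.comp continuous_snd))).continuousAt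
      · intro y hy
        rw [Kr] at hy ⊢
        exact hr' i y hy
    · have hO : IsOpen {q : unitInterval × Y | q.2 ∉ range r} :=
        ((finite_range r).isClosed.isOpen_compl).preimage continuous_snd
      have hco : ContinuousOn K {q : unitInterval × Y | q.2 ∉ range r} := by
        rw [continuousOn_iff_continuous_domRestrict]
        have : domRestrict {q : unitInterval × Y | q.2 ∉ range r} K =
            fun q => (J (q.1.1, ⟨q.1.2, q.2⟩)).1 := funext fun q => Kn q.1.1 q.1.2 q.2
        rw [this]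
        refine continuous_subtype_val.comp (J.continuous.comp ?_)
        exact (continuous_fst.comp continuous_subtype_val).prodMk
          ((continuous_snd.comp continuous_subtype_val).subtype_mk _)
      exact hco.continuousAt (hO.mem_nhds h)
  have hinj : Function.Injective fun y => K (1, y) := by
    intro y y' hyy
    have hyy' : K (1, y) = K (1, y') := hyy
    have hf : f y = f y' := (hΓ 1).1 (show Γ (1, f y) = Γ (1, f y') by rw [← Kf, ← Kf, hyy'])
    by_cases h : y ∈ range r
    · obtain ⟨i, rfl⟩ := h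
      exact (hr i y' hf.symm).symm
    by_cases h' : y' ∈ range r
    · obtain ⟨i, rfl⟩ := h'
      exact hr i y hf
    have := p.eq_of_comp_eq (g₁ := fun s => J (s, ⟨y, h⟩)) (g₂ := fun s => J (s, ⟨y', h'⟩))
      (J.continuous.comp (Continuous.prodMk_left _)) (J.continuous.comp (Continuous.prodMk_left _))
      (funext fun s => by
        simp only [Function.comp_apply, Jl]
        exact Subtype.ext (show Γ (s, f y) = Γ (s, f y') by rw [hf]))
      1 (Subtype.ext (by rw [← Kn 1 y h, ← Kn 1 y' h', hyy']))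
    have h2 := congrFun this 0
    simp only [J0] at h2
    exact j.injective (congrArg Subtype.val h2)
  have hsurj : Function.Surjective fun y => K (1, y) := by
    intro y'
    by_cases h : f' y' ∈ B
    swap
    · obtain ⟨i, hi⟩ := not_not.1 h
      exact ⟨r i, (Kr 1 i).trans (hr' i y' hi.symm).symm⟩
    obtain ⟨z, hz1⟩ := (hΓ 1).2 (f' y')
    have hz1' : Γ (1, z) = f' y' := hz1
    have hzr : ∀ i, z ≠ f (r i) := by
      intro i hi
      refine h ⟨i, ?_⟩
      rw [← hz1', hi, hb]
      rfl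
    let γ : C(unitInterval, B) :=
      ⟨fun s => ⟨Γ (unitInterval.symm s, z), hz z hzr _⟩, by
        refine Continuous.subtype_mk ?_ _
        exact Γ.continuous.comp (unitInterval.continuous_symm.prodMk continuous_const)⟩
    have γ0 : γ 0 = B.restrictPreimage f' ⟨y', h⟩ :=
      Subtype.ext (show Γ (unitInterval.symm 0, z) = f' y' by rw [unitInterval.symm_zero, hz1'])
    let L := p.liftPath γ ⟨y', h⟩ γ0
    have Ll : ∀ s, B.restrictPreimage f' (L s) = γ s := fun s =>
      congrFun (p.liftPath_lifts γ ⟨y', h⟩ γ0) s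
    have L0 : L 0 = ⟨y', h⟩ := p.liftPath_zero γ ⟨y', h⟩ γ0
    let y := j.symm (L 1).1
    have hjy : j y = (L 1).1 := j.apply_symm_apply _
    have hfy : f y = z := by
      refine (hΓ 0).1 (show Γ (0, f y) = Γ (0, z) from ?_)
      rw [h0, hjy]
      have := congrArg Subtype.val (Ll 1)
      change f' (L 1).1 = Γ (unitInterval.symm 1, z) at this
      rwa [unitInterval.symm_one] at this
    have hy : y ∉ range r := by
      rintro ⟨i, hi⟩
      exact hzr i (by rw [← hfy, hi])
    have := p.eq_of_comp_eq (g₁ := fun s => J (s, ⟨y, hy⟩))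
      (g₂ := fun s => L (unitInterval.symm s))
      (J.continuous.comp (Continuous.prodMk_left _))
      (L.continuous.comp unitInterval.continuous_symm)
      (funext fun s => by
        simp only [Function.comp_apply, Jl, Ll]
        exact Subtype.ext (show Γ (s, f y) = Γ (unitInterval.symm (unitInterval.symm s), z) by
          rw [hfy, unitInterval.symm_symm]))
      0 (by
        simp only [J0, unitInterval.symm_zero]
        exact Subtype.ext hjy)
    have h2 := congrFun this 1
    simp only [unitInterval.symm_one, L0] at h2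
    refine ⟨y, ?_⟩
    change K (1, y) = y'
    rw [Kn 1 y hy, h2]
  have hc1 : Continuous (Equiv.ofBijective (fun y => K (1, y)) ⟨hinj, hsurj⟩) :=
    Kc.comp (Continuous.prodMk_right _)
  refine ⟨hc1.homeoOfEquivCompactToT2, ⟨⟨⟨K, Kc⟩, K0, fun y => rfl⟩⟩, fun i => Kr 1 i,
    fun y => Kf 1 y⟩

end LiftP

theorem hL : S_HL := by
  intro Y Y' Z _ _ _ _ _ _ _ _ f f' r r' G G' j hr hr' cov hG hG' hb h0
  obtain ⟨Γ, hΓ⟩ := LiftP.exGam G G' hG'
  have hbij : ∀ s, Function.Bijective fun z => Γ (s, z) := fun s => by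
    have : (fun z => G' (s, z)) ∘ (fun z => Γ (s, z)) = fun z => G (s, z) :=
      funext fun z => hΓ s z
    exact (Function.Bijective.of_comp_iff' (hG' s) _).1 (this ▸ hG s)
  obtain ⟨j₁, h1, h2, h3⟩ := LiftP.core f f' r r' Γ j hr hr' cov hbij
    (fun s i => (hG' s).1 (show G' (s, Γ (s, f (r i))) = G' (s, f' (r' i)) by rw [hΓ, hb]))
    (fun y => (hG' 0).1 (show G' (0, Γ (0, f y)) = G' (0, f' (j y)) by rw [hΓ, h0]))
  exact ⟨j₁, h1, h2, fun y => by rw [h3, hΓ]⟩

end Pool.Agent.P.MP_5d7cf0_gt.T
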