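import Pool.Agent.P.MP_5d7cf0_gt.T.RS

/-!
Package Norm: a function of degree two with six finite branch points can be normalised so that
the branch points are `0, x₀, x₁, x₂, 1, ∞`.
-/

open Set Filter Topology Manifold Metric
open scoped ContDiff

namespace Pool.Agent.P.MP_5d7cf0_gt.T

namespace NormP

/-- a fractional linear map -/
noncomputable def mo (a b c d t : ℂ) : ℂ := (a * t + b) / (c * t + d)

theorem mo_an (a b : ℂ) {c d t : ℂ} (h : c * t + d ≠ 0) : AnalyticAt ℂ (mo a b c d) t :=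
  AnalyticAt.div (f := fun t => a * t + b) (g := fun t => c * t + d) (by fun_prop) (by fun_prop) h

theorem mo_deriv {a b c d t : ℂ} (h : c * t + d ≠ 0) (h' : a * d - b * c ≠ 0) :
    deriv (mo a b c d) t ≠ 0 := by
  have h1 : HasDerivAt (fun t => a * t + b) a t := by
    simpa using ((hasDerivAt_id t).const_mul a).add_const b
  have h2 : HasDerivAt (fun t => c * t + d) c t := by
    simpa using ((hasDerivAt_id t).const_mul c).add_const d
  have h3 : deriv (mo a b c d) t = _ := (h1.div h2 h).deriv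
  rw [h3]
  refine div_ne_zero ?_ (pow_ne_zero 2 h)
  rw [show a * (c * t + d) - (a * t + b) * c = a * d - b * c by ring]
  exact h'

theorem mo_inj {a b c d t s : ℂ} (h : c * t + d ≠ 0) (hs : c * s + d ≠ 0) (h' : a * d - b * c ≠ 0)
    (e : mo a b c d t = mo a b c d s) : t = s := by
  rw [mo, mo, div_eq_div_iff h hs] at e
  have : (a * d - b * c) * (t - s) = 0 := by linear_combination e
  exact sub_eq_zero.mp ((mul_eq_zero.mp this).resolve_left h')

variable {Y : Type} [TopologicalSpace Y] [ChartedSpace ℂ Y]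

theorem comp_mo {u g : Y → ℂ} {y : Y} {a b c d : ℂ} (hu : An u y) (h : c * u y + d ≠ 0)
    (h' : a * d - b * c ≠ 0) (e : g =ᶠ[𝓝 y] fun y => mo a b c d (u y)) :
    An g y ∧ (D u y ≠ 0 → D g y ≠ 0) := by
  refine ⟨(hu.comp (mo_an a b h)).congr e.symm, fun h0 => ?_⟩
  rw [D_congr e, D_comp hu (mo_an a b h).differentiableAt]
  exact mul_ne_zero (mo_deriv h h') h0

open Classical in
/-- the normalised function -/
noncomputable def gg (f : Y → ℂ) (P : Finset Y) (κ b₀ b₅ : ℂ) (y : Y) : ℂ :=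
  if y ∈ P then κ else mo κ (-(κ * b₀)) 1 (-b₅) (f y)

open Classical in
/-- the new exchange map -/
noncomputable def io (ι : Y → Y) (p q : Y) (y : Y) : Y :=
  if y = p then q else if y = q then p else ι y

theorem gg_pole [T1Space Y] {f : Y → ℂ} {P : Finset Y} {κ b₀ b₅ : ℂ} {p : Y} (hp : p ∈ P)
    (hf : SP f p) (hκ : κ ≠ 0) (hb : b₀ ≠ b₅) :
    An (gg f P κ b₀ b₅) p ∧ D (gg f P κ b₀ b₅) p ≠ 0 := by
  classical
  obtain ⟨φ, h1, h2, h3, h4⟩ := hf
  have e : gg f P κ b₀ b₅ =ᶠ[𝓝 p] fun y => mo (-(κ * b₀)) κ (-b₅) 1 (φ y) := by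
    have h5 : ∀ᶠ y in 𝓝 p, y ∉ P.erase p :=
      (P.erase p).finite_toSet.isClosed.isOpen_compl.mem_nhds (by simp)
    filter_upwards [eventually_nhdsWithin_iff.mp h4, h5] with y h6 h7
    by_cases hy : y = p
    · subst hy
      simp [gg, hp, mo, h2]
    · have h8 : y ∉ P := fun h => h7 (Finset.mem_erase.mpr ⟨hy, h⟩)
      have h9 : φ y * f y = 1 := h6 hy
      have h10 : φ y ≠ 0 := left_ne_zero_of_mul_eq_one h9
      rw [gg, if_neg h8, mo, mo, ← mul_div_mul_left _ _ h10]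
      congr 1
      · linear_combination κ * h9
      · linear_combination h9
  have h := comp_mo h1 (by simp [h2]) (by
    rw [show -(κ * b₀) * 1 - κ * -b₅ = κ * (b₅ - b₀) by ring]
    exact mul_ne_zero hκ (sub_ne_zero.mpr hb.symm)) e
  exact ⟨h.1, h.2 h3⟩

omit [ChartedSpace ℂ Y] in
theorem gg_near [T1Space Y] {f : Y → ℂ} {P : Finset Y} (κ b₀ b₅ : ℂ) {y : Y} (hy : y ∉ P) :
    gg f P κ b₀ b₅ =ᶠ[𝓝 y] fun y => mo κ (-(κ * b₀)) 1 (-b₅) (f y) := by
  have h5 : ∀ᶠ y' in 𝓝 y, y' ∉ P := P.finite_toSet.isClosed.isOpen_compl.mem_nhds hy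
  filter_upwards [h5] with y' h using if_neg h

theorem den_ne {z b : ℂ} (h : z ≠ b) : 1 * z + -b ≠ 0 := by
  rw [one_mul, ← sub_eq_add_neg]
  exact sub_ne_zero.mpr h

theorem det_ne {κ b₀ b₅ : ℂ} (hκ : κ ≠ 0) (hb : b₀ ≠ b₅) : κ * -b₅ - -(κ * b₀) * 1 ≠ 0 := by
  rw [show κ * -b₅ - -(κ * b₀) * 1 = κ * (b₀ - b₅) by ring]
  exact mul_ne_zero hκ (sub_ne_zero.mpr hb)

theorem mo_ne {κ b₀ b₅ z : ℂ} (hκ : κ ≠ 0) (hb : b₀ ≠ b₅) (h : z ≠ b₅) :
    mo κ (-(κ * b₀)) 1 (-b₅) z ≠ κ := by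
  rw [mo, Ne, div_eq_iff (den_ne h)]
  intro e
  exact det_ne hκ hb (by linear_combination -e)

theorem fib_r {f : Y → ℂ} {P R : Finset Y} {ι : Y → Y} (hT : Two f P R ι) {r y : Y} (hr : r ∈ R)
    (hy : y ∉ P) (e : f y = f r) : y = r := by
  have h1 := hT.disj r hr
  rcases (hT.fib r h1 y hy).mp e with h | h
  · exact h
  · rw [h, (hT.fix r h1).mpr hr]

open Classical in
theorem two_gg [T1Space Y] {f : Y → ℂ} {p q : Y} {R : Finset Y} {ι : Y → Y} (hpq : p ≠ q)
    (hT : Two f {p, q} R ι) (hp : SP f p) (hq : SP f q) {κ b₀ : ℂ} {r : Y} (hr : r ∈ R)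
    (hκ : κ ≠ 0) (hb : b₀ ≠ f r) :
    Two (gg f {p, q} κ b₀ (f r)) {r} (R.erase r) (io ι p q) := by
  have hP : ∀ y, y ∈ ({p, q} : Finset Y) ↔ y = p ∨ y = q := fun y => by simp
  have hSP : ∀ y ∈ ({p, q} : Finset Y), SP f y := fun y hy => by
    rcases (hP y).mp hy with rfl | rfl
    · exact hp
    · exact hq
  have hrP := hT.disj r hr
  have hne : ∀ y, y ∉ ({p, q} : Finset Y) → y ∉ ({r} : Finset Y) → f y ≠ f r :=
    fun y h1 h2 e => h2 (Finset.mem_singleton.mpr (fib_r hT hr h1 e))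
  have hio : ∀ y, y ∉ ({p, q} : Finset Y) → io ι p q y = ι y := fun y h => by
    rw [hP, not_or] at h
    rw [io, if_neg h.1, if_neg h.2]
  have hio' : ∀ y, y ∈ ({p, q} : Finset Y) → io ι p q y ∈ ({p, q} : Finset Y) ∧ io ι p q y ≠ y ∧
      ∀ y' ∈ ({p, q} : Finset Y), y' = y ∨ y' = io ι p q y := fun y h => by
    rcases (hP y).mp h with rfl | rfl
    · simp [io, hpq.symm]
    · simp [io, hpq.symm, hpq]
  have hAD : ∀ y, y ∉ ({r} : Finset Y) → An (gg f {p, q} κ b₀ (f r)) y ∧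
      (y ∉ R → D (gg f {p, q} κ b₀ (f r)) y ≠ 0) := fun y hy => by
    by_cases h1 : y ∈ ({p, q} : Finset Y)
    · exact ⟨(gg_pole h1 (hSP y h1) hκ hb).1, fun _ => (gg_pole h1 (hSP y h1) hκ hb).2⟩
    · have h := comp_mo (hT.an y h1) (den_ne (hne y h1 hy)) (det_ne hκ hb)
        (gg_near κ b₀ (f r) h1)
      exact ⟨h.1, fun h2 => h.2 (hT.der y h1 h2)⟩
  refine ⟨fun y hy => (hAD y hy).1, fun s hs => ?_, Finset.singleton_nonempty r,
    fun s hs => by simpa using (Finset.mem_erase.mp hs).1, fun y hy hy' => (hAD y hy).2 fun h =>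
      hy' (Finset.mem_erase.mpr ⟨by simpa using hy, h⟩), fun y hy => ?_, fun y hy y' hy' => ?_,
    fun y hy => ?_⟩
  · obtain rfl := Finset.mem_singleton.mp hs
    have hc := (hT.an s hrP).continuousAt.tendsto
    have h0 : κ * f s + -(κ * b₀) ≠ 0 := by
      rw [show κ * f s + -(κ * b₀) = κ * (f s - b₀) by ring]
      exact mul_ne_zero hκ (sub_ne_zero.mpr hb.symm)
    have h1 : Tendsto (fun y => κ * f y + -(κ * b₀)) (𝓝 s) (𝓝 (κ * f s + -(κ * b₀))) :=
      (hc.const_mul κ).add_const _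
    have h2 : Tendsto (fun y => (1 * f y + -f s) / (κ * f y + -(κ * b₀))) (𝓝 s) (𝓝 0) := by
      have := ((hc.const_mul 1).add_const (-f s)).div h1 h0
      rwa [one_mul (f s), add_neg_cancel, zero_div] at this
    have h5 : ∀ᶠ y' in 𝓝 s, y' ∉ ({p, q} : Finset Y) :=
      ({p, q} : Finset Y).finite_toSet.isClosed.isOpen_compl.mem_nhds hrP
    have h3 : Tendsto (fun y => (1 * f y + -f s) / (κ * f y + -(κ * b₀))) (𝓝[≠] s) (𝓝[≠] 0) := by
      refine tendsto_nhdsWithin_iff.mpr ⟨h2.mono_left nhdsWithin_le_nhds, ?_⟩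
      filter_upwards [mem_nhdsWithin_of_mem_nhds (h1.eventually_ne h0),
        mem_nhdsWithin_of_mem_nhds h5, self_mem_nhdsWithin] with y h6 h7 h8
      exact div_ne_zero (den_ne (hne y h7 (by simpa using h8))) h6
    refine (tendsto_inv₀_nhdsNE_zero.comp h3).congr' ?_
    filter_upwards [mem_nhdsWithin_of_mem_nhds (gg_near (f := f) κ b₀ (f s) hrP)] with y h6
    rw [Function.comp, inv_div]
    exact h6.symm
  · rw [Finset.mem_singleton]
    by_cases h1 : y ∈ ({p, q} : Finset Y)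
    · exact fun e => hrP (e ▸ (hio' y h1).1)
    · rw [hio y h1]
      intro e
      exact hne y h1 hy (e ▸ ((hT.fib y h1 _ (hT.mem y h1)).mpr (Or.inr rfl)).symm)
  · by_cases h1 : y ∈ ({p, q} : Finset Y)
    · by_cases h2 : y' ∈ ({p, q} : Finset Y)
      · exact ⟨fun _ => (hio' y h1).2.2 y' h2, fun _ => by rw [gg, gg, if_pos h1, if_pos h2]⟩
      · rw [gg, gg, if_pos h1, if_neg h2]
        refine ⟨fun e => absurd e (mo_ne hκ hb (hne y' h2 hy')), fun e => ?_⟩
        rcases e with e | e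
        · exact absurd (e ▸ h1) h2
        · exact absurd (e ▸ (hio' y h1).1) h2
    · rw [hio y h1]
      by_cases h2 : y' ∈ ({p, q} : Finset Y)
      · rw [gg, gg, if_pos h2, if_neg h1]
        refine ⟨fun e => absurd e.symm (mo_ne hκ hb (hne y h1 hy)), fun e => ?_⟩
        rcases e with e | e
        · exact absurd (e ▸ h2) h1
        · exact absurd (e ▸ h2) (hT.mem y h1)
      · rw [gg, gg, if_neg h2, if_neg h1, ← hT.fib y h1 y' h2]
        exact ⟨mo_inj (den_ne (hne y' h2 hy')) (den_ne (hne y h1 hy)) (det_ne hκ hb),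
          fun e => by rw [e]⟩
  · rw [Finset.mem_erase, and_iff_right (by simpa using hy)]
    by_cases h1 : y ∈ ({p, q} : Finset Y)
    · exact ⟨fun e => absurd e (hio' y h1).2.1, fun e => absurd h1 (hT.disj y e)⟩
    · rw [hio y h1]
      exact hT.fix y h1

end NormP

open NormP in
theorem normal : S_Norm := by
  classical
  intro Y _ _ _ f p q R ι hpq hT hp hq h6
  obtain ⟨r, hri, hrR⟩ : ∃ r : Fin 6 → Y, Function.Injective r ∧ ∀ y, y ∈ R ↔ ∃ i, y = r i := by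
    refine ⟨fun i => (R.equivFinOfCardEq h6).symm i,
      Subtype.val_injective.comp (Equiv.injective _), fun y => ⟨fun h => ?_, ?_⟩⟩
    · exact ⟨R.equivFinOfCardEq h6 ⟨y, h⟩, by simp⟩
    · rintro ⟨i, rfl⟩
      exact ((R.equivFinOfCardEq h6).symm i).2
  have hR : ∀ i, r i ∈ R := fun i => (hrR _).mpr ⟨i, rfl⟩
  have hb : ∀ i k, i ≠ k → f (r i) ≠ f (r k) := fun i k h e =>
    h (hri (fib_r hT (hR k) (hT.disj _ (hR i)) e))
  have h40 : f (r 4) - f (r 0) ≠ 0 := sub_ne_zero.mpr (hb 4 0 (by decide))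
  have h45 : f (r 4) - f (r 5) ≠ 0 := sub_ne_zero.mpr (hb 4 5 (by decide))
  obtain ⟨κ, hκ⟩ : ∃ κ, κ = (f (r 4) - f (r 5)) / (f (r 4) - f (r 0)) := ⟨_, rfl⟩
  have hκ0 : κ ≠ 0 := hκ ▸ div_ne_zero h45 h40
  have h05 := hb 0 5 (by decide)
  have hT' := two_gg hpq hT hp hq (hR 5) hκ0 h05
  obtain ⟨g, hg⟩ : ∃ g, g = gg f {p, q} κ (f (r 0)) (f (r 5)) := ⟨_, rfl⟩
  have hgr : ∀ i, g (r i) = mo κ (-(κ * f (r 0))) 1 (-f (r 5)) (f (r i)) := fun i => by
    rw [hg, gg, if_neg (hT.disj _ (hR i))]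
  rw [← hg] at hT'
  have hom5 : ∀ i, i ≠ 5 → hom g (r 5) (r i) = (g (r i), 1) := fun i h => hom_of_ne g (hri.ne h)
  have hpt : ∀ i, hom g (r 5) (r i) = pt ![g (r 1), g (r 2), g (r 3)] i := fun i => by
    fin_cases i
    · refine (hom5 0 (by decide)).trans (Prod.ext ?_ rfl)
      change g (r 0) = 0
      rw [hgr, mo, add_neg_cancel, zero_div]
    · exact hom5 1 (by decide)
    · exact hom5 2 (by decide)
    · exact hom5 3 (by decide)
    · refine (hom5 4 (by decide)).trans (Prod.ext ?_ rfl)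
      change g (r 4) = 1
      rw [hgr, mo, div_eq_one_iff_eq (den_ne (hb 4 5 (by decide))), ← mul_neg, ← mul_add,
        ← sub_eq_add_neg, hκ, div_mul_cancel₀ _ h40, one_mul, sub_eq_add_neg]
    · exact hom_self g (r 5)
  refine ⟨![g (r 1), g (r 2), g (r 3)], g, r, fun i k hik => ?_, hpt, R.erase (r 5), _, hT',
    fun y => ?_⟩
  · rw [← hpt, ← hpt]
    by_cases hi : i = 5
    · subst hi
      rw [hom_self, hom5 k hik.symm]
      simp [br]
    · rw [hom5 i hi]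
      by_cases hk : k = 5
      · subst hk
        rw [hom_self]
        simp [br]
      · rw [hom5 k hk, br, mul_one, one_mul, hgr, hgr]
        exact sub_ne_zero.mpr fun e => hb i k hik
          (mo_inj (den_ne (hb i 5 hi)) (den_ne (hb k 5 hk)) (det_ne hκ0 h05) e)
  · rw [Finset.mem_erase, hrR]
    constructor
    · rintro ⟨h1, i, rfl⟩
      exact ⟨i, fun e => h1 (by rw [e]), rfl⟩
    · rintro ⟨i, h1, rfl⟩
      exact ⟨hri.ne h1, i, rfl⟩

end Pool.Agent.P.MP_5d7cf0_gt.T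

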