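import Pool.Agent.P.MP_5d7cf0_gt.T.RS
import Pool.Agent.P.MP_5d7cf0_gt.T.Lift
import Pool.Agent.P.MP_5d7cf0_gt.T.Mot

/-!
Package PL: labelled equivalence propagates along paths of branch points.
-/

open Set Filter Topology Metric

noncomputable section

namespace Pool.Agent.P.MP_5d7cf0_gt.T

namespace PLP

variable {R : E → ℝ} {h k : E → E → ℂ → ℂ}

theorem map_cont (hM : Mot R h k) {x : E} (hx : x ∈ X) :
    Continuous fun q : E × OnePoint ℂ => OnePoint.map (h x q.1) q.2 := by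
  refine continuous_iff_continuousAt.2 fun ⟨a, ζ⟩ => ?_
  induction ζ using OnePoint.rec with
  | coe z =>
    have he := (IsOpenEmbedding.id (X := E)).prodMap (OnePoint.isOpenEmbedding_coe (X := ℂ))
    exact (he.continuousAt_iff (x := (a, z))).1
      (OnePoint.continuous_coe.comp (hM.cont x hx)).continuousAt
  | infty =>
    obtain ⟨C, hC⟩ := hM.far x hx
    have h1 : (((↑) '' closedBall (0 : ℂ) C : Set (OnePoint ℂ))ᶜ) ∈ 𝓝 OnePoint.infty :=
      (OnePoint.isOpen_compl_image_coe.2 ⟨isClosed_closedBall, isCompact_closedBall _ _⟩).mem_nhds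
        OnePoint.infty_notMem_image_coe
    refine continuousAt_snd.congr ?_
    filter_upwards [continuousAt_snd (p := (a, OnePoint.infty)) h1] with ⟨b, ξ⟩ hq
    induction ξ using OnePoint.rec with
    | infty => rfl
    | coe z =>
      have : C ≤ ‖z‖ := by
        by_contra h2
        exact hq ⟨z, mem_closedBall_zero_iff.2 (not_le.1 h2).le, rfl⟩
      simp only [OnePoint.map_some, hC b z this]

theorem map_bij (hM : Mot R h k) {x a : E} (hx : x ∈ X) (ha : a ∈ ball x (R x)) :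
    Function.Bijective (OnePoint.map (h x a)) := by
  refine Function.bijective_iff_has_inverse.2 ⟨OnePoint.map (k x a), fun ζ => ?_, fun ζ => ?_⟩
  · induction ζ using OnePoint.rec with
    | infty => rfl
    | coe z => simp only [OnePoint.map_some, (hM.inv x hx a ha z).1]
  · induction ζ using OnePoint.rec with
    | infty => rfl
    | coe z => simp only [OnePoint.map_some, (hM.inv x hx a ha z).2]

theorem map_pt (hM : Mot R h k) {x : E} (hx : x ∈ X) (a : E) (i : Fin 6) :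
    OnePoint.map (h x a) (prj (pt x i)) = prj (pt a i) := by
  by_cases hi : i = 5
  · rw [hi, pt_five, pt_five, prj_inf]; rfl
  · rw [pt_of_ne x hi, pt_of_ne a hi, prj_fin, prj_fin, OnePoint.map_some,
      (hM.near x hx i hi).self_of_nhds a, add_sub_cancel]

variable {S : Type} [TopologicalSpace S] [ChartedSpace ℂ S]

/-- the double cover as a map from `S` to the sphere -/
def hs (τ : Datum S) : S → OnePoint ℂ := hat τ.f (τ.r 5) ∘ τ.M.f

theorem f_rho (τ : Datum S) (i : Fin 6) : τ.M.f (τ.ρ i) = τ.r i := τ.M.f.apply_symm_apply _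

theorem hs_rho (τ : Datum S) (i : Fin 6) : hs τ (τ.ρ i) = prj (pt τ.x i) := by
  rw [hs, Function.comp_apply, f_rho, τ.dbl.hat_r]

theorem notMem_r (τ : Datum S) {s : S} (h : s ∉ range τ.ρ) : τ.M.f s ∉ range τ.r :=
  fun ⟨i, e⟩ => h ⟨i, by rw [Datum.ρ, e, Homeomorph.symm_apply_apply]⟩

theorem hs_of (τ : Datum S) {s : S} (h : s ∉ range τ.ρ) : hs τ s = (τ.F s : ℂ) :=
  hat_of_ne _ fun e => notMem_r τ h ⟨5, e.symm⟩

theorem notMem_map {τ τ' : Datum S} {σ : Equiv.Perm (Fin 6)} {φ : S ≃ₜ S}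
    (hφ : ∀ i, φ (τ.ρ (σ i)) = τ'.ρ i) {s : S} (h : s ∉ range τ.ρ) : φ s ∉ range τ'.ρ :=
  fun ⟨i, e⟩ => h ⟨σ i, φ.injective ((hφ i).trans e)⟩

variable [RS S]

theorem cvr (hC : S_Cvr) (τ : Datum S) : Continuous (hs τ) ∧
    (∀ i s, hs τ s = hs τ (τ.ρ i) → s = τ.ρ i) ∧ IsCoveringMapOn (hs τ) (range (hs τ ∘ τ.ρ))ᶜ ∧
    ∀ s, s ∉ range τ.ρ → ∀ i, i ≠ 5 → τ.F s ≠ (pt τ.x i).1 := by
  obtain ⟨h1, h2, h3, h4⟩ := hC τ.M.Y τ.x τ.f τ.r τ.dbl
  refine ⟨h1.comp τ.M.f.continuous, fun i s e => τ.M.f.injective ?_, ?_,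
    fun s h => (h4 _ (notMem_r τ h)).1⟩
  · rw [f_rho]
    refine h2 i _ ?_
    simpa only [hs, Function.comp_apply, f_rho] using e
  · have e : hs τ ∘ τ.ρ = hat τ.f (τ.r 5) ∘ τ.r := funext fun i => by
      simp only [hs, Function.comp_apply, f_rho]
    rw [e]
    exact h3.comp_homeomorph τ.M.f

theorem key (hC : S_Cvr) {τ τ' τ₀ τ₀' : Datum S} {σ : Equiv.Perm (Fin 6)} {a a' : E}
    (d : IsDefo h τ a τ₀) (d' : IsDefo h τ' a' τ₀') {y y' : S} (hy : y ∉ range τ.ρ)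
    (hy' : y' ∉ range τ'.ρ) :
    OnePoint.map (h τ'.x a') (hs τ' y') = mobH σ a (OnePoint.map (h τ.x a) (hs τ y)) ↔
      τ₀'.F y' = mob σ τ₀.x (τ₀.F y) := by
  have h1 := (cvr hC τ₀).2.2.2 y (by rw [d.2.1]; exact hy)
  have h2 := (((mobC.2.2 σ).2 τ₀.x τ₀.dbl.1).2.2 _ h1).1
  rw [hs_of τ hy, hs_of τ' hy', OnePoint.map_some, OnePoint.map_some, ← d.2.2, ← d'.2.2, ← d.1, h2,
    OnePoint.coe_eq_coe]

omit [RS S] in
theorem contG (hM : Mot R h k) {x : E} (hx : x ∈ X) {A : Type} [TopologicalSpace A] {γ : A → E}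
    (hγ : Continuous γ) : Continuous fun q : A × OnePoint ℂ => OnePoint.map (h x (γ q.1)) q.2 :=
  (map_cont hM hx).comp (f := fun q : A × OnePoint ℂ => (γ q.1, q.2))
    ((hγ.comp continuous_fst).prodMk continuous_snd)

theorem contM (σ : Equiv.Perm (Fin 6)) {A : Type} [TopologicalSpace A] {γ : A → E}
    {g : A → OnePoint ℂ} (hγ : Continuous γ) (hg : Continuous g) (hX : ∀ s, γ s ∈ X) :
    Continuous fun q => mobH σ (γ q) (g q) :=
  (mobC.2.2 σ).1.comp_continuous (f := fun q => (γ q, g q)) (hγ.prodMk hg)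
    fun q => ⟨hX q, mem_univ _⟩

end PLP

open PLP in
theorem pL (hC : S_Cvr) (hA : S_Act) : S_PL := by
  intro S _ _ _ R h k hM τ τ' τ₀ τ₁ τ₀' τ₁' σ γ hγ d0 d1 d0' d1' ⟨_, φ, hφ, r0, e0⟩
  have hx := τ.dbl.1
  have hx' := τ'.dbl.1
  have hX : ∀ s, γ s ∈ X := fun s => hM.sub _ hx (hγ s).1
  obtain ⟨c1, c2, -, -⟩ := cvr hC τ
  obtain ⟨c1', c2', c3', -⟩ := cvr hC τ'
  have ca : Continuous fun s => act σ (γ s) := continuous_iff_continuousAt.2 fun s =>
    (((hA.2 σ).1 _ (hX s)).2.2.continuousAt).comp γ.continuous.continuousAt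
  have cG := contM σ (γ := fun q : unitInterval × OnePoint ℂ => γ q.1)
    (γ.continuous.comp continuous_fst) (contG hM hx γ.continuous) fun q => hX q.1
  have cG' := contG hM hx' ca
  have ram : ∀ s i, mobH σ (γ s) (OnePoint.map (h τ.x (γ s)) (hs τ (τ.ρ (σ i)))) =
      OnePoint.map (h τ'.x (act σ (γ s))) (hs τ' (τ'.ρ i)) := fun s i => by
    rw [hs_rho, hs_rho, map_pt hM hx, map_pt hM hx', ((mobC.2.2 σ).2 _ (hX s)).2.1]
  rw [d0.2.1, d0'.2.1] at r0
  obtain ⟨j, j1, j2, j3⟩ := hL S S (OnePoint ℂ) ⟨hs τ, c1⟩ ⟨hs τ', c1'⟩ (τ.ρ ∘ σ) τ'.ρ ⟨_, cG⟩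
    ⟨_, cG'⟩ φ (fun i => c2 (σ i)) c2' c3'
    (fun s => ((mobC.2.2 σ).2 _ (hX s)).1.comp (map_bij hM hx (hγ s).1))
    (fun s => map_bij hM hx' (hγ s).2) ram fun y => by
      by_cases hy : y ∈ range τ.ρ
      · obtain ⟨i, rfl⟩ := hy
        obtain ⟨i, rfl⟩ := σ.surjective i
        have := ram 0 i
        rw [← r0 i] at this
        exact this.symm
      · exact (key hC d0 d0' hy (notMem_map r0 hy)).2 (e0 y (by rw [d0.2.1]; exact hy))
  refine ⟨by rw [d1.1, d1'.1], j, j1.symm.trans hφ, fun i => ?_, fun s hs' => ?_⟩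
  · rw [d1.2.1, d1'.2.1]; exact j2 i
  · rw [d1.2.1] at hs'
    exact (key hC d1 d1' hs' (notMem_map j2 hs')).1 (j3 s)

end Pool.Agent.P.MP_5d7cf0_gt.T
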