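import Pool.Agent.P.MP_5d7cf0_gt.T.RS
import Pool.Agent.P.MP_5d7cf0_gt.T.TopA
import Pool.Agent.P.MP_5d7cf0_gt.T.TopB

/-!
Periods of holomorphic one-forms.
-/

open Set Filter Topology Manifold Metric ComplexConjugate
open scoped ContDiff

namespace Pool.Agent.P.MP_5d7cf0_gt.T

namespace PerP

variable {Y : Type} [TopologicalSpace Y] {c c' : PF Y}

theorem isAdd_add (h : IsAdd c) (h' : IsAdd c') : IsAdd (c + c') where
  trans a b d p q := by
    simp only [Pi.add_apply]
    rw [h.trans, h'.trans]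
    ring
  homot a b p q e := by
    simp only [Pi.add_apply]
    rw [h.homot a b p q e, h'.homot a b p q e]

theorem isAdd_smul (t : ℂ) (h : IsAdd c) : IsAdd (t • c) where
  trans a b d p q := by
    simp only [Pi.smul_apply, smul_eq_mul]
    rw [h.trans]
    ring
  homot a b p q e := by
    simp only [Pi.smul_apply]
    rw [h.homot a b p q e]

theorem isAdd_conj (h : IsAdd c) : IsAdd fun a b p => conj (c a b p) where
  trans a b d p q := by rw [h.trans, map_add]
  homot a b p q e := by rw [h.homot a b p q e]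

variable [ChartedSpace ℂ Y] {w w' : Y → ℂ}

theorem rep_add (h : Rep c w) (h' : Rep c' w') : Rep (c + c') (w + w') := by
  refine ⟨isAdd_add h.1 h'.1, fun y => ?_⟩
  obtain ⟨V, hV, F, hF, hc⟩ := h.2 y
  obtain ⟨V', hV', F', hF', hc'⟩ := h'.2 y
  refine ⟨V ∩ V', inter_mem hV hV', fun z => F z + F' z, fun z hz => ?_, fun a b p hp => ?_⟩
  · refine ⟨(hF z hz.1).1.add (hF' z hz.2).1, ?_⟩
    rw [D_add (hF z hz.1).1 (hF' z hz.2).1, (hF z hz.1).2, (hF' z hz.2).2, Pi.add_apply]
  · simp only [Pi.add_apply]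
    rw [hc a b p (hp.trans inter_subset_left), hc' a b p (hp.trans inter_subset_right)]
    ring

theorem rep_smul (t : ℂ) (h : Rep c w) : Rep (t • c) (t • w) := by
  refine ⟨isAdd_smul t h.1, fun y => ?_⟩
  obtain ⟨V, hV, F, hF, hc⟩ := h.2 y
  refine ⟨V, hV, fun z => t * F z, fun z hz => ?_, fun a b p hp => ?_⟩
  · refine ⟨(an_const t).mul (hF z hz).1, ?_⟩
    rw [D_const_mul t (hF z hz).1, (hF z hz).2, Pi.smul_apply, smul_eq_mul]
  · simp only [Pi.smul_apply, smul_eq_mul]
    rw [hc a b p hp]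
    ring

theorem rep_sub (h : Rep c w) (h' : Rep c' w') : Rep (c - c') (w - w') := by
  have := rep_add h (rep_smul (-1) h')
  rwa [neg_one_smul, neg_one_smul, ← sub_eq_add_neg, ← sub_eq_add_neg] at this

variable [RS Y]

theorem rep_mem (h : Rep c w) : w ∈ Om Y := fun y => by
  obtain ⟨V, hV, F, hF, -⟩ := h.2 y
  refine (hF y (mem_of_mem_nhds hV)).1.hf.congr ?_
  filter_upwards [hV] with z hz using (hF z hz).2

theorem rep_unique (h : Rep c w) (h' : Rep c' w) : c = c' := by
  have h0 := rep_sub h h'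
  rw [sub_self] at h0
  have := locAdd Y (c - c') h0.1 fun y => by
    obtain ⟨V, hV, F, hF, hc⟩ := h0.2 y
    have h1 : ∀ᶠ z in 𝓝 y, F z = F y :=
      (hF y (mem_of_mem_nhds hV)).1.eventually_const (by
        filter_upwards [hV] with z hz using (hF z hz).2)
    refine ⟨V ∩ {z | F z = F y}, inter_mem hV h1, fun a b p hp => ?_⟩
    rw [hc a b p (hp.trans inter_subset_left), (hp p.source_mem_range).2, (hp p.target_mem_range).2,
      sub_self]
  funext a b p
  exact sub_eq_zero.mp (this a b p)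

theorem exists_prim {y : Y} (hw : Hf w y) :
    ∃ V : Set Y, (IsOpen V ∧ y ∈ V) ∧ ∃ F : Y → ℂ, ∀ z ∈ V, An F z ∧ D F z = w z := by
  have hy := mem_chart_source ℂ y
  obtain ⟨r, hr, hb⟩ := Metric.eventually_nhds_iff_ball.mp (AnalyticAt.eventually_analyticAt hw)
  obtain ⟨G, hG⟩ := DifferentiableOn.isExactOn_ball
    (f := loc (fun z => w z / D (zc y) z) y) (c := zc y y) (r := r)
    fun z hz => (hb z hz).differentiableAt.differentiableWithinAt
  have hGa : AnalyticOnNhd ℂ G (ball (zc y y) r) :=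
    DifferentiableOn.analyticOnNhd
      (fun z hz => (hG z hz).differentiableAt.differentiableWithinAt) isOpen_ball
  refine ⟨(chartAt ℂ y).source ∩ zc y ⁻¹' ball (zc y y) r,
    ⟨(chartAt ℂ y).isOpen_inter_preimage isOpen_ball, hy, mem_ball_self hr⟩,
    fun z => G (zc y z), fun z hz => ⟨(an_zc hz.1).comp (hGa _ hz.2), ?_⟩⟩
  rw [D_comp (an_zc hz.1) (hG _ hz.2).differentiableAt, (hG _ hz.2).deriv, loc_zc hz.1,
    div_mul_cancel₀ _ (D_zc_ne hz.1)]

/-- the local form of a primitive of `c + conj c'` -/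
theorem local_form (h : Rep c w) (h' : Rep c' w') {U : Y → ℂ}
    (hU : ∀ (a b : Y) (p : Path a b), c a b p + conj (c' a b p) = U b - U a) (y : Y) :
    ∃ F G : Y → ℂ, ∀ᶠ z in 𝓝 y, (An F z ∧ D F z = w z) ∧ (An G z ∧ D G z = w' z) ∧
      U z = U y + (F z - F y) + conj (G z - G y) := by
  obtain ⟨V, hV, F, hF, hc⟩ := h.2 y
  obtain ⟨V', hV', G, hG, hc'⟩ := h'.2 y
  obtain ⟨W, ⟨hW, hWc⟩, hWs⟩ := (path_connected_basis y).mem_iff.mp (inter_mem hV hV')
  refine ⟨F, G, ?_⟩
  filter_upwards [hW] with z hz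
  refine ⟨hF z (hWs hz).1, hG z (hWs hz).2, ?_⟩
  obtain ⟨p, hp⟩ := hWc.joinedIn y (mem_of_mem_nhds hW) z hz
  have hp' : range p ⊆ V ∩ V' := range_subset_iff.mpr fun t => hWs (hp t)
  have := hU y z p
  rw [hc y z p (hp'.trans inter_subset_left), hc' y z p (hp'.trans inter_subset_right)] at this
  linear_combination -this

theorem comb_eq_zero (h : Rep c w) (h' : Rep c' w') {U : Y → ℂ}
    (hU : ∀ (a b : Y) (p : Path a b), c a b p + conj (c' a b p) = U b - U a) (t : ℂ) :
    t • w + conj t • w' = 0 := by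
  have hc : Continuous U := continuous_iff_continuousAt.mpr fun y => by
    obtain ⟨F, G, hFG⟩ := local_form h h' hU y
    have h0 := hFG.self_of_nhds
    have h1 : ContinuousAt (fun z => U y + (F z - F y) + conj (G z - G y)) y :=
      (continuousAt_const.add (h0.1.1.continuousAt.sub continuousAt_const)).add
        (Complex.continuous_conj.continuousAt.comp (h0.2.1.1.continuousAt.sub continuousAt_const))
    exact h1.congr (hFG.mono fun z hz => hz.2.2.symm)
  obtain ⟨y, -, hy⟩ := isCompact_univ.exists_isMaxOn (f := fun z => (t * U z).re) univ_nonempty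
    (Complex.continuous_re.comp (continuous_const.mul hc)).continuousOn
  obtain ⟨F, G, hFG⟩ := local_form h h' hU y
  have h0 := hFG.self_of_nhds
  have han : An (fun z => t * F z + conj t * G z) y :=
    ((an_const t).mul h0.1.1).add ((an_const _).mul h0.2.1.1)
  have hmax : IsLocalMax (fun z => (t * F z + conj t * G z).re) y := by
    filter_upwards [hFG] with z hz
    have h1 : (t * U z).re ≤ (t * U y).re := hy (mem_univ z)
    rw [hz.2.2] at h1
    simp only [Complex.add_re, Complex.mul_re, Complex.add_im, Complex.sub_re, Complex.sub_im,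
      Complex.conj_re, Complex.conj_im] at h1 ⊢
    linarith
  refine om_eq_zero ((Om Y).add_mem ((Om Y).smul_mem _ (rep_mem h)) ((Om Y).smul_mem _ (rep_mem h')))
    (y₀ := y) (Eventually.filter_mono nhdsWithin_le_nhds ?_)
  filter_upwards [D_of_const (han.const_of_isLocalMax_re hmax), hFG] with z h1 hz
  rw [D_add ((an_const t).mul hz.1.1) ((an_const _).mul hz.2.1.1), D_const_mul _ hz.1.1,
    D_const_mul _ hz.2.1.1, hz.1.2, hz.2.1.2] at h1
  exact h1

end PerP

open PerP

theorem repEx : S_RepEx := by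
  intro Y _ _ _ w hw
  choose V hV F hF using fun y => exists_prim (hw y)
  obtain ⟨c, hc, hcF⟩ := int Y V F hV fun y y' z hz hz' => by
    refine ((hF y z hz).1.sub (hF y' z hz').1).eventually_const ?_
    filter_upwards [(hV y).1.mem_nhds hz, (hV y').1.mem_nhds hz'] with u hu hu'
    rw [D_sub (hF y u hu).1 (hF y' u hu').1, (hF y u hu).2, (hF y' u hu').2, sub_self]
  exact ⟨c, hc, fun y => ⟨V y, (hV y).1.mem_nhds (hV y).2, F y, hF y, hcF y⟩⟩

theorem per : S_Per := by
  intro Y _ _ _ y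
  obtain ⟨-, h2, h3, -⟩ := ext Y y
  choose c hc using fun w : Om Y => repEx Y w w.2
  choose χ hχ using fun w : Om Y => h2 (c w) (hc w).1
  have key : ∀ (w : Om Y) c', Rep c' w → ∀ p : Path y y, ev (χ w) p = c' y y p :=
    fun w c' h p => by rw [hχ, rep_unique (hc w) h]
  refine ⟨⟨⟨χ, fun w w' => h3 _ _ fun p => ?_⟩, fun t w => h3 _ _ fun p => ?_⟩, key⟩
  · rw [key (w + w') _ (rep_add (hc w) (hc w'))]
    change c w y y p + c w' y y p = ev (χ w) p + ev (χ w') p
    rw [hχ, hχ]
  · rw [key (t • w) _ (rep_smul t (hc w))]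
    change t * c w y y p = t * ev (χ w) p
    rw [hχ]

theorem p1 : S_P1 := by
  intro Y _ _ _ y c c' w w' h h' h0
  obtain ⟨U, hU⟩ := (ext Y y).2.2.2 _ (isAdd_add h.1 (isAdd_conj h'.1)) h0
  have h1 := comb_eq_zero h h' hU 1
  have h2 := comb_eq_zero h h' hU Complex.I
  refine ⟨funext fun z => ?_, funext fun z => ?_⟩ <;>
  · have h3 := congrFun h1 z
    have h4 := congrFun h2 z
    simp only [Pi.add_apply, Pi.smul_apply, smul_eq_mul, map_one, one_mul, Complex.conj_I,
      Pi.zero_apply] at h3 h4 ⊢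
    have h5 : w z - w' z = 0 :=
      (mul_eq_zero.mp (show Complex.I * (w z - w' z) = 0 by linear_combination h4)).resolve_left
        Complex.I_ne_zero
    first
      | linear_combination (h3 + h5) / 2
      | linear_combination (h3 - h5) / 2

theorem p3 : S_P3 := by
  intro Y _ _ _ j hj hh w hw
  obtain ⟨c, hc⟩ := repEx Y w hw
  have h1 : Rep (fun a b p => c _ _ (p.map j.continuous)) (pull j w) := by
    refine ⟨⟨fun a b d p q => ?_, fun a b p q e => hc.1.homot _ _ _ _ (e.map j)⟩, fun y => ?_⟩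
    · rw [Path.map_trans, hc.1.trans]
    · obtain ⟨V, hV, F, hF, hcF⟩ := hc.2 (j y)
      refine ⟨j ⁻¹' V, j.continuous.continuousAt hV, fun z => F (j z), fun z hz =>
        ⟨(hj z).an_comp (hF _ hz).1, ?_⟩, fun a b p hp => hcF _ _ _ ?_⟩
      · rw [(hj z).D_comp (hF _ hz).1, (hF _ hz).2, pull]
      · exact range_subset_iff.mpr fun t => hp (mem_range_self t)
  obtain ⟨e, he⟩ := sq Y Y (.id Y) j c hc.1 hh.symm
  obtain ⟨y⟩ : Nonempty Y := inferInstance
  refine sub_eq_zero.mp (p1 Y y _ _ _ _ (rep_sub h1 hc) (rep_sub hc hc) fun p => ?_).1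
  have := he y y p
  simp only [Pi.sub_apply, sub_self, map_zero, add_zero]
  rw [this, add_sub_cancel_right, sub_eq_zero]
  exact congrArg (c y y) p.map_id

end Pool.Agent.P.MP_5d7cf0_gt.T
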