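import Pool.Agent.P.MP_5d7cf0_gt.T.RS

/-!
A function with two simple poles on a compact Riemann surface of genus two.
-/

open Set Filter Topology Manifold Metric
open scoped ContDiff

noncomputable section

namespace Pool.Agent.P.MP_5d7cf0_gt.T

namespace PqP

variable {Y : Type} [TopologicalSpace Y] [ChartedSpace ℂ Y] [RS Y] {u f : Y → ℂ} {p : Y}

theorem ev_ev {P : Y → Prop} (h : ∀ᶠ y in 𝓝[≠] p, P y) : ∀ᶠ y in 𝓝[≠] p, ∀ᶠ y' in 𝓝 y, P y' := by
  rw [eventually_nhdsWithin_iff] at h ⊢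
  filter_upwards [h.eventually_nhds] with y hy hne
  filter_upwards [hy, isOpen_compl_singleton.mem_nhds hne] with y' h1 h2 using h1 h2

theorem sp_of {a : ℂ} (ha : a ≠ 0) (hu : An u p)
    (h : ∀ᶠ y in 𝓝[≠] p, f y = a / (zc p y - zc p p) + u y) : SP f p := by
  have z : An (fun y => zc p y - zc p p) p := an_zc_self.sub (an_const _)
  have d : An (fun y => a + (zc p y - zc p p) * u y) p := (an_const a).add (z.mul hu)
  have d0 : a + (zc p p - zc p p) * u p ≠ 0 := by simpa using ha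
  refine ⟨fun y => (zc p y - zc p p) * (a + (zc p y - zc p p) * u y)⁻¹, z.mul (d.inv d0), by simp,
    ?_, ?_⟩
  · rw [D_mul z (d.inv d0), D_sub an_zc_self (an_const _), D_zc_self, D_const]
    simpa using ha
  · have t : Tendsto (zc p) (𝓝[≠] p) (𝓝[≠] (zc p p)) := (map_zc_ne (mem_chart_source ℂ p)).le
    filter_upwards [h, t.eventually self_mem_nhdsWithin,
      mem_nhdsWithin_of_mem_nhds (d.continuousAt.eventually_ne d0)] with y h1 h2 h3
    have h4 : zc p y - zc p p ≠ 0 := sub_ne_zero.2 h2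
    have h5 : a + (zc p y - zc p p) * u y ≠ 0 := h3
    rw [h1]
    field_simp

theorem span_two (h : Module.finrank ℂ (Om Y) = 2) {w w₁ : Y → ℂ} (hw : w ∈ Om Y) (h0 : w ≠ 0)
    (hp : w p = 0) (hw₁ : w₁ ∈ Om Y) (h1 : w₁ p ≠ 0) {v : Y → ℂ} (hv : v ∈ Om Y) :
    ∃ a b : ℂ, ∀ y, v y = a * w y + b * w₁ y := by
  have li : LinearIndependent ℂ ![(⟨w, hw⟩ : Om Y), ⟨w₁, hw₁⟩] := by
    rw [LinearIndependent.pair_iff]
    intro s t e
    have e1 : ∀ y, s * w y + t * w₁ y = 0 := fun y => congrFun (congrArg Subtype.val e) y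
    have t0 : t = 0 := by simpa [hp, h1] using e1 p
    refine ⟨?_, t0⟩
    by_contra hs
    exact h0 (funext fun y => by simpa [t0, hs] using e1 y)
  have sp := li.span_eq_top_of_card_eq_finrank (by simp [h])
  have m : (⟨v, hv⟩ : Om Y) ∈ Submodule.span ℂ {(⟨w, hw⟩ : Om Y), ⟨w₁, hw₁⟩} := by
    rw [← Matrix.range_cons_cons_empty _ _ ![], sp]
    trivial
  obtain ⟨a, b, e⟩ := Submodule.mem_span_pair.1 m
  exact ⟨a, b, fun y => (congrFun (congrArg Subtype.val e) y).symm⟩

end PqP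

open PqP

theorem one : S_One := by
  intro Y _ _ _ f p hf ht w hw
  obtain ⟨φ, h1, h2, h3, h4⟩ := exists_inv
    (eventually_nhdsWithin_of_forall fun y hy => (hf y hy).1) ht
  have t : Tendsto (fun y => w y / D f y) (𝓝[≠] p) (𝓝 0) := by
    have a := (((hw p).tendsto.neg.mul h1.continuousAt.tendsto).mono_left
      (nhdsWithin_le_nhds (s := {p}ᶜ))).mul (h1.tendsto_div_D h3)
    rw [mul_zero] at a
    refine a.congr' ?_
    filter_upwards [ev_ev h4, mem_nhdsWithin_of_mem_nhds h1.eventually, h1.eventually_D_ne' h3,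
      mem_nhdsWithin_of_mem_nhds (source_mem (mem_chart_source ℂ p))] with y e1 e2 e3 e4
    have e5 := D_zc_ne e4
    have e6 : φ y ≠ 0 := left_ne_zero_of_mul_eq_one e1.self_of_nhds
    rw [D_of_mul_eq_one e2 e1, h2]
    field_simp
    ring
  obtain ⟨v, hv, hv'⟩ := an_extend (u := fun y => w y / D f y) (finite_singleton p) finite_empty
    (fun y hy _ => (hw y).div_D (hf y hy).1 (hf y hy).2) (fun a ha => ⟨1, by
      rw [ha]
      have := t.norm
      rw [norm_zero] at this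
      exact (this.eventually (gt_mem_nhds one_pos)).mono fun _ h => h.le⟩)
  obtain ⟨c, hc⟩ := const_of_an fun y => hv y (Or.inr (notMem_empty y))
  have c0 : c = 0 := tendsto_nhds_unique (l := 𝓝[≠] p) (tendsto_const_nhds.congr'
    (eventually_nhdsWithin_of_forall fun y hy => (hc y).symm.trans (hv' y hy))) t
  refine om_eq_zero_of_finite hw (finite_singleton p) fun y hy => ?_
  have := (hv' y hy).symm.trans ((hc y).trans c0)
  exact (div_eq_zero_iff.1 this).resolve_right (hf y hy).2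

theorem bpf (hM : S_ML) (hD : S_Deg) : S_Bpf := by
  rintro Y _ _ _ ⟨w, hw, h0⟩ p
  by_contra hn
  push Not at hn
  obtain ⟨f, h1, h2⟩ := hM Y {p} (fun _ => 1) fun v hv => by simp [hn v hv]
  obtain ⟨u, hu, hf⟩ := h2 p (Finset.mem_singleton_self p)
  have sp := sp_of one_ne_zero hu hf
  obtain ⟨C, hC, hc⟩ := hD Y f {p} (Finset.singleton_nonempty p) h1 (by simpa using sp)
  have an : ∀ y, y ≠ p → An f y := fun y hy => h1 y (by simpa using hy)
  refine h0 (one Y f p (fun y hy => ⟨an y hy, fun hd => ?_⟩) sp.tendsto w hw)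
  obtain ⟨n, ψ, a1, a2, a3, a4, a5⟩ := (an y hy).nf fun h =>
    not_const_of_pole (finite_singleton p) an sp.tendsto y (f y) (mem_nhdsWithin_of_mem_nhds h)
  have n2 := (nf_D a1 a2 a3 a4 a5).1 hd
  obtain ⟨c, ⟨s, s1, s2⟩, c2⟩ := ((nf_preimages a1 a2 a3 a4 a5
    (isOpen_compl_singleton.mem_nhds hy)).and (eventually_notMem hC (f y))).exists
  have k := hc c c2
  rw [Finset.card_singleton] at k
  have := ncard_le_ncard (s := (s : Set Y)) (t := {y | y ∉ ({p} : Finset Y) ∧ f y = c})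
    (fun y hy => ⟨by simpa using (s2 y hy).1, (s2 y hy).2⟩) (finite_of_ncard_ne_zero (by omega))
  rw [ncard_coe_finset] at this
  omega

theorem pq (hM : S_ML) (hD : S_Deg) : S_Pq := by
  classical
  intro Y _ _ _ h
  have hb := bpf hM hD Y (exists_ne_zero_of_finrank h)
  by_cases hA : ∃ w ∈ Om Y, w ≠ 0 ∧ ∃ p q, p ≠ q ∧ w p = 0 ∧ w q = 0
  · obtain ⟨w, hw, h0, p, q, hpq, hp, hq⟩ := hA
    obtain ⟨w₁, hw₁, h1⟩ := hb p
    have h2 : w₁ q ≠ 0 := fun e => by
      obtain ⟨v, hv, h3⟩ := hb q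
      obtain ⟨a, b, k⟩ := span_two h hw h0 hp hw₁ h1 hv
      exact h3 (by rw [k, hq, e]; ring)
    obtain ⟨f, k1, k2⟩ := hM Y {p, q} (fun y => if y = p then w₁ q else -w₁ p) fun v hv => by
      obtain ⟨a, b, k⟩ := span_two h hw h0 hp hw₁ h1 hv
      rw [Finset.sum_pair hpq, if_pos rfl, if_neg hpq.symm, k, k, hp, hq]
      ring
    obtain ⟨u, hu, hf⟩ := k2 p (by simp)
    obtain ⟨u', hu', hf'⟩ := k2 q (by simp)
    refine ⟨p, q, f, hpq, fun y a b => k1 y (by simp [a, b]), sp_of ?_ hu hf, sp_of ?_ hu' hf'⟩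
    · rwa [if_pos rfl]
    · rwa [if_neg hpq.symm, neg_ne_zero]
  · exfalso
    push Not at hA
    obtain ⟨p⟩ : Nonempty Y := inferInstance
    obtain ⟨w₁, hw₁, h1⟩ := hb p
    haveI : Module.Finite ℂ (Om Y) := Module.finite_of_finrank_pos (by omega)
    obtain ⟨⟨w, hw⟩, hp, h0⟩ := Submodule.exists_mem_ne_zero_of_ne_bot
      (LinearMap.ker_ne_bot_of_finrank_lt
        (f := (LinearMap.proj p : (Y → ℂ) →ₗ[ℂ] ℂ).comp (Om Y).subtype) (by simp [h]))
    have hp' : w p = 0 := hp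
    have h0' : w ≠ 0 := fun e => h0 (Subtype.ext e)
    have ne : ∀ y, y ≠ p → w y ≠ 0 := fun y hy => hA w hw h0' p y hy.symm hp'
    have quo : ∀ (a b : Y → ℂ) (y : Y),
        (fun z => a z / D (zc y) z / (b z / D (zc y) z)) =ᶠ[𝓝 y] fun z => a z / b z := by
      intro a b y
      filter_upwards [source_mem (mem_chart_source ℂ y)] with z hz
      exact div_div_div_cancel_right₀ (D_zc_ne hz) _ _
    have an : ∀ y, y ≠ p → An (fun z => w₁ z / w z) y := fun y hy =>
      (An.div (hw₁ y) (hw y) (by simpa [D_zc_self] using ne y hy)).congr (quo w₁ w y)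
    have inj : InjOn (fun z => w₁ z / w z) {p}ᶜ := fun y hy z hz e => by
      by_contra hyz
      have m : (w₁ - (w₁ y / w y) • w) ∈ Om Y := (Om Y).sub_mem hw₁ ((Om Y).smul_mem _ hw)
      refine hA _ m (fun e => h1 (by simpa [hp'] using congrFun e p)) y z hyz ?_ ?_
      · simp [ne y hy]
      · have e' : w₁ y / w y = w₁ z / w z := e
        simp [e', ne z hz]
    refine h0' (one Y (fun z => w₁ z / w z) p (fun y hy => ⟨an y hy,
      (an y hy).D_ne_of_injOn (isOpen_compl_singleton.mem_nhds hy) inj⟩) ?_ w hw)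
    have t := ((hw p).tendsto.div (hw₁ p).tendsto h1).congr' (quo w w₁ p)
    rw [hp', zero_div] at t
    have t' : Tendsto (fun z => w z / w₁ z) (𝓝[≠] p) (𝓝[≠] 0) := by
      refine tendsto_nhdsWithin_iff.2 ⟨t.mono_left nhdsWithin_le_nhds, ?_⟩
      filter_upwards [self_mem_nhdsWithin,
        mem_nhdsWithin_of_mem_nhds ((hw₁ p).tendsto.eventually_ne h1)] with y a b
      exact div_ne_zero (ne y a) fun e => b (by simp [e])
    exact (tendsto_inv₀_nhdsNE_zero.comp t').congr fun z => inv_div _ _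

end Pool.Agent.P.MP_5d7cf0_gt.T
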