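import Pool.Agent.P.MP_5d7cf0_gt.T.RS3

/-!
Toolbox, part 4: small facts on the data of a double cover.
-/

open Set Filter Topology Manifold Metric
open scoped ContDiff

namespace Pool.Agent.P.MP_5d7cf0_gt.T

theorem hom_self {A : Type} (f : A → ℂ) (p : A) : hom f p p = (1, 0) := if_pos rfl

theorem hom_of_ne {A : Type} (f : A → ℂ) {p y : A} (h : y ≠ p) : hom f p y = (f y, 1) := if_neg h

theorem prj_fin (z : ℂ) : prj (z, 1) = (z : OnePoint ℂ) := by simp [prj]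

theorem prj_inf (z : ℂ) : prj (z, 0) = OnePoint.infty := by simp [prj]

theorem prj_smul {c : ℂ} (hc : c ≠ 0) (v : ℂ × ℂ) : prj (c • v) = prj v := by
  simp only [prj, Prod.smul_snd, Prod.smul_fst, smul_eq_mul, mul_eq_zero, hc, false_or,
    mul_div_mul_left _ _ hc]

theorem hat_self {A : Type} (f : A → ℂ) (p : A) : hat f p p = OnePoint.infty := by
  rw [hat, hom_self, prj_inf]

theorem hat_of_ne {A : Type} (f : A → ℂ) {p y : A} (h : y ≠ p) : hat f p y = (f y : ℂ) := by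
  rw [hat, hom_of_ne f h, prj_fin]

theorem pt_five (x : E) : pt x 5 = (1, 0) := rfl

theorem pt_of_ne (x : E) {i : Fin 6} (h : i ≠ 5) : pt x i = ((pt x i).1, 1) := by
  fin_cases i <;> first | rfl | exact absurd rfl h

theorem pt_fst_ne {x : E} (hx : x ∈ X) {i k : Fin 6} (hi : i ≠ 5) (hk : k ≠ 5) (h : i ≠ k) :
    (pt x i).1 ≠ (pt x k).1 := fun e => hx i k h (by
  rw [pt_of_ne x hi, pt_of_ne x hk, e, br]
  simp)

variable {Y : Type} [TopologicalSpace Y] [ChartedSpace ℂ Y] {x : E} {f : Y → ℂ} {r : Fin 6 → Y}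

theorem Dbl.inj (h : Dbl x f r) : Function.Injective r := fun i k e => by
  by_contra hne
  refine h.1 i k hne ?_
  rw [← h.2.1 i, ← h.2.1 k, e, br]
  ring

theorem Dbl.ne_five (h : Dbl x f r) {i : Fin 6} (hi : i ≠ 5) : r i ≠ r 5 := h.inj.ne hi

theorem Dbl.f_r (h : Dbl x f r) {i : Fin 6} (hi : i ≠ 5) : f (r i) = (pt x i).1 := by
  rw [← h.2.1 i, hom_of_ne f (h.ne_five hi)]

theorem Dbl.hat_r (h : Dbl x f r) (i : Fin 6) : hat f (r 5) (r i) = prj (pt x i) := by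
  rw [hat, h.2.1]

/-- the data of `Two` in a convenient form -/
theorem Dbl.two (h : Dbl x f r) : ∃ R ι, Two f {r 5} R ι ∧ (∀ y, y ∈ R ↔ ∃ i, i ≠ 5 ∧ y = r i) ∧
    ∀ y, y ∉ range r ↔ y ∉ ({r 5} : Finset Y) ∧ y ∉ R := by
  obtain ⟨R, ι, h1, h2⟩ := h.2.2
  refine ⟨R, ι, h1, h2, fun y => ?_⟩
  rw [Finset.mem_singleton, h2, ← not_or, not_iff_not]
  constructor
  · rintro ⟨i, rfl⟩
    by_cases hi : i = 5
    · exact Or.inl (hi ▸ rfl)
    · exact Or.inr ⟨i, hi, rfl⟩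
  · rintro (rfl | ⟨i, -, rfl⟩)
    exacts [⟨5, rfl⟩, ⟨i, rfl⟩]

theorem Dbl.an (h : Dbl x f r) {y : Y} (hy : y ≠ r 5) : An f y := by
  obtain ⟨R, ι, h1, -⟩ := h.2.2
  exact h1.an y (by simpa using hy)

theorem Dbl.D_ne (h : Dbl x f r) {y : Y} (hy : y ∉ range r) : D f y ≠ 0 := by
  obtain ⟨R, ι, h1, -, h2⟩ := h.two
  exact h1.der y ((h2 y).mp hy).1 ((h2 y).mp hy).2

theorem Dbl.pole (h : Dbl x f r) : Tendsto f (𝓝[≠] (r 5)) (Bornology.cobounded ℂ) := by
  obtain ⟨R, ι, h1, -⟩ := h.2.2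
  exact h1.pole _ (Finset.mem_singleton_self _)

/-- the part of the surface over a compact subset of a chart is compact -/
theorem isCompact_symm_image {p : Y} {K : Set ℂ} (hK : IsCompact K)
    (hs : K ⊆ (chartAt ℂ p).target) : IsCompact ((chartAt ℂ p).symm '' K) :=
  hK.image_of_continuousOn ((chartAt ℂ p).continuousOn_symm.mono hs)

/-- near a point that does not lie over the compact set `K`, no point lies over `K` -/
theorem eventually_not_over [T2Space Y] {p y : Y} {K : Set ℂ} (hK : IsCompact K)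
    (hs : K ⊆ (chartAt ℂ p).target) (hy : y ∈ (chartAt ℂ p).source → zc p y ∉ K) :
    ∀ᶠ y' in 𝓝 y, y' ∈ (chartAt ℂ p).source → zc p y' ∉ K := by
  have : y ∈ ((chartAt ℂ p).symm '' K)ᶜ := by
    rintro ⟨z, hz, rfl⟩
    exact hy ((chartAt ℂ p).map_target (hs hz)) (by rwa [zc_symm (hs hz)])
  filter_upwards [(isCompact_symm_image hK hs).isClosed.isOpen_compl.mem_nhds this] with y' h1 h2 h3
  exact h1 ⟨_, h3, symm_zc h2⟩

theorem exists_ne_zero_of_finrank (h : Module.finrank ℂ (Om Y) = 2) : ∃ w ∈ Om Y, w ≠ 0 := by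
  have : Nontrivial (Om Y) := Module.nontrivial_of_finrank_pos (R := ℂ) (by omega)
  obtain ⟨w, hw⟩ := exists_ne (0 : Om Y)
  exact ⟨w, w.2, fun h0 => hw (Subtype.ext h0)⟩

end Pool.Agent.P.MP_5d7cf0_gt.T
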