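import Pool.Agent.P.MP_5d7cf0_gt.T.St

/-!
Toolbox, part 0: holomorphic functions and one-forms on a Riemann surface, basic rules.
-/

open Set Filter Topology Manifold Metric
open scoped ContDiff

namespace Pool.Agent.P.MP_5d7cf0_gt.T

variable {Y Y' : Type} [TopologicalSpace Y] [ChartedSpace ℂ Y] [TopologicalSpace Y']
  [ChartedSpace ℂ Y'] {u v w φ : Y → ℂ} {p y : Y}

/-! ### Charts -/

theorem zc_symm {z : ℂ} (hz : z ∈ (chartAt ℂ p).target) : zc p ((chartAt ℂ p).symm z) = z :=
  (chartAt ℂ p).right_inv hz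

theorem symm_zc (hy : y ∈ (chartAt ℂ p).source) : (chartAt ℂ p).symm (zc p y) = y :=
  (chartAt ℂ p).left_inv hy

theorem zc_mem (hy : y ∈ (chartAt ℂ p).source) : zc p y ∈ (chartAt ℂ p).target :=
  (chartAt ℂ p).map_source hy

theorem loc_zc (hy : y ∈ (chartAt ℂ p).source) : loc u p (zc p y) = u y := by
  simp only [loc, Function.comp, symm_zc hy]

theorem loc_self : loc u p (zc p p) = u p := loc_zc (mem_chart_source ℂ p)

theorem source_mem (hy : y ∈ (chartAt ℂ p).source) : (chartAt ℂ p).source ∈ 𝓝 y :=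
  (chartAt ℂ p).open_source.mem_nhds hy

theorem target_mem (hy : y ∈ (chartAt ℂ p).source) : (chartAt ℂ p).target ∈ 𝓝 (zc p y) :=
  (chartAt ℂ p).open_target.mem_nhds (zc_mem hy)

theorem continuousAt_zc (hy : y ∈ (chartAt ℂ p).source) : ContinuousAt (zc p) y :=
  (chartAt ℂ p).continuousAt hy

theorem map_zc (hy : y ∈ (chartAt ℂ p).source) : map (zc p) (𝓝 y) = 𝓝 (zc p y) :=
  (chartAt ℂ p).map_nhds_eq hy

theorem map_symm (hy : y ∈ (chartAt ℂ p).source) :
    map (chartAt ℂ p).symm (𝓝 (zc p y)) = 𝓝 y :=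
  (chartAt ℂ p).symm_map_nhds_eq hy

theorem tendsto_symm (hy : y ∈ (chartAt ℂ p).source) :
    Tendsto (chartAt ℂ p).symm (𝓝 (zc p y)) (𝓝 y) := (map_symm hy).le

theorem eventually_chart (hy : y ∈ (chartAt ℂ p).source) {P : Y → Prop} :
    (∀ᶠ y' in 𝓝 y, P y') ↔ ∀ᶠ z in 𝓝 (zc p y), P ((chartAt ℂ p).symm z) := by
  rw [← map_symm hy, eventually_map]

theorem map_ne_of_homeo {A B : Type} [TopologicalSpace A] [TopologicalSpace B]
    (e : OpenPartialHomeomorph A B) {a : A} (ha : a ∈ e.source) :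
    map e (𝓝[≠] a) = 𝓝[≠] (e a) :=
  OpenPartialHomeomorph.IsImage.map_nhdsWithin_eq (e := e) (fun _ hx =>
    not_congr ⟨fun h => e.injOn hx ha h, fun h => congrArg e h⟩) ha

theorem map_zc_ne (hy : y ∈ (chartAt ℂ p).source) :
    map (zc p) (𝓝[≠] y) = 𝓝[≠] (zc p y) := map_ne_of_homeo _ hy

theorem map_symm_ne (hy : y ∈ (chartAt ℂ p).source) :
    map (chartAt ℂ p).symm (𝓝[≠] (zc p y)) = 𝓝[≠] y := by
  rw [map_ne_of_homeo (chartAt ℂ p).symm (zc_mem hy), symm_zc hy]

theorem eventually_chart_ne (hy : y ∈ (chartAt ℂ p).source) {P : Y → Prop} :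
    (∀ᶠ y' in 𝓝[≠] y, P y') ↔ ∀ᶠ z in 𝓝[≠] (zc p y), P ((chartAt ℂ p).symm z) := by
  rw [← map_symm_ne hy, eventually_map]

instance neBot_ne (y : Y) : (𝓝[≠] y).NeBot := by
  rw [← map_symm_ne (mem_chart_source ℂ y)]
  infer_instance

theorem loc_congr (hy : y ∈ (chartAt ℂ p).source) (h : u =ᶠ[𝓝 y] v) :
    loc u p =ᶠ[𝓝 (zc p y)] loc v p := (tendsto_symm hy).eventually h

theorem eq_loc (hy : y ∈ (chartAt ℂ p).source) : u =ᶠ[𝓝 y] loc u p ∘ zc p := by
  filter_upwards [source_mem hy] with y' hy' using (loc_zc hy').symm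

/-! ### Rules at one point -/

theorem An.congr (h : An u p) (e : u =ᶠ[𝓝 p] v) : An v p :=
  AnalyticAt.congr h (loc_congr (mem_chart_source ℂ p) e)

theorem D_congr (e : u =ᶠ[𝓝 p] v) : D u p = D v p :=
  (loc_congr (mem_chart_source ℂ p) e).deriv_eq

theorem An.continuousAt (h : An u p) : ContinuousAt u p :=
  (ContinuousAt.comp (AnalyticAt.continuousAt h) (continuousAt_zc (mem_chart_source ℂ p))).congr
    (eq_loc (mem_chart_source ℂ p)).symm

theorem An.hasDerivAt (h : An u p) : HasDerivAt (loc u p) (D u p) (zc p p) :=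
  (AnalyticAt.differentiableAt h).hasDerivAt

theorem an_const (c : ℂ) : An (fun _ => c) p := analyticAt_const

theorem D_const (c : ℂ) : D (fun _ => c) p = 0 := deriv_const _ c

theorem An.add (hu : An u p) (hv : An v p) : An (fun y => u y + v y) p := AnalyticAt.add hu hv

theorem An.sub (hu : An u p) (hv : An v p) : An (fun y => u y - v y) p := AnalyticAt.sub hu hv

theorem An.neg (hu : An u p) : An (fun y => -u y) p := AnalyticAt.neg hu

theorem An.mul (hu : An u p) (hv : An v p) : An (fun y => u y * v y) p := AnalyticAt.mul hu hv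

theorem An.pow (hu : An u p) (n : ℕ) : An (fun y => u y ^ n) p := AnalyticAt.pow hu n

theorem An.inv (hu : An u p) (h0 : u p ≠ 0) : An (fun y => (u y)⁻¹) p :=
  AnalyticAt.inv hu (ne_of_eq_of_ne loc_self h0)

theorem An.div (hu : An u p) (hv : An v p) (h0 : v p ≠ 0) : An (fun y => u y / v y) p :=
  AnalyticAt.div hu hv (ne_of_eq_of_ne loc_self h0)

theorem An.comp {g : ℂ → ℂ} (hu : An u p) (hg : AnalyticAt ℂ g (u p)) :
    An (fun y => g (u y)) p :=
  AnalyticAt.comp (f := loc u p) (by rwa [loc_self]) hu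

theorem an_sum {ι : Type*} {s : Finset ι} {f : ι → Y → ℂ} (h : ∀ i ∈ s, An (f i) p) :
    An (fun y => ∑ i ∈ s, f i y) p := Finset.analyticAt_fun_sum s h

theorem an_prod {ι : Type*} {s : Finset ι} {f : ι → Y → ℂ} (h : ∀ i ∈ s, An (f i) p) :
    An (fun y => ∏ i ∈ s, f i y) p := Finset.analyticAt_fun_prod s h

theorem An.poly (hu : An u p) (Q : Polynomial ℂ) : An (fun y => Q.eval (u y)) p :=
  hu.comp (Q.differentiable.analyticAt _)

theorem D_add (hu : An u p) (hv : An v p) : D (fun y => u y + v y) p = D u p + D v p :=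
  (hu.hasDerivAt.add hv.hasDerivAt).deriv

theorem D_sub (hu : An u p) (hv : An v p) : D (fun y => u y - v y) p = D u p - D v p :=
  (hu.hasDerivAt.sub hv.hasDerivAt).deriv

theorem D_neg (hu : An u p) : D (fun y => -u y) p = -D u p := hu.hasDerivAt.neg.deriv

theorem D_mul (hu : An u p) (hv : An v p) :
    D (fun y => u y * v y) p = D u p * v p + u p * D v p := by
  have := (hu.hasDerivAt.mul hv.hasDerivAt).deriv
  rwa [loc_self, loc_self] at this

theorem D_const_mul (c : ℂ) (hu : An u p) : D (fun y => c * u y) p = c * D u p :=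
  (hu.hasDerivAt.const_mul c).deriv

theorem D_comp {g : ℂ → ℂ} (hu : An u p) (hg : DifferentiableAt ℂ g (u p)) :
    D (fun y => g (u y)) p = deriv g (u p) * D u p := by
  have h1 : HasDerivAt g (deriv g (u p)) (loc u p (zc p p)) := by
    rw [loc_self]; exact hg.hasDerivAt
  exact (h1.comp _ hu.hasDerivAt).deriv

theorem D_pow (hu : An u p) (n : ℕ) : D (fun y => u y ^ n) p = n * u p ^ (n - 1) * D u p := by
  rw [D_comp (g := fun z => z ^ n) hu (differentiableAt_pow n), deriv_pow_field]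

theorem D_inv (hu : An u p) (h0 : u p ≠ 0) : D (fun y => (u y)⁻¹) p = -D u p / u p ^ 2 := by
  rw [D_comp (g := fun z => z⁻¹) hu (differentiableAt_inv h0), deriv_inv]
  ring

theorem D_poly (hu : An u p) (Q : Polynomial ℂ) :
    D (fun y => Q.eval (u y)) p = Q.derivative.eval (u p) * D u p := by
  rw [D_comp (g := fun z => Q.eval z) hu (Q.differentiable _), Polynomial.deriv]

theorem D_sum {ι : Type*} {s : Finset ι} {f : ι → Y → ℂ} (h : ∀ i ∈ s, An (f i) p) :
    D (fun y => ∑ i ∈ s, f i y) p = ∑ i ∈ s, D (f i) p :=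
  (HasDerivAt.fun_sum fun i hi => (h i hi).hasDerivAt).deriv

theorem loc_zc_self : loc (zc p) p =ᶠ[𝓝 (zc p p)] id := by
  filter_upwards [target_mem (mem_chart_source ℂ p)] with z hz using zc_symm hz

theorem an_zc_self : An (zc p) p := analyticAt_id.congr loc_zc_self.symm

theorem D_zc_self : D (zc p) p = 1 := by
  rw [D, loc_zc_self.deriv_eq, deriv_id]

theorem Hf.congr (h : Hf w p) (e : w =ᶠ[𝓝 p] v) : Hf v p :=
  An.congr h (e.mono fun y hy => by simp only [hy])

theorem Hf.mul (hu : An u p) (h : Hf w p) : Hf (fun y => u y * w y) p :=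
  An.congr (hu.mul h) (Eventually.of_forall fun y => by simp only [mul_div_assoc])

theorem Hf.add (h : Hf w p) (h' : Hf v p) : Hf (fun y => w y + v y) p :=
  An.congr (An.add h h') (Eventually.of_forall fun y => by simp only [add_div])

theorem Hf.sub (h : Hf w p) (h' : Hf v p) : Hf (fun y => w y - v y) p :=
  An.congr (An.sub h h') (Eventually.of_forall fun y => by simp only [sub_div])

theorem mem_Om : w ∈ Om Y ↔ ∀ p, Hf w p := Iff.rfl

/-- the coefficient in the chart at `p` tends to `w p` -/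
theorem Hf.tendsto (h : Hf w p) : Tendsto (fun y => w y / D (zc p) y) (𝓝 p) (𝓝 (w p)) := by
  have := (An.continuousAt h).tendsto
  rwa [D_zc_self, div_one] at this

/-- isolated zeros -/
theorem An.zero_or (h : An u p) : (∀ᶠ y in 𝓝 p, u y = 0) ∨ ∀ᶠ y in 𝓝[≠] p, u y ≠ 0 := by
  rw [eventually_chart (mem_chart_source ℂ p), eventually_chart_ne (mem_chart_source ℂ p)]
  exact AnalyticAt.eventually_eq_zero_or_eventually_ne_zero h

/-- open mapping -/
theorem An.nhds_le_map (h : An u p) (hc : ¬∀ᶠ y in 𝓝 p, u y = u p) : 𝓝 (u p) ≤ map u (𝓝 p) := by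
  rw [eventually_chart (mem_chart_source ℂ p)] at hc
  have := (AnalyticAt.eventually_constant_or_nhds_le_map_nhds h).resolve_left (by
    rw [loc_self]; exact hc)
  rwa [loc_self, loc, ← map_map, map_symm (mem_chart_source ℂ p)] at this

/-! ### Change of charts -/

variable [IsManifold 𝓘(ℂ) ω Y]

theorem an_zc (hy : y ∈ (chartAt ℂ p).source) : An (zc p) y := by
  have h := (contDiffGroupoid ω 𝓘(ℂ)).compatible (chart_mem_atlas ℂ y) (chart_mem_atlas ℂ p)
  rw [contDiffGroupoid, mem_groupoid_of_pregroupoid] at h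
  have h1 := h.1
  simp only [contDiffPregroupoid, modelWithCornersSelf_coe, modelWithCornersSelf_coe_symm,
    range_id, inter_univ, preimage_id_eq, id, Function.comp_id, Function.id_comp] at h1
  have hm : zc y y ∈ ((chartAt ℂ y).symm ≫ₕ chartAt ℂ p).source := by
    refine ⟨zc_mem (mem_chart_source ℂ y), ?_⟩
    change (chartAt ℂ y).symm (zc y y) ∈ (chartAt ℂ p).source
    rwa [symm_zc (mem_chart_source ℂ y)]
  exact (h1.contDiffAt (((chartAt ℂ y).symm ≫ₕ chartAt ℂ p).open_source.mem_nhds hm)).analyticAt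

theorem an_of_loc (hy : y ∈ (chartAt ℂ p).source) (h : AnalyticAt ℂ (loc u p) (zc p y)) :
    An u y := ((an_zc hy).comp h).congr (eq_loc hy).symm

theorem analyticAt_trans (hy : y ∈ (chartAt ℂ p).source) :
    AnalyticAt ℂ (loc (zc y) p) (zc p y) := by
  have h := (contDiffGroupoid ω 𝓘(ℂ)).compatible (chart_mem_atlas ℂ p) (chart_mem_atlas ℂ y)
  rw [contDiffGroupoid, mem_groupoid_of_pregroupoid] at h
  have h1 := h.1
  simp only [contDiffPregroupoid, modelWithCornersSelf_coe, modelWithCornersSelf_coe_symm,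
    range_id, inter_univ, preimage_id_eq, id, Function.comp_id, Function.id_comp] at h1
  have hm : zc p y ∈ ((chartAt ℂ p).symm ≫ₕ chartAt ℂ y).source := by
    refine ⟨zc_mem hy, ?_⟩
    change (chartAt ℂ p).symm (zc p y) ∈ (chartAt ℂ y).source
    rw [symm_zc hy]
    exact mem_chart_source ℂ y
  exact (h1.contDiffAt (((chartAt ℂ p).symm ≫ₕ chartAt ℂ y).open_source.mem_nhds hm)).analyticAt

omit [IsManifold 𝓘(ℂ) ω Y] in
theorem loc_eq_comp (hy : y ∈ (chartAt ℂ p).source) :
    loc u p =ᶠ[𝓝 (zc p y)] loc u y ∘ loc (zc y) p :=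
  loc_congr hy (eq_loc (mem_chart_source ℂ y))

theorem An.loc (h : An u y) (hy : y ∈ (chartAt ℂ p).source) :
    AnalyticAt ℂ (T.loc u p) (zc p y) :=
  (AnalyticAt.comp (by rw [loc_zc hy]; exact h) (analyticAt_trans hy)).congr (loc_eq_comp hy).symm

theorem an_iff (hy : y ∈ (chartAt ℂ p).source) : An u y ↔ AnalyticAt ℂ (loc u p) (zc p y) :=
  ⟨fun h => h.loc hy, an_of_loc hy⟩

theorem D_eq (hy : y ∈ (chartAt ℂ p).source) (h : An u y) :
    D u y = deriv (loc u p) (zc p y) * D (zc p) y := by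
  rw [D_congr (eq_loc (p := p) hy)]
  exact D_comp (an_zc hy) (h.loc hy).differentiableAt

theorem D_zc_ne (hy : y ∈ (chartAt ℂ p).source) : D (zc p) y ≠ 0 := fun h0 => by
  have := D_eq hy (an_zc_self (p := y))
  rw [h0, mul_zero, D_zc_self] at this
  exact one_ne_zero this

theorem An.eventually (h : An u p) : ∀ᶠ y in 𝓝 p, An u y := by
  have hp := mem_chart_source ℂ p
  have h1 := (continuousAt_zc hp).eventually (AnalyticAt.eventually_analyticAt h)
  filter_upwards [h1, source_mem hp] with y h1 h2 using an_of_loc h2 h1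

theorem D_div_eq (h : An u p) :
    (fun y => D u y / D (zc p) y) =ᶠ[𝓝 p] fun y => deriv (loc u p) (zc p y) := by
  filter_upwards [h.eventually, source_mem (mem_chart_source ℂ p)] with y h1 h2
  rw [D_eq h2 h1, mul_div_cancel_right₀ _ (D_zc_ne h2)]

/-- `du` is a holomorphic form -/
theorem An.hf (h : An u p) : Hf (D u) p :=
  (an_zc_self.comp (AnalyticAt.deriv h)).congr (D_div_eq h).symm

theorem Hf.div_D (h : Hf w p) (hφ : An φ p) (h0 : D φ p ≠ 0) : An (fun y => w y / D φ y) p := by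
  refine (An.div h hφ.hf (by rwa [D_zc_self, div_one])).congr ?_
  filter_upwards [source_mem (mem_chart_source ℂ p)] with y hy
  rw [div_div_div_cancel_right₀ (D_zc_ne hy)]

theorem An.eventually_D_ne (hφ : An φ p) (h0 : D φ p ≠ 0) : ∀ᶠ y in 𝓝 p, D φ y ≠ 0 := by
  filter_upwards [hφ.hf.tendsto.eventually_ne h0] with y hy h
  exact hy (by rw [h, zero_div])

theorem hf_of_div (hφ : An φ p) (h0 : D φ p ≠ 0) (h : An (fun y => w y / D φ y) p) : Hf w p := by
  refine (Hf.mul h hφ.hf).congr ?_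
  filter_upwards [hφ.eventually_D_ne h0] with y hy
  rw [div_mul_cancel₀ _ hy]

theorem hf_iff (hφ : An φ p) (h0 : D φ p ≠ 0) : Hf w p ↔ An (fun y => w y / D φ y) p :=
  ⟨fun h => h.div_D hφ h0, hf_of_div hφ h0⟩

theorem Hf.eventually (h : Hf w p) : ∀ᶠ y in 𝓝 p, Hf w y := by
  filter_upwards [An.eventually h, source_mem (mem_chart_source ℂ p)] with y h1 h2
  exact hf_of_div (an_zc h2) (D_zc_ne h2) h1

theorem Hf.zero_or (h : Hf w p) : (∀ᶠ y in 𝓝 p, w y = 0) ∨ ∀ᶠ y in 𝓝[≠] p, w y ≠ 0 := by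
  rcases An.zero_or h with h1 | h1
  · left
    filter_upwards [h1, source_mem (mem_chart_source ℂ p)] with y h1 h2
    exact (div_eq_zero_iff.mp h1).resolve_right (D_zc_ne h2)
  · right
    filter_upwards [h1] with y h1 h2
    exact h1 (by rw [h2, zero_div])

/-- a function with zero differential is locally constant -/
theorem An.eventually_const (h : An u p) (h0 : ∀ᶠ y in 𝓝 p, D u y = 0) :
    ∀ᶠ y in 𝓝 p, u y = u p := by
  have hp := mem_chart_source ℂ p
  have h1 : ∀ᶠ z in 𝓝 (zc p p), deriv (T.loc u p) z = 0 := by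
    rw [← map_zc hp, eventually_map]
    filter_upwards [h0, D_div_eq h] with y h1 h2
    rw [← h2, h1, zero_div]
  obtain ⟨r, hr, hb⟩ := Metric.eventually_nhds_iff_ball.mp
    (h1.and (AnalyticAt.eventually_analyticAt h))
  rw [eventually_chart hp]
  filter_upwards [ball_mem_nhds _ hr] with z hz
  rw [← loc_self (u := u) (p := p)]
  exact isOpen_ball.is_const_of_deriv_eq_zero (convex_ball _ _).isPreconnected
    (fun z hz => (hb z hz).2.differentiableAt.differentiableWithinAt) (fun z hz => (hb z hz).1)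
    hz (mem_ball_self hr)

omit [IsManifold 𝓘(ℂ) ω Y] in
theorem D_of_const (h : ∀ᶠ y in 𝓝 p, u y = u p) : ∀ᶠ y in 𝓝 p, D u y = 0 := by
  filter_upwards [h.eventually_nhds] with y hy
  rw [D_congr (v := fun _ => u p) hy, D_const]

/-! ### Removable singularities -/

theorem an_update (h : ∀ᶠ y in 𝓝[≠] p, An u y) {C : ℝ} (hb : ∀ᶠ y in 𝓝[≠] p, ‖u y‖ ≤ C) :
    ∃ v, An v p ∧ ∀ y, y ≠ p → v y = u y := by
  classical
  have hp := mem_chart_source ℂ p
  have h1 : ∀ᶠ z in 𝓝[≠] (zc p p), DifferentiableAt ℂ (loc u p) z := by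
    rw [← map_zc_ne hp, eventually_map]
    filter_upwards [h, mem_nhdsWithin_of_mem_nhds (source_mem hp)] with y h1 h2
    exact (h1.loc h2).differentiableAt
  have h2 : IsBoundedUnder (· ≤ ·) (𝓝[≠] (zc p p)) (fun z => ‖loc u p z - loc u p (zc p p)‖) := by
    refine ⟨C + ‖loc u p (zc p p)‖, ?_⟩
    rw [eventually_map]
    filter_upwards [(eventually_chart_ne hp).mp hb] with z hz
    exact (norm_sub_le _ _).trans (add_le_add hz le_rfl)
  have h3 := Complex.tendsto_limUnder_of_differentiable_on_punctured_nhds_of_bounded_under h1 h2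
  set c := limUnder (𝓝[≠] (zc p p)) (loc u p)
  have e : ∀ᶠ z in 𝓝 (zc p p), loc (Function.update u p c) p z =
      Function.update (loc u p) (zc p p) c z := by
    filter_upwards [target_mem hp] with z hz
    by_cases h0 : z = zc p p
    · rw [h0, loc_self, Function.update_self, Function.update_self]
    · rw [Function.update_of_ne h0, loc, loc, Function.comp, Function.comp, Function.update_of_ne]
      intro h4
      exact h0 ((zc_symm hz).symm.trans (congrArg (zc p) h4))
  refine ⟨Function.update u p c, AnalyticAt.congr ?_ (EventuallyEq.symm e),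
    fun y hy => Function.update_of_ne hy _ _⟩
  refine Complex.analyticAt_of_differentiable_on_punctured_nhds_of_continuousAt ?_
    (continuousAt_update_same.mpr h3)
  filter_upwards [h1, self_mem_nhdsWithin] with z h4 h5
  refine h4.congr_of_eventuallyEq ?_
  filter_upwards [isOpen_compl_singleton.mem_nhds h5] with z' hz'
  exact Function.update_of_ne hz' _ _

theorem an_of_continuousAt (h : ∀ᶠ y in 𝓝[≠] p, An u y) (hc : ContinuousAt u p) : An u p := by
  have hp := mem_chart_source ℂ p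
  refine Complex.analyticAt_of_differentiable_on_punctured_nhds_of_continuousAt ?_ ?_
  · rw [← map_zc_ne hp, eventually_map]
    filter_upwards [h, mem_nhdsWithin_of_mem_nhds (source_mem hp)] with y h1 h2
    exact (h1.loc h2).differentiableAt
  · rw [ContinuousAt, loc_self]
    exact hc.tendsto.comp (tendsto_symm hp)

end Pool.Agent.P.MP_5d7cf0_gt.T
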