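import Pool.Agent.P.MP_5d7cf0_gt.T.RS0

/-!
Toolbox, part 1: local inverses, normal forms, identity theorems, holomorphic maps, poles.
-/

open Set Filter Topology Manifold Metric
open scoped ContDiff

namespace Pool.Agent.P.MP_5d7cf0_gt.T

variable {Y Y' : Type} [TopologicalSpace Y] [ChartedSpace ℂ Y] [TopologicalSpace Y']
  [ChartedSpace ℂ Y'] {u v w f φ ψ : Y → ℂ} {p y : Y} {j : Y → Y'}

instance (priority := 100) RS.lpc [RS Y] : LocallyPathConnectedSpace Y :=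
  ChartedSpace.locallyPathConnectedSpace ℂ Y

instance (priority := 100) RS.pc [RS Y] : PathConnectedSpace Y := .of_locallyPathConnectedSpace

/-- change a partial homeomorphism outside its source -/
def homeoCongr {A B : Type} [TopologicalSpace A] [TopologicalSpace B]
    (e : OpenPartialHomeomorph A B) (g : A → B) (h : EqOn g e e.source) :
    OpenPartialHomeomorph A B where
  toFun := g
  invFun := e.symm
  source := e.source
  target := e.target
  map_source' := fun _ hx => by rw [h hx]; exact e.map_source hx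
  map_target' := fun _ hx => e.map_target hx
  left_inv' := fun _ hx => by rw [h hx]; exact e.left_inv hx
  right_inv' := fun _ hx => by rw [h (e.map_target hx)]; exact e.right_inv hx
  open_source := e.open_source
  open_target := e.open_target
  continuousOn_toFun := e.continuousOn.congr h
  continuousOn_invFun := e.continuousOn_symm

theorem finite_of_isolated {A : Type} [TopologicalSpace A] [CompactSpace A] {Z : Set A}
    (h : ∀ p, ∀ᶠ y in 𝓝[≠] p, y ∉ Z) : Z.Finite := by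
  obtain ⟨t, ht⟩ := CompactSpace.elim_nhds_subcover (fun p => {y | y ≠ p → y ∉ Z}) fun p =>
    eventually_nhdsWithin_iff.mp (h p)
  refine t.finite_toSet.subset fun y hy => ?_
  have : y ∈ ⋃ x ∈ t, {y | y ≠ x → y ∉ Z} := ht ▸ mem_univ y
  obtain ⟨x, hx, h1⟩ := mem_iUnion₂.mp this
  by_contra h2
  exact h1 (fun h3 => h2 (h3 ▸ hx)) hy

theorem eventually_notMem {A : Type} [TopologicalSpace A] [T1Space A] {Z : Set A} (h : Z.Finite)
    (p : A) : ∀ᶠ y in 𝓝[≠] p, y ∉ Z := by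
  have : (Z \ {p})ᶜ ∈ 𝓝 p := (h.subset sdiff_subset).isClosed.isOpen_compl.mem_nhds fun h => h.2 rfl
  filter_upwards [mem_nhdsWithin_of_mem_nhds this, self_mem_nhdsWithin] with y h1 h2 h3
  exact h1 ⟨h3, h2⟩

theorem eventually_notMem' {A : Type} [TopologicalSpace A] [T1Space A] {Z : Set A} (h : Z.Finite)
    {p : A} (hp : p ∉ Z) : ∀ᶠ y in 𝓝 p, y ∉ Z := h.isClosed.isOpen_compl.mem_nhds hp

theorem isPreconnected_punctured (c : ℂ) (r : ℝ) : IsPreconnected (ball c r \ {c}) := by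
  by_cases hr : 0 < r
  · have : ball c r \ {c} = (fun w => c + Complex.exp w) '' {w | w.re < Real.log r} := by
      ext z
      constructor
      · rintro ⟨h1, h2⟩
        have h3 : z - c ≠ 0 := sub_ne_zero.mpr h2
        refine ⟨Complex.log (z - c), ?_, by simp [Complex.exp_log h3]⟩
        change (Complex.log (z - c)).re < _
        rw [Complex.log_re]
        exact Real.log_lt_log (norm_pos_iff.mpr h3) (by rwa [mem_ball, dist_eq_norm] at h1)
      · rintro ⟨w, h1, rfl⟩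
        refine ⟨?_, by simp⟩
        rw [mem_ball, dist_eq_norm, add_sub_cancel_left, Complex.norm_exp]
        exact (Real.lt_log_iff_exp_lt hr).mp h1
    rw [this]
    exact (convex_halfSpace_re_lt _).isPreconnected.image _ (by fun_prop)
  · rw [ball_eq_empty.mpr (not_lt.mp hr), empty_sdiff]
    exact isPreconnected_empty

/-- maximum principle for the real part -/
theorem An.const_of_isLocalMax_re (h : An u p) (hm : IsLocalMax (fun y => (u y).re) p) :
    ∀ᶠ y in 𝓝 p, u y = u p := by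
  by_contra hc
  have h1 : ∀ᶠ c in 𝓝 (u p), c.re ≤ (u p).re := h.nhds_le_map hc hm
  have h2 : Tendsto (fun t : ℝ => u p + t) (𝓝[>] 0) (𝓝 (u p)) := by
    have : Tendsto (fun t : ℝ => u p + t) (𝓝 0) (𝓝 (u p + (0 : ℝ))) :=
      (continuous_const.add Complex.continuous_ofReal).tendsto 0
    simpa using this.mono_left nhdsWithin_le_nhds
  obtain ⟨t, h3, h4⟩ := ((h2.eventually h1).and self_mem_nhdsWithin).exists
  simp only [Complex.add_re, Complex.ofReal_re] at h3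
  have : 0 < t := h4
  linarith

/-- normal form -/
theorem An.nf (h : An f p) (hc : ¬∀ᶠ y in 𝓝 p, f y = f p) : ∃ (n : ℕ) (ψ : Y → ℂ), 1 ≤ n ∧
    An ψ p ∧ ψ p = 0 ∧ D ψ p ≠ 0 ∧ ∀ᶠ y in 𝓝 p, f y = f p + ψ y ^ n := by
  have hp := mem_chart_source ℂ p
  obtain ⟨n, g, hg, h0, he⟩ := (AnalyticAt.exists_eventuallyEq_pow_smul_nonzero_iff
    (h.sub (an_const (f p)))).mpr (by
      rw [eventually_chart hp] at hc
      exact fun h1 => hc (h1.mono fun z hz => sub_eq_zero.mp hz))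
  have hn : n ≠ 0 := by
    rintro rfl
    have := he.self_of_nhds
    rw [loc_self, sub_self, pow_zero, one_smul] at this
    exact h0 this.symm
  have hn' : (n : ℂ) ≠ 0 := Nat.cast_ne_zero.mpr hn
  obtain ⟨ρ, hρ⟩ := IsAlgClosed.exists_pow_nat_eq (g (zc p p)) (Nat.pos_of_ne_zero hn)
  have hρ0 : ρ ≠ 0 := fun h1 => h0 (by rw [← hρ, h1, zero_pow hn])
  have hG : An (fun y => g (zc p y) / g (zc p p)) p := (an_zc_self.comp hg).div (an_const _) h0
  have hL : An (fun y => ρ * Complex.exp (Complex.log (g (zc p y) / g (zc p p)) / n)) p :=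
    (an_const _).mul (((hG.comp (g := Complex.log) (analyticAt_clog (by
      rw [div_self h0]; exact Complex.one_mem_slitPlane))).div (an_const _) hn').comp
        analyticAt_cexp)
  have hz : An (fun y => zc p y - zc p p) p := an_zc_self.sub (an_const _)
  refine ⟨n, _, Nat.pos_of_ne_zero hn, hz.mul hL, by simp, ?_, ?_⟩
  · rw [D_mul hz hL, D_sub an_zc_self (an_const _), D_zc_self, D_const]
    simp [hρ0]
  · filter_upwards [(continuousAt_zc hp).eventually he, source_mem hp,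
      hG.continuousAt.eventually_ne (by rw [div_self h0]; exact one_ne_zero)] with y h1 h2 h3
    rw [loc_zc h2] at h1
    rw [mul_pow, mul_pow, ← Complex.exp_nat_mul, mul_div_cancel₀ _ hn', Complex.exp_log h3, hρ,
      mul_div_cancel₀ _ h0, ← smul_eq_mul, ← h1]
    ring

/-- the order is one exactly if the differential does not vanish -/
theorem nf_D {n : ℕ} (hn : 1 ≤ n) (hψ : An ψ p) (h0 : ψ p = 0) (hD : D ψ p ≠ 0)
    (he : ∀ᶠ y in 𝓝 p, f y = f p + ψ y ^ n) : D f p = 0 ↔ 2 ≤ n := by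
  rw [D_congr (v := fun y => f p + ψ y ^ n) he, D_add (an_const _) (hψ.pow n), D_const, D_pow hψ,
    h0, zero_add]
  obtain rfl | h1 := hn.eq_or_lt
  · simp [hD]
  · simp [zero_pow (Nat.sub_ne_zero_of_lt h1), Nat.succ_le_of_lt h1]

theorem SP.tendsto (h : SP f p) : Tendsto f (𝓝[≠] p) (Bornology.cobounded ℂ) := by
  obtain ⟨φ, h1, h2, -, h4⟩ := h
  have h5 : Tendsto φ (𝓝[≠] p) (𝓝[≠] 0) := by
    refine tendsto_nhdsWithin_iff.mpr ⟨h2 ▸ h1.continuousAt.tendsto.mono_left nhdsWithin_le_nhds, ?_⟩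
    filter_upwards [h4] with y hy h6
    rw [mem_singleton_iff.mp h6, zero_mul] at hy
    exact zero_ne_one hy
  refine (tendsto_inv₀_nhdsNE_zero.comp h5).congr' ?_
  filter_upwards [h4] with y hy using (eq_inv_of_mul_eq_one_right hy).symm

/-! ### Holomorphic maps -/

theorem mdiffAt_iff : MDifferentiableAt 𝓘(ℂ) 𝓘(ℂ) j y ↔
    ContinuousAt j y ∧ DifferentiableAt ℂ (loc (zc (j y) ∘ j) y) (zc y y) := by
  rw [mdifferentiableAt_iff]
  simp only [modelWithCornersSelf_coe, range_id, differentiableWithinAt_univ]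
  rfl

theorem Hol.mdiffAt (h : Hol j y) : MDifferentiableAt 𝓘(ℂ) 𝓘(ℂ) j y :=
  mdiffAt_iff.mpr ⟨h.1, AnalyticAt.differentiableAt h.2⟩

theorem An.hol (h : An u p) : Hol u p := ⟨h.continuousAt, h⟩

theorem An.mdiffAt (h : An u p) : MDifferentiableAt 𝓘(ℂ) 𝓘(ℂ) u p := h.hol.mdiffAt

theorem Hol.an_comp {u : Y' → ℂ} (h : Hol j y) (hu : An u (j y)) : An (fun y => u (j y)) y :=
  (h.2.comp (g := loc u (j y)) hu).congr
    (h.1.eventually (eq_loc (u := u) (mem_chart_source ℂ (j y))).symm)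

theorem Hol.D_comp {u : Y' → ℂ} (h : Hol j y) (hu : An u (j y)) :
    D (fun y => u (j y)) y = D u (j y) * D (zc (j y) ∘ j) y := by
  rw [D_congr (v := fun y' => loc u (j y) ((zc (j y) ∘ j) y'))
    (h.1.eventually (eq_loc (u := u) (mem_chart_source ℂ (j y))))]
  exact T.D_comp h.2 (AnalyticAt.differentiableAt hu)

theorem Hol.congr {j' : Y → Y'} (h : Hol j y) (e : j =ᶠ[𝓝 y] j') : Hol j' y := by
  refine ⟨h.1.congr e, ?_⟩
  rw [← e.self_of_nhds]
  exact h.2.congr (e.mono fun y' hy => by simp only [Function.comp, hy])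

theorem hol_id : Hol (fun y : Y => y) y := ⟨continuousAt_id, an_zc_self⟩

theorem Hol.comp {Y'' : Type} [TopologicalSpace Y''] [ChartedSpace ℂ Y''] {k : Y' → Y''}
    (hk : Hol k (j y)) (h : Hol j y) : Hol (fun y => k (j y)) y :=
  ⟨hk.1.comp h.1, h.an_comp hk.2⟩

/-- a holomorphic map with a holomorphic left inverse has nonzero derivative -/
theorem Hol.D_ne {k : Y' → Y} (h : Hol j y) (hk : Hol k (j y)) (e : ∀ᶠ y' in 𝓝 y, k (j y') = y') :
    D (zc (j y) ∘ j) y ≠ 0 := fun h0 => by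
  have h1 := h.D_comp hk.2
  rw [h0, mul_zero, e.self_of_nhds, D_congr (v := zc y)
    (e.mono fun y' hy => by simp only [Function.comp, hy]), D_zc_self] at h1
  exact one_ne_zero h1

variable [IsManifold 𝓘(ℂ) ω Y]

/-- local inverse -/
theorem An.exists_homeo (h : An ψ p) (h0 : D ψ p ≠ 0) : ∃ e : OpenPartialHomeomorph Y ℂ,
    p ∈ e.source ∧ ⇑e = ψ ∧ ∀ y ∈ e.source, An ψ y ∧ D ψ y ≠ 0 ∧
      ∀ u, An u y → AnalyticAt ℂ (u ∘ e.symm) (ψ y) := by
  have hp := mem_chart_source ℂ p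
  have h1 := (AnalyticAt.hasStrictDerivAt h).hasStrictFDerivAt_equiv h0
  obtain ⟨U, hU, hUo, hpU⟩ := eventually_nhds_iff.mp (h.eventually.and (h.eventually_D_ne h0))
  set g := h1.toOpenPartialHomeomorph
  set e := (chartAt ℂ p ≫ₕ g).restrOpen U hUo
  refine ⟨homeoCongr e ψ fun y hy => (loc_zc hy.1.1).symm,
    ⟨⟨hp, h1.mem_toOpenPartialHomeomorph_source⟩, hpU⟩, rfl, fun y hy => ?_⟩
  obtain ⟨⟨hy1, hy2⟩, hy3⟩ := hy
  refine ⟨(hU y hy3).1, (hU y hy3).2, fun u hu => ?_⟩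
  have h2 := (hU y hy3).1.loc hy1
  have h3 : deriv (T.loc ψ p) (zc p y) ≠ 0 := fun h4 =>
    (hU y hy3).2 (by rw [D_eq hy1 (hU y hy3).1, h4, zero_mul])
  have h4 := g.analyticAt_symm' hy2 h2
    (h2.hasStrictDerivAt.hasStrictFDerivAt_equiv h3).hasFDerivAt.fderiv
  have h5 : g (zc p y) = ψ y := loc_zc hy1
  replace h4 : AnalyticAt ℂ g.symm (g (zc p y)) := h4
  rw [h5] at h4
  have h6 : g.symm (ψ y) = zc p y := by rw [← h5]; exact g.left_inv hy2
  exact AnalyticAt.comp (g := T.loc u p) (f := g.symm) (by rw [h6]; exact hu.loc hy1) h4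

theorem An.map_nhds (h : An ψ p) (h0 : D ψ p ≠ 0) : map ψ (𝓝 p) = 𝓝 (ψ p) := by
  obtain ⟨e, h1, rfl, -⟩ := h.exists_homeo h0
  exact e.map_nhds_eq h1

theorem An.map_ne (h : An ψ p) (h0 : D ψ p ≠ 0) : map ψ (𝓝[≠] p) = 𝓝[≠] (ψ p) := by
  obtain ⟨e, h1, rfl, -⟩ := h.exists_homeo h0
  exact map_ne_of_homeo e h1

theorem An.injOn (h : An ψ p) (h0 : D ψ p ≠ 0) : ∃ U ∈ 𝓝 p, InjOn ψ U := by
  obtain ⟨e, h1, rfl, -⟩ := h.exists_homeo h0
  exact ⟨_, e.open_source.mem_nhds h1, e.injOn⟩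

/-- a point of order `n` has `n` preimages of every nearby value -/
theorem nf_preimages {n : ℕ} (hn : 1 ≤ n) (hψ : An ψ p) (h0 : ψ p = 0) (hD : D ψ p ≠ 0)
    (he : ∀ᶠ y in 𝓝 p, f y = f p + ψ y ^ n) {U : Set Y} (hU : U ∈ 𝓝 p) :
    ∀ᶠ c in 𝓝[≠] (f p), ∃ s : Finset Y, s.card = n ∧ ∀ y ∈ s, y ∈ U ∧ f y = c := by
  classical
  have h1 : ∀ᶠ ζ in 𝓝 (0 : ℂ), ∃ y, (y ∈ U ∧ f y = f p + ψ y ^ n) ∧ ψ y = ζ := by
    rw [← h0, ← hψ.map_nhds hD]
    exact image_mem_map (inter_mem hU he)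
  obtain ⟨δ, hδ, hb⟩ := Metric.eventually_nhds_iff_ball.mp h1
  have : Nonempty Y := ⟨p⟩
  choose! g hg using hb
  filter_upwards [mem_nhdsWithin_of_mem_nhds (ball_mem_nhds _ (pow_pos hδ n)),
    self_mem_nhdsWithin] with c h2 h3
  have hc : c - f p ≠ 0 := sub_ne_zero.mpr h3
  have hmem : ∀ ζ ∈ (Polynomial.nthRoots n (c - f p)).toFinset, ζ ^ n = c - f p ∧ ζ ∈ ball 0 δ :=
    fun ζ hζ => by
      have h4 := (Polynomial.mem_nthRoots hn).mp (Multiset.mem_toFinset.mp hζ)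
      refine ⟨h4, mem_ball_zero_iff.mpr (lt_of_pow_lt_pow_left₀ n hδ.le ?_)⟩
      rwa [← norm_pow, h4, ← dist_eq_norm]
  have hprim := Complex.isPrimitiveRoot_exp n (Nat.ne_of_gt hn)
  refine ⟨(Polynomial.nthRoots n (c - f p)).toFinset.image g, ?_, fun y hy => ?_⟩
  · rw [Finset.card_image_of_injOn fun a ha b hb hab => by
      rw [← (hg a (hmem a ha).2).2, hab, (hg b (hmem b hb).2).2],
      Multiset.toFinset_card_of_nodup (hprim.nthRoots_nodup hc), hprim.card_nthRoots,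
      if_pos (by simpa [eq_comm] using IsAlgClosed.exists_pow_nat_eq (c - f p) hn)]
  · obtain ⟨ζ, h4, rfl⟩ := Finset.mem_image.mp hy
    have h5 := hg ζ (hmem ζ h4).2
    exact ⟨h5.1.1, by rw [h5.1.2, h5.2, (hmem ζ h4).1]; ring⟩

/-- an injective germ has nonzero differential -/
theorem An.D_ne_of_injOn (h : An f p) {U : Set Y} (hU : U ∈ 𝓝 p) (hi : InjOn f U) : D f p ≠ 0 := by
  have hc : ¬∀ᶠ y in 𝓝 p, f y = f p := fun h1 => by
    obtain ⟨y, h2, h3⟩ := (((h1.and hU).filter_mono (nhdsWithin_le_nhds (s := {p}ᶜ))).and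
      self_mem_nhdsWithin).exists
    exact h3 (hi h2.2 (mem_of_mem_nhds hU) h2.1)
  obtain ⟨n, ψ, h1, h2, h3, h4, h5⟩ := h.nf hc
  intro h0
  obtain ⟨c, s, h6, h7⟩ := (nf_preimages h1 h2 h3 h4 h5 hU).exists
  obtain ⟨a, ha, b, hb, hab⟩ := Finset.one_lt_card.mp (h6 ▸ (nf_D h1 h2 h3 h4 h5).mp h0)
  exact hab (hi (h7 a ha).1 (h7 b hb).1 (by rw [(h7 a ha).2, (h7 b hb).2]))

theorem An.eventually_D_ne' (h : An f p) (hc : ¬∀ᶠ y in 𝓝 p, f y = f p) :
    ∀ᶠ y in 𝓝[≠] p, D f y ≠ 0 := h.hf.zero_or.resolve_left fun h0 => hc (h.eventually_const h0)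

/-- `(φ - φ p) / φ'` tends to zero -/
theorem An.tendsto_div_D (h : An φ p) (hc : ¬∀ᶠ y in 𝓝 p, φ y = φ p) :
    Tendsto (fun y => (φ y - φ p) * D (zc p) y / D φ y) (𝓝[≠] p) (𝓝 0) := by
  obtain ⟨n, ψ, h1, h2, h3, h4, h5⟩ := h.nf hc
  have hn : (n : ℂ) ≠ 0 := Nat.cast_ne_zero.mpr (Nat.ne_of_gt h1)
  have h6 := ((h2.continuousAt.tendsto.div_const (n : ℂ)).div h2.hf.tendsto h4).mono_left
    (nhdsWithin_le_nhds (s := {p}ᶜ))
  rw [h3, zero_div, zero_div] at h6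
  refine h6.congr' ?_
  have h7 : ∀ᶠ y in 𝓝[≠] p, ψ y ≠ 0 := (h2.map_ne h4).le (show {0}ᶜ ∈ _ by
    rw [h3]; exact self_mem_nhdsWithin)
  filter_upwards [h7, mem_nhdsWithin_of_mem_nhds (h5.eventually_nhds.and (h2.eventually.and
    ((h2.eventually_D_ne h4).and (source_mem (mem_chart_source ℂ p)))))] with y h7 h8
  obtain ⟨h8, h9, h10, h11⟩ := h8
  have h12 := D_zc_ne h11
  rw [D_congr (v := fun y => φ p + ψ y ^ n) h8, D_add (an_const _) (h9.pow n), D_const, D_pow h9,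
    h8.self_of_nhds]
  obtain ⟨m, rfl⟩ := Nat.exists_eq_add_of_le' h1
  simp only [Pi.div_apply, Nat.add_sub_cancel]
  field_simp
  ring

/-- the reciprocal of a function with a pole -/
theorem exists_inv (h : ∀ᶠ y in 𝓝[≠] p, An f y) (ht : Tendsto f (𝓝[≠] p) (Bornology.cobounded ℂ)) :
    ∃ φ, An φ p ∧ φ p = 0 ∧ (¬∀ᶠ y in 𝓝 p, φ y = φ p) ∧ ∀ᶠ y in 𝓝[≠] p, φ y * f y = 1 := by
  have h0 : ∀ᶠ y in 𝓝[≠] p, f y ≠ 0 :=
    ht.eventually (p := fun c => c ≠ 0) (Bornology.isBounded_singleton (x := (0 : ℂ)))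
  have h1 : Tendsto (fun y => (f y)⁻¹) (𝓝[≠] p) (𝓝 0) := tendsto_inv₀_cobounded.comp ht
  obtain ⟨φ, h2, h3⟩ := an_update (u := fun y => (f y)⁻¹) (C := 1)
    (by filter_upwards [h, h0] with y h2 h3 using h2.inv h3)
    (h1.norm.eventually (ge_mem_nhds (by simp)))
  have h4 : φ p = 0 := tendsto_nhds_unique
    (h2.continuousAt.tendsto.mono_left (nhdsWithin_le_nhds (s := {p}ᶜ)))
    (h1.congr' (by filter_upwards [self_mem_nhdsWithin] with y hy using (h3 y hy).symm))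
  have h5 : ∀ᶠ y in 𝓝[≠] p, φ y * f y = 1 := by
    filter_upwards [h0, self_mem_nhdsWithin] with y h5 h6
    rw [h3 y h6, inv_mul_cancel₀ h5]
  refine ⟨φ, h2, h4, fun h6 => ?_, h5⟩
  obtain ⟨y, h7, h8⟩ := (h5.and (mem_nhdsWithin_of_mem_nhds h6)).exists
  rw [h8, h4, zero_mul] at h7
  exact zero_ne_one h7

omit [IsManifold 𝓘(ℂ) ω Y] in
/-- relation between the differentials of `f` and `1 / f` -/
theorem D_of_mul_eq_one (hφ : An φ y) (h : ∀ᶠ y' in 𝓝 y, φ y' * f y' = 1) :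
    D f y = -D φ y / φ y ^ 2 := by
  rw [D_congr (v := fun y => (φ y)⁻¹) (h.mono fun y' hy => eq_inv_of_mul_eq_one_right hy),
    D_inv hφ (left_ne_zero_of_mul_eq_one h.self_of_nhds)]

theorem hol_of_local {Y₀ : Type} [TopologicalSpace Y₀] [ChartedSpace ℂ Y₀] {j : Y₀ → Y} {y : Y₀}
    (hc : ContinuousAt j y) (hψ : An ψ (j y)) (h0 : D ψ (j y) ≠ 0) (h : An (fun y => ψ (j y)) y) :
    Hol j y := by
  obtain ⟨e, h1, rfl, h2⟩ := hψ.exists_homeo h0
  refine ⟨hc, (h.comp ((h2 _ h1).2.2 _ an_zc_self)).congr ?_⟩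
  filter_upwards [hc.eventually (e.open_source.mem_nhds h1)] with y' hy
  simp only [Function.comp, e.left_inv hy]

variable [IsManifold 𝓘(ℂ) ω Y']

theorem Hol.eventually (h : Hol j y) (hc : ∀ᶠ y' in 𝓝 y, ContinuousAt j y') :
    ∀ᶠ y' in 𝓝 y, Hol j y' := by
  filter_upwards [hc, h.2.eventually, h.1.eventually (source_mem (mem_chart_source ℂ (j y)))]
    with y' h1 h2 h3 using hol_of_local h1 (an_zc h3) (D_zc_ne h3) h2

theorem hol_of_punctured (hc : ContinuousAt j y) (h : ∀ᶠ y' in 𝓝[≠] y, Hol j y') : Hol j y := by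
  refine ⟨hc, an_of_continuousAt ?_ ((continuousAt_zc (mem_chart_source ℂ (j y))).comp hc)⟩
  filter_upwards [h, mem_nhdsWithin_of_mem_nhds
    (hc.eventually (source_mem (mem_chart_source ℂ (j y))))] with y' h1 h2
  exact h1.an_comp (an_zc h2)

theorem hol_of_mdiff (h : ∀ᶠ y' in 𝓝 y, MDifferentiableAt 𝓘(ℂ) 𝓘(ℂ) j y') : Hol j y := by
  have hy := mem_chart_source ℂ y
  have hc := h.self_of_nhds.continuousAt
  refine ⟨hc, Complex.analyticAt_iff_eventually_differentiableAt.mpr ?_⟩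
  rw [← map_zc hy, eventually_map]
  filter_upwards [h, source_mem hy, hc.eventually (source_mem (mem_chart_source ℂ (j y)))]
    with y' h1 h2 h3
  have := ((mdifferentiableAt_iff_of_mem_source h2 h3).mp h1).2
  simp only [modelWithCornersSelf_coe, range_id, differentiableWithinAt_univ] at this
  exact this

theorem mdiff_iff_hol : MDifferentiable 𝓘(ℂ) 𝓘(ℂ) j ↔ ∀ y, Hol j y :=
  ⟨fun h _ => hol_of_mdiff (Eventually.of_forall h), fun h y => (h y).mdiffAt⟩

theorem hf_pull {w : Y' → ℂ} (h : ∀ᶠ y' in 𝓝 y, Hol j y') (hw : Hf w (j y)) : Hf (pull j w) y := by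
  have h0 := h.self_of_nhds
  refine (Hf.mul (h0.an_comp hw) h0.2.hf).congr ?_
  filter_upwards [h, h0.1.eventually (source_mem (mem_chart_source ℂ (j y)))] with y' h1 h2
  have := h1.D_comp (an_zc h2)
  rw [pull, show D (zc (j y) ∘ j) y' = _ from this, ← mul_assoc, div_mul_cancel₀ _ (D_zc_ne h2)]

theorem pull_mem {w : Y' → ℂ} (h : ∀ y, Hol j y) (hw : w ∈ Om Y') : pull j w ∈ Om Y :=
  fun y => hf_pull (Eventually.of_forall h) (hw (j y))

end Pool.Agent.P.MP_5d7cf0_gt.T
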