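import Pool.Agent.P.MP_5d7cf0_gt.T.RS1

/-!
Toolbox, part 2: global statements on a compact connected Riemann surface.
-/

open Set Filter Topology Manifold Metric
open scoped ContDiff

namespace Pool.Agent.P.MP_5d7cf0_gt.T

variable {Y : Type} [TopologicalSpace Y] [ChartedSpace ℂ Y] [RS Y] {u v w f : Y → ℂ} {p y : Y}

/-- Liouville -/
theorem const_of_an (h : ∀ y, An u y) : ∃ c, ∀ y, u y = c := by
  have : IsManifold 𝓘(ℂ) 1 Y := inferInstance
  obtain ⟨c, hc⟩ := MDifferentiable.exists_eq_const_of_compactSpace (I := 𝓘(ℂ))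
    fun y => (h y).mdiffAt
  exact ⟨c, fun y => by rw [hc]; rfl⟩

/-- the identity theorem for forms that are holomorphic outside a finite set -/
theorem hf_eq_zero {A : Set Y} (hA : A.Finite) (h : ∀ y, y ∉ A → Hf w y) {y₀ : Y}
    (h0 : ∀ᶠ y in 𝓝[≠] y₀, w y = 0) : ∀ y, y ∉ A → w y = 0 := by
  set Z := {y : Y | ∀ᶠ y' in 𝓝[≠] y, w y' = 0}
  have ho : IsOpen Z := by
    refine isOpen_iff_mem_nhds.mpr fun y hy => ?_
    filter_upwards [(eventually_nhdsWithin_iff.mp hy).eventually_nhds] with y' h1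
    by_cases h2 : y' = y
    · exact h2 ▸ hy
    · filter_upwards [mem_nhdsWithin_of_mem_nhds h1,
        mem_nhdsWithin_of_mem_nhds (isOpen_compl_singleton.mem_nhds h2)] with z h3 h4 using h3 h4
  have hc : IsClosed Z := by
    refine isClosed_of_closure_subset fun q hq => ?_
    have hp := mem_chart_source ℂ q
    obtain ⟨r, hr, hb⟩ := Metric.eventually_nhds_iff_ball.mp
      (((eventually_chart hp).mp (eventually_nhdsWithin_iff.mp (eventually_notMem hA q))).and
        (target_mem hp))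
    have han : AnalyticOnNhd ℂ (loc (fun y => w y / D (zc q) y) q) (ball (zc q q) r \ {zc q q}) :=
      fun z hz => by
        have h1 := (chartAt ℂ q).map_target (hb z hz.1).2
        have h2 := ((h _ ((hb z hz.1).1 fun h3 => hz.2 (by
          rw [mem_singleton_iff, ← zc_symm (hb z hz.1).2, mem_singleton_iff.mp h3]))).div_D
            (an_zc h1) (D_zc_ne h1)).loc h1
        rwa [zc_symm (hb z hz.1).2] at h2
    obtain ⟨y, ⟨hy1, hy2⟩, hy3⟩ := mem_closure_iff_nhds.mp hq _ (inter_mem (source_mem hp)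
      ((continuousAt_zc hp).eventually (ball_mem_nhds _ hr)))
    by_cases h1 : y = q
    · exact h1 ▸ hy3
    have h2 := han.eqOn_zero_of_preconnected_of_frequently_eq_zero (isPreconnected_punctured _ _)
      (z₀ := zc q y) ⟨hy2, fun h2 => h1 ((chartAt ℂ q).injOn hy1 hp h2)⟩
      (((eventually_chart_ne hy1).mp hy3).mono fun z hz => by
        simp only [loc, Function.comp, hz, zero_div]).frequently
    refine (eventually_chart_ne hp).mpr ?_
    filter_upwards [mem_nhdsWithin_of_mem_nhds (ball_mem_nhds _ hr), self_mem_nhdsWithin]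
      with z h3 h4
    exact (div_eq_zero_iff.mp (h2 ⟨h3, h4⟩)).resolve_right
      (D_zc_ne ((chartAt ℂ q).map_target (hb z h3).2))
  have hZ : Z = univ := IsClopen.eq_univ ⟨hc, ho⟩ ⟨y₀, h0⟩
  intro y hy
  have h1 : ∀ᶠ y' in 𝓝[≠] y, w y' = 0 := (hZ ▸ mem_univ y : y ∈ Z)
  exact tendsto_nhds_unique ((h y hy).tendsto.mono_left (nhdsWithin_le_nhds (s := {y}ᶜ)))
    (tendsto_const_nhds.congr' (h1.mono fun z hz => by simp only [hz, zero_div]))

/-- a form which is holomorphic outside a finite set and not zero has finitely many zeros near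
each point where it is holomorphic -/
theorem hf_eventually_ne {A : Set Y} (hA : A.Finite) (h : ∀ y, y ∉ A → Hf w y) {y₀ : Y}
    (h0 : y₀ ∉ A) (h1 : w y₀ ≠ 0) (hy : y ∉ A) : ∀ᶠ y' in 𝓝[≠] y, w y' ≠ 0 :=
  (h y hy).zero_or.resolve_left fun h2 =>
    h1 (hf_eq_zero hA h (h2.filter_mono nhdsWithin_le_nhds) y₀ h0)

theorem om_eq_zero (h : w ∈ Om Y) {y₀ : Y} (h0 : ∀ᶠ y in 𝓝[≠] y₀, w y = 0) : w = 0 :=
  funext fun y => hf_eq_zero finite_empty (fun y _ => h y) h0 y (notMem_empty y)

theorem om_eq_zero_of_finite (h : w ∈ Om Y) {A : Set Y} (hA : A.Finite)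
    (h0 : ∀ y, y ∉ A → w y = 0) : w = 0 :=
  om_eq_zero h ((eventually_notMem hA (Classical.arbitrary Y)).mono h0)

/-- a nonzero holomorphic form has finitely many zeros -/
theorem om_finite_zeros (h : w ∈ Om Y) (h0 : w ≠ 0) : {y | w y = 0}.Finite :=
  finite_of_isolated fun p => (h p).zero_or.resolve_left fun h2 =>
    h0 (om_eq_zero h (h2.filter_mono nhdsWithin_le_nhds))

/-- the identity theorem for functions that are holomorphic outside a finite set -/
theorem an_eq_zero {A : Set Y} (hA : A.Finite) (h : ∀ y, y ∉ A → An u y) {y₀ : Y}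
    (h0 : ∀ᶠ y in 𝓝[≠] y₀, u y = 0) : ∀ y, y ∉ A → u y = 0 := by
  set Z := {y : Y | ∀ᶠ y' in 𝓝[≠] y, u y' = 0}
  have ho : IsOpen Z := by
    refine isOpen_iff_mem_nhds.mpr fun y hy => ?_
    filter_upwards [(eventually_nhdsWithin_iff.mp hy).eventually_nhds] with y' h1
    by_cases h2 : y' = y
    · exact h2 ▸ hy
    · filter_upwards [mem_nhdsWithin_of_mem_nhds h1,
        mem_nhdsWithin_of_mem_nhds (isOpen_compl_singleton.mem_nhds h2)] with z h3 h4 using h3 h4
  have hc : IsClosed Z := by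
    refine isClosed_of_closure_subset fun q hq => ?_
    have hp := mem_chart_source ℂ q
    obtain ⟨r, hr, hb⟩ := Metric.eventually_nhds_iff_ball.mp
      (((eventually_chart hp).mp (eventually_nhdsWithin_iff.mp (eventually_notMem hA q))).and
        (target_mem hp))
    have han : AnalyticOnNhd ℂ (loc u q) (ball (zc q q) r \ {zc q q}) :=
      fun z hz => by
        have h1 := (chartAt ℂ q).map_target (hb z hz.1).2
        have h2 := (h _ ((hb z hz.1).1 fun h3 => hz.2 (by
          rw [mem_singleton_iff, ← zc_symm (hb z hz.1).2, mem_singleton_iff.mp h3]))).loc h1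
        rwa [zc_symm (hb z hz.1).2] at h2
    obtain ⟨y, ⟨hy1, hy2⟩, hy3⟩ := mem_closure_iff_nhds.mp hq _ (inter_mem (source_mem hp)
      ((continuousAt_zc hp).eventually (ball_mem_nhds _ hr)))
    by_cases h1 : y = q
    · exact h1 ▸ hy3
    have h2 := han.eqOn_zero_of_preconnected_of_frequently_eq_zero (isPreconnected_punctured _ _)
      (z₀ := zc q y) ⟨hy2, fun h2 => h1 ((chartAt ℂ q).injOn hy1 hp h2)⟩
      ((eventually_chart_ne hy1).mp hy3).frequently
    refine (eventually_chart_ne hp).mpr ?_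
    filter_upwards [mem_nhdsWithin_of_mem_nhds (ball_mem_nhds _ hr), self_mem_nhdsWithin]
      with z h3 h4
    exact h2 ⟨h3, h4⟩
  have hZ : Z = univ := IsClopen.eq_univ ⟨hc, ho⟩ ⟨y₀, h0⟩
  intro y hy
  have h1 : ∀ᶠ y' in 𝓝[≠] y, u y' = 0 := (hZ ▸ mem_univ y : y ∈ Z)
  exact tendsto_nhds_unique
    ((h y hy).continuousAt.tendsto.mono_left (nhdsWithin_le_nhds (s := {y}ᶜ)))
    (tendsto_const_nhds.congr' (h1.mono fun z hz => hz.symm))

/-- removable singularities at finitely many points, for functions -/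
theorem an_extend {A B : Set Y} (hA : A.Finite) (hB : B.Finite) (h : ∀ y, y ∉ A → y ∉ B → An u y)
    (hb : ∀ a ∈ A, ∃ C : ℝ, ∀ᶠ y in 𝓝[≠] a, ‖u y‖ ≤ C) :
    ∃ v, (∀ y, y ∈ A ∨ y ∉ B → An v y) ∧ ∀ y, y ∉ A → v y = u y := by
  classical
  have key : ∀ a ∈ A, ∃ v, An v a ∧ ∀ y, y ≠ a → v y = u y := fun a ha => by
    obtain ⟨C, hC⟩ := hb a ha
    refine an_update ?_ hC
    filter_upwards [eventually_notMem hA a, eventually_notMem hB a] with y h1 h2 using h y h1 h2
  choose! V hV using key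
  refine ⟨fun y => if y ∈ A then V y y else u y, fun y hy => ?_, fun y hy => if_neg hy⟩
  by_cases h1 : y ∈ A
  · refine (hV y h1).1.congr ?_
    filter_upwards [eventually_nhdsWithin_iff.mp (eventually_notMem hA y)] with z hz
    by_cases h2 : z = y
    · rw [h2, if_pos h1]
    · rw [if_neg (hz h2), (hV y h1).2 z h2]
  · refine (h y h1 (hy.resolve_left h1)).congr ?_
    filter_upwards [eventually_notMem' hA h1] with z hz
    rw [if_neg hz]

/-- removable singularities at finitely many points, for forms -/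
theorem om_extend {A : Set Y} (hA : A.Finite) (h : ∀ y, y ∉ A → Hf w y)
    (hb : ∀ a ∈ A, ∃ C : ℝ, ∀ᶠ y in 𝓝[≠] a, ‖w y / D (zc a) y‖ ≤ C) :
    ∃ w' ∈ Om Y, ∀ y, y ∉ A → w' y = w y := by
  classical
  have key : ∀ a ∈ A, ∃ v, An v a ∧ ∀ y, y ≠ a → v y = w y / D (zc a) y := fun a ha => by
    obtain ⟨C, hC⟩ := hb a ha
    refine an_update ?_ hC
    filter_upwards [eventually_notMem hA a, mem_nhdsWithin_of_mem_nhds
      (source_mem (mem_chart_source ℂ a))] with y h1 h2
    exact (h y h1).div_D (an_zc h2) (D_zc_ne h2)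
  choose! V hV using key
  refine ⟨fun y => if y ∈ A then V y y else w y, fun y => ?_, fun y hy => if_neg hy⟩
  by_cases h1 : y ∈ A
  · refine (hV y h1).1.congr ?_
    filter_upwards [eventually_nhdsWithin_iff.mp (eventually_notMem hA y)] with z hz
    by_cases h2 : z = y
    · rw [h2, if_pos h1, D_zc_self, div_one]
    · rw [if_neg (hz h2), (hV y h1).2 z h2]
  · refine (h y h1).congr ?_
    filter_upwards [eventually_notMem' hA h1] with z hz
    rw [if_neg hz]

/-- a function with a pole is nowhere locally constant -/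
theorem not_const_of_pole {P : Set Y} (hP : P.Finite) (h : ∀ y, y ∉ P → An f y)
    (ht : Tendsto f (𝓝[≠] p) (Bornology.cobounded ℂ)) (y : Y) (c : ℂ) :
    ¬∀ᶠ y' in 𝓝[≠] y, f y' = c := fun h0 => by
  have h1 := an_eq_zero (u := fun y => f y - c) hP (fun y hy => (h y hy).sub (an_const c))
    (h0.mono fun z hz => sub_eq_zero.mpr hz)
  have h2 : ∀ᶠ y in 𝓝[≠] p, f y ≠ c :=
    ht.eventually (p := fun z => z ≠ c) (Bornology.isBounded_singleton (x := c))
  obtain ⟨z, h3, h4⟩ := (h2.and (eventually_notMem hP p)).exists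
  exact h3 (sub_eq_zero.mp (h1 z h4))

/-- properness at a finite value -/
theorem proper_fin {P : Set Y} (h : ∀ y, y ∉ P → An f y)
    (ht : ∀ p ∈ P, Tendsto f (𝓝[≠] p) (Bornology.cobounded ℂ)) (c : ℂ) {U : Set Y}
    (hU : U ∈ 𝓝ˢ {y | y ∉ P ∧ f y = c}) : ∀ᶠ c' in 𝓝 c, ∀ y, y ∉ P → f y = c' → y ∈ U := by
  have key : ∀ y : Y, ∀ᶠ z : ℂ × Y in 𝓝 (c, y), z.2 ∉ P → f z.2 = z.1 → z.2 ∈ U := fun y => by
    by_cases h1 : y ∈ P
    · have h2 : ∀ᶠ z in 𝓝[≠] y, f z ∉ ball c 1 := (ht y h1).eventually isBounded_ball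
      filter_upwards [prod_mem_nhds (ball_mem_nhds c one_pos) (eventually_nhdsWithin_iff.mp h2)]
        with z hz h3 h4
      exact absurd (h4 ▸ hz.1) (hz.2 fun h5 => h3 (mem_singleton_iff.mp h5 ▸ h1))
    · by_cases h2 : f y = c
      · filter_upwards [continuousAt_snd.eventually (mem_nhdsSet_iff_forall.mp hU y ⟨h1, h2⟩)]
          with z hz _ _ using hz
      · have h3 : ContinuousAt (fun z : ℂ × Y => f z.2 - z.1) (c, y) :=
          ((h y h1).continuousAt.comp continuousAt_snd).sub continuousAt_fst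
        filter_upwards [h3.eventually_ne (sub_ne_zero.mpr h2)] with z hz _ h4
        exact absurd (sub_eq_zero.mpr h4) hz
  filter_upwards [isCompact_univ.eventually_forall_of_forall_eventually
    (P := fun c' y => y ∉ P → f y = c' → y ∈ U) fun y _ => key y] with c' h1 y
  exact h1 y (mem_univ y)

/-- properness at infinity -/
theorem proper_inf {P : Set Y} (h : ∀ y, y ∉ P → An f y) {U : Set Y} (hU : U ∈ 𝓝ˢ P) :
    ∀ᶠ c in Bornology.cobounded ℂ, ∀ y, f y = c → y ∈ U := by
  have h1 : IsCompact (interior U)ᶜ := isOpen_interior.isClosed_compl.isCompact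
  have h2 := (h1.image_of_continuousOn fun y hy => (h y fun h3 =>
    hy (subset_interior_iff_mem_nhdsSet.mpr hU h3)).continuousAt.continuousWithinAt).isBounded
  filter_upwards [h2] with c hc y hy
  by_contra h3
  exact hc ⟨y, fun h4 => h3 (interior_subset h4), hy⟩

end Pool.Agent.P.MP_5d7cf0_gt.T
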