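import Pool.Agent.P.MP_5d7cf0_gt.T.RS2

/-!
Toolbox, part 3: smooth functions and the Cauchy-Riemann operator.
-/

open Set Filter Topology Manifold Metric ComplexConjugate
open scoped ContDiff

namespace Pool.Agent.P.MP_5d7cf0_gt.T

/-! ### In the plane -/

section Plane

variable {f g : ℂ → ℂ} {z : ℂ}

theorem dbar_congr (h : f =ᶠ[𝓝 z] g) : dbar f z = dbar g z := by rw [dbar, dbar, h.fderiv_eq]

theorem dbar_const (c : ℂ) : dbar (fun _ => c) z = 0 := by simp [dbar]

theorem dbar_add (hf : DifferentiableAt ℝ f z) (hg : DifferentiableAt ℝ g z) :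
    dbar (fun z => f z + g z) z = dbar f z + dbar g z := by
  simp only [dbar, fderiv_fun_add hf hg, add_apply]
  ring

theorem dbar_mul (hf : DifferentiableAt ℝ f z) (hg : DifferentiableAt ℝ g z) :
    dbar (fun z => f z * g z) z = dbar f z * g z + f z * dbar g z := by
  simp only [dbar, fderiv_fun_mul hf hg, add_apply,
    smul_apply, smul_eq_mul]
  ring

theorem fderiv_holo (hf : DifferentiableAt ℂ f z) (v : ℂ) : fderiv ℝ f z v = deriv f z * v := by
  rw [(hf.hasDerivAt.hasFDerivAt.restrictScalars ℝ).fderiv]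
  simp [mul_comm]

theorem dbar_holo (hf : DifferentiableAt ℂ f z) : dbar f z = 0 := by
  rw [dbar, fderiv_holo hf, fderiv_holo hf]
  linear_combination (1 / 2 * deriv f z) * Complex.I_mul_I

theorem real_lin (L : ℂ →L[ℝ] ℂ) (v : ℂ) : L v = v.re * L 1 + v.im * L Complex.I := by
  conv_lhs => rw [show v = v.re • (1 : ℂ) + v.im • Complex.I by simp]
  rw [map_add, map_smul, map_smul, Complex.real_smul, Complex.real_smul]

theorem dbar_comp_holo (hg : DifferentiableAt ℝ g (f z)) (hf : DifferentiableAt ℂ f z) :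
    dbar (g ∘ f) z = conj (deriv f z) * dbar g (f z) := by
  rw [dbar, dbar, fderiv_comp z hg (hf.restrictScalars ℝ), ContinuousLinearMap.comp_apply,
    ContinuousLinearMap.comp_apply, fderiv_holo hf, fderiv_holo hf, real_lin _ (deriv f z * 1),
    real_lin _ (deriv f z * Complex.I)]
  have h : conj (deriv f z) = (deriv f z).re - (deriv f z).im * Complex.I := by
    apply Complex.ext <;> simp
  rw [h]
  simp only [mul_one, Complex.mul_re, Complex.I_re, mul_zero, Complex.I_im, zero_sub,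
    Complex.mul_im, Complex.ofReal_neg, add_zero]
  linear_combination (1 / 2 * ((deriv f z).im : ℂ) * fderiv ℝ g (f z) Complex.I) * Complex.I_mul_I

theorem differentiableAt_of_dbar (hf : DifferentiableAt ℝ f z) (h : dbar f z = 0) :
    DifferentiableAt ℂ f z := by
  refine differentiableAt_complex_iff_differentiableAt_real.mpr ⟨hf, ?_⟩
  rw [dbar] at h
  rw [smul_eq_mul]
  linear_combination (-2 * Complex.I) * h + (fderiv ℝ f z Complex.I) * Complex.I_mul_I

theorem contDiffAt_dbar (hf : ContDiffAt ℝ ∞ f z) : ContDiffAt ℝ ∞ (dbar f) z := by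
  have h := hf.fderiv_right (m := ∞) le_rfl
  exact contDiffAt_const.mul ((h.clm_apply contDiffAt_const).add
    (contDiffAt_const.mul (h.clm_apply contDiffAt_const)))

end Plane

variable {Y : Type} [TopologicalSpace Y] [ChartedSpace ℂ Y] {u v β β' : Y → ℂ} {p y : Y}

theorem Sm.congr (h : Sm u p) (e : u =ᶠ[𝓝 p] v) : Sm v p := by
  filter_upwards [h, (loc_congr (mem_chart_source ℂ p) e).eventually_nhds] with z h1 h2
  exact h1.congr_of_eventuallyEq (EventuallyEq.symm h2)

theorem Db_congr (e : u =ᶠ[𝓝 p] v) : Db u p = Db v p :=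
  dbar_congr (loc_congr (mem_chart_source ℂ p) e)

theorem Sm.diff (h : Sm u p) : DifferentiableAt ℝ (loc u p) (zc p p) :=
  h.self_of_nhds.differentiableAt (by simp)

theorem Sm.continuousAt (h : Sm u p) : ContinuousAt u p :=
  (ContinuousAt.comp h.diff.continuousAt (continuousAt_zc (mem_chart_source ℂ p))).congr
    (eq_loc (mem_chart_source ℂ p)).symm

theorem An.sm (h : An u p) : Sm u p :=
  (AnalyticAt.eventually_analyticAt h).mono fun _ hz => (hz.restrictScalars (𝕜 := ℝ)).contDiffAt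

theorem An.Db_zero (h : An u p) : Db u p = 0 := dbar_holo (AnalyticAt.differentiableAt h)

theorem sm_const (c : ℂ) : Sm (fun _ => c) p := (an_const c).sm

theorem Db_const (c : ℂ) : Db (fun _ => c) p = 0 := dbar_const c

theorem Sm.add (hu : Sm u p) (hv : Sm v p) : Sm (fun y => u y + v y) p := by
  filter_upwards [hu, hv] with z h1 h2 using h1.add h2

theorem Sm.mul (hu : Sm u p) (hv : Sm v p) : Sm (fun y => u y * v y) p := by
  filter_upwards [hu, hv] with z h1 h2 using h1.mul h2

theorem Sm.sub (hu : Sm u p) (hv : Sm v p) : Sm (fun y => u y - v y) p := by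
  filter_upwards [hu, hv] with z h1 h2 using h1.sub h2

theorem Sm.comp {g : ℂ → ℂ} (hu : Sm u p) (hg : ∀ᶠ z in 𝓝 (u p), ContDiffAt ℝ ∞ g z) :
    Sm (fun y => g (u y)) p := by
  have := hu.diff.continuousAt.eventually (p := fun z => ContDiffAt ℝ ∞ g z) (by rwa [loc_self])
  filter_upwards [hu, this] with z h1 h2 using h2.comp z h1

theorem Sm.inv (hu : Sm u p) (h0 : u p ≠ 0) : Sm (fun y => (u y)⁻¹) p :=
  hu.comp (g := fun z => z⁻¹) ((eventually_ne_nhds h0).mono fun _ hz =>
    contDiffAt_inv ℝ hz)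

theorem Sm.conj (hu : Sm u p) : Sm (fun y => conj (u y)) p :=
  hu.comp (g := fun z => starRingEnd ℂ z) (Eventually.of_forall fun _ =>
    Complex.conjCLE.contDiff.contDiffAt)

theorem sm_sum {ι : Type*} {s : Finset ι} {f : ι → Y → ℂ} (h : ∀ i ∈ s, Sm (f i) p) :
    Sm (fun y => ∑ i ∈ s, f i y) p := by
  filter_upwards [(eventually_all_finset s).mpr h] with z hz using ContDiffAt.sum hz

theorem Db_add (hu : Sm u p) (hv : Sm v p) : Db (fun y => u y + v y) p = Db u p + Db v p :=
  dbar_add hu.diff hv.diff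

theorem Db_mul (hu : Sm u p) (hv : Sm v p) :
    Db (fun y => u y * v y) p = Db u p * v p + u p * Db v p := by
  have := dbar_mul hu.diff hv.diff
  rwa [loc_self, loc_self] at this

theorem Db_const_mul (c : ℂ) (hu : Sm u p) : Db (fun y => c * u y) p = c * Db u p := by
  rw [Db_mul (sm_const c) hu, Db_const, zero_mul, zero_add]

theorem Db_sub (hu : Sm u p) (hv : Sm v p) : Db (fun y => u y - v y) p = Db u p - Db v p := by
  have := Db_add hu ((sm_const (-1)).mul hv)
  rw [Db_const_mul _ hv] at this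
  simpa [sub_eq_add_neg] using this

theorem Db_sum {ι : Type*} {s : Finset ι} {f : ι → Y → ℂ} (h : ∀ i ∈ s, Sm (f i) p) :
    Db (fun y => ∑ i ∈ s, f i y) p = ∑ i ∈ s, Db (f i) p := by
  classical
  induction s using Finset.induction_on with
  | empty => simpa using Db_const 0
  | insert a s ha ih =>
    simp only [Finset.sum_insert ha]
    rw [Db_add (h a (Finset.mem_insert_self _ _))
      (sm_sum fun i hi => h i (Finset.mem_insert_of_mem hi)),
      ih fun i hi => h i (Finset.mem_insert_of_mem hi)]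

/-- chain rule for a holomorphic inner function -/
theorem Db_comp {g : ℂ → ℂ} (hu : An u p) (hg : DifferentiableAt ℝ g (u p)) :
    Db (fun y => g (u y)) p = conj (D u p) * dbar g (u p) := by
  have := dbar_comp_holo (g := g) (by rwa [loc_self]) (AnalyticAt.differentiableAt hu)
  rwa [loc_self] at this

theorem LEx.add (h : LEx β) (h' : LEx β') : LEx (β + β') := fun p => by
  obtain ⟨u, hu⟩ := h p
  obtain ⟨v, hv⟩ := h' p
  refine ⟨fun y => u y + v y, ?_⟩
  filter_upwards [hu, hv] with y h1 h2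
  exact ⟨h1.1.add h2.1, by rw [Db_add h1.1 h2.1, h1.2, h2.2]; rfl⟩

theorem LEx.smul (c : ℂ) (h : LEx β) : LEx (c • β) := fun p => by
  obtain ⟨u, hu⟩ := h p
  refine ⟨fun y => c * u y, ?_⟩
  filter_upwards [hu] with y h1
  exact ⟨(sm_const c).mul h1.1, by rw [Db_const_mul c h1.1, h1.2]; rfl⟩

theorem Ex.lEx (h : Ex β) : LEx β := fun _ => h.imp fun _ hu => Eventually.of_forall hu

theorem ex_zero : Ex (0 : Y → ℂ) := ⟨fun _ => 0, fun _ => ⟨sm_const 0, Db_const 0⟩⟩

theorem Ex.add (h : Ex β) (h' : Ex β') : Ex (β + β') := by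
  obtain ⟨u, hu⟩ := h
  obtain ⟨v, hv⟩ := h'
  exact ⟨fun y => u y + v y, fun y => ⟨(hu y).1.add (hv y).1, by
    rw [Db_add (hu y).1 (hv y).1, (hu y).2, (hv y).2]; rfl⟩⟩

theorem Ex.smul (c : ℂ) (h : Ex β) : Ex (c • β) := by
  obtain ⟨u, hu⟩ := h
  exact ⟨fun y => c * u y, fun y => ⟨(sm_const c).mul (hu y).1, by
    rw [Db_const_mul c (hu y).1, (hu y).2]; rfl⟩⟩

variable (Y) in
/-- the locally exact forms as a subspace -/
def LExS : Submodule ℂ (Y → ℂ) where
  carrier := {β | LEx β}
  add_mem' := LEx.add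
  zero_mem' := ex_zero.lEx
  smul_mem' := fun c _ h => LEx.smul c h

variable (Y) in
/-- the exact forms as a subspace -/
def ExS : Submodule ℂ (Y → ℂ) where
  carrier := {β | Ex β}
  add_mem' := Ex.add
  zero_mem' := ex_zero
  smul_mem' := fun c _ h => Ex.smul c h

theorem mem_LExS : β ∈ LExS Y ↔ LEx β := Iff.rfl

theorem mem_ExS : β ∈ ExS Y ↔ Ex β := Iff.rfl

variable [IsManifold 𝓘(ℂ) ω Y]

theorem sm_of_loc (hy : y ∈ (chartAt ℂ p).source)
    (h : ∀ᶠ z in 𝓝 (zc p y), ContDiffAt ℝ ∞ (loc u p) z) : Sm u y :=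
  ((an_zc hy).sm.comp h).congr (eq_loc hy).symm

theorem Sm.loc (h : Sm u y) (hy : y ∈ (chartAt ℂ p).source) :
    ∀ᶠ z in 𝓝 (zc p y), ContDiffAt ℝ ∞ (T.loc u p) z := by
  have h1 := analyticAt_trans hy
  have h2 := h1.continuousAt.eventually (p := fun z => ContDiffAt ℝ ∞ (T.loc u y) z)
    (by rw [loc_zc hy]; exact h)
  filter_upwards [h1.eventually_analyticAt, h2, (loc_eq_comp (u := u) hy).eventually_nhds]
    with z h3 h4 h5
  exact (h4.comp z (h3.restrictScalars (𝕜 := ℝ)).contDiffAt).congr_of_eventuallyEq h5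

theorem sm_iff (hy : y ∈ (chartAt ℂ p).source) :
    Sm u y ↔ ∀ᶠ z in 𝓝 (zc p y), ContDiffAt ℝ ∞ (loc u p) z := ⟨fun h => h.loc hy, sm_of_loc hy⟩

theorem Db_eq (hy : y ∈ (chartAt ℂ p).source) (h : Sm u y) :
    Db u y = conj (D (zc p) y) * dbar (loc u p) (zc p y) := by
  rw [Db_congr (eq_loc (p := p) hy)]
  exact Db_comp (an_zc hy) ((h.loc hy).self_of_nhds.differentiableAt (by simp))

theorem Sm.eventually (h : Sm u p) : ∀ᶠ y in 𝓝 p, Sm u y := by
  have hp := mem_chart_source ℂ p
  filter_upwards [(continuousAt_zc hp).eventually (Eventually.eventually_nhds h), source_mem hp]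
    with y h1 h2 using sm_of_loc h2 h1

/-- the Cauchy-Riemann equations give holomorphy -/
theorem an_of_Db (h : ∀ᶠ y in 𝓝 p, Sm u y ∧ Db u y = 0) : An u p := by
  have hp := mem_chart_source ℂ p
  refine Complex.analyticAt_iff_eventually_differentiableAt.mpr ?_
  rw [← map_zc hp, eventually_map]
  filter_upwards [h, source_mem hp] with y h1 h2
  refine differentiableAt_of_dbar ((h1.1.loc h2).self_of_nhds.differentiableAt (by simp)) ?_
  have := h1.2
  rw [Db_eq h2 h1.1] at this
  exact (mul_eq_zero.mp this).resolve_left (by simpa using D_zc_ne h2)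

/-- the coefficient of a locally exact form in a chart is smooth -/
theorem LEx.sm_div (h : LEx β) (hy : y ∈ (chartAt ℂ p).source) :
    Sm (fun y => β y / conj (D (zc p) y)) y := by
  obtain ⟨u, hu⟩ := h y
  refine ((an_zc hy).sm.comp (g := dbar (loc u p))
    ((hu.self_of_nhds.1.loc hy).mono fun z hz => contDiffAt_dbar hz)).congr ?_
  filter_upwards [hu, source_mem hy] with y' h1 h2
  rw [← h1.2, Db_eq h2 h1.1, mul_div_cancel_left₀ _ (by simpa using D_zc_ne h2)]

end Pool.Agent.P.MP_5d7cf0_gt.T
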