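import Pool.Agent.P.MP_5d7cf0_gt.T.RS
import Pool.Agent.P.MP_5d7cf0_gt.T.Ori
import Pool.Agent.P.MP_5d7cf0_gt.T.Mot

/-!
Package Rel: equality in Teichmueller space is labelled equivalence of data.
-/

open Set Filter Topology Manifold Metric
open scoped ContDiff

namespace Pool.Agent.P.MP_5d7cf0_gt.T

namespace RelP

theorem homot {Z A B C' : Type} [TopologicalSpace Z] [TopologicalSpace A] [TopologicalSpace B]
    [TopologicalSpace C'] {a b : C(A, B)} (h : a.Homotopic b) (e : C(Z, A)) (c : C(B, C'))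
    {u v : C(Z, C')} (hu : ∀ z, u z = c (a (e z))) (hv : ∀ z, v z = c (b (e z))) :
    u.Homotopic v := by
  have h1 : u = (c.comp a).comp e := ContinuousMap.ext hu
  have h2 : v = (c.comp b).comp e := ContinuousMap.ext hv
  rw [h1, h2]
  exact ((ContinuousMap.Homotopic.refl c).comp h).comp (ContinuousMap.Homotopic.refl e)

variable {S : Type} [TopologicalSpace S] [ChartedSpace ℂ S]

theorem eqv : Equivalence (Eqv S) where
  refl M := ⟨Homeomorph.refl _, mdifferentiable_id, mdifferentiable_id,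
    ContinuousMap.Homotopic.refl _⟩
  symm := by
    rintro M N ⟨h, h1, h2, h3⟩
    exact ⟨h.symm, h2, h1, homot h3.symm (.id S) (h.symm : C(N.Y, M.Y)) (fun z => rfl)
      fun z => (h.symm_apply_apply _).symm⟩
  trans := by
    rintro M N P ⟨h, h1, h2, h3⟩ ⟨k, k1, k2, k3⟩
    exact ⟨h.trans k, k1.comp h1, h2.comp k2,
      (homot h3 (.id S) (k : C(N.Y, P.Y)) (fun z => rfl) fun z => rfl).trans k3⟩

theorem notMem (τ : Datum S) {y : τ.M.Y} (hy : y ∉ range τ.r) : τ.M.f.symm y ∉ range τ.ρ := by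
  rintro ⟨i, hi⟩
  exact hy ⟨i, τ.M.f.symm.injective hi⟩

theorem notMem' (τ : Datum S) {s : S} (hs : s ∉ range τ.ρ) : τ.M.f s ∉ range τ.r := by
  rintro ⟨i, hi⟩
  exact hs ⟨i, by rw [Datum.ρ, hi, Homeomorph.symm_apply_apply]⟩

/-- the biholomorphism attached to a labelled equivalence -/
theorem bih [RS S] (hBi : S_Bi) {σ : Equiv.Perm (Fin 6)} {τ τ' : Datum S} (h : TRel σ τ τ') :
    ∃ j : τ.M.Y ≃ₜ τ'.M.Y, MDifferentiable 𝓘(ℂ) 𝓘(ℂ) j ∧ MDifferentiable 𝓘(ℂ) 𝓘(ℂ) j.symm ∧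
      ContinuousMap.Homotopic (τ.M.f.trans j : C(S, τ'.M.Y)) (τ'.M.f : C(S, τ'.M.Y)) ∧
      ∀ i, j (τ.r (σ i)) = τ'.r i := by
  obtain ⟨hx, φ, h1, h2, h3⟩ := h
  have hr : ∀ i, (τ.M.f.symm.trans (φ.trans τ'.M.f)) (τ.r (σ i)) = τ'.r i := fun i => by
    change τ'.M.f (φ (τ.ρ (σ i))) = _
    rw [h2, Datum.ρ, Homeomorph.apply_symm_apply]
  obtain ⟨d1, d2⟩ := hBi τ.M.Y τ'.M.Y τ.x σ τ.f τ.r τ'.f τ'.r
    (τ.M.f.symm.trans (φ.trans τ'.M.f)) τ.dbl (hx ▸ τ'.dbl) hr fun y hy => by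
      have := h3 _ (notMem τ hy)
      rw [Datum.F, Datum.F, Homeomorph.apply_symm_apply] at this
      exact this
  refine ⟨_, d1, d2, homot h1 (.id S) (τ'.M.f : C(S, τ'.M.Y)) (fun z => ?_) fun z => rfl, hr⟩
  change τ'.M.f (φ (τ.M.f.symm (τ.M.f z))) = τ'.M.f (φ z)
  rw [Homeomorph.symm_apply_apply]

theorem orPres_of_bih {Y Y' : Type} [TopologicalSpace Y] [ChartedSpace ℂ Y] [RS Y]
    [TopologicalSpace Y'] [ChartedSpace ℂ Y'] [RS Y'] (j : Y ≃ₜ Y')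
    (h1 : MDifferentiable 𝓘(ℂ) 𝓘(ℂ) j) (h2 : MDifferentiable 𝓘(ℂ) 𝓘(ℂ) j.symm) : OrPres j := by
  have k1 := mdiff_iff_hol.mp h1
  have k2 := mdiff_iff_hol.mp h2
  refine orCrit Y Y' j j.continuous fun p => ⟨zc (j p) ∘ j, zc (j p), id, (k1 p).2,
    (k1 p).D_ne (k2 _) (Eventually.of_forall j.symm_apply_apply), an_zc_self, ?_, fun z z' => ?_,
    Eventually.of_forall fun y => rfl⟩
  · rw [D_zc_self]
    exact one_ne_zero
  · rw [id, id, sub_self, norm_zero]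
    positivity

end RelP

open RelP in
theorem rel (hAT : S_AT) (hNT : S_NT) (hBi : S_Bi) (hUq : S_Uq) : S_Rel := by
  intro S _ _ _ hg
  refine ⟨fun τ τ' => ?_, fun σ τ h => ?_, fun τ τ' hx => ?_⟩
  · refine (Equivalence.quot_mk_eq_iff eqv _ _).trans ⟨?_, ?_⟩
    · rintro ⟨j, h1, h2, h3⟩
      obtain ⟨σ, e1, e2, e3⟩ := hAT τ.M.Y τ'.M.Y τ.x τ'.x τ.f τ.r τ'.f τ'.r j τ.dbl τ'.dbl
        (hg _) (hg _) h1 h2
      refine ⟨σ, e1, τ.M.f.trans (j.trans τ'.M.f.symm),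
        homot h3 (.id S) (τ'.M.f.symm : C(τ'.M.Y, S)) (fun z => rfl)
          fun z => (τ'.M.f.symm_apply_apply z).symm, fun i => ?_, fun s hs => ?_⟩
      · change τ'.M.f.symm (j (τ.M.f (τ.M.f.symm (τ.r (σ i))))) = τ'.M.f.symm (τ'.r i)
        rw [Homeomorph.apply_symm_apply, e2]
      · change τ'.f (τ'.M.f (τ'.M.f.symm (j (τ.M.f s)))) = _
        rw [Homeomorph.apply_symm_apply]
        exact e3 _ (notMem' τ hs)
    · rintro ⟨σ, h⟩
      obtain ⟨j, h1, h2, h3, -⟩ := bih hBi h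
      exact ⟨j, h1, h2, h3⟩
  · obtain ⟨j, h1, -, h3, h4⟩ := bih hBi h
    have := hNT τ.M.Y τ.x τ.f τ.r j τ.dbl (hg _) h1
      (homot h3 (τ.M.f.symm : C(τ.M.Y, S)) (.id _) (fun z => by
        change j z = j (τ.M.f (τ.M.f.symm z))
        rw [Homeomorph.apply_symm_apply]) fun z => (τ.M.f.apply_symm_apply z).symm)
    ext i
    rw [τ.dbl.inj ((this (σ i)).symm.trans (h4 i))]
    rfl
  · obtain ⟨j, h1, h2⟩ := hUq τ.M.Y τ'.M.Y τ.x τ.f τ.r τ'.f τ'.r τ.dbl (hx ▸ τ'.dbl)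
      (exists_ne_zero_of_finrank (hg _)) (exists_ne_zero_of_finrank (hg _))
    obtain ⟨d1, d2⟩ := hBi τ.M.Y τ'.M.Y τ.x 1 τ.f τ.r τ'.f τ'.r j τ.dbl
      (by rw [mobC.1, hx]; exact τ'.dbl) h1 fun y hy => by rw [mobC.2.1]; exact h2 y hy
    have o1 : OrPres j.symm := orPres_of_bih j.symm d2 d1
    have o2 : OrPres τ.M.f.symm := orInv _ _ _ τ.M.or
    refine ⟨⟨τ'.M.f.trans (j.symm.trans τ.M.f.symm),
      o2.comp (o1.comp τ'.M.or τ'.M.f.continuous) (j.symm.continuous.comp τ'.M.f.continuous)⟩,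
      Quot.sound ⟨j, d1, d2, ?_⟩⟩
    refine homot (ContinuousMap.Homotopic.refl (τ'.M.f : C(S, τ'.M.Y))) (.id S) (.id _)
      (fun z => ?_) fun z => rfl
    change j (τ.M.f (τ.M.f.symm (j.symm (τ'.M.f z)))) = τ'.M.f z
    rw [Homeomorph.apply_symm_apply, Homeomorph.apply_symm_apply]

end Pool.Agent.P.MP_5d7cf0_gt.T
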