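import Pool.Agent.P.MP_5d7cf0_gt.T.St

/-!
Package RieA: the smooth structure and the Riemannian metric on a space with an atlas whose
transition maps are given by the action of the symmetric group.
-/

open Set Filter Topology Manifold Metric Bundle Bornology
open scoped ContDiff

noncomputable section

namespace Pool.Agent.P.MP_5d7cf0_gt.T

namespace RieAP

variable {T : Type 1} [TopologicalSpace T] [ChartedSpace E T]

/-- a transition map agrees with `act σ` near each point -/
theorem trans_eq (h : Atl T) {e e' : OpenPartialHomeomorph T E} (he : e ∈ atlas E T)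
    (he' : e' ∈ atlas E T) {x : E} (hx : x ∈ e.target) (hx' : e.symm x ∈ e'.source) :
    ∃ σ, (e' ∘ e.symm) =ᶠ[𝓝 x] act σ := by
  obtain ⟨σ, hσ⟩ := h.trans e he e' he' (e.symm x) (e.map_target hx) hx'
  refine ⟨σ, ?_⟩
  filter_upwards [(e.continuousAt_symm hx).eventually hσ, e.open_target.mem_nhds hx] with y h1 h2
  simp only [Function.comp, h1, e.right_inv h2]

theorem trans_smooth (hA : S_Act) (h : Atl T) {e e' : OpenPartialHomeomorph T E}
    (he : e ∈ atlas E T) (he' : e' ∈ atlas E T) {x : E} (hx : x ∈ e.target)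
    (hx' : e.symm x ∈ e'.source) : ContDiffAt ℝ ∞ (e' ∘ e.symm) x := by
  obtain ⟨σ, hσ⟩ := trans_eq h he he' hx hx'
  exact (((hA.2 σ).1 x (h.sub e he hx)).2.2.restrict_scalars ℝ).congr_of_eventuallyEq hσ

theorem man (hA : S_Act) (h : Atl T) : IsManifold 𝓘(ℝ, E) ∞ T := by
  refine isManifold_of_contDiffOn _ _ _ fun e e' he he' => ?_
  intro x hx
  simp only [mfld_simps] at hx ⊢
  exact (trans_smooth hA h he he' hx.1 hx.2).contDiffWithinAt

/-- the metric is invariant under the transition maps -/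
theorem trans_inv (h : Atl T) {g : Met} {f : E → ℝ} {B : ℝ} (hg : Good g f B)
    {e e' : OpenPartialHomeomorph T E} (he : e ∈ atlas E T) (he' : e' ∈ atlas E T) {x : E}
    (hx : x ∈ e.target) (hx' : e.symm x ∈ e'.source) (u v : E) :
    g (e' (e.symm x)) (fderiv ℝ (e' ∘ e.symm) x u) (fderiv ℝ (e' ∘ e.symm) x v) = g x u v := by
  obtain ⟨σ, hσ⟩ := trans_eq h he he' hx hx'
  have e1 : e' (e.symm x) = act σ x := hσ.self_of_nhds
  rw [hσ.fderiv_eq, e1]
  exact hg.inv σ x (h.sub e he hx) u v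

theorem bounded (b : E →L[ℝ] E →L[ℝ] ℝ) (hb : ∀ u, u ≠ 0 → 0 < b u u) :
    IsVonNBounded ℝ {v : E | b v v < 1} := by
  have hc : Continuous fun v : E => b v v := by fun_prop
  obtain ⟨w, hw, hmin⟩ := (isCompact_sphere (0 : E) 1).exists_isMinOn
    (NormedSpace.sphere_nonempty.2 zero_le_one) hc.continuousOn
  have hw0 : w ≠ 0 := fun h => by simp [h] at hw
  have hm := hb w hw0
  have key : ∀ v : E, b w w * ‖v‖ ^ 2 ≤ b v v := by
    intro v
    rcases eq_or_ne v 0 with rfl | hv
    · simp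
    have hn : 0 < ‖v‖ := norm_pos_iff.2 hv
    have h1 : b w w ≤ b (‖v‖⁻¹ • v) (‖v‖⁻¹ • v) :=
      hmin (a := ‖v‖⁻¹ • v) (by simp [norm_smul, hn.ne'])
    simp only [map_smul, smul_apply, smul_eq_mul] at h1
    calc b w w * ‖v‖ ^ 2 ≤ ‖v‖⁻¹ * (‖v‖⁻¹ * b v v) * ‖v‖ ^ 2 := by gcongr
      _ = b v v := by field_simp
  rw [NormedSpace.isVonNBounded_iff]
  refine (isBounded_closedBall (x := (0 : E)) (r := 1 + (b w w)⁻¹)).subset fun v hv => ?_
  simp only [mem_closedBall, dist_zero_right]
  have h1 : b w w * ‖v‖ ^ 2 < 1 := (key v).trans_lt hv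
  have h2 : ‖v‖ ^ 2 ≤ (b w w)⁻¹ := by
    rw [← one_div, le_div_iff₀ hm]; linarith
  nlinarith [sq_nonneg (‖v‖ - 1), inv_pos.2 hm, norm_nonneg v]

set_option backward.isDefEq.respectTransparency false in
theorem mfd [IsManifold 𝓘(ℝ, E) ∞ T] {e : OpenPartialHomeomorph T E} (he : e ∈ atlas E T) {x : E}
    (hx : x ∈ e.target) :
    (mfderiv 𝓘(ℝ, E) 𝓘(ℝ, E) e.symm x : E →L[ℝ] E)
      = fderiv ℝ (chartAt E (e.symm x) ∘ e.symm) x := by
  have hd : MDifferentiableAt 𝓘(ℝ, E) 𝓘(ℝ, E) e.symm x := mdifferentiableAt_atlas_symm he hx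
  simp only [mfderiv, if_pos hd, writtenInExtChartAt, mfld_simps, fderivWithin_univ]

set_option backward.isDefEq.respectTransparency false in
/-- the metric on the manifold -/
def metr (hA : S_Act) (h : Atl T) [IsManifold 𝓘(ℝ, E) ∞ T] {g : Met} {f : E → ℝ} {B : ℝ}
    (hg : Good g f B) :
    ContMDiffRiemannianMetric 𝓘(ℝ, E) ∞ E (fun t : T => TangentSpace 𝓘(ℝ, E) t) where
  inner t := (g (chartAt E t t) : E →L[ℝ] E →L[ℝ] ℝ)
  symm t u v := hg.symm _ (h.sub _ (chart_mem_atlas E t) (mem_chart_target E t)) u v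
  pos t u hu := hg.pos _ (h.sub _ (chart_mem_atlas E t) (mem_chart_target E t)) u hu
  isVonNBounded t := bounded _ (hg.pos _ (h.sub _ (chart_mem_atlas E t) (mem_chart_target E t)))
  contMDiff := by
    intro t₀
    rw [contMDiffAt_section]
    have hX := h.sub _ (chart_mem_atlas E t₀) (mem_chart_target E t₀)
    have h1 : ContMDiffAt 𝓘(ℝ, E) 𝓘(ℝ, E →L[ℝ] E →L[ℝ] ℝ) ∞ (fun t => g (chartAt E t₀ t)) t₀ :=
      (hg.smooth.contDiffAt (hA.1.mem_nhds hX)).contMDiffAt.comp t₀
        (contMDiffAt_extChartAt (I := 𝓘(ℝ, E)) (n := ∞) (x := t₀))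
    refine h1.congr_of_eventuallyEq ?_
    filter_upwards [(chartAt E t₀).open_source.mem_nhds (mem_chart_source E t₀)] with t ht
    ext u v
    rw [hom_trivializationAt_apply]
    dsimp only
    rw [inCoordinates_apply_eq₂ (by simpa using ht) (by simpa using ht)
      (by simp)]
    have e1 : ∀ w : E, (trivializationAt E (TangentSpace 𝓘(ℝ, E)) t₀).symm t w
        = fderiv ℝ (chartAt E t ∘ (chartAt E t₀).symm) (chartAt E t₀ t) w := by
      intro w
      have := congrArg (fun L : E →L[ℝ] E => L w)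
        (TangentBundle.symmL_trivializationAt_eq_core (I := 𝓘(ℝ, E)) ht)
      rw [← Trivialization.symmL_apply (R := ℝ) _ (by simpa using ht)]
      simp only [tangentBundleCore_coordChange, mfld_simps, fderivWithin_univ] at this
      exact this
    have e2 := trans_inv h hg (chart_mem_atlas E t₀) (chart_mem_atlas E t)
      ((chartAt E t₀).map_source ht) (by rw [(chartAt E t₀).left_inv ht]; simp) u v
    rw [(chartAt E t₀).left_inv ht] at e2
    rw [e1, e1, ← e2]
    simp only [Trivial.fiberBundle_trivializationAt', Trivial.linearMapAt_trivialization,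
      LinearMap.id_coe, id_eq]
    rfl

end RieAP

open RieAP in
theorem rieA (hA : S_Act) : S_RieA := by
  intro T _ _ g f B h hg
  haveI := man hA h
  refine ⟨this, ⟨(metr hA h hg).toRiemannianMetric⟩, inferInstance, fun e he x hx u v => ?_⟩
  have := trans_inv h hg he (chart_mem_atlas E (e.symm x)) hx (mem_chart_source E _) u v
  rw [← mfd he hx] at this
  exact this

end Pool.Agent.P.MP_5d7cf0_gt.T
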