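import Pool.Agent.P.MP_5d7cf0_gt.T.St
import Pool.Agent.P.MP_5d7cf0_gt.Comp

/-!
Package RieB: completeness of the Riemannian distance on a manifold with uniform charts.
-/

open Set Filter Topology MeasureTheory Manifold Metric
open scoped ContDiff ENNReal

namespace Pool.Agent.P.MP_5d7cf0_gt.T

namespace RieBP

/-- Displacement of a function whose speed is dominated by a function of small integral. -/
theorem disp {s : ℝ → ℝ} (hs : Continuous s) (hs0 : ∀ t, 0 ≤ s t) {ε C b : ℝ} (hε : 0 ≤ ε)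
    (hC : 0 ≤ C) (hl : ∫⁻ t in Icc (0 : ℝ) 1, ENNReal.ofReal (s t) < ENNReal.ofReal ε)
    (hb : b ∈ Icc (0 : ℝ) 1) {F : Type} [NormedAddCommGroup F] [NormedSpace ℝ F] {φ : ℝ → F}
    (hφ : ∀ t ∈ Icc (0 : ℝ) b, DifferentiableAt ℝ φ t ∧ ‖deriv φ t‖ ≤ C * s t) :
    ‖φ b - φ 0‖ ≤ C * ε := by
  have hsi : IntegrableOn s (Icc 0 1) := hs.continuousOn.integrableOn_Icc
  rw [← ofReal_integral_eq_lintegral_ofReal hsi (Eventually.of_forall hs0)] at hl
  have e2 : ∫ t in Icc (0 : ℝ) 1, s t ≤ ε := (ENNReal.ofReal_le_ofReal_iff hε).1 hl.le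
  have hsub : Icc (0 : ℝ) b ⊆ Icc 0 1 := Icc_subset_Icc_right hb.2
  have e3 := norm_sub_le_integral_of_norm_deriv_le_of_le (f := φ) (B := fun t => C * s t) hb.1
    (fun t ht => (hφ t ht).1.continuousAt.continuousWithinAt)
    (fun t ht => (hφ t (Ioo_subset_Icc_self ht)).1.differentiableWithinAt)
    (Eventually.of_forall fun t ht => (hφ t (Ioo_subset_Icc_self ht)).2)
    ((continuous_const.mul hs).intervalIntegrable _ _)
  refine e3.trans ?_
  rw [intervalIntegral.integral_const_mul, intervalIntegral.integral_of_le hb.1]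
  refine mul_le_mul_of_nonneg_left (le_trans ?_ e2) hC
  exact setIntegral_mono_set hsi (Eventually.of_forall hs0)
    (Eventually.of_forall (Ioc_subset_Icc_self.trans hsub))

/-- A short path from `x` to `y` with its speed read in every chart. -/
def Short {T : Type 1} [TopologicalSpace T] [ChartedSpace E T] (g : Met) (x y : T) (ε : ℝ) :
    Prop :=
  ∃ (γ : ℝ → T) (s : ℝ → ℝ), Continuous γ ∧ γ 0 = x ∧ γ 1 = y ∧ Continuous s ∧ (∀ t, 0 ≤ s t) ∧
    ∫⁻ t in Icc (0 : ℝ) 1, ENNReal.ofReal (s t) < ENNReal.ofReal ε ∧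
    ∀ e ∈ atlas E T, ∀ t, γ t ∈ e.source → DifferentiableAt ℝ (e ∘ γ) t ∧
      s t = √(g (e (γ t)) (deriv (e ∘ γ) t) (deriv (e ∘ γ) t))

open Bundle in
theorem ip_congr {T : Type 1} [TopologicalSpace T] [ChartedSpace E T]
    [RiemannianBundle fun t : T => TangentSpace 𝓘(ℝ, E) t] {t t' : T} (h : t = t') (u v : E) :
    ip (F := E) t u v = ip (F := E) t' u v := by
  subst h
  rfl

open Bundle in
theorem speed {T : Type 1} [TopologicalSpace T] [ChartedSpace E T] [IsManifold 𝓘(ℝ, E) ∞ T]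
    [RiemannianBundle fun t : T => TangentSpace 𝓘(ℝ, E) t] {g : Met}
    (hin : ∀ e ∈ atlas E T, ∀ x ∈ e.target, ∀ u v, inChart e x u v = g x u v) {γ : ℝ → T}
    (hγ : ContMDiff 𝓘(ℝ, ℝ) 𝓘(ℝ, E) 1 γ) {e : OpenPartialHomeomorph T E} (he : e ∈ atlas E T)
    {t : ℝ} (ht : γ t ∈ e.source) :
    ContDiffAt ℝ 1 (e ∘ γ) t ∧
      ip (F := E) (γ t) (mfderiv 𝓘(ℝ, ℝ) 𝓘(ℝ, E) γ t 1) (mfderiv 𝓘(ℝ, ℝ) 𝓘(ℝ, E) γ t 1) =
        g (e (γ t)) (deriv (e ∘ γ) t) (deriv (e ∘ γ) t) := by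
  have h1 : ContMDiffAt 𝓘(ℝ, ℝ) 𝓘(ℝ, E) 1 (e ∘ γ) t :=
    (contMDiffAt_of_mem_maximalAtlas (IsManifold.subset_maximalAtlas he) ht).comp t (hγ t)
  have h2 : ContDiffAt ℝ 1 (e ∘ γ) t := contMDiffAt_iff_contDiffAt.1 h1
  refine ⟨h2, ?_⟩
  have h3 : γ =ᶠ[𝓝 t] e.symm ∘ (e ∘ γ) := by
    filter_upwards [hγ.continuous.continuousAt.preimage_mem_nhds (e.open_source.mem_nhds ht)]
      with t' ht'
    exact (e.left_inv ht').symm
  have h4 : mfderiv 𝓘(ℝ, ℝ) 𝓘(ℝ, E) γ t =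
      (mfderiv 𝓘(ℝ, E) 𝓘(ℝ, E) e.symm (e (γ t))).comp (mfderiv 𝓘(ℝ, ℝ) 𝓘(ℝ, E) (e ∘ γ) t) := by
    rw [h3.mfderiv_eq]
    exact mfderiv_comp t (mdifferentiableAt_atlas_symm he (e.map_source ht))
      (h1.mdifferentiableAt one_ne_zero)
  have h5 : mfderiv 𝓘(ℝ, ℝ) 𝓘(ℝ, E) γ t 1 =
      mfderiv 𝓘(ℝ, E) 𝓘(ℝ, E) e.symm (e (γ t)) (deriv (e ∘ γ) t) := by
    rw [h4, mfderiv_eq_fderiv]
    rfl
  rw [← hin e he _ (e.map_source ht), h5]
  exact ip_congr (e.left_inv ht).symm _ _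

open Bundle in
theorem short {T : Type 1} [EMetricSpace T] [ChartedSpace E T] [IsManifold 𝓘(ℝ, E) ∞ T]
    [RiemannianBundle fun t : T => TangentSpace 𝓘(ℝ, E) t] [IsRiemannianManifold 𝓘(ℝ, E) T]
    {g : Met} (hA : Atl T) (hg : ContinuousOn g X)
    (hin : ∀ e ∈ atlas E T, ∀ x ∈ e.target, ∀ u v, inChart e x u v = g x u v) {x y : T} {ε : ℝ}
    (h : edist x y < ENNReal.ofReal ε) : Short g x y ε := by
  rw [IsRiemannianManifold.out (I := 𝓘(ℝ, E))] at h
  obtain ⟨γ, h0, h1, hγ, hl, -⟩ := exists_lt_locally_constant_of_riemannianEDist_lt h zero_lt_one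
  refine ⟨γ, fun t => √(ip (F := E) (γ t) (mfderiv 𝓘(ℝ, ℝ) 𝓘(ℝ, E) γ t 1)
    (mfderiv 𝓘(ℝ, ℝ) 𝓘(ℝ, E) γ t 1)), hγ.continuous, h0, h1, ?_, fun t => Real.sqrt_nonneg _,
    ?_, fun e he t ht => ?_⟩
  · rw [continuous_iff_continuousAt]
    intro t
    have he := chart_mem_atlas E (γ t)
    have ht := mem_chart_source E (γ t)
    set e := chartAt E (γ t)
    have h2 := (speed hin hγ he ht).1
    have h3 : ContinuousAt (deriv (e ∘ γ)) t :=
      (h2.derivWithin (m := 0) (by simp)).continuousAt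
    have h4 : ContinuousAt (fun t' => g (e (γ t'))) t := by
      have h5 : e.target ∈ 𝓝 (e (γ t)) := e.open_target.mem_nhds (e.map_source ht)
      exact ContinuousAt.comp (f := e ∘ γ)
        (hg.continuousAt (mem_of_superset h5 (hA.sub e he))) h2.continuousAt
    refine ContinuousAt.congr ((h4.clm_apply h3).clm_apply h3).sqrt ?_
    filter_upwards [hγ.continuous.continuousAt.preimage_mem_nhds (e.open_source.mem_nhds ht)]
      with t' ht'
    rw [(speed hin hγ he ht').2]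
  · rw [pathELength_eq_lintegral_mfderiv_Icc] at hl
    refine lt_of_eq_of_lt (lintegral_congr fun t => ?_) hl
    rw [← ofReal_norm, norm_eq_sqrt_real_inner]
    rfl
  · have h2 := speed hin hγ he ht
    exact ⟨h2.1.differentiableAt one_ne_zero, congrArg Real.sqrt h2.2⟩

/-- the invariant function does not depend on the chart -/
theorem f_chart {T : Type 1} [TopologicalSpace T] [ChartedSpace E T] {g : Met} {f : E → ℝ}
    {B : ℝ} (hA : Atl T) (hG : Good g f B) {e : OpenPartialHomeomorph T E} (he : e ∈ atlas E T)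
    {t : T} (ht : t ∈ e.source) : f (chartAt E t t) = f (e t) := by
  obtain ⟨σ, hσ⟩ := hA.trans e he _ (chart_mem_atlas E t) t ht (mem_chart_source E t)
  rw [hσ.self_of_nhds, hG.finv σ _ (hA.sub e he (e.map_source ht))]

theorem f_le {T : Type 1} [TopologicalSpace T] [ChartedSpace E T] {g : Met} {f : E → ℝ}
    {B : ℝ} (hA : Atl T) (hG : Good g f B) {x y : T} (h : Short g x y 1) :
    f (chartAt E y y) ≤ f (chartAt E x x) + √|B| := by
  obtain ⟨γ, s, hγ, h0, h1, hs, hs0, hl, hc⟩ := h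
  have hg0 : ∀ x ∈ X, ∀ v, 0 ≤ g x v v := fun x hx v => by
    rcases eq_or_ne v 0 with rfl | hv
    · simp
    · exact (hG.pos x hx v hv).le
  have key := disp hs hs0 zero_le_one (Real.sqrt_nonneg |B|) hl ⟨zero_le_one, le_rfl⟩
    (φ := fun t => f (chartAt E (γ t) (γ t))) fun t _ => by
      have he := chart_mem_atlas E (γ t)
      have ht := mem_chart_source E (γ t)
      set e := chartAt E (γ t)
      have hX : e (γ t) ∈ X := hA.sub e he (e.map_source ht)
      have h2 : (fun t => f (chartAt E (γ t) (γ t))) =ᶠ[𝓝 t] f ∘ (e ∘ γ) := by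
        filter_upwards [hγ.continuousAt.preimage_mem_nhds (e.open_source.mem_nhds ht)]
          with t' ht'
        exact f_chart hA hG he ht'
      obtain ⟨h3, h4⟩ := hc e he t ht
      have h5 := (hG.grad _ hX).1.hasFDerivAt.comp_hasDerivAt t h3.hasDerivAt
      refine ⟨h5.differentiableAt.congr_of_eventuallyEq h2, ?_⟩
      rw [h2.deriv_eq, h5.deriv, h4, ← Real.sqrt_mul (abs_nonneg B)]
      exact Real.abs_le_sqrt (((hG.grad _ hX).2 _).trans
        (mul_le_mul_of_nonneg_right (le_abs_self B) (hg0 _ hX _)))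
  rw [h0, h1, mul_one, Real.norm_eq_abs] at key
  linarith [le_abs_self (f (chartAt E y y) - f (chartAt E x x))]

/-- first exit argument -/
theorem stay {T : Type 1} [TopologicalSpace T] [T2Space T] [ChartedSpace E T] {g : Met}
    {e : OpenPartialHomeomorph T E} (he : e ∈ atlas E T) {z : E} {r C δ : ℝ} (hC : 0 ≤ C)
    (hδ : 0 ≤ δ) (hr : C * δ ≤ r) (hsub : closedBall z (2 * r) ⊆ e.target)
    (hlow : ∀ x ∈ closedBall z (2 * r), ∀ u, ‖u‖ ≤ C * √(g x u u)) {x y : T} (hx : x ∈ e.source)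
    (hxz : e x ∈ ball z r) (h : Short g x y δ) : y ∈ e.symm '' closedBall z (2 * r) := by
  obtain ⟨γ, s, hγ, h0, h1, hs, hs0, hl, hc⟩ := h
  have hQ : IsCompact (e.symm '' closedBall z (2 * r)) :=
    (isCompact_closedBall _ _).image_of_continuousOn (e.continuousOn_symm.mono hsub)
  have hin : ∀ t ∈ e.source, e t ∈ ball z (2 * r) → t ∈ e.symm '' closedBall z (2 * r) :=
    fun t ht h => ⟨e t, ball_subset_closedBall h, e.left_inv ht⟩
  have hout : ∀ t ∈ e.symm '' closedBall z (2 * r), t ∈ e.source ∧ e t ∈ closedBall z (2 * r) := by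
    rintro _ ⟨a, ha, rfl⟩
    exact ⟨e.map_target (hsub ha), by rwa [e.right_inv (hsub ha)]⟩
  have hr0 : 0 < r := pos_of_mem_ball hxz
  have hcl : IsClosed (γ ⁻¹' (e.symm '' closedBall z (2 * r)) ∩ Icc 0 1) :=
    (hQ.isClosed.preimage hγ).inter isClosed_Icc
  have hall : Icc (0 : ℝ) 1 ⊆ γ ⁻¹' (e.symm '' closedBall z (2 * r)) := by
    apply hcl.Icc_subset_of_forall_mem_nhdsGT_of_Icc_subset
    · rw [mem_preimage, h0]
      exact hin x hx (ball_subset_ball (by linarith) hxz)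
    rintro b ⟨hb0, hb1⟩ hb
    have key := disp hs hs0 hδ hC hl ⟨hb0, hb1.le⟩ (φ := e ∘ γ) fun t ht => by
      obtain ⟨h2, h3⟩ := hout _ (hb ht)
      obtain ⟨h4, h5⟩ := hc e he t h2
      exact ⟨h4, h5 ▸ hlow _ h3 _⟩
    have h2 := (hout _ (hb (right_mem_Icc.2 hb0))).1
    have h3 : e (γ b) ∈ ball z (2 * r) := by
      rw [mem_ball, dist_eq_norm] at hxz ⊢
      simp only [Function.comp_apply, h0] at key
      have := norm_sub_le_norm_sub_add_norm_sub (e (γ b)) (e x) z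
      linarith
    have h4 : e.source ∩ e ⁻¹' ball z (2 * r) ∈ 𝓝 (γ b) :=
      (e.isOpen_inter_preimage isOpen_ball).mem_nhds ⟨h2, h3⟩
    refine mem_nhdsWithin_of_mem_nhds ?_
    filter_upwards [hγ.continuousAt.preimage_mem_nhds h4] with t ht
    exact hin _ ht.1 ht.2
  have := hall (right_mem_Icc.2 zero_le_one)
  rwa [mem_preimage, h1] at this

end RieBP

open RieBP in
theorem rieB : S_RieB := by
  intro T _ _ _ _ _ g f B hA hG hin
  have hg : ContinuousOn g X := hG.smooth.continuousOn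
  refine EMetric.complete_of_cauchySeq_tendsto fun u hu => ?_
  have hc := EMetric.cauchySeq_iff.1 hu
  obtain ⟨N₀, hN₀⟩ := hc (ENNReal.ofReal 1) (by simp)
  have hX : ∀ t : T, chartAt E t t ∈ X := fun t =>
    hA.sub _ (chart_mem_atlas E t) (mem_chart_target E t)
  obtain ⟨K, hK, hKX, hKf⟩ := hG.proper (f (chartAt E (u N₀) (u N₀)) + √|B|)
  have hmem : ∀ᶠ n in atTop, chartAt E (u n) (u n) ∈ K := by
    filter_upwards [eventually_ge_atTop N₀] with n hn
    exact hKf _ (hX _) (f_le hA hG (short hA hg hin (hN₀ N₀ le_rfl n hn)))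
  obtain ⟨z, hz, hcl⟩ := hK.exists_mapClusterPt (f := atTop)
    (u := fun n => chartAt E (u n) (u n)) (le_principal_iff.2 hmem)
  obtain ⟨ρ, hρ, huni⟩ := hA.uni z (hKX hz)
  have hfr : ∃ᶠ n in atTop, chartAt E (u n) (u n) ∈ ball z (ρ / 4) :=
    hcl.frequently (p := fun a => a ∈ ball z (ρ / 4)) (ball_mem_nhds z (by positivity))
  have hbb : ball z (ρ / 4) ⊆ ball z ρ := ball_subset_ball (by linarith)
  have hcb : closedBall z (2 * (ρ / 4)) ⊆ ball z ρ := closedBall_subset_ball (by linarith)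
  have hbX : ball z ρ ⊆ X := by
    obtain ⟨n, hn⟩ := hfr.exists
    obtain ⟨e, he, -, -, h⟩ := huni _ (chart_mem_atlas E (u n)) _ (mem_chart_source E _) (hbb hn)
    exact h.trans (hA.sub e he)
  obtain ⟨C, hC, hlow⟩ := CompP.lower hg hG.pos (isCompact_closedBall z (2 * (ρ / 4)))
    (hcb.trans hbX)
  have hδ : 0 < ρ / 4 / (C + 1) := by positivity
  obtain ⟨N, hN⟩ := hc (ENNReal.ofReal (ρ / 4 / (C + 1))) (by simpa using hδ)
  obtain ⟨n, hn, hnN⟩ := (hfr.and_eventually (eventually_ge_atTop N)).exists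
  obtain ⟨e, he, h1, h2, h3⟩ := huni _ (chart_mem_atlas E (u n)) _ (mem_chart_source E _) (hbb hn)
  have hQ : IsCompact (e.symm '' closedBall z (2 * (ρ / 4))) :=
    (isCompact_closedBall _ _).image_of_continuousOn (e.continuousOn_symm.mono (hcb.trans h3))
  have hCδ : C * (ρ / 4 / (C + 1)) ≤ ρ / 4 := by
    rw [← mul_div_assoc, div_le_iff₀ (by positivity)]
    nlinarith
  have htail : ∀ᶠ m in atTop, u m ∈ e.symm '' closedBall z (2 * (ρ / 4)) := by
    filter_upwards [eventually_ge_atTop N] with m hm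
    exact stay he hC hδ.le hCδ (hcb.trans h3) hlow h1 (h2 ▸ hn)
      (short hA hg hin (hN n hnN m hm))
  obtain ⟨a, -, ha⟩ := hQ.isComplete (map u atTop) hu (le_principal_iff.2 htail)
  exact ⟨a, ha⟩

end Pool.Agent.P.MP_5d7cf0_gt.T
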