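import Pool.Agent.P.MP_5d7cf0_gt.T.St
import Pool.Agent.P.MP_5d7cf0_gt.Rm

/-!
Package RieC: isometries read in charts, pinching, and a countable partition for the volume.
-/

open Set Filter Topology MeasureTheory Manifold Metric
open scoped ContDiff ENNReal

namespace Pool.Agent.P.MP_5d7cf0_gt.T

theorem isom : S_Isom := by
  intro T _ _ _ _ g A hg hA
  have key : ∀ t : T, ∃ e' ∈ atlas E T, e'.target = (chartAt E t).target ∧
      (∀ a ∈ (chartAt E t).target, A ((chartAt E t).symm a) = e'.symm a) ∧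
      ContMDiffAt 𝓘(ℝ, E) 𝓘(ℝ, E) ∞ A t := by
    intro t
    obtain ⟨e', he', h1, h2⟩ := hA _ (chart_mem_atlas E t)
    refine ⟨e', he', h1, h2, ?_⟩
    have hs := (chartAt E t).open_source.mem_nhds (mem_chart_source E t)
    have c1 : ContMDiffAt 𝓘(ℝ, E) 𝓘(ℝ, E) ∞ (chartAt E t) t := contMDiffOn_chart.contMDiffAt hs
    have c2 : ContMDiffAt 𝓘(ℝ, E) 𝓘(ℝ, E) ∞ e'.symm (chartAt E t t) :=
      (contMDiffOn_symm_of_mem_maximalAtlas (IsManifold.subset_maximalAtlas he')).contMDiffAt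
        (e'.open_target.mem_nhds (h1 ▸ mem_chart_target E t))
    refine (c2.comp t c1).congr_of_eventuallyEq ?_
    filter_upwards [hs] with y hy
    rw [Function.comp, ← h2 _ ((chartAt E t).map_source hy), (chartAt E t).left_inv hy]
  refine ⟨fun t => (key t).choose_spec.2.2.2, fun t => ?_⟩
  obtain ⟨e', he', h1, h2, h3⟩ := key t
  have he := chart_mem_atlas E t
  have hx := mem_chart_target E t
  have ht := (chartAt E t).left_inv (mem_chart_source E t)
  generalize chartAt E t = e at h1 h2 he hx ht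
  generalize e t = x at hx ht
  subst ht
  have hd : e.MDifferentiable 𝓘(ℝ, E) 𝓘(ℝ, E) := mdifferentiable_of_mem_atlas he
  have hs : Function.Surjective (mfderiv 𝓘(ℝ, E) 𝓘(ℝ, E) e.symm x) :=
    hd.symm.mfderiv_surjective hx
  intro u v
  obtain ⟨u, rfl⟩ := hs u
  obtain ⟨v, rfl⟩ := hs v
  have ev : A ∘ e.symm =ᶠ[𝓝 x] e'.symm := by
    filter_upwards [e.open_target.mem_nhds hx] with y hy using h2 y hy
  have hc := mfderiv_comp x (h3.mdifferentiableAt (by simp)) (hd.mdifferentiableAt_symm hx)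
  have a1 : inChart e x u v = g x u v := hg e he x hx u v
  have a2 : inChart e' x u v = g x u v := hg e' he' x (h1 ▸ hx) u v
  have a3 : ∀ f f' : E → T, f =ᶠ[𝓝 x] f' →
      ip (f x) (mfderiv 𝓘(ℝ, E) 𝓘(ℝ, E) f x u) (mfderiv 𝓘(ℝ, E) 𝓘(ℝ, E) f x v) =
      ip (f' x) (mfderiv 𝓘(ℝ, E) 𝓘(ℝ, E) f' x u) (mfderiv 𝓘(ℝ, E) 𝓘(ℝ, E) f' x v) := by
    intro f f' h
    rw [h.mfderiv_eq]
    have := h.eq_of_nhds
    congr 1
  have a4 := a3 _ _ ev
  rw [hc] at a4
  exact a4.trans (a2.trans a1.symm)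

theorem pin : S_Pin := by
  intro g f B a g' V G hV hVX hg' hs
  refine ⟨chr g, fun x hx => ⟨fun u v w => ?_, fun u v _ => ?_⟩⟩
  · have hN := hV.mem_nhds hx
    have hX : X ∈ 𝓝 x := mem_of_superset hN hVX
    have hg := G.smooth.contDiffAt hX
    have hd : ∀ a b c, fderiv ℝ (fun y => g' y a b) x c = fderiv ℝ g x c a b := fun a b c => by
      have h1 := ((hg.differentiableAt (by simp)).hasFDerivAt.clm_apply
        (hasFDerivAt_const a x)).clm_apply (hasFDerivAt_const b x)
      have h2 : (fun y => g' y a b) =ᶠ[𝓝 x] fun y => g y a b := by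
        filter_upwards [hN] with y hy using hg' y hy a b
      rw [h2.fderiv_eq, h1.fderiv]
      simp
    rw [hg' x hx, (pRm g x (hg.of_le (WithTop.coe_le_coe.mpr (le_top (a := (2 : ℕ∞)))))
      (by filter_upwards [hX] with y hy using G.symm y hy) (G.pos x (hVX hx))).1, hd, hd, hd]
    simp [kos]
  · simp only [hg' x hx]
    exact hs x (hVX hx) u v

theorem lind : S_Lind := by
  intro Z ρ g hZ hρ hv
  obtain ⟨s, hs, hc, hZs⟩ := TopologicalSpace.countable_cover_nhdsWithin
    (f := fun z => ball z (ρ z)) (s := Z)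
    fun z hz => mem_nhdsWithin_of_mem_nhds (ball_mem_nhds z (hρ z hz).1)
  have hne : s.Nonempty := by
    obtain ⟨z, hz⟩ := hZ
    obtain ⟨y, hy, -⟩ := mem_iUnion₂.1 (hZs hz)
    exact ⟨y, hy⟩
  obtain ⟨z, rfl⟩ := hc.exists_eq_range hne
  have hm : ∀ n, MeasurableSet (disjointed (fun n => ball (z n) (ρ (z n))) n) :=
    MeasurableSet.disjointed fun _ => measurableSet_ball
  refine ⟨z, disjointed fun n => ball (z n) (ρ (z n)),
    fun n => ⟨hs ⟨n, rfl⟩, hm n, disjointed_subset _ n⟩, ?_, fun g' hg' => ?_⟩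
  · rwa [iUnion_disjointed, ← biUnion_range (g := fun z => ball z (ρ z))]
  · have e : ∀ n, volOn realBasis (g' n) (disjointed (fun n => ball (z n) (ρ (z n))) n) =
        ∫⁻ x in disjointed (fun n => ball (z n) (ρ (z n))) n, dens g x := fun n => by
      refine setLIntegral_congr_fun (hm n) fun x hx => ?_
      simp only [hg' n x hx]
      rfl
    simp only [e]
    rw [← lintegral_iUnion hm (disjoint_disjointed _), iUnion_disjointed]
    exact (lintegral_mono_set (iUnion_subset fun n => (hρ _ (hs ⟨n, rfl⟩)).2)).trans_lt hv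

end Pool.Agent.P.MP_5d7cf0_gt.T
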