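import Pool.Agent.P.MP_5d7cf0_gt.T.RS

/-!
Package Root: the square root of the branch polynomial on a double cover.
-/

open Set Filter Topology Manifold Metric Polynomial
open scoped ContDiff

namespace Pool.Agent.P.MP_5d7cf0_gt.T

namespace RootP

variable {Y : Type} [TopologicalSpace Y] [ChartedSpace ℂ Y] [RS Y] {f : Y → ℂ} {P R : Finset Y}
  {ι : Y → Y}

/-- `W` is an odd function outside the poles whose square is the polynomial `G` in `f` -/
def Sq (f : Y → ℂ) (P : Finset Y) (ι : Y → Y) (W : Y → ℂ) (G : ℂ[X]) : Prop :=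
  ∀ y, y ∉ P → An W y ∧ W y ^ 2 = G.eval (f y) ∧ W (ι y) = -W y

omit [RS Y] in
theorem f_iota (h : Two f P R ι) {y : Y} (hy : y ∉ P) : f (ι y) = f y :=
  (h.fib y hy _ (h.mem y hy)).2 (Or.inr rfl)

omit [RS Y] in
theorem eq_of_f_eq (h : Two f P R ι) {r y : Y} (hr : r ∈ R) (hy : y ∉ P) (e : f y = f r) :
    y = r := by
  rcases (h.fib r (h.disj r hr) y hy).1 e with h1 | h1
  · exact h1
  · rw [h1, (h.fix r (h.disj r hr)).2 hr]

omit [RS Y] in
theorem finite_fibre (h : Two f P R ι) (c : ℂ) : {y | y ∉ P ∧ f y = c}.Finite := by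
  rcases {y | y ∉ P ∧ f y = c}.eq_empty_or_nonempty with h0 | ⟨y, hy, hc⟩
  · rw [h0]
    exact finite_empty
  · refine (toFinite {y, ι y}).subset fun y' hy' => ?_
    exact (h.fib y hy y' hy'.1).1 (hy'.2.trans hc.symm)

omit [RS Y] in
theorem eq_of_ev {a b : Y → ℂ} {y : Y} (ha : ContinuousAt a y) (hb : ContinuousAt b y)
    (e : ∀ᶠ y' in 𝓝[≠] y, a y' = b y') : a y = b y :=
  tendsto_nhds_unique_of_eventuallyEq (l := 𝓝[≠] y) (ha.tendsto.mono_left nhdsWithin_le_nhds)
    (hb.tendsto.mono_left nhdsWithin_le_nhds) e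

/-- extension over a finite set -/
theorem extend (h : Two f P R ι) (hc : ∀ y, y ∉ P → ContinuousAt ι y) {A : Set Y} (hA : A.Finite)
    (hAP : ∀ a ∈ A, a ∉ P) (hι : ∀ y, y ∉ P → y ∉ A → ι y ∉ A) {u : Y → ℂ} {G : ℂ[X]}
    (hu : ∀ y, y ∉ P → y ∉ A → An u y ∧ u y ^ 2 = G.eval (f y) ∧ u (ι y) = -u y) :
    ∃ W, Sq f P ι W G := by
  have hev : ∀ y, ∀ᶠ y' in 𝓝[≠] y, y' ∉ P ∧ y' ∉ A := fun y =>
    (eventually_notMem P.finite_toSet y).and (eventually_notMem hA y)
  obtain ⟨v, hv, hvu⟩ := an_extend (u := u) hA P.finite_toSet (fun y h1 h2 => (hu y h2 h1).1)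
    fun a ha => by
      have h1 : Tendsto (fun y => √‖G.eval (f y)‖) (𝓝[≠] a) (𝓝 √‖G.eval (f a)‖) :=
        (((h.an a (hAP a ha)).poly G).continuousAt.norm.sqrt.tendsto).mono_left nhdsWithin_le_nhds
      refine ⟨√‖G.eval (f a)‖ + 1, ?_⟩
      filter_upwards [hev a, h1.eventually_le_const (lt_add_one _)] with y hy h2
      rwa [← (hu y hy.1 hy.2).2.1, norm_pow, Real.sqrt_sq (norm_nonneg _)] at h2
  refine ⟨v, fun y hy => ⟨hv y (Or.inr hy), ?_, ?_⟩⟩
  · refine eq_of_ev (a := fun y => v y ^ 2) (b := fun y => G.eval (f y))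
      ((hv y (Or.inr hy)).pow 2).continuousAt ((h.an y hy).poly G).continuousAt ?_
    filter_upwards [hev y] with y' hy'
    rw [hvu y' hy'.2, (hu y' hy'.1 hy'.2).2.1]
  · refine eq_of_ev (a := fun y => v (ι y)) (b := fun y => -v y)
      ((hv _ (Or.inr (h.mem y hy))).continuousAt.comp (hc y hy))
      (hv y (Or.inr hy)).neg.continuousAt ?_
    filter_upwards [hev y] with y' hy'
    rw [hvu y' hy'.2, hvu _ (hι y' hy'.1 hy'.2), (hu y' hy'.1 hy'.2).2.2]

/-- removing double roots -/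
theorem reduce (h : Two f P R ι) (hc : ∀ y, y ∉ P → ContinuousAt ι y) (n : ℕ) :
    ∀ (G : ℂ[X]) (W : Y → ℂ), G.natDegree ≤ n → G ≠ 0 → Sq f P ι W G →
      ∃ (G' : ℂ[X]) (W' : Y → ℂ), G' ≠ 0 ∧ Sq f P ι W' G' ∧ ∀ c, ¬(Polynomial.X - C c) ^ 2 ∣ G' := by
  induction n using Nat.strong_induction_on with
  | _ n ih =>
  intro G W hn hG hW
  by_cases hd : ∀ c, ¬(Polynomial.X - C c) ^ 2 ∣ G
  · exact ⟨G, W, hG, hW, hd⟩
  push Not at hd
  obtain ⟨c, G₁, rfl⟩ := hd
  have hG₁ : G₁ ≠ 0 := right_ne_zero_of_mul hG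
  rw [natDegree_mul (left_ne_zero_of_mul hG) hG₁, natDegree_pow, natDegree_X_sub_C] at hn
  obtain ⟨W₁, hW₁⟩ := extend h hc (finite_fibre h c) (fun a ha => ha.1)
    (fun y hy h1 h2 => h1 ⟨hy, (f_iota h hy).symm.trans h2.2⟩)
    (u := fun y => W y / (f y - c)) (G := G₁) fun y hy h1 => by
      have h2 : f y - c ≠ 0 := sub_ne_zero.2 fun e => h1 ⟨hy, e⟩
      obtain ⟨h3, h4, h5⟩ := hW y hy
      refine ⟨h3.div ((h.an y hy).sub (an_const c)) h2, ?_, ?_⟩
      · rw [div_pow, h4, eval_mul, eval_pow, eval_sub, eval_X, eval_C,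
          mul_div_cancel_left₀ _ (pow_ne_zero 2 h2)]
      · rw [f_iota h hy, h5, neg_div]
  exact ih G₁.natDegree (by omega) G₁ W₁ le_rfl hG₁ hW₁

/-- a polynomial without double roots is the branch polynomial -/
theorem factor (h : Two f P R ι) (hs : ∀ c, ∃ y, y ∉ P ∧ f y = c) {G : ℂ[X]} {W : Y → ℂ}
    (hG : G ≠ 0) (hW : Sq f P ι W G) (hd : ∀ c, ¬(Polynomial.X - C c) ^ 2 ∣ G) (z : ℂ) :
    G.eval z = G.leadingCoeff * ∏ r ∈ R, (z - f r) := by
  classical
  have hm : ∀ c, G.rootMultiplicity c ≤ 1 := fun c => by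
    by_contra h1
    exact hd c ((le_rootMultiplicity_iff hG).1 (by omega))
  have h1 : G.roots.Nodup := Multiset.nodup_iff_count_le_one.2 fun c => by
    rw [count_roots]
    exact hm c
  have h2 : (R.val.map f).Nodup := R.nodup.map_on fun a ha b hb e =>
    eq_of_f_eq h hb (h.disj a ha) e
  have h3 : G.roots = R.val.map f := by
    rw [h1.ext h2]
    intro c
    rw [mem_roots hG, Multiset.mem_map]
    constructor
    · intro h0
      obtain ⟨y, hy, rfl⟩ := hs c
      refine ⟨y, ?_, rfl⟩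
      by_contra hR
      obtain ⟨h3, h4, -⟩ := hW y hy
      have h5 : W y = 0 := pow_eq_zero_iff two_ne_zero |>.1 (h4.trans h0)
      have h6 : D (fun y => W y ^ 2) y = D (fun y => G.eval (f y)) y := by
        apply D_congr
        filter_upwards [eventually_notMem' P.finite_toSet hy] with y' hy'
        exact (hW y' hy').2.1
      rw [D_pow h3, D_poly (h.an y hy), h5] at h6
      have h7 : G.derivative.eval (f y) = 0 := by
        have := h.der y hy hR
        simpa [this] using h6.symm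
      have := (one_lt_rootMultiplicity_iff_isRoot hG).2 ⟨h0, h7⟩
      have := hm (f y)
      omega
    · rintro ⟨r, hr, rfl⟩
      obtain ⟨-, h4, h5⟩ := hW r (h.disj r hr)
      rw [(h.fix r (h.disj r hr)).2 hr] at h5
      have h6 : W r = 0 := by linear_combination h5 / 2
      rw [IsRoot, ← h4, h6]
      simp
  have h4 := C_leadingCoeff_mul_prod_multiset_X_sub_C (p := G)
    (IsAlgClosed.splits G).natDegree_eq_card_roots.symm
  conv_lhs => rw [← h4]
  rw [eval_mul, eval_C, eval_multiset_prod, h3, Multiset.map_map, Multiset.map_map]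
  congr 1
  simp only [Function.comp_def, eval_sub, eval_X, eval_C]
  rfl

/-- a holomorphic form divided by `df` tends to zero at a pole -/
theorem tendsto_pole (h : Two f P R ι) {w : Y → ℂ} (hw : w ∈ Om Y) {p : Y} (hp : p ∈ P) :
    Tendsto (fun y => w y / D f y) (𝓝[≠] p) (𝓝 0) := by
  have hP := eventually_notMem P.finite_toSet p
  obtain ⟨φ, h1, h2, h3, h4⟩ := exists_inv (hP.mono fun y hy => h.an y hy) (h.pole p hp)
  have h5 := h1.tendsto_div_D h3
  have h6 : Tendsto φ (𝓝[≠] p) (𝓝 (φ p)) := h1.continuousAt.tendsto.mono_left nhdsWithin_le_nhds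
  have h7 := ((((hw p).tendsto.mono_left nhdsWithin_le_nhds).mul h6).mul h5).neg
  rw [mul_zero, neg_zero] at h7
  refine h7.congr' ?_
  filter_upwards [hP, eventually_notMem R.finite_toSet p, eventually_eventually_nhdsWithin.2 h4,
    self_mem_nhdsWithin, nhdsWithin_le_nhds h1.eventually,
    nhdsWithin_le_nhds (source_mem (mem_chart_source ℂ p))] with y hy hR h8 hne h9 hs
  rw [isOpen_compl_singleton.nhdsWithin_eq hne] at h8
  have h10 := D_of_mul_eq_one h9 h8
  have h11 : D φ y ≠ 0 := fun e => h.der y hy hR (by rw [h10, e]; simp)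
  have h12 : φ y ≠ 0 := left_ne_zero_of_mul_eq_one h8.self_of_nhds
  have h13 := D_zc_ne hs
  rw [h10, h2]
  field_simp
  ring

theorem tendsto_ram (h : Two f P R ι) {w : Y → ℂ} (hw : w ∈ Om Y) {r : Y} (hr : r ∈ R) :
    Tendsto (fun y => (∏ r ∈ R, (f y - f r)) * (w y / D f y)) (𝓝[≠] r) (𝓝 0) := by
  classical
  obtain ⟨p, hp⟩ := h.ne
  have h0 := h.an r (h.disj r hr)
  have h1 := h0.tendsto_div_D fun e =>
    not_const_of_pole P.finite_toSet h.an (h.pole p hp) r (f r) (nhdsWithin_le_nhds e)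
  have h2 : An (fun y => ∏ r' ∈ R.erase r, (f y - f r')) r :=
    an_prod fun r' _ => h0.sub (an_const _)
  have h3 := ((h2.continuousAt.tendsto.mono_left nhdsWithin_le_nhds).mul
    ((hw r).tendsto.mono_left nhdsWithin_le_nhds)).mul h1
  rw [mul_zero] at h3
  refine h3.congr' ?_
  filter_upwards [nhdsWithin_le_nhds (source_mem (mem_chart_source ℂ r))] with y hs
  have h4 := D_zc_ne hs
  rw [← Finset.mul_prod_erase R _ hr]
  field_simp

end RootP

open RootP in
theorem rootW (hI : S_Iota) (hD : S_Desc) (hO : S_Odd) : S_W := by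
  rintro Y _ _ _ f P R ι h ⟨w, hw, hw0⟩
  obtain ⟨hs, -, -, hι, -⟩ := hI Y f P R ι h
  have hc : ∀ y, y ∉ P → ContinuousAt ι y := fun y hy => (hι y hy).2.1
  let u : Y → ℂ := fun y => (∏ r ∈ R, (f y - f r)) * (w y / D f y)
  have hu : ∀ y, y ∉ P → y ∉ R → An u y ∧ u (ι y) = -u y := fun y hy hR =>
    ⟨(an_prod fun r _ => (h.an y hy).sub (an_const _)).mul
      ((hw y).div_D (h.an y hy) (h.der y hy hR)), by
      simp only [u]
      rw [f_iota h hy, hO Y f P R ι h w hw y hy hR, mul_neg]⟩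
  obtain ⟨G, -, hG⟩ := hD Y f P R ι (fun y => u y ^ 2) (2 * R.card) h
    (fun y hy hR => ⟨(hu y hy hR).1.pow 2, by rw [(hu y hy hR).2, neg_sq]⟩)
    (fun r hr => ⟨1, by
      have h1 := ((tendsto_ram h hw hr).pow 2).norm
      rw [zero_pow two_ne_zero, norm_zero] at h1
      exact h1.eventually_le_const zero_lt_one⟩)
    (fun p hp => ⟨(2 ^ R.card) ^ 2, by
      have h1 := (tendsto_pole h hw hp).norm
      rw [norm_zero] at h1
      have h2 : ∀ᶠ y in 𝓝[≠] p, ∀ r ∈ R, ‖f r‖ ≤ ‖f y‖ :=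
        (eventually_all_finset R).2 fun r _ =>
          (tendsto_norm_atTop_iff_cobounded.2 (h.pole p hp)).eventually_ge_atTop _
      filter_upwards [h1.eventually_le_const zero_lt_one, h2] with y h3 h4
      have h5 : ‖∏ r ∈ R, (f y - f r)‖ ≤ (2 * ‖f y‖) ^ R.card := by
        rw [norm_prod, ← Finset.prod_const]
        refine Finset.prod_le_prod (fun r _ => norm_nonneg _) fun r hr => ?_
        linarith [norm_sub_le (f y) (f r), h4 r hr]
      have h6 : ‖u y‖ ≤ 2 ^ R.card * ‖f y‖ ^ R.card := by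
        rw [← mul_pow, norm_mul]
        exact (mul_le_of_le_one_right (norm_nonneg _) h3).trans h5
      rw [norm_pow, mul_comm 2, pow_mul, ← mul_pow]
      exact pow_le_pow_left₀ (norm_nonneg _) h6 2⟩)
  have hG0 : G ≠ 0 := by
    rintro rfl
    refine hw0 (om_eq_zero_of_finite hw (P.finite_toSet.union R.finite_toSet) fun y hy => ?_)
    rw [mem_union, not_or] at hy
    have h1 := hG y hy.1 hy.2
    rw [eval_zero, pow_eq_zero_iff two_ne_zero] at h1
    have h2 : ∏ r ∈ R, (f y - f r) ≠ 0 := Finset.prod_ne_zero_iff.2 fun r hr =>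
      sub_ne_zero.2 fun e => hy.2 (eq_of_f_eq h hr hy.1 e ▸ hr)
    exact (div_eq_zero_iff.1 ((mul_eq_zero.1 h1).resolve_left h2)).resolve_right
      (h.der y hy.1 hy.2)
  obtain ⟨W₀, hW₀⟩ := extend h hc R.finite_toSet h.disj (fun y hy hR => ((hι y hy).2.2 hR).1)
    (u := u) (G := G) fun y hy hR => ⟨(hu y hy hR).1, hG y hy hR, (hu y hy hR).2⟩
  obtain ⟨G', W, h1, h2, h3⟩ := reduce h hc _ G W₀ le_rfl hG0 hW₀
  obtain ⟨s, hs2⟩ := IsAlgClosed.exists_pow_nat_eq G'.leadingCoeff two_pos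
  have h4 : G'.leadingCoeff ≠ 0 := leadingCoeff_ne_zero.2 h1
  have h5 : s ≠ 0 := fun e => h4 (by rw [← hs2, e, zero_pow two_ne_zero])
  refine ⟨fun y => W y / s, fun y hy => ⟨(h2 y hy).1.div (an_const s) h5, ?_, ?_⟩⟩
  · rw [div_pow, (h2 y hy).2.1, factor h hs h1 h2 h3, hs2, mul_div_cancel_left₀ _ h4]
  · simp only [(h2 y hy).2.2, neg_div]

end Pool.Agent.P.MP_5d7cf0_gt.T
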