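import Pool.Agent.P.MP_5d7cf0_gt.T.RS

/-!
Statements of the packages for the existence of a surface of genus two.
-/

open Set Filter Topology Manifold
open scoped ContDiff

namespace Pool.Agent.P.MP_5d7cf0_gt.T

def S_Curve : Prop :=
  ∃ (Y : Type) (_ : TopologicalSpace Y) (_ : ChartedSpace ℂ Y) (_ : RS Y) (f W : Y → ℂ) (p : Y)
    (R : Finset Y) (ι : Y → Y), Two f {p} R ι ∧ R.card = 5 ∧
      ∀ y, y ≠ p → An W y ∧ W y ^ 2 = ∏ r ∈ R, (f y - f r) ∧ W (ι y) = -W y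

def S_Dim2 : Prop :=
  ∀ (Y : Type) [TopologicalSpace Y] [ChartedSpace ℂ Y] [RS Y] (f W : Y → ℂ) (p : Y) (R : Finset Y)
    (ι : Y → Y), Two f {p} R ι → R.card = 5 →
    (∀ y, y ≠ p → An W y ∧ W y ^ 2 = ∏ r ∈ R, (f y - f r) ∧ W (ι y) = -W y) →
    Module.finrank ℂ (Om Y) = 2

def S_Gen2 : Prop :=
  ∀ (Y : Type) [TopologicalSpace Y] [ChartedSpace ℂ Y] [RS Y] (y : Y),
    FiniteDimensional ℂ (Om Y) → Module.finrank ℂ (H1 Y y) = 2 * Module.finrank ℂ (Om Y)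

end Pool.Agent.P.MP_5d7cf0_gt.T
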