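import Mathlib

/-!
Definitions used in the statement for MP_5d7cf0_gt: marked Riemann surfaces, Teichmueller space,
the action of mapping classes, holomorphic families, and Riemannian notions in charts.
-/

open Set Filter Topology MeasureTheory Bundle Manifold
open scoped ContDiff ENNReal unitInterval

noncomputable section

namespace Pool.Agent.P.MP_5d7cf0_gt.T

/-- The closed curve `γ` in `ℂ \ {0}` winds `n` times around `0`. -/
def Wind (γ : I → ℂ) (n : ℤ) : Prop :=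
  ∃ L : C(I, ℂ), (∀ t, Complex.exp (L t) = γ t) ∧ L 1 = L 0 + n * (2 * Real.pi * Complex.I)

/-- The map `f` preserves orientation: near every point `p` it keeps the winding numbers of loops
around `p`, read in the charts at `p` and at `f p`. -/
def OrPres {S Y : Type} [TopologicalSpace S] [ChartedSpace ℂ S] [TopologicalSpace Y]
    [ChartedSpace ℂ Y] (f : S → Y) : Prop :=
  ∀ p, ∃ U ∈ 𝓝 p, ∀ γ : C(I, S), (∀ t, γ t ∈ U) → ∀ n,
    Wind (fun t => chartAt ℂ p (γ t) - chartAt ℂ p p) n →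
    Wind (fun t => chartAt ℂ (f p) (f (γ t)) - chartAt ℂ (f p) (f p)) n

theorem OrPres.comp {S Y Z : Type} [TopologicalSpace S] [ChartedSpace ℂ S] [TopologicalSpace Y]
    [ChartedSpace ℂ Y] [TopologicalSpace Z] [ChartedSpace ℂ Z] {f : S → Y} {g : Y → Z}
    (hg : OrPres g) (hf : OrPres f) (hc : Continuous f) : OrPres (g ∘ f) := fun p => by
  obtain ⟨U, hU, h⟩ := hf p
  obtain ⟨V, hV, h'⟩ := hg (f p)
  exact ⟨U ∩ f ⁻¹' V, inter_mem hU (hc.continuousAt hV), fun γ hγ n hn =>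
    h' (ContinuousMap.comp ⟨f, hc⟩ γ) (fun t => (hγ t).2) n (h γ (fun t => (hγ t).1) n hn)⟩

section Teich

variable (S : Type) [TopologicalSpace S] [ChartedSpace ℂ S]

/-- A Riemann surface `Y` marked by `S`: an orientation-preserving homeomorphism `f : S → Y`. -/
structure Marked where
  Y : Type
  [top : TopologicalSpace Y]
  [chart : ChartedSpace ℂ Y]
  [man : IsManifold 𝓘(ℂ) ω Y]
  f : S ≃ₜ Y
  or : OrPres f

attribute [instance] Marked.top Marked.chart Marked.man

/-- Two marked surfaces are equivalent if there is a biholomorphism `h` with `h ∘ f` homotopic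
to `f'`. -/
def Eqv (M N : Marked S) : Prop :=
  ∃ h : M.Y ≃ₜ N.Y, MDifferentiable 𝓘(ℂ) 𝓘(ℂ) h ∧ MDifferentiable 𝓘(ℂ) 𝓘(ℂ) h.symm ∧
    ContinuousMap.Homotopic (M.f.trans h : C(S, N.Y)) (N.f : C(S, N.Y))

/-- Teichmueller space: marked Riemann surfaces up to equivalence. -/
def Teich : Type 1 := Quot (Eqv S)

/-- Orientation-preserving homeomorphisms of `S`; they represent the mapping classes. -/
def Homeo : Type := {φ : S ≃ₜ S // OrPres φ}

variable {S}

/-- Change of the marking. -/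
def remark (φ : Homeo S) (M : Marked S) : Marked S where
  Y := M.Y
  f := φ.1.trans M.f
  or := M.or.comp φ.2 φ.1.continuous

/-- The action on Teichmueller space by changing the marking. -/
def move (φ : Homeo S) : Teich S → Teich S :=
  Quot.map (remark φ) fun _ _ ⟨h, h1, h2, h3⟩ =>
    ⟨h, h1, h2, h3.comp (ContinuousMap.Homotopic.refl (φ.1 : C(S, S)))⟩

/-- The marked surfaces `m a`, `a ∈ V`, are the fibres of a holomorphic family over `V`: the space
`V × S` has a holomorphic atlas of charts over the base which is holomorphic on every fibre. -/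
def Family {F : Type} [NormedAddCommGroup F] [NormedSpace ℂ F] (V : Set F) (m : F → Marked S) :
    Prop :=
  ∃ 𝒜 : Set (OpenPartialHomeomorph (F × S) (F × ℂ)),
    (∀ a ∈ V, ∀ s, ∃ Φ ∈ 𝒜, (a, s) ∈ Φ.source) ∧ (∀ Φ ∈ 𝒜, ∀ p ∈ Φ.source, (Φ p).1 = p.1) ∧
    (∀ Φ ∈ 𝒜, ∀ Ψ ∈ 𝒜, DifferentiableOn ℂ (Φ.symm ≫ₕ Ψ) (Φ.symm ≫ₕ Ψ).source) ∧
    ∀ Φ ∈ 𝒜, ∀ a ∈ V, ∀ s, (a, s) ∈ Φ.source →
      MDifferentiableAt 𝓘(ℂ) 𝓘(ℂ) (fun y => (Φ (a, (m a).f.symm y)).2) ((m a).f s)

end Teich

section Riem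

variable {F : Type} [NormedAddCommGroup F] [NormedSpace ℝ F]

/-- The curvature tensor `R(u,v)w = ∇_u ∇_v w - ∇_v ∇_u w` of the Christoffel symbols `Γ`. -/
def Rm (Γ : F → F → F → F) (x u v w : F) : F :=
  fderiv ℝ (fun y => Γ y v w) x u - fderiv ℝ (fun y => Γ y u w) x v +
    Γ x u (Γ x v w) - Γ x v (Γ x u w)

/-- All sectional curvatures of the Levi-Civita connection of `g` on `V` lie in `[-a, 0]`.
Here `g x u v` is the value of the metric at `x` on the vectors `u`, `v`. -/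
def Pinched (g : F → F → F → ℝ) (V : Set F) (a : ℝ) : Prop :=
  ∃ Γ : F → F → F → F, ∀ x ∈ V,
    (∀ u v w, 2 * g x (Γ x u v) w = fderiv ℝ (fun y => g y v w) x u +
      fderiv ℝ (fun y => g y u w) x v - fderiv ℝ (fun y => g y u v) x w) ∧
    ∀ u v, LinearIndependent ℝ ![u, v] →
      g x (Rm Γ x u v v) u / (g x u u * g x v v - g x u v ^ 2) ∈ Icc (-a) 0

variable {T : Type 1} [TopologicalSpace T] [ChartedSpace F T]
  [RiemannianBundle fun t : T => TangentSpace 𝓘(ℝ, F) t]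

/-- The Riemannian inner product of two tangent vectors. -/
def ip (t : T) (u v : TangentSpace 𝓘(ℝ, F) t) : ℝ := inner ℝ u v

/-- The Riemannian metric read in the chart `e`. -/
def inChart (e : OpenPartialHomeomorph T F) (x u v : F) : ℝ :=
  ip (e.symm x) (mfderiv 𝓘(ℝ, F) 𝓘(ℝ, F) e.symm x u) (mfderiv 𝓘(ℝ, F) 𝓘(ℝ, F) e.symm x v)

/-- A smooth map that preserves the Riemannian inner products. -/
def Isom (A : T → T) : Prop :=
  ContMDiff 𝓘(ℝ, F) 𝓘(ℝ, F) ∞ A ∧ ∀ t u v,
    ip (A t) (mfderiv 𝓘(ℝ, F) 𝓘(ℝ, F) A t u) (mfderiv 𝓘(ℝ, F) 𝓘(ℝ, F) A t v) = ip t u v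

end Riem

/-- The Riemannian volume of `A`: the integral of `√(det g_ij)` for the basis `b`. -/
def volOn {F : Type} [MeasureSpace F] (b : Fin 3 × Fin 2 → F) (g : F → F → F → ℝ) (A : Set F) :
    ℝ≥0∞ :=
  ∫⁻ x in A, ENNReal.ofReal √(Matrix.of fun p q => g x (b p) (b q)).det

/-- The standard real basis `e_k`, `i e_k` of `ℂ³`. -/
def realBasis (p : Fin 3 × Fin 2) : Fin 3 → ℂ := Pi.single p.1 (![1, Complex.I] p.2)

/-- Teichmueller space, with the smooth structure whose inverse charts classify holomorphic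
families, carries a smooth Riemannian metric which is complete, invariant under all changes of the
marking, of finite covolume, and has all sectional curvatures in `[-a, 0]` for some `a > 0`. -/
def Admits (S : Type) [TopologicalSpace S] [ChartedSpace ℂ S] (F : Type) [NormedAddCommGroup F]
    [NormedSpace ℝ F] [NormedSpace ℂ F] [MeasureSpace F] (b : Fin 3 × Fin 2 → F) : Prop :=
  ∃ (_ : EMetricSpace (Teich S)) (_ : ChartedSpace F (Teich S))
    (_ : IsManifold 𝓘(ℝ, F) ∞ (Teich S))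
    (_ : RiemannianBundle fun t : Teich S => TangentSpace 𝓘(ℝ, F) t)
    (_ : IsContMDiffRiemannianBundle 𝓘(ℝ, F) ∞ F fun t : Teich S => TangentSpace 𝓘(ℝ, F) t)
    (_ : IsRiemannianManifold 𝓘(ℝ, F) (Teich S)),
    (∀ e ∈ atlas F (Teich S), ∃ m, Family e.target m ∧
      ∀ x ∈ e.target, e.symm x = Quot.mk _ (m x)) ∧
    CompleteSpace (Teich S) ∧ (∀ φ : Homeo S, Isom (F := F) (move φ)) ∧
    (∃ (e : ℕ → OpenPartialHomeomorph (Teich S) F) (A : ℕ → Set F),
      (∀ n, e n ∈ atlas F (Teich S) ∧ MeasurableSet (A n) ∧ A n ⊆ (e n).target) ∧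
      (∀ t, ∃ φ n, move φ t ∈ (e n).symm '' A n) ∧ ∑' n, volOn b (inChart (e n)) (A n) < ⊤) ∧
    ∃ a : ℝ, 0 < a ∧ ∀ e ∈ atlas F (Teich S), Pinched (inChart e) e.target a

end Pool.Agent.P.MP_5d7cf0_gt.T
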