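import Pool.Agent.P.MP_5d7cf0_gt.T.RS

/-!
Functions of degree two.
-/

open Set Filter Topology Manifold Metric
open scoped ContDiff

namespace Pool.Agent.P.MP_5d7cf0_gt.T

namespace TwoQ

variable {Y : Type} [TopologicalSpace Y] [ChartedSpace ℂ Y] [RS Y] {f : Y → ℂ} {P R : Finset Y}
  {ι : Y → Y}

theorem nc (h : ∀ y, y ∉ P → An f y) {p : Y} (ht : Tendsto f (𝓝[≠] p) (Bornology.cobounded ℂ))
    (y : Y) : ¬∀ᶠ y' in 𝓝 y, f y' = f y := fun h0 =>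
  not_const_of_pole (P := (P : Set Y)) P.finite_toSet h ht y (f y) (h0.filter_mono nhdsWithin_le_nhds)

theorem ev_not {y : Y} (hy : y ∉ P) : ∀ᶠ y' in 𝓝 y, y' ∉ P :=
  eventually_notMem' (Z := (P : Set Y)) P.finite_toSet hy

/-- the orders of the points of a fibre add up to at most the generic number of preimages -/
theorem sum_le {c : ℂ} {k : ℕ} (S : Finset Y) (hS : ∀ y ∈ S, y ∉ P) (n : Y → ℕ)
    (hn : ∀ y ∈ S, ∀ U ∈ 𝓝 y, ∀ᶠ c' in 𝓝[≠] c,
      ∃ s : Finset Y, s.card = n y ∧ ∀ y' ∈ s, y' ∈ U ∧ f y' = c')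
    (hk : ∀ᶠ c' in 𝓝[≠] c, ∀ s : Finset Y, (∀ y ∈ s, y ∉ P ∧ f y = c') → s.card ≤ k) :
    ∑ y ∈ S, n y ≤ k := by
  classical
  obtain ⟨U, hU, hd⟩ := S.finite_toSet.t2_separation
  have h1 := (eventually_all_finset S).2 fun y hy => hn y hy (U y ∩ {y' | y' ∉ P})
    (inter_mem ((hU y).2.mem_nhds (hU y).1) (ev_not (hS y hy)))
  obtain ⟨c', h2, h3⟩ := (h1.and hk).exists
  choose! s hs hs' using h2
  rw [← Finset.sum_congr rfl hs, ← Finset.card_biUnion]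
  · refine h3 _ fun y hy => ?_
    obtain ⟨z, hz, hy⟩ := Finset.mem_biUnion.1 hy
    exact ⟨(hs' z hz y hy).1.2, (hs' z hz y hy).2⟩
  · intro a ha b hb hab
    exact Finset.disjoint_left.2 fun y h4 h5 =>
      Set.disjoint_left.1 (hd ha hb hab) (hs' a ha y h4).1.1 (hs' b hb y h5).1.1

theorem ord (h : ∀ y, y ∉ P → An f y) {p : Y}
    (ht : Tendsto f (𝓝[≠] p) (Bornology.cobounded ℂ)) : ∃ n : Y → ℕ, ∀ y, y ∉ P → 1 ≤ n y ∧
      (D f y = 0 ↔ 2 ≤ n y) ∧ ∀ U ∈ 𝓝 y, ∀ᶠ c' in 𝓝[≠] (f y),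
        ∃ s : Finset Y, s.card = n y ∧ ∀ y' ∈ s, y' ∈ U ∧ f y' = c' := by
  have : ∀ y, y ∉ P → ∃ n : ℕ, 1 ≤ n ∧ (D f y = 0 ↔ 2 ≤ n) ∧ ∀ U ∈ 𝓝 y, ∀ᶠ c' in 𝓝[≠] (f y),
      ∃ s : Finset Y, s.card = n ∧ ∀ y' ∈ s, y' ∈ U ∧ f y' = c' := fun y hy => by
    obtain ⟨n, ψ, h1, h2, h3, h4, h5⟩ := (h y hy).nf (nc h ht y)
    exact ⟨n, h1, nf_D h1 h2 h3 h4 h5, fun U hU => nf_preimages h1 h2 h3 h4 h5 hU⟩
  choose! n hn using this
  exact ⟨n, hn⟩

theorem two_of (hne : P.Nonempty) (h : ∀ y, y ∉ P → An f y)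
    (ht : ∀ p ∈ P, Tendsto f (𝓝[≠] p) (Bornology.cobounded ℂ)) {C : Set ℂ} (hC : C.Finite)
    (h2 : ∀ c, c ∉ C → {y | y ∉ P ∧ f y = c}.ncard = 2) : ∃ R ι, Two f P R ι := by
  classical
  obtain ⟨p, hp⟩ := hne
  obtain ⟨n, hn⟩ := ord h (ht p hp)
  have hs : ∀ c (S : Finset Y), (∀ y ∈ S, y ∉ P ∧ f y = c) → ∑ y ∈ S, n y ≤ 2 := by
    intro c S hS
    refine sum_le (c := c) S (fun y hy => (hS y hy).1) n
      (fun y hy => (hS y hy).2 ▸ (hn y (hS y hy).1).2.2) ?_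
    filter_upwards [eventually_notMem hC c] with c' hc' s hs
    rw [← h2 c' hc', ← ncard_coe_finset]
    exact ncard_le_ncard hs (finite_of_ncard_ne_zero (by rw [h2 c' hc']; norm_num))
  have hA : ∀ y y', y ∉ P → y' ∉ P → y' ≠ y → f y' = f y → D f y ≠ 0 := by
    intro y y' hy hy' hne e h0
    have := hs (f y) {y', y} (by simp [hy, hy', e])
    rw [Finset.sum_pair hne] at this
    have := (hn y hy).2.1.1 h0
    have := (hn y' hy').1
    omega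
  have hB : ∀ y y' y'', y ∉ P → y' ∉ P → y'' ∉ P → y' ≠ y → y'' ≠ y → f y' = f y → f y'' = f y →
      y' = y'' := by
    intro y y' y'' hy hy' hy'' h1 h3 e e'
    by_contra h4
    have := hs (f y) {y'', y', y} (by simp [hy, hy', hy'', e, e'])
    rw [Finset.sum_insert (by simp [h3, Ne.symm h4]), Finset.sum_pair h1] at this
    have := (hn y hy).1
    have := (hn y' hy').1
    have := (hn y'' hy'').1
    omega
  have hD : ∀ y, y ∉ P → D f y ≠ 0 → ∃ y', y' ≠ y ∧ y' ∉ P ∧ f y' = f y := by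
    intro y hy h0
    by_contra hc
    obtain ⟨U, hU, hi⟩ := (h y hy).injOn h0
    have h3 := proper_fin (P := (P : Set Y)) h ht (f y) (U := U)
      (mem_nhdsSet_iff_forall.2 fun z hz => by
        have : z = y := by_contra fun h4 => hc ⟨z, h4, hz⟩
        exact this ▸ hU)
    obtain ⟨c', h4, h5⟩ :=
      ((h3.filter_mono nhdsWithin_le_nhds).and (eventually_notMem hC (f y))).exists
    obtain ⟨a, b, hab, e⟩ := ncard_eq_two.1 (h2 c' h5)
    have ha : a ∈ {y | y ∉ P ∧ f y = c'} := e ▸ mem_insert _ _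
    have hb : b ∈ {y | y ∉ P ∧ f y = c'} := e ▸ mem_insert_of_mem _ rfl
    exact hab (hi (h4 a ha.1 ha.2) (h4 b hb.1 hb.2) (ha.2.trans hb.2.symm))
  have hZ : {y | y ∉ P ∧ D f y = 0}.Finite := by
    refine Finite.of_finite_image (f := f) (hC.subset ?_) fun a ha b hb e =>
      by_contra fun h3 => hA b a hb.1 ha.1 h3 e hb.2
    rintro _ ⟨y, hy, rfl⟩
    by_contra hc
    obtain ⟨a, b, hab, e⟩ := ncard_eq_two.1 (h2 _ hc)
    have ha : a ∈ {z | z ∉ P ∧ f z = f y} := e ▸ mem_insert _ _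
    have hb : b ∈ {z | z ∉ P ∧ f z = f y} := e ▸ mem_insert_of_mem _ rfl
    by_cases h3 : a = y
    · exact hA y b hy.1 hb.1 (h3 ▸ Ne.symm hab) hb.2 hy.2
    · exact hA y a hy.1 ha.1 h3 ha.2 hy.2
  have hι : ∀ y, ∃ z, y ∉ P → z ∉ P ∧ f z = f y ∧ (z = y ↔ D f y = 0) := by
    intro y
    by_cases hy : y ∈ P
    · exact ⟨y, fun h3 => absurd hy h3⟩
    · by_cases h0 : D f y = 0
      · exact ⟨y, fun _ => ⟨hy, rfl, iff_of_true rfl h0⟩⟩
      · obtain ⟨z, h3, h4, h5⟩ := hD y hy h0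
        exact ⟨z, fun _ => ⟨h4, h5, iff_of_false h3 h0⟩⟩
  choose ι hι using hι
  refine ⟨hZ.toFinset, ι, h, ht, ⟨p, hp⟩, fun r hr => (hZ.mem_toFinset.1 hr).1,
    fun y hy hr h0 => hr (hZ.mem_toFinset.2 ⟨hy, h0⟩), fun y hy => (hι y hy).1,
    fun y hy y' hy' => ⟨fun e => ?_, ?_⟩, fun y hy => ?_⟩
  · refine or_iff_not_imp_left.2 fun h3 => ?_
    exact hB y y' (ι y) hy hy' (hι y hy).1 h3
      (fun h4 => hA y y' hy hy' h3 e ((hι y hy).2.2.1 h4)) e (hι y hy).2.1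
  · rintro (rfl | rfl)
    · rfl
    · exact (hι y hy).2.1
  · rw [(hι y hy).2.2, hZ.mem_toFinset]
    exact ⟨fun h3 => ⟨hy, h3⟩, fun h3 => h3.2⟩

omit [RS Y] in
theorem f_ι (h : Two f P R ι) {y : Y} (hy : y ∉ P) : f (ι y) = f y :=
  (h.fib y hy _ (h.mem y hy)).2 (Or.inr rfl)

theorem nc' (h : Two f P R ι) (y : Y) : ¬∀ᶠ y' in 𝓝 y, f y' = f y :=
  let ⟨p, hp⟩ := h.ne
  nc h.an (h.pole p hp) y

theorem surj (h : Two f P R ι) (c : ℂ) : ∃ y, y ∉ P ∧ f y = c := by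
  have h1 : IsClopen (f '' {y | y ∉ P}) := by
    refine ⟨isOpen_compl_iff.1 (isOpen_iff_mem_nhds.2 fun c hc => ?_),
      isOpen_iff_mem_nhds.2 ?_⟩
    · have := proper_fin (P := (P : Set Y)) h.an h.pole c (U := ∅)
        (mem_nhdsSet_iff_forall.2 fun z hz => absurd ⟨z, hz.1, hz.2⟩ hc)
      filter_upwards [this] with c' hc' ⟨y, hy, e⟩ using hc' y hy e
    · rintro _ ⟨y, hy, rfl⟩
      exact (h.an y hy).nhds_le_map (nc' h y) (image_mem_map (ev_not hy))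
  obtain ⟨p, _⟩ := h.ne
  obtain ⟨y, hy⟩ := (eventually_notMem (Z := (P : Set Y)) P.finite_toSet p).exists
  have : c ∈ f '' {y | y ∉ P} := (h1.eq_univ ⟨_, y, hy, rfl⟩).symm ▸ mem_univ c
  exact this

omit [RS Y] in
theorem invol (h : Two f P R ι) {y : Y} (hy : y ∉ P) : ι (ι y) = y := by
  rcases (h.fib _ (h.mem y hy) y hy).1 (f_ι h hy).symm with e | e
  · rw [← e, ← e]
  · exact e.symm

omit [RS Y] in
theorem not_R (h : Two f P R ι) {y : Y} (hy : y ∉ P) (hr : y ∉ R) : ι y ∉ R := fun h1 =>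
  hr ((h.fix y hy).1 (((h.fix _ (h.mem y hy)).2 h1).symm.trans (invol h hy)))

theorem near (h : Two f P R ι) {y : Y} (hy : y ∉ P) {U : Set Y} (h1 : U ∈ 𝓝 y)
    (h2 : U ∈ 𝓝 (ι y)) : ∀ᶠ y' in 𝓝 y, ι y' ∈ U := by
  have := proper_fin (P := (P : Set Y)) h.an h.pole (f y) (U := U)
    (mem_nhdsSet_iff_forall.2 fun z hz => by
      rcases (h.fib y hy z hz.1).1 hz.2 with rfl | rfl
      exacts [h1, h2])
  filter_upwards [(h.an y hy).continuousAt.eventually this, ev_not hy] with y' h3 h4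
  exact h3 _ (h.mem y' h4) (f_ι h h4)

theorem cont (h : Two f P R ι) {y : Y} (hy : y ∉ P) : ContinuousAt ι y := fun U hU => by
  by_cases hr : y ∈ R
  · exact near h hy ((h.fix y hy).2 hr ▸ hU) hU
  · obtain ⟨V, hV, hi⟩ := (h.an y hy).injOn (h.der y hy hr)
    have := near h hy (U := U ∪ V) (mem_of_superset hV subset_union_right)
      (mem_of_superset hU subset_union_left)
    rw [mem_map]
    filter_upwards [this, hV, ev_not hy, ev_not hr] with y' h1 h2 h3 h4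
    exact h1.resolve_right fun h5 => h4 ((h.fix y' h3).1 (hi h5 h2 (f_ι h h3)))

theorem ram (h : Two f P R ι) {r : Y} (hr : r ∈ R) : D f r = 0 ∧
    ∃ ψ, An ψ r ∧ ψ r = 0 ∧ D ψ r ≠ 0 ∧ ∀ᶠ y in 𝓝 r, f y = f r + ψ y ^ 2 := by
  classical
  have hP := h.disj r hr
  have h0 : D f r = 0 := by
    by_contra h0
    obtain ⟨V, hV, hi⟩ := (h.an r hP).injOn h0
    have h1 := near h hP hV (((h.fix r hP).2 hr).symm ▸ hV)
    obtain ⟨y, ⟨⟨h2, h3⟩, h4⟩, h5⟩ := ((((h1.and hV).and (ev_not hP)).filter_mono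
      nhdsWithin_le_nhds).and (eventually_notMem (Z := (R : Set Y)) R.finite_toSet r)).exists
    exact h5 ((h.fix y h4).1 (hi h2 h3 (f_ι h h4)))
  obtain ⟨n, ψ, h1, h2, h3, h4, h5⟩ := (h.an r hP).nf (nc' h r)
  have h6 := (nf_D h1 h2 h3 h4 h5).1 h0
  obtain ⟨c, s, hs, hc⟩ := (nf_preimages h1 h2 h3 h4 h5 (ev_not hP)).exists
  obtain ⟨y, hy, e⟩ := surj h c
  have h7 : s ⊆ {y, ι y} := fun z hz => by
    simpa using (h.fib y hy z (hc z hz).1).1 ((hc z hz).2.trans e.symm)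
  have h8 := (Finset.card_le_card h7).trans Finset.card_le_two
  obtain rfl : n = 2 := by omega
  exact ⟨h0, ψ, h2, h3, h4, h5⟩

end TwoQ

open TwoQ in
theorem two (hD : S_Deg) : S_Two := by
  classical
  intro Y _ _ _ p q f hpq h hp hq
  have h1 : ∀ y, y ∉ ({p, q} : Finset Y) → An f y := fun y hy => by
    rw [Finset.mem_insert, Finset.mem_singleton, not_or] at hy
    exact h y hy.1 hy.2
  have h2 : ∀ y ∈ ({p, q} : Finset Y), SP f y := fun y hy => by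
    rw [Finset.mem_insert, Finset.mem_singleton] at hy
    rcases hy with rfl | rfl
    exacts [hp, hq]
  obtain ⟨C, hC, h3⟩ := hD Y f {p, q} ⟨p, Finset.mem_insert_self _ _⟩ h1 h2
  rw [Finset.card_pair hpq] at h3
  exact two_of ⟨p, Finset.mem_insert_self _ _⟩ h1 (fun y hy => (h2 y hy).tendsto) hC h3

open TwoQ in
theorem iota : S_Iota := by
  intro Y _ _ _ f P R ι h
  refine ⟨surj h, fun c U hU => proper_fin (P := (P : Set Y)) h.an h.pole c hU,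
    fun U hU => proper_inf (P := (P : Set Y)) h.an hU,
    fun y hy => ⟨invol h hy, cont h hy, fun hr => ⟨not_R h hy hr, ?_⟩⟩, fun r hr => ram h hr⟩
  refine hol_of_local (cont h hy) (h.an _ (h.mem y hy)) (h.der _ (h.mem y hy) (not_R h hy hr))
    ((h.an y hy).congr ?_)
  filter_upwards [ev_not hy] with y' h1 using (f_ι h h1).symm

end Pool.Agent.P.MP_5d7cf0_gt.T
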